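import Pool.Agent.H17L.ResD
import Pool.Agent.EG.Bad

/-!
# H17L BadL: the set of the bad values (proof of helper17, formalised by helper35)

`B = B₀ ∪ {c | ∃ x ∈ X, u x - c ∈ Λ ∧ ¬ RU X Λ u x 0} ∪ {c | ∃ x ∈ D, u x - c ∈ Λ ∧ ¬ TrV X D Λ u x}`.  Invariance is clear.  By `Pool.Agent.EG.separated` it is enough that every `c` has a neighbourhood without other points of `B`.  For `B₀`: `hsep`.  For the second set: otherwise there are `c_n → c`, `c_n ≠ c`, `x_n ∈ X` with `u (x_n) - c_n ∈ Λ`, `¬ RU X Λ u (x_n) 0`; we may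
take `‖x_n‖ = 1` (`RU.pr`, `tor.smul`), and after passing to a subsequence `x_n → x`, `x ∈ X` (`X` closed outside `0`, `‖x‖ = 1`; `V` is finite dimensional).  With a local lift `v` of `u` at `x` (`tor.loc`): `v (x_n) - c_n ∈ Λ`, `v (x_n) → v x`, so (discreteness) `v (x_n) - c_n = λ` is constant for large `n` and `v x - c = λ`, so `u x - c ∈ Λ`.
`exists_ru`, `RU.near` at `x`: for large `n` `Pr (x_n) x`, so `u (x_n) - u x ∈ Λ`, so `c_n - c ∈ Λ`, tends to `0`: `c_n = c`.  Contradiction.  Third set: the same with `D` (closed in `X`: `CurveD.closed`), `TrV.near`, and `TrV` is invariant under scaling (chart `c • σ`).  A formulation with filters or ultrafilters may be shorter than sequences.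
-/

set_option autoImplicit false

open Topology Filter

namespace Pool.Agent.H17L

open Pool.Agent.H17BP (Surface IsChart Tan Pr HolP ResN)
open Pool.Agent.H62.EF (Lat)
open Pool.Agent.H17N (TMap LU RU TF NonConst ThinF FibB HSec)

variable {V : Type} [NormedAddCommGroup V] [NormedSpace ℂ V] [FiniteDimensional ℂ V] {X D : Set V} {Λ : AddSubgroup ℂ} {u : V → ℂ}

omit [FiniteDimensional ℂ V] in
private theorem badL_pr (hu : TMap X Λ u) {x y : V} (hy : y ∈ X) (h : Pr x y) : u x - u y ∈ Λ := by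
  obtain ⟨c, hc, rfl⟩ := h
  exact hu.smul y hy c hc

/-- near every complex number there is no other point of a uniformly separated set -/
private theorem badL_sep {S : Set ℂ} {δ : ℝ} (hδ : 0 < δ) (hS : ∀ b ∈ S, ∀ b' ∈ S, b ≠ b' → δ ≤ ‖b - b'‖) (w : ℂ) :
    ∃ ε : ℝ, 0 < ε ∧ ∀ s ∈ S, ‖s - w‖ < ε → s = w := by
  by_cases h : ∃ s ∈ S, ‖s - w‖ < δ / 2
  · obtain ⟨s, hs, hsw⟩ := h
    have key : ∀ t ∈ S, ‖t - w‖ < δ / 2 → t = s := by
      intro t ht htw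
      by_contra hne
      have h1 := hS t ht s hs hne
      have h2 : ‖t - s‖ ≤ ‖t - w‖ + ‖s - w‖ := by
        have h3 : t - s = (t - w) - (s - w) := by ring
        rw [h3]
        exact norm_sub_le _ _
      linarith
    by_cases hsw' : s = w
    · exact ⟨δ / 2, by positivity, fun t ht h1 => (key t ht h1).trans hsw'⟩
    · have hpos : 0 < ‖s - w‖ := norm_pos_iff.2 (sub_ne_zero.2 hsw')
      refine ⟨‖s - w‖, hpos, fun t ht h1 => ?_⟩
      have h2 := key t ht (h1.trans hsw)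
      rw [h2] at h1
      exact absurd h1 (lt_irrefl _)
  · push Not at h
    exact ⟨δ / 2, by positivity, fun t ht h1 => absurd h1 (not_lt.2 (h t ht))⟩

private theorem badL_lat {δ : ℝ} (h : ∀ l ∈ Λ, ‖l‖ < δ → l = 0) : ∀ b ∈ (Λ : Set ℂ), ∀ b' ∈ (Λ : Set ℂ), b ≠ b' → δ ≤ ‖b - b'‖ := by
  intro b hb b' hb' hne
  by_contra h1
  exact hne (sub_eq_zero.1 (h _ (Λ.sub_mem hb hb') (not_le.1 h1)))

/-- the bad values of a closed cone are isolated, if the bad points are isolated in the projective space -/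
private theorem badL_iso (hΛ : Lat Λ) (hu : TMap X Λ u) {Y : Set V} (hYX : Y ⊆ X) (hY0 : (0 : V) ∉ Y) (hYs : ∀ x ∈ Y, ∀ c : ℂ, c ≠ 0 → c • x ∈ Y)
    (hYc : ∀ x ∈ closure Y, x ≠ 0 → x ∈ Y) {P : V → Prop} (hP : ∀ x ∈ Y, ∀ c : ℂ, c ≠ 0 → P (c • x) → P x)
    (hn : ∀ x ∈ Y, ∀ᶠ y in 𝓝 x, y ∈ Y → ¬ Pr y x → P y) (c : ℂ) :
    ∃ ε : ℝ, 0 < ε ∧ ∀ c' : ℂ, (∃ x ∈ Y, u x - c' ∈ Λ ∧ ¬ P x) → ‖c' - c‖ < ε → c' = c := by
  obtain ⟨δ, hδ, hdis⟩ := hΛ.discrete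
  have : ProperSpace V := FiniteDimensional.proper ℂ V
  have hK : IsCompact (closure Y ∩ Metric.sphere (0 : V) 1) := (isCompact_sphere (0 : V) 1).inter_left isClosed_closure
  have hev : ∀ᶠ c' in 𝓝 c, ∀ z ∈ closure Y ∩ Metric.sphere (0 : V) 1, z ∈ Y → u z - c' ∈ Λ → ¬ P z → c' = c := by
    refine hK.eventually_forall_of_forall_eventually (P := fun c' z => z ∈ Y → u z - c' ∈ Λ → ¬ P z → c' = c) ?_
    intro y hy
    have hy0 : y ≠ 0 := by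
      have h1 := hy.2
      rw [mem_sphere_zero_iff_norm] at h1
      intro h2
      rw [h2, norm_zero] at h1
      exact zero_ne_one h1
    have hyY : y ∈ Y := hYc y hy.1 hy0
    obtain ⟨v, hv, hvl⟩ := hu.loc y (hYX hyY)
    obtain ⟨ε, hε, hεw⟩ := badL_sep hδ (badL_lat hdis) (v y - c)
    have t1 : Tendsto (fun z : ℂ × V => z.1) (𝓝 (c, y)) (𝓝 c) := continuous_fst.tendsto _
    have t2 : Tendsto (fun z : ℂ × V => z.2) (𝓝 (c, y)) (𝓝 y) := continuous_snd.tendsto _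
    have t3 : Tendsto (fun z : ℂ × V => v z.2 - z.1) (𝓝 (c, y)) (𝓝 (v y - c)) := (hv.continuousAt.tendsto.comp t2).sub t1
    have e1 := t3.eventually (Metric.ball_mem_nhds (v y - c) hε)
    have e2 := t1.eventually (Metric.ball_mem_nhds c hδ)
    filter_upwards [e1, e2, t2.eventually hvl, t2.eventually (hn y hyY)] with z h1 h2 h3 h4 hzY hzc hzP
    have h5 : u z.2 - v z.2 ∈ Λ := h3 (hYX hzY)
    have h6 : v z.2 - z.1 ∈ Λ := by
      have h7 := Λ.sub_mem hzc h5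
      have h8 : u z.2 - z.1 - (u z.2 - v z.2) = v z.2 - z.1 := by ring
      rwa [h8] at h7
    have h7 : v z.2 - z.1 = v y - c := hεw _ h6 (by rwa [dist_eq_norm] at h1)
    have h8 : u y - c ∈ Λ := by
      have h9 := Λ.add_mem (hvl.self_of_nhds (hYX hyY)) (h7 ▸ h6)
      have h10 : u y - v y + (v y - c) = u y - c := by ring
      rwa [h10] at h9
    have h9 : Pr z.2 y := by
      by_contra h10
      exact hzP (h4 hzY h10)
    have h10 := badL_pr hu (hYX hyY) h9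
    have h11 : z.1 - c ∈ Λ := by
      have h12 := Λ.sub_mem (Λ.add_mem h10 h8) hzc
      have h13 : u z.2 - u y + (u y - c) - (u z.2 - z.1) = z.1 - c := by ring
      rwa [h13] at h12
    exact sub_eq_zero.1 (hdis _ h11 (by rwa [dist_eq_norm] at h2))
  obtain ⟨ε, hε, hball⟩ := Metric.eventually_nhds_iff.1 hev
  refine ⟨ε, hε, fun c' hc' hcc => ?_⟩
  obtain ⟨x, hx, hxc, hxP⟩ := hc'
  have hx0 : x ≠ 0 := fun h => hY0 (h ▸ hx)
  have hnx : ((‖x‖ : ℝ) : ℂ) ≠ 0 := by exact_mod_cast (norm_ne_zero_iff.2 hx0)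
  have hne : ((‖x‖ : ℝ) : ℂ)⁻¹ ≠ 0 := inv_ne_zero hnx
  have hz : ((‖x‖ : ℝ) : ℂ)⁻¹ • x ∈ Y := hYs x hx _ hne
  have hnorm : ‖((‖x‖ : ℝ) : ℂ)⁻¹ • x‖ = 1 := by
    rw [norm_smul, norm_inv, Complex.norm_real, norm_norm, inv_mul_cancel₀ (norm_ne_zero_iff.2 hx0)]
  refine hball (by rwa [dist_eq_norm]) _ ⟨subset_closure hz, by rw [mem_sphere_zero_iff_norm]; exact hnorm⟩ hz ?_ ?_
  · have h1 := Λ.add_mem (hu.smul x (hYX hx) _ hne) hxc
    have h2 : u (((‖x‖ : ℝ) : ℂ)⁻¹ • x) - u x + (u x - c') = u (((‖x‖ : ℝ) : ℂ)⁻¹ • x) - c' := by ring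
    rwa [h2] at h1
  · exact fun h => hxP (hP x hx _ hne h)

omit [FiniteDimensional ℂ V] in
private theorem badL_trv_scale (hX : Surface X) (hu : TMap X Λ u) (hD : CurveD X D Λ u) {x : V} {a : ℂ} (ha : a ≠ 0) (h : TrV X D Λ u (a • x)) :
    TrV X D Λ u x := by
  obtain ⟨σ, τ, g, hc, h0, hAD, hg, hd⟩ := h
  have hb : a⁻¹ ≠ 0 := inv_ne_zero ha
  refine ⟨fun p => a⁻¹ • σ p, fun y => τ (a⁻¹⁻¹ • y), g, hc.scale hX.smul hb, ?_, ?_, ⟨hg.1, hg.2.1, ?_⟩, hd⟩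
  · show a⁻¹ • σ 0 = x
    rw [h0, smul_smul, inv_mul_cancel₀ ha, one_smul]
  · filter_upwards [hAD] with p hp
    rw [← hp]
    constructor
    · intro h1
      have h2 := hD.smul _ h1 a ha
      rwa [smul_smul, mul_inv_cancel₀ ha, one_smul] at h2
    · intro h1
      exact hD.smul _ h1 _ hb
  · have hσ0 : σ 0 ∈ X := hc.σ_mem.self_of_nhds
    filter_upwards [hg.2.2, hc.σ_mem] with p hp1 hp2
    have h1 := hu.smul _ hp2 _ hb
    have h2 := hu.smul _ hσ0 _ hb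
    have h3 := Λ.add_mem (Λ.sub_mem h1 h2) hp1
    have h4 : u (a⁻¹ • σ p) - u (σ p) - (u (a⁻¹ • σ 0) - u (σ 0)) + (u (σ p) - u (σ 0) - g p) = u (a⁻¹ • σ p) - u (a⁻¹ • σ 0) - g p := by ring
    rwa [h4] at h3

theorem exists_badL (hΛ : Lat Λ) (hX : Surface X) (hu : TMap X Λ u) (hn : NonConst X Λ u) (hD : CurveD X D Λ u) {B₀ : Set ℂ}
    (hinv : ∀ b ∈ B₀, ∀ l ∈ Λ, b + l ∈ B₀) {δ₀ : ℝ} (hδ₀ : 0 < δ₀) (hsep : ∀ b ∈ B₀, ∀ b' ∈ B₀, b ≠ b' → δ₀ ≤ ‖b - b'‖) :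
    ∃ B : Set ℂ, B₀ ⊆ B ∧ (∀ b ∈ B, ∀ l ∈ Λ, b + l ∈ B) ∧ (∃ δ : ℝ, 0 < δ ∧ ∀ b ∈ B, ∀ b' ∈ B, b ≠ b' → δ ≤ ‖b - b'‖) ∧
      (∀ x ∈ X, (∀ b ∈ B, u x - b ∉ Λ) → RU X Λ u x 0) ∧ ∀ x ∈ D, (∀ b ∈ B, u x - b ∉ Λ) → TrV X D Λ u x := by
  have iso1 := badL_iso hΛ hu (Y := X) (P := fun x => RU X Λ u x 0) Set.Subset.rfl hX.zero hX.smul hX.closed
    (fun x _ c hc h => h.pr hX.smul hu ⟨c⁻¹, inv_ne_zero hc, by rw [smul_smul, inv_mul_cancel₀ hc, one_smul]⟩)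
    (fun x hx => by
      obtain ⟨n, hr⟩ := Pool.Agent.H17N.exists_ru hX hu hn hx
      exact hr.near hX.smul hu)
  have iso2 := badL_iso hΛ hu (Y := D) (P := fun x => TrV X D Λ u x) hD.sub (fun h => hX.zero (hD.sub h)) hD.smul
    (fun x hx hx0 => by
      have hxX : x ∈ X := hX.closed x (closure_mono hD.sub hx) hx0
      by_contra hxD
      exact (mem_closure_iff_frequently.1 hx) ((hD.closed x hxX hxD).mono fun y hy => hy))
    (fun x _ c hc h => badL_trv_scale hX hu hD hc h) (fun x hx => TrV.near hX hu hD hx)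
  set B : Set ℂ := {c | c ∈ B₀ ∨ (∃ x ∈ X, u x - c ∈ Λ ∧ ¬ RU X Λ u x 0) ∨ ∃ x ∈ D, u x - c ∈ Λ ∧ ¬ TrV X D Λ u x} with hB
  have hshift : ∀ x c l : ℂ, l ∈ Λ → x - c ∈ Λ → x - (c + l) ∈ Λ := by
    intro x c l hl hx
    have h1 := Λ.sub_mem hx hl
    have h2 : x - c - l = x - (c + l) := by ring
    rwa [h2] at h1
  have hBinv : ∀ b ∈ B, ∀ l ∈ Λ, b + l ∈ B := by
    rintro b (hb | ⟨x, hx, h1, h2⟩ | ⟨x, hx, h1, h2⟩) l hl
    · exact Or.inl (hinv b hb l hl)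
    · exact Or.inr (Or.inl ⟨x, hx, hshift _ _ _ hl h1, h2⟩)
    · exact Or.inr (Or.inr ⟨x, hx, hshift _ _ _ hl h1, h2⟩)
  refine ⟨B, fun b hb => Or.inl hb, hBinv, Pool.Agent.EG.separated hΛ hBinv fun c => ?_, ?_, ?_⟩
  · obtain ⟨ε₀, hε₀, h0⟩ := badL_sep hδ₀ hsep c
    obtain ⟨ε₁, hε₁, h1⟩ := iso1 c
    obtain ⟨ε₂, hε₂, h2⟩ := iso2 c
    refine ⟨min ε₀ (min ε₁ ε₂), lt_min hε₀ (lt_min hε₁ hε₂), ?_⟩
    rintro c' (hc | hc | hc) hlt
    · exact h0 c' hc (hlt.trans_le (min_le_left _ _))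
    · exact h1 c' hc (hlt.trans_le ((min_le_right _ _).trans (min_le_left _ _)))
    · exact h2 c' hc (hlt.trans_le ((min_le_right _ _).trans (min_le_right _ _)))
  · intro x hx hxb
    by_contra h
    refine hxb (u x) (Or.inr (Or.inl ⟨x, hx, ?_, h⟩)) ?_
    · rw [sub_self]
      exact Λ.zero_mem
    · rw [sub_self]
      exact Λ.zero_mem
  · intro x hx hxb
    by_contra h
    refine hxb (u x) (Or.inr (Or.inr ⟨x, hx, ?_, h⟩)) ?_
    · rw [sub_self]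
      exact Λ.zero_mem
    · rw [sub_self]
      exact Λ.zero_mem

end Pool.Agent.H17L
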