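import Pool.Agent.H17L.ResD

/-!
# H17L ResE: local equations of the union of a fibre and of `D` (second part: `rud_hor`, `trv_hor`)

Models: H17N/ResU.lean, H17N/ResV.lean (the same statements for `RU`), H17BP/ResS.lean, H17BP/ChLem.lean.

* `RUD.mono_le`: `ResN` is monotone in `n` (see `RU.mono_le`).
* `RUD.pr`: `y = c • x`: the chart `c • σ` (`IsChart.scale`), the same `g`, `G` (`hD.smul`, `hu.smul`).
* `exists_rud`: `x ∉ D`: chart at `x` (`hX.chart`), `g` by `exists_lu`, `G = g` (`σ p ∉ D` near `0` by `closed`), not `0` by `NonConst`, `exists_resN`.  `x ∈ D`: the adapted chart and `g` of `smooth`, `G = g * p.2`: not identically `0` near `0` (`g` is not `0` on `{t = 0}`, hence not on the open set `t ≠ 0` either: if `g p * p.2 = 0` near `0` then `g = 0` for `p.2 ≠ 0`, by continuity everywhere near `0`).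
* `rud_of_ru`: `x ∉ D`: the same chart, `G = g`.  `rud_of_trv`: `G = g * p.2`; `(g, p.2)` are coordinates (`coord_iff` in H17BP/Ift or H17BP/ChLem: the derivative of `g` in direction `(1, 0)` is not `0`), so `Mono G` with `a = b = 1`, unit `1`.
* `TrV.near`: adapted chart and `g` of `smooth` at `x`.  The function `s ↦ g (s, 0)` is analytic and not constant near `0` (`g 0 = 0`), so its derivative `fderiv ℂ g (s, 0) (1, 0)` does not vanish for `s ≠ 0` near `0`.  `y ∈ D` near `x`: `y = c • σ (τ y)`, `τ y = (s, 0)` (`AD`, `smul`), `s ≠ 0` because `y` is not a multiple of `x = σ 0`.  Chart at `y`: `c • σ ((s, 0) + ·)` (`IsChart.near`, `IsChart.scale`),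
  adapted, germ `g ((s, 0) + ·) - g (s, 0)`.
* `RUD.near`: chart `σ` with `g`, `G` at `x`; `y = c • σ p`, `p = τ y` near `0`, `p ≠ 0`.  If `y ∈ D`: `x ∈ D` (`closed`) and `TrV.near`, `rud_of_trv`.  If `y ∉ D` and `g p = 0`: the germ at `y` is `g (p + ·)`, and `G (p + ·)` is `Mono` by `ResN.near` (H17BP/FinG).  If `y ∉ D` and `g p ≠ 0`: `fderiv ℂ g p ≠ 0` (`H17N.crit_near`), `H17N.ru0_of_ne` (with `RU.pr` if necessary), `rud_of_ru`.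
* `ru_of_rud`: `n = 0`, `x ∉ D`: `{G = 0} = {g = 0}` near `0`, `mono_of_zero` (`g` is not `0` near `0` by `NonConst`).
* `rud_hor`: `x ∈ D`.  Let `σ₁, g₁` be the adapted chart and the germ of `smooth` at `x`, and `σ, g, G` those of `RUD`.  `IsChart.trans`: `Pr (σ₁ p) (σ (θ p))`, `θ` biholomorphic.  `g₁ = g ∘ θ` near `0` (`LU.unique` in H17N/BlowT, `hu.smul`, `hΛ`), `G₁ = G ∘ θ` is `Mono` (composition with a biholomorphic map: see `H17BP` `Mono.comp`/`ResN.comp` used in H17N/ResU), `G₁ p = 0 ↔ g₁ p = 0 ∨ σ₁ p ∈ D ↔ g₁ p = 0 ∨ p.2 = 0`.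
  `mono_hor` gives `θ₁`; the chart `σ₁ ∘ θ₁` (`IsChart.comp`) is adapted and `u (σ₁ (θ₁ p)) = u x + p.1 ^ i` modulo `Λ`.
* `trv_hor`: `η p = (g p, p.2)` is biholomorphic; the chart `σ ∘ η⁻¹`.
-/

set_option autoImplicit false

open Topology Filter

namespace Pool.Agent.H17L

open Pool.Agent.H17BP (Surface IsChart Tan Pr HolP ResN)
open Pool.Agent.H17N (TMap LU RU TF NonConst ThinF FibB HSec)

variable {V : Type} [NormedAddCommGroup V] [NormedSpace ℂ V] [FiniteDimensional ℂ V] {X D : Set V} {Λ : AddSubgroup ℂ} {u : V → ℂ} {x y : V} {n k : ℕ}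

theorem rud_hor (hΛ : ∃ δ : ℝ, 0 < δ ∧ ∀ l ∈ Λ, ‖l‖ < δ → l = 0) (hX : Surface X) (hu : TMap X Λ u) (hD : CurveD X D Λ u) (hx : x ∈ D)
    (h : RUD X D Λ u x 0) : ∃ (σ : ℂ × ℂ → V) (τ : V → ℂ × ℂ) (i : ℕ), IsChart X σ τ ∧ σ 0 = x ∧ AD D σ ∧ 1 ≤ i ∧
      ∀ᶠ p in 𝓝 (0 : ℂ × ℂ), u (σ p) - (u x + p.1 ^ i) ∈ Λ := by
  obtain ⟨σ₁, τ₁, g₁, hc₁, hx₁, hA₁, hg₁, hne₁⟩ := hD.smooth x hx
  obtain ⟨σ, τ, g, G, hc, hxs, hg, hG, hz, hr⟩ := h
  have h00 : Pr (σ₁ 0) (σ 0) := ⟨1, one_ne_zero, by rw [hx₁, hxs, one_smul]⟩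
  obtain ⟨θ, hθ, hev⟩ := IsChart.trans hX.smul hc hc₁ h00
  have hgθ : AnalyticAt ℂ (g ∘ θ) 0 := by
    have h1 : AnalyticAt ℂ g (θ 0) := by rw [hθ.zero]; exact hg.1
    exact h1.comp hθ.an
  have h1 : ∀ᶠ p in 𝓝 (0 : ℂ × ℂ), g₁ p = (g ∘ θ) p := by
    refine Pool.Agent.H17N.LU.unique (a := fun p => u (σ₁ p) - u (σ₁ 0)) hΛ hg₁.1 hgθ hg₁.2.1 ?_ hg₁.2.2 ?_
    · show g (θ 0) = 0
      rw [hθ.zero]
      exact hg.2.1
    · filter_upwards [hev, hθ.tendsto.eventually hg.2.2, hθ.tendsto.eventually hc.σ_mem] with p hp1 hp2 hp3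
      have h2 : u (σ₁ p) - u (σ (θ p)) ∈ Λ := by
        obtain ⟨c, hc0, hpc⟩ := hp1
        rw [hpc]
        exact hu.smul _ hp3 c hc0
      have h3 : u (σ₁ p) - u (σ₁ 0) - (g ∘ θ) p = (u (σ₁ p) - u (σ (θ p))) + (u (σ (θ p)) - u (σ 0) - g (θ p)) := by
        rw [hx₁, hxs]
        simp only [Function.comp_apply]
        ring
      rw [h3]
      exact Λ.add_mem h2 hp2
  have hM : Pool.Agent.H17BP.Mono (G ∘ θ) := Pool.Agent.H17BP.Mono.comp hr hθ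
  have h2 : ∀ᶠ p in 𝓝 (0 : ℂ × ℂ), (G ∘ θ) p = 0 ↔ (g₁ p = 0 ∨ p.2 = 0) := by
    filter_upwards [h1, hev, hθ.tendsto.eventually hz, hA₁] with p hp1 hp2 hp3 hp4
    have h3 : σ (θ p) ∈ D ↔ σ₁ p ∈ D := by
      obtain ⟨c, hc0, hpc⟩ := hp2
      constructor
      · intro h4
        rw [hpc]
        exact hD.smul _ h4 c hc0
      · intro h4
        have h5 : σ (θ p) = c⁻¹ • σ₁ p := by
          rw [hpc, smul_smul, inv_mul_cancel₀ hc0, one_smul]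
        rw [h5]
        exact hD.smul _ h4 _ (inv_ne_zero hc0)
    rw [← hp4, ← h3, hp1]
    exact hp3
  obtain ⟨θ₁, θ₁', i, hθ₁, hθ₁', h3, h4, hi, h5, h6⟩ := mono_hor hM hg₁.1 hg₁.2.1 hne₁ h2
  refine ⟨_, _, i, hc₁.comp hθ₁ hθ₁' h3 h4, ?_, ?_, hi, ?_⟩
  · show σ₁ (θ₁ 0) = x
    rw [hθ₁.zero, hx₁]
  · show ∀ᶠ p in 𝓝 (0 : ℂ × ℂ), σ₁ (θ₁ p) ∈ D ↔ p.2 = 0
    filter_upwards [hθ₁.tendsto.eventually hA₁, h5] with p hp1 hp2
    rw [hp1, hp2]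
  · filter_upwards [hθ₁.tendsto.eventually hg₁.2.2, h6] with p hp1 hp2
    rw [hx₁, hp2] at hp1
    have h7 : u (σ₁ (θ₁ p)) - (u x + p.1 ^ i) = u (σ₁ (θ₁ p)) - u x - p.1 ^ i := by ring
    rw [h7]
    exact hp1

theorem trv_hor (h : TrV X D Λ u x) : ∃ (σ : ℂ × ℂ → V) (τ : V → ℂ × ℂ), IsChart X σ τ ∧ σ 0 = x ∧ AD D σ ∧
    ∀ᶠ p in 𝓝 (0 : ℂ × ℂ), u (σ p) - (u x + p.1) ∈ Λ := by
  obtain ⟨σ, τ, g, hc, hx, hA, hg, hd⟩ := h
  have hS : AnalyticAt ℂ (fun x : ℂ × ℂ => x.2) 0 := analyticAt_snd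
  have f2 : fderiv ℂ (fun x : ℂ × ℂ => x.2) 0 = ContinuousLinearMap.snd ℂ ℂ ℂ := (hasFDerivAt_snd).fderiv
  have hC : Pool.Agent.H17BP.Coord g (fun x => x.2) := by
    refine (Pool.Agent.H17BP.coord_iff hg.1 hS hg.2.1 rfl).2 ?_
    have e1 : Pool.Agent.H17BP.dy (fun x : ℂ × ℂ => x.2) 0 = 1 := by simp [Pool.Agent.H17BP.dy, f2]
    have e2 : Pool.Agent.H17BP.dx (fun x : ℂ × ℂ => x.2) 0 = 0 := by simp [Pool.Agent.H17BP.dx, f2]
    rw [e1, e2, mul_zero, mul_one, sub_zero]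
    exact hd
  have hη : Pool.Agent.H17BP.Bihol fun x : ℂ × ℂ => (g x, x.2) := hC
  obtain ⟨θ', hθ', h1, h2⟩ := hη.exists_inv
  refine ⟨_, _, hc.comp hθ' hη h2 h1, ?_, ?_, ?_⟩
  · show σ (θ' 0) = x
    rw [hθ'.zero, hx]
  · show ∀ᶠ p in 𝓝 (0 : ℂ × ℂ), σ (θ' p) ∈ D ↔ p.2 = 0
    filter_upwards [hθ'.tendsto.eventually hA, h2] with p hp1 hp2
    have e1 : (θ' p).2 = p.2 := (Prod.ext_iff.1 hp2).2
    rw [hp1, e1]
  · filter_upwards [hθ'.tendsto.eventually hg.2.2, h2] with p hp1 hp2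
    have e1 : g (θ' p) = p.1 := (Prod.ext_iff.1 hp2).1
    rw [hx, e1] at hp1
    have h7 : u (σ (θ' p)) - (u x + p.1) = u (σ (θ' p)) - u x - p.1 := by ring
    rw [h7]
    exact hp1

end Pool.Agent.H17L
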