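import Pool.Agent.H17L.ResD
import Pool.Agent.H17L.ResE
import Pool.Agent.H17N.BaseA
import Pool.Agent.H18.LU.Base

/-!
# H17L BaseLA: transport to a Euclidean space, the geometric data

`L : V ≃L[ℂ] EN M`, `X' = L.symm ⁻¹' X`, `D' = L.symm ⁻¹' D`, `u' x = u (L.symm x)`.  Model: `edata` in H17N/BaseA.lean (copy; the fields `cone`, `charts`, `tor`, `lat`, `latΓ`, `le`, `bad`, `zero`).

* `D_sub`, `D_smul`, `D_closed`: from `CurveD` and continuity of `L.symm`.
* `hor`: `h.good` at `L.symm x` and `trv_hor`: `σ, τ`; the germ chart `L ∘ σ`, `τ ∘ L.symm` (`germ_transport`); `HorAt X' Λ u' D' x (u' x) 1`.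
* `horB`: `rud_hor` at `L.symm x`; `u' x - b ∈ Λ`, so `u (σ p) - (b + p.1 ^ i) ∈ Λ`.
* `nc`: `ru_of_rud`, then `H17N.ru0_nc` as in `edata`.
* `fib`: as in `edata`, from `FibB (X \ D) Λ u B`.
-/

set_option autoImplicit false

open Topology Filter

namespace Pool.Agent.H17L

open Pool.Agent.H17BP (Surface IsChart Tan Pr HolP ResN)
open Pool.Agent.H36.BP (EN isCone_transport germ_transport tan_transport)
open Pool.Agent.H62.EF (Lat exists_chart_of_germ)
open Pool.Agent.H62.EL (TForm Per VanZero Thin BadSet)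
open Pool.Agent.H18.LU (EBase LogP LSec)
open Pool.Agent.H17N (TMap LU RU TF NonConst ThinF FibB HSec)

variable {V : Type} [NormedAddCommGroup V] [NormedSpace ℂ V] [FiniteDimensional ℂ V] {X D : Set V} {Λ Γ : AddSubgroup ℂ} {u : V → ℂ}
  {B : Set ℂ} {α : ℂ → V → V → V → ℂ} {δ : ℝ} {M : ℕ}

omit [FiniteDimensional ℂ V] in
private theorem horAt_transport (L : V ≃L[ℂ] EN M) {x : EN M} {σ : ℂ × ℂ → V} {τ : V → ℂ × ℂ} {b : ℂ} {i : ℕ} (hc : IsChart X σ τ)
    (hσ0 : σ 0 = L.symm x) (hAD : AD D σ) (hu : ∀ᶠ p in 𝓝 (0 : ℂ × ℂ), u (σ p) - (b + p.1 ^ i) ∈ Λ) :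
    Pool.Agent.H18.LU.HorAt (L.symm ⁻¹' X : Set (EN M)) Λ (fun x => u (L.symm x)) (L.symm ⁻¹' D : Set (EN M)) x b i := by
  refine ⟨fun p => L (σ p), fun y => τ (L.symm y), germ_transport L hc, ?_, ?_, ?_⟩
  · show L (σ 0) = x
    rw [hσ0, ContinuousLinearEquiv.apply_symm_apply]
  · filter_upwards [hu] with p hp
    show u (L.symm (L (σ p))) - (b + p.1 ^ i) ∈ Λ
    rwa [ContinuousLinearEquiv.symm_apply_apply]
  · filter_upwards [hAD] with p hp
    show L.symm (L (σ p)) ∈ D ↔ p.2 = 0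
    rwa [ContinuousLinearEquiv.symm_apply_apply]

theorem ebase (L : V ≃L[ℂ] EN M) (hΛ : Lat Λ) (hΓ : Lat Γ) (hle : Γ ≤ Λ) (hbad : BadSet B Λ δ) (h0 : ∀ b ∈ B, 4 * δ ≤ ‖b‖)
    (h : DData X D Λ Γ u B α) (hr : ∀ x ∈ X, RUD X D Λ u x 0) :
    EBase (L.symm ⁻¹' X : Set (EN M)) (L.symm ⁻¹' D : Set (EN M)) Λ Γ (fun x => u (L.symm x)) B δ := by
  refine ⟨isCone_transport L h.surf, ?_, ?_, hΛ, hΓ, hle, hbad, h0, ?_, ?_, ?_, ?_, ?_, ?_, ?_⟩
  · intro x hx
    obtain ⟨σ, τ, hc, hx0⟩ := h.surf.chart (L.symm x) hx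
    have hg := germ_transport L hc
    obtain ⟨χ, h1, h2⟩ := exists_chart_of_germ (isCone_transport L h.surf) hg
    have h3 : L (σ 0) = x := by rw [hx0, ContinuousLinearEquiv.apply_symm_apply]
    rw [h3] at h1 h2
    exact ⟨χ, h1, h2⟩
  · constructor
    · intro x hx c hc
      have h1 := h.tor.smul (L.symm x) hx c hc
      show u (L.symm (c • x)) - u (L.symm x) ∈ Λ
      rw [map_smul]
      exact h1
    · intro x hx
      obtain ⟨v, hv, hv'⟩ := h.tor.loc (L.symm x) hx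
      refine ⟨fun y => v (L.symm y), ?_, ?_⟩
      · exact AnalyticAt.comp (g := v) (f := fun y : EN M => L.symm y) hv
          ((L.symm : EN M →L[ℂ] V).analyticAt x)
      · have h3 : Tendsto (fun y : EN M => L.symm y) (𝓝 x) (𝓝 (L.symm x)) := L.symm.continuous.tendsto x
        filter_upwards [h3.eventually hv'] with y hy hyX
        exact hy hyX
  · intro x hx
    exact h.curve.sub hx
  · intro x hx c hc
    show L.symm (c • x) ∈ D
    rw [map_smul]
    exact h.curve.smul _ hx c hc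
  · intro x hx hxD
    have h3 : Tendsto (fun y : EN M => L.symm y) (𝓝 x) (𝓝 (L.symm x)) := L.symm.continuous.tendsto x
    filter_upwards [h3.eventually (h.curve.closed (L.symm x) hx hxD)] with y hy hyD
    exact hy hyD
  · intro x hx hb
    obtain ⟨σ, τ, hc, hσ0, hAD, hu⟩ := trv_hor (h.good (L.symm x) hx hb)
    refine horAt_transport L hc hσ0 hAD ?_
    filter_upwards [hu] with p hp
    rw [pow_one]
    exact hp
  · intro b _ x hx hub
    obtain ⟨σ, τ, i, hc, hσ0, hAD, hi, hu⟩ := rud_hor ⟨_, hΛ.discrete.choose_spec⟩ h.surf h.tor h.curve (show L.symm x ∈ D from hx)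
      (hr (L.symm x) (h.curve.sub hx))
    refine ⟨i, hi, horAt_transport L hc hσ0 hAD ?_⟩
    filter_upwards [hu] with p hp
    have h1 := Λ.add_mem hp hub
    have h2 : u (σ p) - (u (L.symm x) + p.1 ^ i) + ((fun x => u (L.symm x)) x - b) = u (σ p) - (b + p.1 ^ i) := by
      show u (σ p) - (u (L.symm x) + p.1 ^ i) + (u (L.symm x) - b) = u (σ p) - (b + p.1 ^ i)
      ring
    rwa [h2] at h1
  · intro b _ x hx hxD hub
    obtain ⟨σ, τ, i, j, hc, hσ0, hij, hu⟩ :=
      Pool.Agent.H17N.ru0_nc (ru_of_rud h.surf h.nonconst h.curve hxD (hr (L.symm x) hx))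
    refine ⟨fun p => L (σ p), fun y => τ (L.symm y), i, j, germ_transport L hc, ?_, hij, ?_⟩
    · show L (σ 0) = x
      rw [hσ0, ContinuousLinearEquiv.apply_symm_apply]
    · filter_upwards [hu] with p hp
      show u (L.symm (L (σ p))) - (b + p.1 ^ i * p.2 ^ j) ∈ Λ
      rw [ContinuousLinearEquiv.symm_apply_apply]
      have h1 := Λ.add_mem hp hub
      have h3 : u (σ p) - (u (L.symm x) + p.1 ^ i * p.2 ^ j) + ((fun x => u (L.symm x)) x - b) =
          u (σ p) - (b + p.1 ^ i * p.2 ^ j) := by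
        show u (σ p) - (u (L.symm x) + p.1 ^ i * p.2 ^ j) + (u (L.symm x) - b) = u (σ p) - (b + p.1 ^ i * p.2 ^ j)
        ring
      rwa [h3] at h1
  · intro F hF hFX hFu hne
    refine h.fib (fun z => L.symm (F z)) (fun z => ?_) (fun z => ⟨(hFX z).1, (hFX z).2⟩) hFu ?_
    · refine ⟨fun z => L.symm (F z), ((L.symm : EN M →L[ℂ] V).analyticAt _).comp (hF.analyticAt z), ?_,
        Eventually.of_forall fun w => ⟨1, one_ne_zero, (one_smul _ _).symm⟩⟩
      intro h1
      have h2 : L.symm (F z) ∈ X := (hFX z).1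
      have h3 : L.symm (F z) = 0 := h1
      rw [h3] at h2
      exact h.surf.zero h2
    · obtain ⟨z, w, hzw⟩ := hne
      refine ⟨z, w, ?_⟩
      rintro ⟨c, -, hc⟩
      apply hzw c
      have h1 := congrArg L hc
      rwa [map_smul, ContinuousLinearEquiv.apply_symm_apply, ContinuousLinearEquiv.apply_symm_apply] at h1

end Pool.Agent.H17L
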