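import Pool.Agent.H17L.Defs
import Pool.Agent.H17N.BlowG

/-!
# H17L CfT: the coefficients of a form in two proportional parametrisations

This is the private theorem `blowG_trans` of H17N/BlowG.lean: copy it (with its auxiliary lemmas).
-/

set_option autoImplicit false

open Topology Filter

namespace Pool.Agent.H17L

open Pool.Agent.H17BP (Surface IsChart Tan Pr HolP ResN)
open Pool.Agent.H17N (TMap LU RU TF NonConst ThinF FibB HSec)

variable {V : Type} [NormedAddCommGroup V] [NormedSpace ℂ V] {X : Set V} {Λ : AddSubgroup ℂ} {u : V → ℂ} {α : ℂ → V → V → V → ℂ}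

private theorem cfT_tan_smul (hX : ∀ x ∈ X, ∀ c : ℂ, c ≠ 0 → c • x ∈ X) {x v : V} (hv : v ∈ Tan X x) {c : ℂ} (hc : c ≠ 0) :
    c • v ∈ Tan X (c • x) := by
  obtain ⟨γ, hγ, hmem, h0, hd⟩ := hv
  refine ⟨fun z => c • γ z, analyticAt_const.smul hγ, ?_, by show c • γ 0 = c • x; rw [h0], ?_⟩
  · filter_upwards [hmem] with z hz
    exact hX _ hz c hc
  · have h1 : HasDerivAt γ v 0 := by
      rw [← hd]; exact hγ.differentiableAt.hasDerivAt
    exact (h1.const_smul c).deriv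

/-- the coefficients of the form in two parametrisations which are proportional -/
theorem cf_trans (hX : ∀ x ∈ X, ∀ c : ℂ, c ≠ 0 → c • x ∈ X) (hα : TF X Λ u α) {φ ψ : ℂ × ℂ → V} {β : ℂ × ℂ → ℂ × ℂ} {p : ℂ × ℂ}
    (hφ : AnalyticAt ℂ φ p) (hβ : AnalyticAt ℂ β p) (hψ : AnalyticAt ℂ ψ (β p)) (hψX : ∀ᶠ y in 𝓝 (β p), ψ y ∈ X)
    (hne : ψ (β p) ≠ 0) (hpr : ∀ᶠ y in 𝓝 p, Pr (φ y) (ψ (β y))) {z : ℂ} (hz : u (φ p) - z ∈ Λ) (hz' : u (ψ (β p)) - z ∈ Λ) :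
    α z (φ p) (fderiv ℂ φ p (1, 0)) (fderiv ℂ φ p (0, 1)) =
      ((fderiv ℂ β p (1, 0)).1 * (fderiv ℂ β p (0, 1)).2 - (fderiv ℂ β p (1, 0)).2 * (fderiv ℂ β p (0, 1)).1) *
        α z (ψ (β p)) (fderiv ℂ ψ (β p) (1, 0)) (fderiv ℂ ψ (β p) (0, 1)) := by
  obtain ⟨M, hM⟩ := exists_dual_vector ℂ (ψ (β p)) (norm_ne_zero_iff.mpr hne)
  have hM0 : M (ψ (β p)) ≠ 0 := by
    rw [hM.2]
    simpa using hne
  have hψβ : AnalyticAt ℂ (fun y => ψ (β y)) p := AnalyticAt.comp (g := ψ) (f := β) hψ hβ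
  have hMψ : AnalyticAt ℂ (fun y => M (ψ (β y))) p := AnalyticAt.comp (M.analyticAt _) hψβ
  have hMφ : AnalyticAt ℂ (fun y => M (φ y)) p := AnalyticAt.comp (M.analyticAt _) hφ
  obtain ⟨k, hk⟩ : ∃ k : ℂ × ℂ → ℂ, k = fun y => M (φ y) / M (ψ (β y)) := ⟨_, rfl⟩
  have hka : AnalyticAt ℂ k p := by
    rw [hk]
    exact hMφ.div hMψ hM0
  have hkφ : ∀ᶠ y in 𝓝 p, φ y = k y • ψ (β y) := by
    filter_upwards [hpr, hMψ.continuousAt.eventually_ne hM0] with y h1 h2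
    obtain ⟨c, hc, h3⟩ := h1
    rw [hk]
    simp only
    rw [h3, map_smul, smul_eq_mul, mul_div_cancel_right₀ _ h2]
  have hkp := hkφ.self_of_nhds
  obtain ⟨c, hc, hcp⟩ := hpr.self_of_nhds
  have hk0 : k p ≠ 0 := by
    have h1 : (k p - c) • ψ (β p) = 0 := by
      rw [sub_smul, ← hkp, ← hcp, sub_self]
    rcases smul_eq_zero.1 h1 with h2 | h2
    · rw [sub_eq_zero.1 h2]; exact hc
    · exact absurd h2 hne
  have hxX : ψ (β p) ∈ X := hψX.self_of_nhds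
  have hφX : φ p ∈ X := by
    rw [hkp]
    exact hX _ hxX _ hk0
  -- the derivative of `φ`
  have hd : ∀ w : ℂ × ℂ, fderiv ℂ φ p w = k p • fderiv ℂ ψ (β p) (fderiv ℂ β p w) + (fderiv ℂ k p w / k p) • φ p := by
    intro w
    have h1 : HasFDerivAt (fun y => k y • ψ (β y))
        (k p • (fderiv ℂ ψ (β p)).comp (fderiv ℂ β p) + (fderiv ℂ k p).smulRight (ψ (β p))) p :=
      hka.differentiableAt.hasFDerivAt.smul
        (hψ.differentiableAt.hasFDerivAt.comp p hβ.differentiableAt.hasFDerivAt)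
    have h2 : HasFDerivAt φ
        (k p • (fderiv ℂ ψ (β p)).comp (fderiv ℂ β p) + (fderiv ℂ k p).smulRight (ψ (β p))) p :=
      h1.congr_of_eventuallyEq hkφ
    rw [h2.fderiv]
    simp only [add_apply, smul_apply, ContinuousLinearMap.comp_apply,
      ContinuousLinearMap.smulRight_apply]
    rw [hkp, smul_smul, div_mul_cancel₀ _ hk0]
  -- tangent vectors
  have ht : ∀ w : ℂ × ℂ, fderiv ℂ ψ (β p) w ∈ Tan X (ψ (β p)) := fun w => H62.BU.tan_fderiv hψ hψX w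
  have hlin : ∀ a b : ℂ, fderiv ℂ ψ (β p) (a, b) = a • fderiv ℂ ψ (β p) (1, 0) + b • fderiv ℂ ψ (β p) (0, 1) := by
    intro a b
    rw [← map_smul, ← map_smul, ← map_add]
    simp
  have ht' : ∀ w : ℂ × ℂ, k p • fderiv ℂ ψ (β p) w ∈ Tan X (φ p) := fun w => by
    rw [hkp]
    exact cfT_tan_smul hX (ht w) hk0
  rw [hd (1, 0), hd (0, 1), hα.add_smul z (φ p) hφX hz _ (ht' _) _ (ht' _)]
  conv_lhs => rw [hkp]
  rw [hα.scale z _ hxX hz' _ (ht _) _ (ht _) _ hk0]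
  obtain ⟨⟨a, b⟩, h1⟩ : ∃ w, w = fderiv ℂ β p (1, 0) := ⟨_, rfl⟩
  obtain ⟨⟨c', d⟩, h2⟩ : ∃ w, w = fderiv ℂ β p (0, 1) := ⟨_, rfl⟩
  rw [← h1, ← h2, hlin a b, hlin c' d, hα.det z _ hxX hz' _ (ht _) _ (ht _)]

end Pool.Agent.H17L
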