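import Pool.Agent.H17L.FormA
import Pool.Agent.H17L.CfT

/-!
# H17L FormC: the extended form is periodic, zero over `0`, nowhere zero

Notation as in FormA; `α'` agrees with the transported form off `D₀ = L.symm ⁻¹' Zs`.

* `per_ext`: `x ∈ X' \ D'`, `u' x - z ∈ Λ`; in a chart `σ` at `x` and the lift `υ` with `υ 0 = z` the coefficients of `α'` for `υ` and `υ + l` are continuous near `0` (`α'.analytic`) and agree where `σ p ∉ D₀` (`h.per`), and these points accumulate at `0` (`zs_thin`); hence they agree at `0`; and `α' z x v w`, `α' (z + l) x v w` are determined by these coefficients (`v, w` are combinations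
  of `∂σ`, `x`: tangent vectors of the cone, see the private `st_tanv` in H17N/Start.lean; `det`, `add_smul`).
* `van_ext`: the points over `0` are not over `B` (`4 δ ≤ ‖b‖` for `b ∈ B`, `B` invariant under `Λ`, so `0 ∉ B + Λ`), so they are in `X' \ D₀`; tangent vectors of `X' \ D'` at `x` are tangent vectors of `X' \ D₀` (`zs_closed`; `tan_transport`); `h.van`.
* `thin_ext`: a chart `χ` of `X' \ D'` and a nonempty open set where the coefficient is `0`; choose in it a point with `χ.σ p ∉ D₀` (`zs_thin` for the germ of the chart at a point); near this point `α'` is the transported form: contradiction to `h.thin` (pattern: `exists_tform` in H17N/BaseA.lean; `IsChart (X \ Zs)` because `Zs` is closed, `zs_closed`).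
-/

set_option autoImplicit false
set_option linter.unusedSectionVars false

open Topology Filter

namespace Pool.Agent.H17L

open Pool.Agent.H17BP (Surface IsChart Tan Pr HolP ResN)
open Pool.Agent.H36.BP (EN isCone_transport germ_transport tan_transport)
open Pool.Agent.H62.EF (Lat exists_chart_of_germ)
open Pool.Agent.H62.EL (TForm Per VanZero Thin BadSet)
open Pool.Agent.H18.LU (EBase LogP LSec)
open Pool.Agent.H17N (TMap LU RU TF NonConst ThinF FibB HSec)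

variable {V : Type} [NormedAddCommGroup V] [NormedSpace ℂ V] [FiniteDimensional ℂ V] {X D : Set V} {Λ Γ : AddSubgroup ℂ} {u : V → ℂ}
  {B : Set ℂ} {α : ℂ → V → V → V → ℂ} {δ : ℝ} {M : ℕ}

/-! ## auxiliary lemmas -/

private theorem fc_add (p : ℂ × ℂ) : Tendsto (fun y : ℂ × ℂ => p + y) (𝓝 0) (𝓝 p) := by
  have h0 : Continuous (fun y : ℂ × ℂ => p + y) := continuous_const.add continuous_id
  have h1 : Tendsto (fun y : ℂ × ℂ => p + y) (𝓝 0) (𝓝 (p + 0)) := h0.tendsto 0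
  rwa [add_zero] at h1

/-- the tangent vectors at `σ 0` -/
private theorem fc_tan0 {X : Set V} {σ : ℂ × ℂ → V} {τ : V → ℂ × ℂ} (h : IsChart X σ τ) {v : V} (hv : v ∈ Tan X (σ 0)) :
    ∃ (e : ℂ × ℂ) (a : ℂ), v = fderiv ℂ σ 0 e + a • σ 0 := by
  obtain ⟨F, hF, hFX, hF0, hFv⟩ := hv
  obtain ⟨ℓ, hℓ⟩ : ∃ ℓ : V →L[ℂ] ℂ, ℓ (σ 0) ≠ 0 := by
    obtain ⟨ℓ, hℓ⟩ := exists_dual_vector ℂ (σ 0) (norm_ne_zero_iff.mpr h.ne)
    refine ⟨ℓ, ?_⟩
    rw [hℓ.2]
    simpa using h.ne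
  have hτ0 : τ (σ 0) = 0 := h.left.self_of_nhds
  have hτF : AnalyticAt ℂ (fun z => τ (F z)) 0 := AnalyticAt.fun_comp (g := τ) (by rw [hF0]; exact h.τ_an) hF
  have hτF0 : τ (F 0) = 0 := by rw [hF0, hτ0]
  have hσF : AnalyticAt ℂ (fun z => σ (τ (F z))) 0 := AnalyticAt.fun_comp (g := σ) (by rw [hτF0]; exact h.σ_an) hτF
  have hLσ : AnalyticAt ℂ (fun z => ℓ (σ (τ (F z)))) 0 := AnalyticAt.fun_comp (g := fun x => ℓ x) (ℓ.analyticAt _) hσF
  have hLF : AnalyticAt ℂ (fun z => ℓ (F z)) 0 := AnalyticAt.fun_comp (g := fun x => ℓ x) (ℓ.analyticAt _) hF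
  have hL0 : ℓ (σ (τ (F 0))) ≠ 0 := by rw [hτF0]; exact hℓ
  have hg : AnalyticAt ℂ (fun z => ℓ (F z) / ℓ (σ (τ (F z)))) 0 := hLF.div hLσ hL0
  have hFt : Tendsto F (𝓝 0) (𝓝 (σ 0)) := by
    have h5 := hF.continuousAt.tendsto
    rwa [hF0] at h5
  have hev : F =ᶠ[𝓝 0] fun z => (ℓ (F z) / ℓ (σ (τ (F z)))) • σ (τ (F z)) := by
    filter_upwards [hFt.eventually h.right, hFX, hLσ.continuousAt.eventually_ne hL0] with z g1 g2 g3
    obtain ⟨a, ha, g4⟩ := g1 g2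
    have g5 : ℓ (F z) = a * ℓ (σ (τ (F z))) := by
      conv_lhs => rw [g4]
      rw [map_smul, smul_eq_mul]
    rw [g5, mul_div_cancel_right₀ _ g3]
    exact g4
  have hg0 : ℓ (F 0) / ℓ (σ (τ (F 0))) = 1 := by
    rw [hτF0, hF0, div_self hℓ]
  have hd1 : HasDerivAt (fun z => σ (τ (F z))) (fderiv ℂ σ 0 (deriv (fun z => τ (F z)) 0)) 0 := by
    have g1 : HasFDerivAt σ (fderiv ℂ σ 0) (τ (F 0)) := by
      rw [hτF0]
      exact h.σ_an.differentiableAt.hasFDerivAt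
    exact g1.comp_hasDerivAt (0 : ℂ) hτF.differentiableAt.hasDerivAt
  have hd2 := hg.differentiableAt.hasDerivAt.smul hd1
  have hd3 : HasDerivAt F v 0 := by
    rw [← hFv]
    exact hF.differentiableAt.hasDerivAt
  have hd4 := hd3.unique (hd2.congr_of_eventuallyEq hev)
  refine ⟨deriv (fun z => τ (F z)) 0, deriv (fun z => ℓ (F z) / ℓ (σ (τ (F z)))) 0, ?_⟩
  rw [hd4, hg0, hτF0, one_smul]

/-- a tangent vector of `X` at a point of the open part `W` -/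
private theorem fc_tan_mono {X W : Set V} {x v : V} (hW : ∀ᶠ y in 𝓝 x, y ∈ X → y ∈ W) (hv : v ∈ Tan X x) : v ∈ Tan W x := by
  obtain ⟨F, hF, hFX, hF0, hFv⟩ := hv
  refine ⟨F, hF, ?_, hF0, hFv⟩
  have hFt : Tendsto F (𝓝 0) (𝓝 x) := by
    have h5 := hF.continuousAt.tendsto
    rwa [hF0] at h5
  filter_upwards [hFX, hFt.eventually hW] with z h1 h2
  exact h2 h1

/-- the partial derivatives are tangent vectors -/
private theorem fc_tan_fderiv {X : Set V} {σ : ℂ × ℂ → V} {p : ℂ × ℂ} (hσ : AnalyticAt ℂ σ p) (hX : ∀ᶠ y in 𝓝 p, σ y ∈ X) (e : ℂ × ℂ) :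
    fderiv ℂ σ p e ∈ Tan X (σ p) := by
  have h0 : p + (0 : ℂ) • e = p := by rw [zero_smul, add_zero]
  have h1 : AnalyticAt ℂ (fun z : ℂ => p + z • e) 0 := by fun_prop
  have h2 : Tendsto (fun z : ℂ => p + z • e) (𝓝 0) (𝓝 p) := by
    have h3 := h1.continuousAt.tendsto
    rwa [h0] at h3
  refine ⟨fun z => σ (p + z • e), AnalyticAt.fun_comp (g := σ) (by rw [h0]; exact hσ) h1, h2.eventually hX, by simp only [h0], ?_⟩
  have h3 : HasFDerivAt σ (fderiv ℂ σ p) (p + (0 : ℂ) • e) := by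
    rw [h0]
    exact hσ.differentiableAt.hasFDerivAt
  have h4 : HasDerivAt (fun z : ℂ => p + z • e) e 0 := by
    have h5 := ((hasDerivAt_id (0 : ℂ)).smul_const e).const_add p
    simpa using h5
  exact (h3.comp_hasDerivAt (0 : ℂ) h4).deriv

/-- the partial derivatives of the transported chart are tangent vectors of the transported surface -/
private theorem fc_tan_tr (L : V ≃L[ℂ] EN M) {W : Set V} {x v : V} (hv : v ∈ Tan W x) :
    Pool.Agent.H14.PP.Tan (L.symm ⁻¹' W : Set (EN M)) (L x) (L v) := by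
  obtain ⟨F, hF, hFX, hF0, hFv⟩ := hv
  refine ⟨fun z => L (F z), ⟨((L : V →L[ℂ] EN M).analyticAt _).comp hF, ?_⟩, by simp only [hF0], ?_⟩
  · filter_upwards [hFX] with z hz
    show L.symm (L (F z)) ∈ W
    rwa [ContinuousLinearEquiv.symm_apply_apply]
  · have h2 : HasDerivAt (fun z => L (F z)) (L (deriv F 0)) 0 :=
      (L : V →L[ℂ] EN M).hasFDerivAt.comp_hasDerivAt 0 hF.differentiableAt.hasDerivAt
    rw [h2.deriv, hFv]

private theorem fc_fderiv (L : V ≃L[ℂ] EN M) {σ : ℂ × ℂ → V} {p : ℂ × ℂ} (hσ : AnalyticAt ℂ σ p) (e : ℂ × ℂ) :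
    fderiv ℂ (fun y => L (σ y)) p e = L (fderiv ℂ σ p e) := by
  have h2 : HasFDerivAt (fun y => L (σ y)) ((L : V →L[ℂ] EN M).comp (fderiv ℂ σ p)) p :=
    (L : V →L[ℂ] EN M).hasFDerivAt.comp p hσ.differentiableAt.hasFDerivAt
  rw [h2.fderiv]
  rfl

/-- a continuous function which vanishes at points arbitrarily near `p` vanishes at `p` -/
private theorem fc_freq {f g : ℂ × ℂ → ℂ} {p : ℂ × ℂ} (hf : ContinuousAt f p) (hg : ContinuousAt g p) (h : ∃ᶠ y in 𝓝 p, f y = g y) :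
    f p = g p := by
  by_contra hne
  apply h
  have h1 : ContinuousAt (fun y => f y - g y) p := hf.sub hg
  filter_upwards [h1.eventually_ne (sub_ne_zero.mpr hne)] with y hy
  exact fun h2 => hy (sub_eq_zero.mpr h2)

theorem per_ext (L : V ≃L[ℂ] EN M) (hΛ : Lat Λ) (hle : Γ ≤ Λ) (hbad : BadSet B Λ δ) (h : DData X D Λ Γ u B α)
    {α' : TForm ((L.symm ⁻¹' X : Set (EN M)) \ (L.symm ⁻¹' D : Set (EN M))) Λ (fun x => u (L.symm x))} (hα : Agr L X D (Zs X D Λ u B) α α') :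
    Per α' Γ := by
  intro z l hl x hx hxz v w hv hw
  obtain ⟨hxX, hxD⟩ := hx
  have hxX' : L.symm x ∈ X := hxX
  have hxD' : L.symm x ∉ D := hxD
  have hxz' : u (L.symm x) - z ∈ Λ := hxz
  obtain ⟨σ, τ, hc, hσ0⟩ := h.surf.chart (L.symm x) hxX'
  obtain ⟨v₀, hv₀, hv₀u⟩ := h.tor.loc (L.symm x) hxX'
  have hσt : Tendsto σ (𝓝 0) (𝓝 (L.symm x)) := by
    have h1 := hc.σ_an.continuousAt.tendsto
    rwa [hσ0] at h1
  have hLx : L (σ 0) = x := by rw [hσ0, ContinuousLinearEquiv.apply_symm_apply]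
  have hσD : ∀ᶠ p in 𝓝 (0 : ℂ × ℂ), σ p ∉ D := hσt.eventually (h.curve.closed _ hxX' hxD')
  -- the lift
  have hυ0 : z - v₀ (L.symm x) ∈ Λ := by
    have h1 := hv₀u.self_of_nhds hxX'
    have h2 := Λ.sub_mem h1 hxz'
    rwa [sub_sub_sub_cancel_left] at h2
  have hυ : AnalyticAt ℂ (fun p => v₀ (σ p) + (z - v₀ (L.symm x))) 0 := by
    refine AnalyticAt.add ?_ analyticAt_const
    exact AnalyticAt.fun_comp (g := v₀) (by rw [hσ0]; exact hv₀) hc.σ_an
  have hlift : ∀ᶠ p in 𝓝 (0 : ℂ × ℂ), u (σ p) - (v₀ (σ p) + (z - v₀ (L.symm x))) ∈ Λ := by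
    filter_upwards [hσt.eventually hv₀u, hc.σ_mem] with p h1 h2
    have h3 := Λ.sub_mem (h1 h2) hυ0
    rwa [sub_sub] at h3
  set υ : ℂ × ℂ → ℂ := fun p => v₀ (σ p) + (z - v₀ (L.symm x)) with hυdef
  have hυz : υ 0 = z := by
    simp only [hυdef, hσ0]
    ring
  have hφ : AnalyticAt ℂ (fun p => L (σ p)) 0 := ((L : V →L[ℂ] EN M).analyticAt _).comp hc.σ_an
  -- the two coefficients are analytic
  have hA : AnalyticAt ℂ (fun y => α'.toFun (υ y) (L (σ y)) (fderiv ℂ (fun p => L (σ p)) y (1, 0)) (fderiv ℂ (fun p => L (σ p)) y (0, 1))) 0 := by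
    refine α'.analytic (fun p => L (σ p)) υ 0 hφ hυ ?_
    filter_upwards [hc.σ_mem, hσD, hlift] with p h1 h2 h3
    refine ⟨⟨?_, ?_⟩, ?_⟩
    · show L.symm (L (σ p)) ∈ X
      rwa [ContinuousLinearEquiv.symm_apply_apply]
    · show L.symm (L (σ p)) ∉ D
      rwa [ContinuousLinearEquiv.symm_apply_apply]
    · show u (L.symm (L (σ p))) - υ p ∈ Λ
      rwa [ContinuousLinearEquiv.symm_apply_apply]
  have hA' : AnalyticAt ℂ (fun y => α'.toFun (υ y + l) (L (σ y)) (fderiv ℂ (fun p => L (σ p)) y (1, 0)) (fderiv ℂ (fun p => L (σ p)) y (0, 1))) 0 := by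
    refine α'.analytic (fun p => L (σ p)) (fun y => υ y + l) 0 hφ (hυ.add analyticAt_const) ?_
    filter_upwards [hc.σ_mem, hσD, hlift] with p h1 h2 h3
    refine ⟨⟨?_, ?_⟩, ?_⟩
    · show L.symm (L (σ p)) ∈ X
      rwa [ContinuousLinearEquiv.symm_apply_apply]
    · show L.symm (L (σ p)) ∉ D
      rwa [ContinuousLinearEquiv.symm_apply_apply]
    · show u (L.symm (L (σ p))) - (υ p + l) ∈ Λ
      rw [ContinuousLinearEquiv.symm_apply_apply, ← sub_sub]
      exact Λ.sub_mem h3 (hle hl)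
  have hthin := (zs_thin hΛ hbad h.surf h.tor h.nonconst h.curve hc).self_of_nhds
  have hkey := fc_freq hA'.continuousAt hA.continuousAt (by
    refine (hthin.and_eventually ((hc.σ_mem.and hlift).and (hc.σ_an.eventually_analyticAt.and (hc.σ_mem.eventually_nhds)))).mono ?_
    rintro p ⟨hp, ⟨h1, h2⟩, h3, h4⟩
    have hLp : L.symm (L (σ p)) = σ p := ContinuousLinearEquiv.symm_apply_apply _ _
    rw [hα _ _ (by rwa [hLp]) (by rwa [hLp]), hα _ _ (by rwa [hLp]) (by rwa [hLp]), fc_fderiv L h3, fc_fderiv L h3, hLp,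
      ContinuousLinearEquiv.symm_apply_apply, ContinuousLinearEquiv.symm_apply_apply]
    have h5 : ∀ᶠ y in 𝓝 (σ p), y ∈ X → y ∈ X \ Zs X D Λ u B := by
      filter_upwards [zs_closed hbad h.tor h.curve h1 hp] with y h6 h7
      exact ⟨h7, h6⟩
    exact h.per (υ p) l hl (σ p) ⟨h1, hp⟩ h2 _ (fc_tan_mono h5 (fc_tan_fderiv h3 h4 _)) _ (fc_tan_mono h5 (fc_tan_fderiv h3 h4 _)))
  simp only [hυz, hLx] at hkey
  -- general tangent vectors
  have hTX : ∀ {w : EN M}, Pool.Agent.H14.PP.Tan ((L.symm ⁻¹' X : Set (EN M)) \ (L.symm ⁻¹' D : Set (EN M))) x w →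
      ∃ (e : ℂ × ℂ) (a : ℂ), w = fderiv ℂ (fun p => L (σ p)) 0 e + a • x := by
    intro w hw
    have h1 : L.symm w ∈ Tan (X \ D) (L.symm x) := tan_transport L (X := X \ D) hw
    have h2 : L.symm w ∈ Tan X (σ 0) := by
      rw [hσ0]
      exact fc_tan_mono (Eventually.of_forall fun y hy => hy.1) h1
    obtain ⟨e, a, he⟩ := fc_tan0 hc h2
    refine ⟨e, a, ?_⟩
    rw [fc_fderiv L hc.σ_an, ← hLx, ← map_smul, ← map_add, ← he, ContinuousLinearEquiv.apply_symm_apply]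
  obtain ⟨e, a, rfl⟩ := hTX hv
  obtain ⟨e', a', rfl⟩ := hTX hw
  have hT : ∀ e : ℂ × ℂ, Pool.Agent.H14.PP.Tan ((L.symm ⁻¹' X : Set (EN M)) \ (L.symm ⁻¹' D : Set (EN M))) x (fderiv ℂ (fun p => L (σ p)) 0 e) := by
    intro e
    have h1 : ∀ᶠ y in 𝓝 (0 : ℂ × ℂ), σ y ∈ X \ D := by
      filter_upwards [hc.σ_mem, hσD] with y h1 h2
      exact ⟨h1, h2⟩
    have h2 := fc_tan_tr L (fc_tan_fderiv hc.σ_an h1 e)
    rw [hLx] at h2
    rw [fc_fderiv L hc.σ_an]
    exact h2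
  have hlin : ∀ e : ℂ × ℂ, fderiv ℂ (fun p => L (σ p)) 0 e =
      e.1 • fderiv ℂ (fun p => L (σ p)) 0 (1, 0) + e.2 • fderiv ℂ (fun p => L (σ p)) 0 (0, 1) := by
    intro e
    have h1 : e = e.1 • ((1 : ℂ), (0 : ℂ)) + e.2 • ((0 : ℂ), (1 : ℂ)) := by
      ext <;> simp
    conv_lhs => rw [h1]
    rw [map_add, map_smul, map_smul]
  have hx : x ∈ (L.symm ⁻¹' X : Set (EN M)) \ (L.symm ⁻¹' D : Set (EN M)) := ⟨hxX, hxD⟩
  have hxl : u (L.symm x) - (z + l) ∈ Λ := by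
    rw [← sub_sub]
    exact Λ.sub_mem hxz' (hle hl)
  rw [α'.add_smul (z + l) x hx hxl _ _ (hT e) (hT e'), α'.add_smul z x hx hxz _ _ (hT e) (hT e'), hlin e, hlin e',
    α'.det (z + l) x hx hxl _ _ (hT _) (hT _), α'.det z x hx hxz _ _ (hT _) (hT _), hkey]

theorem van_ext (L : V ≃L[ℂ] EN M) (hΛ : Lat Λ) (hbad : BadSet B Λ δ) (h0 : ∀ b ∈ B, 4 * δ ≤ ‖b‖) (h : DData X D Λ Γ u B α)
    {α' : TForm ((L.symm ⁻¹' X : Set (EN M)) \ (L.symm ⁻¹' D : Set (EN M))) Λ (fun x => u (L.symm x))} (hα : Agr L X D (Zs X D Λ u B) α α') :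
    VanZero α' := by
  intro x hx hxz v w hv hw
  obtain ⟨hxX, hxD⟩ := hx
  have hxX' : L.symm x ∈ X := hxX
  have hxD' : L.symm x ∉ D := hxD
  have hxz' : u (L.symm x) ∈ Λ := hxz
  have hxZ : L.symm x ∉ Zs X D Λ u B := by
    rintro (h1 | ⟨-, b, hb, h2⟩)
    · exact hxD' h1
    · have h3 : b ∈ Λ := by
        have h4 := Λ.sub_mem hxz' h2
        rwa [sub_sub_cancel] at h4
      have h4 := hbad.inv b hb (-b) (Λ.neg_mem h3)
      rw [add_neg_cancel] at h4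
      have h5 := h0 0 h4
      rw [norm_zero] at h5
      linarith [hbad.pos]
  rw [hα 0 x hxX' hxZ]
  have h5 : ∀ᶠ y in 𝓝 (L.symm x), y ∈ X \ D → y ∈ X \ Zs X D Λ u B := by
    filter_upwards [zs_closed hbad h.tor h.curve hxX' hxZ] with y h6 h7
    exact ⟨h7.1, h6⟩
  exact h.van (L.symm x) ⟨hxX', hxZ⟩ hxz' _ (fc_tan_mono h5 (tan_transport L (X := X \ D) hv)) _ (fc_tan_mono h5 (tan_transport L (X := X \ D) hw))

/-- a chart of an open part is a chart -/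
private theorem fc_open {X W : Set V} {σ : ℂ × ℂ → V} {τ : V → ℂ × ℂ} (hc : IsChart X σ τ) (hW : ∀ᶠ y in 𝓝 (σ 0), y ∈ X ↔ y ∈ W) : IsChart W σ τ := by
  refine ⟨hc.σ_an, ?_, hc.ne, hc.τ_an, hc.left, ?_, hc.inv⟩
  · filter_upwards [hc.σ_mem, hc.σ_an.continuousAt.tendsto.eventually hW] with p h1 h2
    exact h2.1 h1
  · filter_upwards [hc.right, hW] with y h1 h2 h3
    exact h1 (h2.2 h3)

/-- the chart at a point of a chart of the transported surface -/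
private theorem fc_chart (L : V ≃L[ℂ] EN M) (hX0 : (0 : V) ∉ X) (χ : Pool.Agent.H14.PP.Chart ((L.symm ⁻¹' X : Set (EN M)) \ (L.symm ⁻¹' D : Set (EN M))))
    {p : ℂ × ℂ} (hp : p ∈ Metric.ball (0 : ℂ × ℂ) 2) :
    IsChart (X \ D) (fun y => L.symm (χ.σ (p + y))) (fun x => χ.q (L x) - p) := by
  have hadd := fc_add p
  have hball : ∀ᶠ y in 𝓝 (0 : ℂ × ℂ), p + y ∈ Metric.ball (0 : ℂ × ℂ) 2 :=
    hadd.eventually (Metric.isOpen_ball.mem_nhds hp)
  have hanadd : AnalyticAt ℂ (fun y : ℂ × ℂ => p + y) 0 := analyticAt_const.add analyticAt_id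
  have hσ0 : L (L.symm (χ.σ (p + 0))) = χ.σ p := by
    rw [ContinuousLinearEquiv.apply_symm_apply, add_zero]
  have hσX : ∀ y : ℂ × ℂ, p + y ∈ Metric.ball (0 : ℂ × ℂ) 2 → L.symm (χ.σ (p + y)) ∈ X \ D :=
    fun y hy => (χ.σ_mem _ hy).1
  have hLt : Tendsto (fun x : V => L x) (𝓝 (L.symm (χ.σ (p + 0)))) (𝓝 (χ.σ p)) := by
    have := L.continuous.tendsto (L.symm (χ.σ (p + 0)))
    rwa [hσ0] at this
  have hU : ∀ᶠ x in 𝓝 (L.symm (χ.σ (p + 0))), L x ∈ χ.U :=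
    hLt.eventually (χ.isOpen_U.mem_nhds (χ.σ_mem p hp).2.1)
  refine ⟨?_, ?_, ?_, ?_, ?_, ?_, ?_⟩
  · have h1 : AnalyticAt ℂ χ.σ (p + 0) := by
      rw [add_zero]
      exact χ.σ_an p hp
    have h2 : AnalyticAt ℂ (fun y => χ.σ (p + y)) 0 :=
      AnalyticAt.comp (g := χ.σ) (f := fun y : ℂ × ℂ => p + y) h1 hanadd
    exact AnalyticAt.comp (g := fun y : EN M => L.symm y) (f := fun y => χ.σ (p + y))
      ((L.symm : EN M →L[ℂ] V).analyticAt _) h2
  · filter_upwards [hball] with y hy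
    exact hσX y hy
  · intro h1
    have h2 : L.symm (χ.σ (p + 0)) ∈ X := (hσX 0 (by rwa [add_zero])).1
    have h3 : L.symm (χ.σ (p + 0)) = 0 := h1
    rw [h3] at h2
    exact hX0 h2
  · have h1 : AnalyticAt ℂ χ.q (L (L.symm (χ.σ (p + 0)))) := by
      rw [hσ0]
      exact χ.q_an _ (χ.σ_mem p hp).2.1
    exact (AnalyticAt.comp (g := χ.q) (f := fun x : V => L x) h1
      ((L : V →L[ℂ] EN M).analyticAt _)).sub analyticAt_const
  · filter_upwards [hball] with y hy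
    show χ.q (L (L.symm (χ.σ (p + y)))) - p = y
    rw [ContinuousLinearEquiv.apply_symm_apply, (χ.σ_mem _ hy).2.2]
    abel
  · filter_upwards [hU] with x hx hxX
    have hx' : L x ∈ (L.symm ⁻¹' X : Set (EN M)) \ (L.symm ⁻¹' D : Set (EN M)) := by
      constructor
      · show L.symm (L x) ∈ X
        rw [ContinuousLinearEquiv.symm_apply_apply]
        exact hxX.1
      · show L.symm (L x) ∉ D
        rw [ContinuousLinearEquiv.symm_apply_apply]
        exact hxX.2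
    obtain ⟨-, c, hc, hcx⟩ := χ.surj (L x) hx' hx
    refine ⟨c, hc, ?_⟩
    show x = c • L.symm (χ.σ (p + (χ.q (L x) - p)))
    have h1 : p + (χ.q (L x) - p) = χ.q (L x) := by abel
    rw [h1, ← map_smul, ← hcx, ContinuousLinearEquiv.symm_apply_apply]
  · have h1 : ∀ᶠ z in 𝓝 (L.symm (χ.σ (p + 0)), (1 : ℂ)), L z.1 ∈ χ.U :=
      (continuous_fst.tendsto (L.symm (χ.σ (p + 0)), (1 : ℂ))).eventually hU
    have h2 : ∀ᶠ z in 𝓝 (L.symm (χ.σ (p + 0)), (1 : ℂ)), z.2 ≠ 0 :=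
      (continuous_snd.tendsto (L.symm (χ.σ (p + 0)), (1 : ℂ))).eventually
        (isOpen_ne.mem_nhds one_ne_zero)
    filter_upwards [h1, h2] with z hz1 hz2
    show χ.q (L (z.2 • z.1)) - p = χ.q (L z.1) - p
    rw [map_smul, χ.q_smul _ hz1 _ hz2]

theorem thin_ext (L : V ≃L[ℂ] EN M) (hΛ : Lat Λ) (hbad : BadSet B Λ δ) (h : DData X D Λ Γ u B α)
    {α' : TForm ((L.symm ⁻¹' X : Set (EN M)) \ (L.symm ⁻¹' D : Set (EN M))) Λ (fun x => u (L.symm x))} (hα : Agr L X D (Zs X D Λ u B) α α') :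
    Thin α' := by
  intro χ υ p hp hυ hl ht
  have hadd := fc_add p
  have hball : ∀ᶠ y in 𝓝 (0 : ℂ × ℂ), p + y ∈ Metric.ball (0 : ℂ × ℂ) 2 :=
    hadd.eventually (Metric.isOpen_ball.mem_nhds hp)
  have hcD := fc_chart (D := D) L h.surf.zero χ hp
  have hx0 : L.symm (χ.σ (p + 0)) ∈ X \ D := hcD.σ_mem.self_of_nhds
  have hcX : IsChart X (fun y => L.symm (χ.σ (p + y))) (fun x => χ.q (L x) - p) := by
    refine fc_open hcD ?_
    filter_upwards [h.curve.closed _ hx0.1 hx0.2] with y hy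
    exact ⟨fun h1 => h1.1, fun h1 => ⟨h1, hy⟩⟩
  have hthin := (zs_thin hΛ hbad h.surf h.tor h.nonconst h.curve hcX).self_of_nhds
  obtain ⟨q, hq1, hq2, hq3, hq4, hq5, hq6⟩ := (hthin.and_eventually (hball.and ((hadd.eventually hl.eventually_nhds).and
    ((hadd.eventually ht.eventually_nhds).and ((hadd.eventually hυ.eventually_analyticAt).and hball.eventually_nhds))))).exists
  have hq1' : L.symm (χ.σ (p + q)) ∉ Zs X D Λ u B := hq1
  have hcq := fc_chart (D := D) L h.surf.zero χ hq2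
  have hxq : L.symm (χ.σ (p + q + 0)) ∈ X \ D := hcq.σ_mem.self_of_nhds
  have hxqZ : L.symm (χ.σ (p + q + 0)) ∉ Zs X D Λ u B := by rwa [add_zero]
  have hcZ : IsChart (X \ Zs X D Λ u B) (fun y => L.symm (χ.σ (p + q + y))) (fun x => χ.q (L x) - (p + q)) := by
    refine fc_open hcq ?_
    filter_upwards [zs_closed hbad h.tor h.curve hxq.1 hxqZ] with y hy
    exact ⟨fun h1 => ⟨h1.1, hy⟩, fun h1 => ⟨h1.1, fun h2 => hy (Or.inl h2)⟩⟩
  have haddq := fc_add (p + q)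
  have hυ1 : AnalyticAt ℂ (fun y => υ (p + q + y)) 0 := by
    refine AnalyticAt.comp (g := υ) (f := fun y : ℂ × ℂ => p + q + y) ?_ (analyticAt_const.add analyticAt_id)
    show AnalyticAt ℂ υ (p + q + 0)
    rwa [add_zero]
  refine h.thin _ _ _ hcZ hυ1 ?_ ?_
  · exact haddq.eventually hq3
  · have hballq : ∀ᶠ y in 𝓝 (0 : ℂ × ℂ), p + q + y ∈ Metric.ball (0 : ℂ × ℂ) 2 :=
      haddq.eventually (Metric.isOpen_ball.mem_nhds hq2)
    filter_upwards [haddq.eventually hq4, hballq, hcZ.σ_mem] with y hy hyb hyZ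
    have hyZ1 : L.symm (χ.σ (p + q + y)) ∈ X := hyZ.1
    have hyZ2 : L.symm (χ.σ (p + q + y)) ∉ Zs X D Λ u B := hyZ.2
    have h1 : HasFDerivAt χ.σ (fderiv ℂ χ.σ (p + q + y)) (p + q + y) :=
      (χ.σ_an _ hyb).differentiableAt.hasFDerivAt
    have h2 : HasFDerivAt (fun y : ℂ × ℂ => p + q + y) (ContinuousLinearMap.id ℂ (ℂ × ℂ)) y :=
      (hasFDerivAt_id y).const_add (p + q)
    have h3 : HasFDerivAt (fun y => χ.σ (p + q + y)) (fderiv ℂ χ.σ (p + q + y)) y := by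
      have := HasFDerivAt.comp (g := χ.σ) (f := fun y : ℂ × ℂ => p + q + y) y h1 h2
      rwa [ContinuousLinearMap.comp_id] at this
    have h4 : HasFDerivAt (fun y => L.symm (χ.σ (p + q + y)))
        ((L.symm : EN M →L[ℂ] V).comp (fderiv ℂ χ.σ (p + q + y))) y :=
      HasFDerivAt.comp (g := fun y : EN M => L.symm y) (f := fun y => χ.σ (p + q + y)) y
        ((L.symm : EN M →L[ℂ] V).hasFDerivAt) h3
    rw [h4.fderiv]
    have h5 : α'.toFun (υ (p + q + y)) (χ.σ (p + q + y)) (fderiv ℂ χ.σ (p + q + y) (1, 0)) (fderiv ℂ χ.σ (p + q + y) (0, 1)) = 0 := hy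
    rw [hα _ _ hyZ1 hyZ2] at h5
    exact h5

end Pool.Agent.H17L
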