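import Pool.Agent.H17L.FormB
import Pool.Agent.H17L.FormC

/-!
# H17L BaseLB: transport to a Euclidean space, the form
-/

set_option autoImplicit false

open Topology Filter

namespace Pool.Agent.H17L

open Pool.Agent.H17BP (Surface IsChart Tan Pr HolP ResN)
open Pool.Agent.H36.BP (EN isCone_transport germ_transport tan_transport)
open Pool.Agent.H62.EF (Lat exists_chart_of_germ)
open Pool.Agent.H62.EL (TForm Per VanZero Thin BadSet)
open Pool.Agent.H18.LU (EBase LogP LSec)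
open Pool.Agent.H17N (TMap LU RU TF NonConst ThinF FibB HSec)

variable {V : Type} [NormedAddCommGroup V] [NormedSpace ℂ V] [FiniteDimensional ℂ V] {X D : Set V} {Λ Γ : AddSubgroup ℂ} {u : V → ℂ}
  {B : Set ℂ} {α : ℂ → V → V → V → ℂ} {δ : ℝ} {M : ℕ}

theorem exists_formL (L : V ≃L[ℂ] EN M) (hΛ : Lat Λ) (hle : Γ ≤ Λ) (hbad : BadSet B Λ δ) (h0 : ∀ b ∈ B, 4 * δ ≤ ‖b‖) (h : DData X D Λ Γ u B α) :
    ∃ α' : TForm ((L.symm ⁻¹' X : Set (EN M)) \ (L.symm ⁻¹' D : Set (EN M))) Λ (fun x => u (L.symm x)),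
      LogP α' ∧ Per α' Γ ∧ VanZero α' ∧ Thin α' := by
  obtain ⟨α', hα⟩ := exists_ext L hΛ hbad h
  exact ⟨α', logP_ext L hΛ hbad h hα, per_ext L hΛ hle hbad h hα, van_ext L hΛ hbad h0 h hα, thin_ext L hΛ hbad h hα⟩

end Pool.Agent.H17L
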