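import Pool.Agent.H17L.Defs
import Pool.Agent.H17N.BaseB
import Pool.Agent.H18.LU.Base

/-!
# H17L LiftD: lift of a section over a disc

* `exists_lift_ball`: `f` with `SecV` (so `HolP`) at all points of the closed ball.  The set where `SecV` holds is open, so it contains a larger ball (compactness), radius `R'`.  Let `ξ` be a linear form with `ξ (L (f 0)) ≠ 0` (if `R < 0` there is nothing to do).  `F₀ z = (ξ (L (f z)))⁻¹ • L (f z)` is, near every point `z₀` of the larger ball, of the form `(ξ (G z))⁻¹ • G z`, `G` analytic without zeros, proportional to `L ∘ f`;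
  `ξ ∘ G` is not identically `0` near `z₀` (identity theorem on the ball: the set of the points near which `ξ ∘ L ∘ f` is identically `0` is open and closed in the ball), so `F₀` is meromorphic; it has finitely many poles in the closed ball of radius `R`; multiply by `∏ (z - a_i) ^ k_i`, `k_i` the order of the zero of `ξ ∘ G` at `a_i`: the result (suitably defined at the `a_i`) is analytic and without zeros near the closed ball and proportional to `L ∘ f`.
  (Alternatively use `H17EF.exists_lift`-type results if there is a version for discs.)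
-/

set_option autoImplicit false

open Topology Filter

namespace Pool.Agent.H17L

open Pool.Agent.H17BP (Surface IsChart Tan Pr HolP ResN)
open Pool.Agent.H36.BP (EN)
open Pool.Agent.H62.EF (Lat MN Sec pr pr_smul pr_eq_iff)
open Pool.Agent.H18.LU (LSec SecAt)
open Pool.Agent.H17N (TMap HSec)
open Pool.Agent.H17EF (coneE LE)
open Pool.Agent.H13.SM (cone)

variable {V : Type} [NormedAddCommGroup V] [NormedSpace ℂ V] [FiniteDimensional ℂ V] {X D : Set V} {Λ : AddSubgroup ℂ} {u : V → ℂ} {M N : ℕ}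

/-- lift over a ball -/
private theorem LiftD_ball {W : Type} [NormedAddCommGroup W] [NormedSpace ℂ W] {f : ℂ → W} {r R : ℝ} (hRr : R < r) (hR : 0 < R)
    (hf : ∀ z ∈ Metric.ball (0 : ℂ) r, HolP f z) (ξ : W →L[ℂ] ℂ) (hξ : ξ (f 0) ≠ 0) :
    ∃ F : ℂ → W, ∀ z ∈ Metric.ball (0 : ℂ) R, AnalyticAt ℂ F z ∧ ∃ c : ℂ, c ≠ 0 ∧ F z = c • f z := by
  classical
  have hsub : ∀ z ∈ Metric.closedBall (0 : ℂ) R, z ∈ Metric.ball (0 : ℂ) r := fun z hz =>
    Metric.closedBall_subset_ball hRr hz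
  choose! φ hφa hφ0 hφe using hf
  have hφξ : ∀ z₀ ∈ Metric.ball (0 : ℂ) r, AnalyticAt ℂ (fun z => ξ (φ z₀ z)) z₀ := fun z₀ hz₀ =>
    (ξ.analyticAt _).comp (hφa z₀ hz₀)
  -- comparison
  have hz : ∀ z₀ ∈ Metric.ball (0 : ℂ) r, ∀ᶠ z in 𝓝 z₀, (ξ (φ z₀ z) = 0 ↔ ξ (f z) = 0) := by
    intro z₀ hz₀
    filter_upwards [hφe z₀ hz₀] with z hz
    obtain ⟨c, hc, h1⟩ := hz
    rw [h1, map_smul, smul_eq_mul, mul_eq_zero]
    exact ⟨fun h => Or.inr h, fun h => h.resolve_left hc⟩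
  have hcmp : ∀ z₀ ∈ Metric.ball (0 : ℂ) r, ∀ᶠ z in 𝓝 z₀, ∃ c : ℂ, c ≠ 0 ∧ φ z₀ z = c • φ z z := by
    intro z₀ hz₀
    filter_upwards [hφe z₀ hz₀, Metric.isOpen_ball.eventually_mem hz₀] with z h1 h2
    obtain ⟨c, hc, h3⟩ := h1
    obtain ⟨d, hd, h4⟩ := (hφe z h2).self_of_nhds
    refine ⟨c⁻¹ * d, mul_ne_zero (inv_ne_zero hc) hd, ?_⟩
    rw [mul_smul, ← h4, h3, smul_smul, inv_mul_cancel₀ hc, one_smul]
  -- identity theorem
  set A : Set ℂ := {z | ∀ᶠ y in 𝓝 z, ξ (f y) = 0} with hA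
  set B : Set ℂ := {z | ∀ᶠ y in 𝓝[≠] z, ξ (f y) ≠ 0} with hB
  have hAo : IsOpen A := by
    rw [isOpen_iff_mem_nhds]
    intro z hz
    exact eventually_eventually_nhds.2 hz
  have hBo : IsOpen B := by
    rw [isOpen_iff_mem_nhds]
    intro z hz
    have h1 : ∀ᶠ y in 𝓝 z, y ≠ z → ξ (f y) ≠ 0 := eventually_nhdsWithin_iff.1 hz
    filter_upwards [h1.eventually_nhds] with y hy
    rcases eq_or_ne y z with rfl | hne
    · exact hz
    · have h2 : ∀ᶠ w in 𝓝 y, w ≠ z := isOpen_ne.eventually_mem hne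
      have h3 : ∀ᶠ w in 𝓝 y, ξ (f w) ≠ 0 := by
        filter_upwards [hy, h2] with w hw hw' using hw hw'
      exact h3.filter_mono nhdsWithin_le_nhds
  have hdis : Disjoint B A := by
    rw [Set.disjoint_left]
    intro z h1 h2
    have h3 : ∀ᶠ y in 𝓝[≠] z, ξ (f y) = 0 := Eventually.filter_mono nhdsWithin_le_nhds h2
    obtain ⟨y, hy, hy'⟩ := (h3.and h1).exists
    exact hy' hy
  have hcov : Metric.ball (0 : ℂ) r ⊆ B ∪ A := by
    intro z hz'
    rcases (hφξ z hz').eventually_eq_zero_or_eventually_ne_zero with h | h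
    · right
      show ∀ᶠ y in 𝓝 z, ξ (f y) = 0
      filter_upwards [h, hz z hz'] with y h1 h2 using h2.1 h1
    · left
      show ∀ᶠ y in 𝓝[≠] z, ξ (f y) ≠ 0
      filter_upwards [h, (hz z hz').filter_mono nhdsWithin_le_nhds] with y h1 h2 h3 using h1 (h2.2 h3)
  have h0r : (0 : ℂ) ∈ Metric.ball (0 : ℂ) r := Metric.mem_ball_self (hR.trans hRr)
  have h0B : (0 : ℂ) ∈ B := by
    rcases hcov h0r with h | h
    · exact h
    · have h' : ∀ᶠ y in 𝓝 (0 : ℂ), ξ (f y) = 0 := h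
      exact absurd h'.self_of_nhds hξ
  have hballB : Metric.ball (0 : ℂ) r ⊆ B :=
    IsPreconnected.subset_left_of_subset_union hBo hAo hdis hcov ⟨0, h0r, h0B⟩ (convex_ball (0 : ℂ) r).isPreconnected
  have hne : ∀ z₀ ∈ Metric.ball (0 : ℂ) r, ∀ᶠ z in 𝓝[≠] z₀, ξ (φ z₀ z) ≠ 0 := by
    intro z₀ hz₀
    have h1 : ∀ᶠ y in 𝓝[≠] z₀, ξ (f y) ≠ 0 := hballB hz₀
    filter_upwards [h1, (hz z₀ hz₀).filter_mono nhdsWithin_le_nhds] with y h2 h3 h4 using h2 (h3.1 h4)
  have hfin : ∀ z₀ ∈ Metric.ball (0 : ℂ) r, analyticOrderAt (fun z => ξ (φ z₀ z)) z₀ ≠ ⊤ := by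
    intro z₀ hz₀ h
    rw [analyticOrderAt_eq_top] at h
    obtain ⟨y, hy, hy'⟩ := ((h.filter_mono nhdsWithin_le_nhds).and (hne z₀ hz₀)).exists
    exact hy' hy
  set D : ℂ → ℕ := fun z => if z ∈ Metric.closedBall (0 : ℂ) R then analyticOrderNatAt (fun y => ξ (φ z y)) z else 0 with hD
  have hDord : ∀ z ∈ Metric.closedBall (0 : ℂ) R, analyticOrderAt (fun y => ξ (φ z y)) z = D z := by
    intro z hz'
    rw [hD]
    simp only [if_pos hz']
    exact (Nat.cast_analyticOrderNatAt (hfin z (hsub z hz'))).symm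
  have hDfin : ∀ S : ℝ, {z ∈ Metric.closedBall (0 : ℂ) S | D z ≠ 0}.Finite := by
    intro S
    have hmem : ∀ z, D z ≠ 0 → z ∈ Metric.closedBall (0 : ℂ) R := by
      intro z hDz
      by_contra hc
      exact hDz (if_neg hc)
    by_contra hinf
    obtain ⟨y, hyR, hy⟩ := Set.Infinite.exists_accPt_of_subset_isCompact hinf
      (isCompact_closedBall (0 : ℂ) R) (fun z hz => hmem z hz.2)
    rw [accPt_iff_frequently_nhdsNE] at hy
    obtain ⟨z, hz1, hz2, hz3⟩ := (hy.and_eventually ((hne y (hsub y hyR)).and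
      ((hcmp y (hsub y hyR)).filter_mono nhdsWithin_le_nhds))).exists
    obtain ⟨c, hc, h4⟩ := hz3
    apply hz1.2
    have h5 : ξ (φ z z) ≠ 0 := by
      intro h
      apply hz2
      rw [h4, map_smul, h, smul_zero]
    have hzR := hmem z hz1.2
    have h6 := hDord z hzR
    rw [(hφξ z (hsub z hzR)).analyticOrderAt_eq_zero.mpr h5] at h6
    exact_mod_cast h6.symm
  obtain ⟨w, hw⟩ := Pool.Agent.H17.exists_entire_with_orders D hDfin
  have hq : ∀ z₀ ∈ Metric.ball (0 : ℂ) R, ∃ q : ℂ → ℂ, AnalyticAt ℂ q z₀ ∧ q z₀ ≠ 0 ∧ ∀ᶠ z in 𝓝 z₀, (w : ℂ → ℂ) z = q z * ξ (φ z₀ z) := by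
    intro z₀ hz₀
    have hz₁ := Metric.ball_subset_closedBall hz₀
    exact Pool.Agent.H17.exists_unit_quotient (w.analyticAt z₀) (hφξ z₀ (hsub z₀ hz₁)) (hw z₀) (hDord z₀ hz₁)
  choose! q hqa hq0 hqe using hq
  have hloc : ∀ z₀ ∈ Metric.ball (0 : ℂ) R, (fun z => q z z • φ z z) =ᶠ[𝓝 z₀] fun z => q z₀ z • φ z₀ z := by
    intro z₀ hz₀
    have hz₁ := hsub z₀ (Metric.ball_subset_closedBall hz₀)
    have h1 := eventually_nhdsWithin_iff.mp (hne z₀ hz₁)
    filter_upwards [h1, hcmp z₀ hz₁, hqe z₀ hz₀, Metric.isOpen_ball.eventually_mem hz₀] with z h2 h3 h4 h4'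
    by_cases hzz : z = z₀
    · rw [hzz]
    · obtain ⟨c, hc, h5⟩ := h3
      have h6 := h2 hzz
      have h7 : (w : ℂ → ℂ) z = q z z * ξ (φ z z) := (hqe z h4').self_of_nhds
      have h8 : ξ (φ z z) ≠ 0 := by
        intro h
        apply h6
        rw [h5, map_smul, h, smul_zero]
      have h9 : q z₀ z * c = q z z := by
        apply mul_right_cancel₀ h8
        rw [← h7, h4, h5, map_smul, smul_eq_mul]
        ring
      show q z z • φ z z = q z₀ z • φ z₀ z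
      rw [h5, ← h9, smul_smul]
  refine ⟨fun z => q z z • φ z z, fun z hzR => ⟨?_, ?_⟩⟩
  · exact ((hqa z hzR).smul (hφa z (hsub z (Metric.ball_subset_closedBall hzR)))).congr (hloc z hzR).symm
  · obtain ⟨c, hc, h1⟩ := (hφe z (hsub z (Metric.ball_subset_closedBall hzR))).self_of_nhds
    refine ⟨q z z * c⁻¹, mul_ne_zero (hq0 z hzR) (inv_ne_zero hc), ?_⟩
    show q z z • φ z z = _
    rw [h1, smul_smul, mul_assoc, inv_mul_cancel₀ hc, mul_one]

private theorem LiftD_open {f : ℂ → V} {z : ℂ} (h : SecV X D Λ u f z) : ∀ᶠ w in 𝓝 z, SecV X D Λ u f w := by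
  haveI : CompleteSpace V := FiniteDimensional.complete ℂ V
  obtain ⟨⟨F, hF, hF0, hF1⟩, h2⟩ := h
  filter_upwards [hF.eventually_analyticAt, hF.continuousAt.eventually_ne hF0, hF1.eventually_nhds, h2.eventually_nhds] with w h3 h4 h5 h6
  exact ⟨⟨F, h3, h4, h5⟩, h6⟩

theorem exists_lift_ball (L : V ≃L[ℂ] EN M) (hX : Surface X) (hu : TMap X Λ u) (hD : ∀ x ∈ D, ∀ c : ℂ, c ≠ 0 → c • x ∈ D) {f : ℂ → V} {R : ℝ}
    (hf : ∀ z ∈ Metric.closedBall (0 : ℂ) R, SecV X D Λ u f z) :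
    ∃ F : ℂ → EN M, (∀ z ∈ Metric.closedBall (0 : ℂ) R, SecAt (L.symm ⁻¹' X : Set (EN M)) (L.symm ⁻¹' D : Set (EN M)) Λ (fun x => u (L.symm x)) F z) ∧
      ∀ z ∈ Metric.closedBall (0 : ℂ) R, ∃ c : ℂ, c ≠ 0 ∧ F z = c • L (f z) := by
  rcases lt_or_ge R 0 with hR | hR
  · refine ⟨fun _ => 0, fun z hz => ?_, fun z hz => ?_⟩ <;>
      exact absurd hz (by rw [Metric.closedBall_eq_empty.2 hR]; exact Set.notMem_empty z)
  -- a larger ball
  have hU : IsOpen {z | SecV X D Λ u f z} := by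
    rw [isOpen_iff_mem_nhds]
    exact fun z hz => LiftD_open hz
  obtain ⟨δ, hδ, hδ'⟩ := (isCompact_closedBall (0 : ℂ) R).exists_thickening_subset_open hU hf
  rw [thickening_closedBall hδ hR] at hδ'
  have h0 : (0 : ℂ) ∈ Metric.closedBall (0 : ℂ) R := Metric.mem_closedBall_self hR
  have hf0 : f 0 ≠ 0 := fun h => hX.zero (h ▸ (hf 0 h0).2.self_of_nhds.1)
  have hL0 : L (f 0) ≠ 0 := fun h => hf0 (by simpa using h)
  obtain ⟨j, hj⟩ : ∃ j, (L (f 0)) j ≠ 0 := by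
    by_contra hc
    push Not at hc
    exact hL0 (by ext j; exact hc j)
  obtain ⟨F, hF⟩ := LiftD_ball (f := f) (r := δ + R) (R := δ / 2 + R) (by linarith) (by linarith) (fun z hz => (hδ' hz).1)
    ((EuclideanSpace.proj (𝕜 := ℂ) (ι := Fin (M + 1)) j : EN M →L[ℂ] ℂ).comp (L : V →L[ℂ] EN M)) hj
  have hsub : ∀ z ∈ Metric.closedBall (0 : ℂ) R, z ∈ Metric.ball (0 : ℂ) (δ / 2 + R) := fun z hz =>
    Metric.closedBall_subset_ball (by linarith) hz
  refine ⟨fun z => L (F z), fun z hz => ⟨?_, ?_⟩, fun z hz => ?_⟩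
  · exact ((L : V →L[ℂ] EN M).analyticAt _).comp (hF z (hsub z hz)).1
  · filter_upwards [(hf z hz).2, Metric.isOpen_ball.eventually_mem (hsub z hz)] with w hw hw'
    obtain ⟨-, c, hc, h1⟩ := hF w hw'
    obtain ⟨h2, h3, h4⟩ := hw
    refine ⟨?_, ?_, ?_⟩
    · change L.symm (L (F w)) ∈ X
      rw [ContinuousLinearEquiv.symm_apply_apply, h1]
      exact hX.smul _ h2 c hc
    · intro h5
      change L.symm (L (F w)) ∈ D at h5
      rw [ContinuousLinearEquiv.symm_apply_apply, h1] at h5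
      apply h3
      have h6 := hD _ h5 c⁻¹ (inv_ne_zero hc)
      rwa [smul_smul, inv_mul_cancel₀ hc, one_smul] at h6
    · change u (L.symm (L (F w))) - w ∈ Λ
      rw [ContinuousLinearEquiv.symm_apply_apply, h1]
      have h5 := Λ.add_mem (hu.smul _ h2 c hc) h4
      rwa [sub_add_sub_cancel] at h5
  · obtain ⟨-, c, hc, h1⟩ := hF z (hsub z hz)
    refine ⟨c, hc, ?_⟩
    show L (F z) = c • L (f z)
    rw [h1, map_smul]

end Pool.Agent.H17L
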