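import Pool.Agent.H17L.ClD
import Pool.Agent.H17L.LiftD

/-!
# H17L BaseLC: the limit sections in `V` and in a Euclidean space

Model: H17N/BaseB.lean.

* `finL_of_lsec`: `L : V ≃L[ℂ] EN M`.  Let `f` be a `LimSec`.  `F` the global lift (private `BaseB_lift` in H17N/BaseB.lean: copy), `F ∈ Sec`, and `z ↦ pr (F z)` is in `LSec`, with the same `Z`: for `R, ε, K` take `ε'` (`dist_of_cl`; `Cl` is compared through `L`: `‖L (c • x - y)‖ ≤ ‖L‖ ‖c • x - y‖`, `‖y‖ ≤ ‖L.symm‖ ‖L y‖`) and the approximation `G`; its lift over the closed ball (`exists_lift_ball`)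
  satisfies `SecAt`.  The finite set as in `finSec_of_ss`.
* `lsec_of_finL`: `V = Fin (N + 1) → ℂ`, `L = LE N`.  A point of `LSec` is `pr ∘ F`, `F ∈ Sec`; `f z = (LE N).symm (F z)` is a `LimSec` (`cl_of_dist`); the rest as in `ss_of_finSec`.
* `lsec_shift`: translation of the base, model `H17G.ss_shift`: `F ∈ Sec X Λ u` iff `z ↦ F (z + c₀)` is in `Sec X Λ (u - c₀)`; `Z`, `K` are translated; the closed ball of radius `R` around `c₀` lies in the closed ball of radius `R + ‖c₀‖` around `0`.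
-/

set_option autoImplicit false

open Topology Filter

namespace Pool.Agent.H17L

open Pool.Agent.H17BP (Surface IsChart Tan Pr HolP ResN)
open Pool.Agent.H36.BP (EN)
open Pool.Agent.H62.EF (Lat MN Sec pr pr_smul pr_eq_iff)
open Pool.Agent.H18.LU (LSec SecAt)
open Pool.Agent.H17N (TMap HSec)
open Pool.Agent.H17EF (coneE LE)
open Pool.Agent.H13.SM (cone)

variable {V : Type} [NormedAddCommGroup V] [NormedSpace ℂ V] [FiniteDimensional ℂ V] {X D : Set V} {Λ : AddSubgroup ℂ} {u : V → ℂ} {M N : ℕ}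

omit [FiniteDimensional ℂ V] in
/-- the global lift of a holomorphic map to the projective space -/
private theorem BaseLC_lift (L : V ≃L[ℂ] EN M) (hX : Surface X) {f : ℂ → V} (hf : ∀ z, HolP f z) (hfX : ∀ z, f z ∈ X) :
    ∃ F : ℂ → EN M, Differentiable ℂ F ∧ ∀ z, ∃ c : ℂ, c ≠ 0 ∧ F z = c • L (f z) := by
  have hf0 : ∀ z, f z ≠ 0 := fun z h0 => hX.zero (h0 ▸ hfX z)
  have hne : ∀ z, (LE M).symm (L (f z)) ≠ 0 := fun z h0 => hf0 z (by simpa using h0)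
  have hhol : Pool.Agent.H17.HolomorphicInto (fun z => Projectivization.mk ℂ ((LE M).symm (L (f z))) (hne z)) Set.univ := by
    intro z _
    obtain ⟨G, hG, hG0, hG1⟩ := hf z
    have h1 : AnalyticAt ℂ (fun w => L (G w)) z := ((L : V →L[ℂ] EN M).analyticAt _).comp hG
    refine ⟨fun w => (LE M).symm (L (G w)), (((LE M).symm : EN M →L[ℂ] (Fin (M + 1) → ℂ)).analyticAt _).comp h1, ?_⟩
    filter_upwards [hG1, hG.continuousAt.eventually_ne hG0] with w hw hw0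
    obtain ⟨c, hc, hw1⟩ := hw
    refine ⟨fun h0 => hw0 (by simpa using h0), ?_⟩
    rw [Projectivization.mk_eq_mk_iff']
    exact ⟨c, by rw [hw1, map_smul, map_smul]⟩
  obtain ⟨F, hF, hF1⟩ := Pool.Agent.H17EF.exists_lift hhol
  refine ⟨F, hF, fun z => ?_⟩
  obtain ⟨h0, h1⟩ := hF1 z
  rw [Projectivization.mk_eq_mk_iff'] at h1
  obtain ⟨a, ha⟩ := h1
  have h2 : a • F z = L (f z) := by
    have h3 := congrArg (fun y => (LE M) y) ha
    simpa using h3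
  have ha0 : a ≠ 0 := by
    rintro rfl
    rw [zero_smul] at h2
    exact hf0 z (by simpa using h2.symm)
  refine ⟨a⁻¹, inv_ne_zero ha0, ?_⟩
  rw [← h2, smul_smul, inv_mul_cancel₀ ha0, one_smul]

/-- `Cl` through a linear isomorphism -/
private theorem BaseLC_cl {V₁ V₂ : Type} [NormedAddCommGroup V₁] [NormedSpace ℂ V₁] [NormedAddCommGroup V₂] [NormedSpace ℂ V₂]
    (L : V₁ ≃L[ℂ] V₂) {ε : ℝ} (hε : 0 < ε) : ∃ ε' : ℝ, 0 < ε' ∧ ∀ x y : V₁, Cl ε' x y → Cl ε (L x) (L y) := by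
  have ha : 0 ≤ ‖(L : V₁ →L[ℂ] V₂)‖ := norm_nonneg _
  have hb : 0 ≤ ‖(L.symm : V₂ →L[ℂ] V₁)‖ := norm_nonneg _
  have hab : 0 < ‖(L : V₁ →L[ℂ] V₂)‖ * ‖(L.symm : V₂ →L[ℂ] V₁)‖ + 1 := by positivity
  refine ⟨ε / (‖(L : V₁ →L[ℂ] V₂)‖ * ‖(L.symm : V₂ →L[ℂ] V₁)‖ + 1), div_pos hε hab, ?_⟩
  rintro x y ⟨c, hc, h⟩
  refine ⟨c, hc, ?_⟩
  have hy : 0 < ‖y‖ := by
    by_contra hn
    have h0 : ‖y‖ = 0 := le_antisymm (not_lt.1 hn) (norm_nonneg _)
    rw [h0, mul_zero] at h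
    exact absurd h (not_lt.2 (norm_nonneg _))
  have h1 : ‖c • L x - L y‖ ≤ ‖(L : V₁ →L[ℂ] V₂)‖ * ‖c • x - y‖ := by
    have e : c • L x - L y = (L : V₁ →L[ℂ] V₂) (c • x - y) := by
      simp
    rw [e]
    exact ContinuousLinearMap.le_opNorm _ _
  have h2 : ‖y‖ ≤ ‖(L.symm : V₂ →L[ℂ] V₁)‖ * ‖L y‖ := by
    have e : y = (L.symm : V₂ →L[ℂ] V₁) (L y) := by
      simp
    calc ‖y‖ = ‖(L.symm : V₂ →L[ℂ] V₁) (L y)‖ := by rw [← e]
      _ ≤ _ := ContinuousLinearMap.le_opNorm _ _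
  have hLy : 0 < ‖L y‖ := by
    rw [norm_pos_iff]
    intro h0
    have h3 : y = 0 := by simpa using h0
    rw [h3, norm_zero] at hy
    exact lt_irrefl _ hy
  calc ‖c • L x - L y‖ ≤ ‖(L : V₁ →L[ℂ] V₂)‖ * ‖c • x - y‖ := h1
    _ ≤ ‖(L : V₁ →L[ℂ] V₂)‖ * (ε / (‖(L : V₁ →L[ℂ] V₂)‖ * ‖(L.symm : V₂ →L[ℂ] V₁)‖ + 1) * ‖y‖) :=
        mul_le_mul_of_nonneg_left h.le ha
    _ ≤ ‖(L : V₁ →L[ℂ] V₂)‖ * (ε / (‖(L : V₁ →L[ℂ] V₂)‖ * ‖(L.symm : V₂ →L[ℂ] V₁)‖ + 1) *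
          (‖(L.symm : V₂ →L[ℂ] V₁)‖ * ‖L y‖)) := by
        gcongr
    _ = (ε * ‖L y‖) * ((‖(L : V₁ →L[ℂ] V₂)‖ * ‖(L.symm : V₂ →L[ℂ] V₁)‖) /
          (‖(L : V₁ →L[ℂ] V₂)‖ * ‖(L.symm : V₂ →L[ℂ] V₁)‖ + 1)) := by ring
    _ < (ε * ‖L y‖) * 1 := by
        refine mul_lt_mul_of_pos_left ?_ (mul_pos hε hLy)
        rw [div_lt_one hab]
        exact lt_add_one _
    _ = ε * ‖L y‖ := mul_one _

theorem finL_of_lsec (L : V ≃L[ℂ] EN M) (hX : Surface X) (hu : TMap X Λ u) (hD : ∀ x ∈ D, ∀ c : ℂ, c ≠ 0 → c • x ∈ D)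
    (h : (LSec (L.symm ⁻¹' X : Set (EN M)) (L.symm ⁻¹' D : Set (EN M)) Λ (fun x => u (L.symm x))).Finite) : FinL X D Λ u := by
  classical
  have hS0 : ∀ F ∈ Sec (L.symm ⁻¹' X : Set (EN M)) Λ (fun x => u (L.symm x)), ∀ z, F z ≠ 0 := by
    intro F hF z h0
    have h1 : L.symm (F z) ∈ X := hF.2.1 z
    rw [h0, map_zero] at h1
    exact hX.zero h1
  let G : (ℂ → MN M) → ℂ → V := fun Φ =>
    if hΦ : Φ ∈ LSec (L.symm ⁻¹' X : Set (EN M)) (L.symm ⁻¹' D : Set (EN M)) Λ (fun x => u (L.symm x)) then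
      fun z => L.symm (hΦ.1.choose z) else fun _ => 0
  refine ⟨G '' LSec (L.symm ⁻¹' X : Set (EN M)) (L.symm ⁻¹' D : Set (EN M)) Λ (fun x => u (L.symm x)), h.image G, fun f hf => ?_⟩
  obtain ⟨hf, Z, hZ1, hZ2, hZ3⟩ := hf
  obtain ⟨F, hF, hFf⟩ := BaseLC_lift L hX hf.1 hf.2.1
  have hFS : F ∈ Sec (L.symm ⁻¹' X : Set (EN M)) Λ (fun x => u (L.symm x)) := by
    refine ⟨hF, fun z => ?_, fun z => ?_⟩
    · obtain ⟨c, hc, hz⟩ := hFf z
      change L.symm (F z) ∈ X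
      rw [hz, map_smul, ContinuousLinearEquiv.symm_apply_apply]
      exact hX.smul _ (hf.2.1 z) c hc
    · obtain ⟨c, hc, hz⟩ := hFf z
      change u (L.symm (F z)) - z ∈ Λ
      rw [hz, map_smul, ContinuousLinearEquiv.symm_apply_apply]
      have h1 := Λ.add_mem (hu.smul _ (hf.2.1 z) c hc) (hf.2.2 z)
      rwa [sub_add_sub_cancel] at h1
  have hf0 : ∀ z, L (f z) ≠ 0 := by
    intro z h0
    have h1 : f z = 0 := by simpa using h0
    exact hX.zero (h1 ▸ hf.2.1 z)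
  have hΦ : (fun z => pr (F z)) ∈ LSec (L.symm ⁻¹' X : Set (EN M)) (L.symm ⁻¹' D : Set (EN M)) Λ (fun x => u (L.symm x)) := by
    refine ⟨⟨F, hFS, fun z => rfl⟩, Z, hZ1, hZ2, fun R ε hε K hK hKZ => ?_⟩
    obtain ⟨ε₁, hε₁, hc₁⟩ := dist_of_cl (M := M) hε
    obtain ⟨ε₂, hε₂, hc₂⟩ := BaseLC_cl L hε₁
    obtain ⟨G₀, hG₀, hG₁⟩ := hZ3 R ε₂ hε₂ K hK hKZ
    obtain ⟨FG, hFG, hFG1⟩ := exists_lift_ball L hX hu hD hG₀
    refine ⟨FG, hFG, fun z hz hzR => ?_⟩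
    have hzb : z ∈ Metric.closedBall (0 : ℂ) R := by simpa [Metric.mem_closedBall, dist_eq_norm] using hzR
    obtain ⟨c, hc, h1⟩ := hFG1 z hzb
    obtain ⟨d, hd, h2⟩ := hFf z
    have hGX : G₀ z ∈ X := (hG₀ z hzb).2.self_of_nhds.1
    have hG0 : L (G₀ z) ≠ 0 := by
      intro h0
      have h3 : G₀ z = 0 := by simpa using h0
      exact hX.zero (h3 ▸ hGX)
    change dist (pr (FG z)) (pr (F z)) < ε
    rw [h1, h2, pr_smul _ hc, pr_smul _ hd]
    exact hc₁ _ _ hG0 (hf0 z) (hc₂ _ _ (hG₁ z hz hzR))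
  refine ⟨G fun z => pr (F z), Set.mem_image_of_mem G hΦ, fun z => ?_⟩
  have hG : G (fun z => pr (F z)) = fun z => L.symm (hΦ.1.choose z) := dif_pos hΦ
  rw [hG]
  have h1 := hΦ.1.choose_spec
  have h2 : pr (F z) = pr (hΦ.1.choose z) := (h1.2 z).symm
  obtain ⟨d, hd, h3⟩ := (pr_eq_iff (hS0 F hFS z) (hS0 _ h1.1 z)).1 h2
  obtain ⟨c, hc, hz⟩ := hFf z
  refine ⟨c⁻¹ * d, mul_ne_zero (inv_ne_zero hc) hd, ?_⟩
  have h4 : f z = c⁻¹ • L.symm (F z) := by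
    rw [hz, map_smul, ContinuousLinearEquiv.symm_apply_apply, smul_smul, inv_mul_cancel₀ hc, one_smul]
  rw [h4, h3, map_smul, smul_smul]

theorem lsec_of_finL {P : Ideal (MvPolynomial (Fin (N + 1)) ℂ)} (hS : Surface (cone P)) {D : Set (Fin (N + 1) → ℂ)} {w : EN N → ℂ}
    (h : FinL (cone P) D Λ (fun x => w (LE N x))) : (LSec (coneE P) ((LE N).symm ⁻¹' D : Set (EN N)) Λ w).Finite := by
  obtain ⟨S, hSf, hSm⟩ := h
  refine (hSf.image fun g : ℂ → Fin (N + 1) → ℂ => fun z => pr (LE N (g z))).subset ?_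
  rintro Φ ⟨⟨F, hF, hFΦ⟩, Z, hZ1, hZ2, hZ3⟩
  have hF0 : ∀ z, F z ≠ 0 := by
    intro z h0
    have h1 : (LE N).symm (F z) ∈ cone P := hF.2.1 z
    rw [h0, map_zero] at h1
    exact hS.zero h1
  have hf : (fun z => (LE N).symm (F z)) ∈ HSec (cone P) Λ (fun x => w (LE N x)) := by
    refine ⟨fun z => ⟨fun z => (LE N).symm (F z), ?_, ?_, Eventually.of_forall fun z => Pool.Agent.H17BP.Pr.refl _⟩, fun z => hF.2.1 z, fun z => ?_⟩
    · exact (((LE N).symm : EN N →L[ℂ] (Fin (N + 1) → ℂ)).analyticAt _).comp (hF.1.analyticAt z)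
    · exact (hF.2.1 z).1
    · change w (LE N ((LE N).symm (F z))) - z ∈ Λ
      rw [ContinuousLinearEquiv.apply_symm_apply]
      exact hF.2.2 z
  have hL : LimSec (cone P) D Λ (fun x => w (LE N x)) (fun z => (LE N).symm (F z)) := by
    refine ⟨hf, Z, hZ1, hZ2, fun R ε hε K hK hKZ => ?_⟩
    obtain ⟨ε₁, hε₁, hc₁⟩ := BaseLC_cl (LE N).symm hε
    obtain ⟨ε₂, hε₂, hc₂⟩ := cl_of_dist (M := N) hε₁
    obtain ⟨G, hG, hG1⟩ := hZ3 R ε₂ hε₂ K hK hKZ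
    refine ⟨fun z => (LE N).symm (G z), fun z hz => ⟨?_, ?_⟩, fun z hz hzR => ?_⟩
    · refine ⟨fun z => (LE N).symm (G z), ?_, ?_, Eventually.of_forall fun z => Pool.Agent.H17BP.Pr.refl _⟩
      · exact (((LE N).symm : EN N →L[ℂ] (Fin (N + 1) → ℂ)).analyticAt _).comp (hG z hz).1
      · intro h0
        have h1 : (LE N).symm (G z) ∈ cone P := (hG z hz).2.self_of_nhds.1
        have h2 : (LE N).symm (G z) = 0 := h0
        rw [h2] at h1
        exact hS.zero h1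
    · filter_upwards [(hG z hz).2] with y hy
      refine ⟨hy.1, hy.2.1, ?_⟩
      rw [ContinuousLinearEquiv.apply_symm_apply]
      exact hy.2.2
    · have hzb : z ∈ Metric.closedBall (0 : ℂ) R := by simpa [Metric.mem_closedBall, dist_eq_norm] using hzR
      have hG0 : G z ≠ 0 := by
        intro h0
        have h1 : (LE N).symm (G z) ∈ cone P := (hG z hzb).2.self_of_nhds.1
        rw [h0, map_zero] at h1
        exact hS.zero h1
      have h2 := hG1 z hz hzR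
      rw [← hFΦ z] at h2
      exact hc₁ _ _ (hc₂ _ _ hG0 (hF0 z) h2)
  obtain ⟨g, hg, hg1⟩ := hSm _ hL
  refine ⟨g, hg, ?_⟩
  funext z
  obtain ⟨c, hc, h1⟩ := hg1 z
  have h2 : F z = c • LE N (g z) := by
    have h3 := congrArg (fun y => (LE N) y) h1
    simpa using h3
  change pr (LE N (g z)) = Φ z
  rw [← hFΦ z, h2, pr_smul _ hc]

theorem lsec_shift {X D : Set (EN N)} {w : EN N → ℂ} (c₀ : ℂ) (h : (LSec X D Λ (fun x => w x - c₀)).Finite) : (LSec X D Λ w).Finite := by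
  have e : ∀ (a z : ℂ), a - c₀ - z = a - (z + c₀) := fun a z => by ring
  refine Set.Finite.of_finite_image (f := fun (f : ℂ → MN N) (z : ℂ) => f (z + c₀)) (h.subset ?_) ?_
  · rintro _ ⟨f, ⟨⟨F, hF, hFf⟩, Z, hZ1, hZ2, hZ3⟩, rfl⟩
    refine ⟨⟨fun z => F (z + c₀), ⟨?_, fun z => hF.2.1 _, fun z => ?_⟩, fun z => hFf (z + c₀)⟩, (fun z => z + c₀) ⁻¹' Z, ?_, ?_, ?_⟩
    · exact hF.1.comp (differentiable_id.add_const c₀)
    · have h1 := hF.2.2 (z + c₀)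
      change w (F (z + c₀)) - c₀ - z ∈ Λ
      rw [e]
      exact h1
    · exact hZ1.preimage (continuous_id.add continuous_const)
    · intro z
      have h1 := hZ2 (z + c₀)
      have h2 : Tendsto (fun y : ℂ => y + c₀) (𝓝[≠] z) (𝓝[≠] (z + c₀)) := by
        refine tendsto_nhdsWithin_of_tendsto_nhds_of_eventually_within _ ?_ ?_
        · exact ((continuous_id.add continuous_const).tendsto z).mono_left nhdsWithin_le_nhds
        · filter_upwards [self_mem_nhdsWithin] with y hy hy1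
          exact hy (add_right_cancel hy1)
      exact h2.eventually h1
    · intro R ε hε K hK hKZ
      have hK' : IsCompact ((fun z => z + c₀) '' K) := hK.image (continuous_id.add continuous_const)
      obtain ⟨G, hG, hG1⟩ := hZ3 (R + ‖c₀‖) ε hε _ hK' (by
        rintro _ ⟨z, hz, rfl⟩
        exact hKZ z hz)
      have hb : ∀ z : ℂ, ‖z‖ ≤ R → ‖z + c₀‖ ≤ R + ‖c₀‖ := fun z hz => (norm_add_le _ _).trans (by linarith)
      refine ⟨fun z => G (z + c₀), fun z hz => ?_, fun z hz hzR => ?_⟩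
      · have hzR : ‖z‖ ≤ R := by simpa [Metric.mem_closedBall, dist_eq_norm] using hz
        have hz' : z + c₀ ∈ Metric.closedBall (0 : ℂ) (R + ‖c₀‖) := by
          rw [Metric.mem_closedBall, dist_zero_right]
          exact hb z hzR
        obtain ⟨h1, h2⟩ := hG (z + c₀) hz'
        refine ⟨h1.comp_of_eq (analyticAt_id.add analyticAt_const) rfl, ?_⟩
        have h3 : Tendsto (fun y : ℂ => y + c₀) (𝓝 z) (𝓝 (z + c₀)) := (continuous_id.add continuous_const).tendsto z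
        filter_upwards [h3.eventually h2] with y hy
        refine ⟨hy.1, hy.2.1, ?_⟩
        rw [e]
        exact hy.2.2
      · exact hG1 (z + c₀) ⟨z, hz, rfl⟩ (hb z hzR)
  · intro f _ g _ hfg
    funext z
    have h1 := congrFun hfg (z - c₀)
    simpa using h1

end Pool.Agent.H17L
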