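import Pool.Agent.H17L.DTr

/-!
# H17L DTrB: the strict transform of the curve `D` near the exceptional curve (second part)

`blow l X` is the blow-up of `X` at `q` (`Ker l q`), `blow l D` the strict transform of `D` (the closure of the part off the exceptional curve).  Facts on `blow l X` (H62/BU/Alg): `dense_sub`, `comp_mem`, `eq_phi`, `ne_of_ne`, `exists_ne`, `comp_smul`, `symm`, `prop` (the last five hold for any set in place of `X`).

* `comp_mem_strict`: pattern `H62.BU.comp_mem`: `y ∈ closure (dense l D)`, the components of the points `y'` of `dense l D` near `y` are `c l_b x • x` with `x ∈ D`, not `0` (near `y b ≠ 0`), so they are in `D`; so `y b ∈ closure D`; `y b ∈ X` (`comp_mem`, `strict_sub`), and if `y b ∉ D` then no point near `y b` is in `D` (`closed`).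
* `strict_sub`: `dense l D ⊆ dense l X`.
* `phi_mem_strict`: `←`: `dense_sub`, `dense_smul`, `phi_mem_dense`.  `→`: a component `c l_b x • x ≠ 0` of the point is in `D` (`comp_mem_strict`).
* `strict_closed`: the complement: if frequently near `y` there are points of `blow l D` then `y ∈ closure (blow l D)`, `y ≠ 0`, `blow_closed`.
* `lu_off`: `y = c • phi l (σ p)`: its components `≠ 0` are multiples of `σ p`; `uB_eq`, `tor.smul`.  `off_chart`: `chart_off` (H62/BU/Off, H17BP/Conv `chart_iff`) and `IsChart.scale`.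
* `exc_pt`: `p.1 ≠ 0` near `0`: `x = σ (e (p.1, p.1 * p.2)) ∈ X` is not a multiple of `q` (`τ x = e (..) ≠ 0 = τ q`; if `x = a • q` then `a` is near `1` and `τ (a • q) = τ q` by `inv`), so some `l b x ≠ 0` (`Ker`); `σ1 p ∈ blow l X` has a component `σ1 p b' ≠ 0`, proportional to `x`, so `l b (σ1 p b') ≠ 0`, and by `eq_phi` `σ1 p` is a multiple of `phi l (σ1 p b')`,
  which is a multiple of `phi l x` (`phi_smul`).
* `lu_exc`: `uB u (σ1 p)` is `u (σ (e ..))` modulo `Λ` for all `p` near `0` (a component of `σ1 p` which is not `0` is proportional to `σ (e ..)`; see the private `BlowR_germ` in H17N/BlowR.lean), and `g (e (p.1, p.1 * p.2))` is analytic, `0` at `0`.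
* `strict_off`: `exc_pt` and `phi_mem_strict` (and `smul`).
* `strict_none`: `q ∉ D`: a component `≠ 0` of `σ1 0` is proportional to `σ (e 0) = q`, not in `D`: `σ1 0 ∉ blow l D` (`comp_mem_strict`); `strict_closed`, continuity of `σ1`.
* `strict_exc`: `AD D σ`, `σ 0 = q`.  Write `e (1, 0) = (a, c)`, `e (0, 1) = (b, d)`: `(e (s, s t)).2 = s (c + d t)`.  If `c = 0` then `a ≠ 0`, `d ≠ 0` (`e` is injective).  For `p.1 ≠ 0`: `σ1 p ∈ blow l D ↔ σ (e ..) ∈ D ↔ c + d p.2 = 0` (`strict_off`).  First case `c = 0`: `↔ p.2 = 0`.  For the points with `p.1 = 0`, `p.2 = 0` (that is `p = 0`): limits of `σ1 (s, 0)`,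
  `blow_closed`.  For `p.1 = 0`, `p.2 ≠ 0` near `0`: suppose `σ1 p ∈ blow l D`; then there are points `y ∈ dense l D` arbitrarily near `σ1 p`; `y = a' • σ1 (τ1 y)` (`right`, valid near `σ1 0`, hence near `σ1 p` for `p` near `0`), `τ1 y` is near `τ1 (σ1 p) = p`, so `(τ1 y).2 ≠ 0`, and `(τ1 y).1 ≠ 0` because `σ1 (0, t)` has components proportional to `q` and so is not in
  `dense l X` (`l_b' q = 0`, but a point `c • phi l x` of `dense` has a component `c l_b x • x` with `l_b (..) ≠ 0`): contradiction to `strict_off`.  Second case `c ≠ 0`: `c + d p.2 ≠ 0` near `0`; the same argument shows that no `y ∈ dense l D` is near `σ1 0`, so `σ1 0 ∉ blow l D`, and `strict_closed`.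
* `curve_blow`: `smooth` at `y ∈ blow l D`: if a component `x = y b ≠ 0` is not a multiple of `q`: `x ∈ D`, `y` is a multiple of `phi l x` (`eq_phi`): the adapted chart `σ` at `x` gives `c • phi l (σ p)`; `phi_mem_strict`, `lu_off`.  Otherwise `q ∈ D`; take the adapted chart `σ` at `q`, `blow_chart` (H17N/BlowP; in its first alternative `σ1 0 = y` would be a multiple of `phi l (σ' 0)`,
  whose components are multiples of `σ' 0`, which is not a multiple of `q` because `l b (σ' 0) ≠ 0`), `strict_exc`: since `y = σ1 0 ∈ blow l D`, `(e (1, 0)).2 = 0` and `AD (blow l D) σ1`; `lu_exc`: the germ on `t = 0` is `s ↦ g (s * a, 0)`, `a ≠ 0`, not identically `0`.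
-/

set_option autoImplicit false

open Topology Filter

namespace Pool.Agent.H17L

open Pool.Agent.H17BP (Surface IsChart Tan Pr HolP ResN)
open Pool.Agent.H62.BU (blow dense phi Ker)
open Pool.Agent.H17N (TMap LU RU TF NonConst ThinF FibB HSec uB aB blow_chart)

variable {V : Type} [NormedAddCommGroup V] [NormedSpace ℂ V] [FiniteDimensional ℂ V] {ι : Type} [Fintype ι] {l : ι → V →L[ℂ] ℂ} {X D : Set V} {q : V}
  {Λ : AddSubgroup ℂ} {u : V → ℂ} {σ : ℂ × ℂ → V} {τ : V → ℂ × ℂ} {e : (ℂ × ℂ) ≃L[ℂ] (ℂ × ℂ)} {σ1 : ℂ × ℂ → ι → V} {τ1 : (ι → V) → ℂ × ℂ}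

private theorem DTrB_lin (e : (ℂ × ℂ) ≃L[ℂ] (ℂ × ℂ)) (s t : ℂ) : e (s, s * t) = s • (e (1, 0) + t • e (0, 1)) := by
  have h1 : ((s, s * t) : ℂ × ℂ) = s • ((1, 0) + t • (0, 1)) := by
    ext <;> simp
  rw [h1, map_smul, map_add, map_smul]

private theorem DTrB_tendsto (e : (ℂ × ℂ) ≃L[ℂ] (ℂ × ℂ)) : Tendsto (fun p : ℂ × ℂ => e (p.1, p.1 * p.2)) (𝓝 0) (𝓝 0) := by
  have h1 : Continuous fun p : ℂ × ℂ => e (p.1, p.1 * p.2) := by fun_prop
  have h2 := h1.tendsto (0 : ℂ × ℂ)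
  have h3 : e ((0 : ℂ × ℂ).1, (0 : ℂ × ℂ).1 * (0 : ℂ × ℂ).2) = 0 := by simp
  rwa [h3] at h2

private theorem DTrB_exc (hl : Ker l q) (h0 : σ 0 = q)
    (hpr : ∀ᶠ p in 𝓝 (0 : ℂ × ℂ), ∀ b, σ1 p b ≠ 0 → Pr (σ1 p b) (σ (e (p.1, p.1 * p.2)))) :
    ∀ᶠ p in 𝓝 (0 : ℂ × ℂ), σ1 p ∈ dense l X → p.1 ≠ 0 := by
  filter_upwards [hpr] with p hp hd hp1
  obtain ⟨x, hx, ⟨b, hb⟩, k, hk, hk1⟩ := hd
  have hx0 : x ≠ 0 := by
    rintro rfl
    exact hb (map_zero _)
  have h2 : σ1 p b = (k * l b x) • x := by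
    rw [hk1, Pi.smul_apply, phi, smul_smul]
  have h3 : σ1 p b ≠ 0 := by
    rw [h2]
    exact smul_ne_zero (mul_ne_zero hk hb) hx0
  obtain ⟨k', hk', h4⟩ := hp b h3
  have h5 : σ (e (p.1, p.1 * p.2)) = q := by
    rw [hp1, zero_mul]
    have : ((0, 0) : ℂ × ℂ) = 0 := rfl
    rw [this, map_zero, h0]
  have h6 : l b q = 0 := (hl q).2 ⟨1, (one_smul _ _).symm⟩ b
  have h7 : l b (σ1 p b) = 0 := by
    rw [h4, h5, map_smul, h6, smul_zero]
  rw [h2, map_smul, smul_eq_mul] at h7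
  exact (mul_ne_zero (mul_ne_zero hk hb) hb) h7

private theorem DTrB_freq (hD : CurveD X D Λ u) (hl : Ker l q) (h0 : σ 0 = q) (h1 : IsChart (blow l X) σ1 τ1)
    (hpr : ∀ᶠ p in 𝓝 (0 : ℂ × ℂ), ∀ b, σ1 p b ≠ 0 → Pr (σ1 p b) (σ (e (p.1, p.1 * p.2)))) :
    ∀ᶠ p in 𝓝 (0 : ℂ × ℂ), σ1 p ∈ blow l D → ∃ᶠ p' in 𝓝 p, p'.1 ≠ 0 ∧ σ1 p' ∈ blow l D := by
  have hsub : dense l D ⊆ dense l X := by
    rintro y ⟨x, hx, hb, c, hc, rfl⟩
    exact ⟨x, hD.sub hx, hb, c, hc, rfl⟩
  have hr := h1.σ_an.continuousAt.eventually h1.right.eventually_nhds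
  have ht := h1.σ_an.continuousAt.eventually h1.τ_an.eventually_analyticAt
  have he := (DTrB_exc (X := X) hl h0 hpr).eventually_nhds
  filter_upwards [hr, ht, he, h1.left] with p hr ht he hleft hp
  have h2 : ∃ᶠ y in 𝓝 (σ1 p), y ∈ dense l D := mem_closure_iff_frequently.1 hp.1
  have h3 : Tendsto τ1 (𝓝 (σ1 p)) (𝓝 p) := by
    have h4 := ht.continuousAt.tendsto
    rwa [hleft] at h4
  refine h3.frequently ((h2.and_eventually (hr.and (h3.eventually he))).mono ?_)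
  rintro y ⟨hy, hy1, hy2⟩
  obtain ⟨c, hc, hyc⟩ := hy1 (Pool.Agent.H62.BU.dense_sub (hsub hy))
  have h5 : σ1 (τ1 y) = c⁻¹ • y := by
    nth_rw 2 [hyc]
    rw [smul_smul, inv_mul_cancel₀ hc, one_smul]
  have h6 : σ1 (τ1 y) ∈ dense l D := by
    rw [h5]
    exact Pool.Agent.H62.BU.dense_smul hy (inv_ne_zero hc)
  exact ⟨hy2 (hsub h6), Pool.Agent.H62.BU.dense_sub h6⟩

theorem strict_exc (hX : Surface X) (hD : CurveD X D Λ u) (hl : Ker l q) (h : IsChart X σ τ) (h0 : σ 0 = q) (hA : AD D σ)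
    (h1 : IsChart (blow l X) σ1 τ1) (hpr : ∀ᶠ p in 𝓝 (0 : ℂ × ℂ), ∀ b, σ1 p b ≠ 0 → Pr (σ1 p b) (σ (e (p.1, p.1 * p.2)))) :
    ((e (1, 0)).2 = 0 → AD (blow l D) σ1) ∧ ((e (1, 0)).2 ≠ 0 → ∀ᶠ p in 𝓝 (0 : ℂ × ℂ), σ1 p ∉ blow l D) := by
  have hoff : ∀ᶠ p in 𝓝 (0 : ℂ × ℂ), p.1 ≠ 0 → (σ1 p ∈ blow l D ↔ (e (1, 0)).2 + p.2 * (e (0, 1)).2 = 0) := by
    filter_upwards [strict_off hX hD hl h h0 h1 hpr, (DTrB_tendsto e).eventually hA] with p hp hpA hp1
    rw [hp hp1, hpA, DTrB_lin]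
    simp only [Prod.smul_snd, Prod.snd_add, smul_eq_mul, mul_eq_zero, hp1, false_or]
  have hcl : ∀ᶠ p in 𝓝 (0 : ℂ × ℂ), σ1 p ∈ blow l D → (e (1, 0)).2 + p.2 * (e (0, 1)).2 = 0 := by
    filter_upwards [DTrB_freq hD hl h0 h1 hpr, hoff.eventually_nhds] with p hp hpo hpD
    have h2 : ∃ᶠ p' in 𝓝 p, (e (1, 0)).2 + p'.2 * (e (0, 1)).2 = 0 := by
      refine ((hp hpD).and_eventually hpo).mono ?_
      rintro p' ⟨⟨a1, a2⟩, a3⟩
      exact (a3 a1).1 a2
    have h3 : ContinuousAt (fun p' : ℂ × ℂ => (e (1, 0)).2 + p'.2 * (e (0, 1)).2) p := by fun_prop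
    exact tendsto_nhds_unique_of_frequently_eq h3 tendsto_const_nhds h2
  constructor
  · intro hc
    have hd : (e (0, 1)).2 ≠ 0 := by
      intro hd
      have h2 : ∀ w : ℂ × ℂ, (e w).2 = 0 := by
        intro w
        have h3 : w = w.1 • ((1, 0) : ℂ × ℂ) + w.2 • ((0, 1) : ℂ × ℂ) := by
          ext <;> simp
        rw [h3, map_add, map_smul, map_smul]
        simp [hc, hd]
      have h4 := h2 (e.symm (0, 1))
      rw [e.apply_symm_apply] at h4
      exact one_ne_zero h4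
    have hz : σ1 0 ∈ blow l D := by
      refine Pool.Agent.H62.BU.blow_closed _ ?_ h1.ne
      have h2 : Tendsto (fun s : ℂ => ((s, 0) : ℂ × ℂ)) (𝓝[≠] 0) (𝓝 0) := by
        have h3 : Continuous fun s : ℂ => ((s, 0) : ℂ × ℂ) := by fun_prop
        exact (h3.tendsto 0).mono_left nhdsWithin_le_nhds
      have h4 : Tendsto (fun s : ℂ => σ1 (s, 0)) (𝓝[≠] 0) (𝓝 (σ1 0)) := h1.σ_an.continuousAt.tendsto.comp h2
      refine mem_closure_of_tendsto h4 ?_
      filter_upwards [h2.eventually hoff, self_mem_nhdsWithin] with s hs hs1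
      refine (hs hs1).2 ?_
      simp [hc]
    filter_upwards [hoff, hcl] with p hp hp1
    constructor
    · intro h2
      have h3 := hp1 h2
      rw [hc, zero_add] at h3
      exact (mul_eq_zero.1 h3).resolve_right hd
    · intro h2
      by_cases h3 : p.1 = 0
      · have h4 : p = 0 := Prod.ext h3 h2
        rw [h4]
        exact hz
      · refine (hp h3).2 ?_
        rw [hc, h2]
        ring
  · intro hc
    have h2 : ∀ᶠ p in 𝓝 (0 : ℂ × ℂ), (e (1, 0)).2 + p.2 * (e (0, 1)).2 ≠ 0 := by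
      have h3 : ContinuousAt (fun p' : ℂ × ℂ => (e (1, 0)).2 + p'.2 * (e (0, 1)).2) 0 := by fun_prop
      refine h3.eventually_ne ?_
      simpa using hc
    filter_upwards [hcl, h2] with p hp hp1 hp2
    exact hp1 (hp hp2)

theorem curve_blow (hX : Surface X) (hu : TMap X Λ u) (hD : CurveD X D Λ u) (hl : Ker l q) (hq : q ∈ X) :
    CurveD (blow l X) (blow l D) Λ (uB u) := by
  refine ⟨strict_sub hD, fun y hy c hc => Pool.Agent.H62.BU.blow_smul y hy c hc, fun y hy hn => strict_closed hy hn, ?_⟩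
  intro y hy
  have hyX := strict_sub (l := l) hD hy
  by_cases hcase : ∃ b b', y b ≠ 0 ∧ l b' (y b) ≠ 0
  · obtain ⟨b, b', hb, hb'⟩ := hcase
    have hxD : y b ∈ D := comp_mem_strict hX hD hy hb
    have hk : l b (y b) ≠ 0 := Pool.Agent.H62.BU.ne_of_ne y hyX hb hb'
    have hk' : (l b (y b))⁻¹ ≠ 0 := inv_ne_zero hk
    obtain ⟨σ, τ, g, h, h0, hA, hg, hn⟩ := hD.smooth _ hxD
    have hbσ : ∃ b, l b (σ 0) ≠ 0 := ⟨b', by rw [h0]; exact hb'⟩
    obtain ⟨τ', h'⟩ := off_chart hX h hbσ hk'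
    refine ⟨_, τ', g, h', ?_, ?_, lu_off hX hu h hbσ hk' hg, hn⟩
    · simp only [h0]
      exact (Pool.Agent.H62.BU.eq_phi y hyX hb hb').symm
    · have h2 : ∀ᶠ p in 𝓝 (0 : ℂ × ℂ), l b' (σ p) ≠ 0 := by
        have h3 : ContinuousAt (fun p => l b' (σ p)) 0 := (l b').continuous.continuousAt.comp h.σ_an.continuousAt
        refine h3.eventually_ne ?_
        rw [h0]
        exact hb'
      filter_upwards [h.σ_mem, h2, hA] with p hp hp2 hpA
      rw [phi_mem_strict hX hD hp ⟨b', hp2⟩ hk', hpA]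
  · push Not at hcase
    obtain ⟨b, hb⟩ := Pool.Agent.H62.BU.exists_ne y hyX
    obtain ⟨k, hk⟩ := (hl (y b)).1 fun b' => hcase b b' hb
    have hk0 : k ≠ 0 := by
      rintro rfl
      rw [zero_smul] at hk
      exact hb hk
    have hqD : q ∈ D := by
      have h2 := hD.smul _ (comp_mem_strict hX hD hy hb) k⁻¹ (inv_ne_zero hk0)
      rwa [hk, smul_smul, inv_mul_cancel₀ hk0, one_smul] at h2
    obtain ⟨σ, τ, g, h, h0, hA, hg, hn⟩ := hD.smooth _ hqD
    rcases blow_chart hX hl h h0 hyX with ⟨σ', τ', σ1, τ1, h', ⟨b1, hb1⟩, h1, h10, ⟨c, hc, hc1⟩, -⟩ | ⟨e, σ1, τ1, h1, h10, hpr⟩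
    · exfalso
      have h2 : y b1 = (c * l b1 (σ' 0)) • σ' 0 := by
        rw [← h10, hc1, Pi.smul_apply, phi, smul_smul]
      have h3 : y b1 ≠ 0 := by
        rw [h2]
        exact smul_ne_zero (mul_ne_zero hc hb1) h'.ne
      have h4 := hcase b1 b1 h3
      rw [h2, map_smul, smul_eq_mul] at h4
      exact (mul_ne_zero (mul_ne_zero hc hb1) hb1) h4
    · obtain ⟨h2, h3⟩ := strict_exc hX hD hl h h0 hA h1 hpr
      have hc : (e (1, 0)).2 = 0 := by
        by_contra hc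
        have h4 := (h3 hc).self_of_nhds
        rw [h10] at h4
        exact h4 hy
      have ha : (e (1, 0)).1 ≠ 0 := by
        intro ha
        have h4 : e (1, 0) = 0 := Prod.ext ha hc
        have h5 : ((1, 0) : ℂ × ℂ) = 0 := e.injective (by rw [h4, map_zero])
        exact one_ne_zero (congrArg Prod.fst h5)
      refine ⟨σ1, τ1, _, h1, h10, h2 hc, lu_exc hX hu h h1 hpr hg, ?_⟩
      intro h4
      apply hn
      have h5 : Tendsto (fun s : ℂ => s * ((e (1, 0)).1)⁻¹) (𝓝 0) (𝓝 0) := by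
        have h6 : Continuous fun s : ℂ => s * ((e (1, 0)).1)⁻¹ := by fun_prop
        simpa using h6.tendsto 0
      filter_upwards [h5.eventually h4] with s hs
      simp only [DTrB_lin, zero_smul, add_zero] at hs
      have h6 : (s * ((e (1, 0)).1)⁻¹) • e (1, 0) = (s, 0) := by
        refine Prod.ext ?_ ?_
        · simp [ha]
        · simp [hc]
      rwa [h6] at hs

end Pool.Agent.H17L
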