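import Pool.Agent.H17L.BlowO
import Pool.Agent.H17L.DTrB
import Pool.Agent.H17L.CfT

/-!
# H17L BlowL: logarithmic poles on the blow-up

`cf α υ σ p` is the coefficient of the form in the parametrisation `σ`.

* `cf_trans` (CfT): the coefficients in two parametrisations `φ`, `ψ ∘ β` which are proportional.
* `logV_blow`.  Let `y ∈ blow l X`, `Z = Zs X D Λ u B`, `Z' = Zs (blow l X) (blow l D) Λ (uB u) B`.  `blow_chart` (H17N/BlowP) for the chart `σ` at `q` given by `h q`.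
  First alternative (`y = c • phi l x`, `x = σ' 0 ∈ X`, `l b x ≠ 0`): take instead of `σ'` the chart `σ₂` at `x` given by `h x`; `σ1 = c • phi l (σ₂ p)` (`off_chart`) is a chart at `y`.  `AD D σ₂` gives `AD (blow l D) σ1` and `x ∉ D` gives `y ∉ blow l D` (`phi_mem_strict`).  A lift `υ` of `uB u` along `σ1` is a lift of `u` along `σ₂` (`uB_eq`, `smul`).  For `σ1 p ∉ Z'`:
  `σ₂ p ∉ Z` and `cf (aB α) υ σ1 p = cf α υ (fun p => σ1 p b) p = cf α υ σ₂ p` (`aB_openEq`, then `cf_trans` with `β = id`, as `σ1 p b = (c l_b (σ₂ p)) • σ₂ p`), where `b` is fixed with `l b x ≠ 0`.  So the same `g` works.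
  Second alternative: `σ1` with `Pr (σ1 p b) (σ (β p))`, `β p = e (p.1, p.1 * p.2)`, `y = σ1 0`.  Let `υ1` be a lift of `uB u` along `σ1`.  There is a lift `υ` of `u` along `σ` with `υ (β p) = υ1 p` for `p` near `0`: take any lift `υ'` (`tor.loc`); `υ1 - υ' ∘ β` has values in `Λ` near `0` (`uB_eq`, `smul`) and is continuous, so it is a constant `λ ∈ Λ` near `0` (discreteness of `Λ`); `υ = υ' + λ`.
  For `σ1 p ∉ Z'`, `p` near `0`: `p.1 ≠ 0` (the points with `p.1 = 0` lie over `u q`, so over `B`), `σ (β p) ∉ Z` (`exc_pt`, `mem_open`/`phi_mem_strict`) and `cf (aB α) υ1 σ1 p = k * p.1 * cf α υ σ (β p)`, `k = det e ≠ 0` (`aB_openEq` for the component `b` with `σ1 0 b ≠ 0`, `cf_trans`; the Jacobian of `β` is `k * p.1`).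
  (a) `q ∉ D`: `cf α υ σ (β p) = g (β p)`, so the coefficient is `k * p.1 * g (β p)`, analytic; `y ∉ blow l D` (`strict_none`).
  (b) `AD D σ`: `(β p).2 = p.1 * (c + d * p.2)` with `e (1, 0) = (a, c)`, `e (0, 1) = (b', d)`; `(β p).2 * cf α υ σ (β p) = g (β p)`, so `(c + d * p.2) * cf (aB α) υ1 σ1 p = k * g (β p)` (as `p.1 ≠ 0`).  `strict_exc`: if `c ≠ 0` then `y ∉ blow l D` and the coefficient is the analytic function `k * g (β p) / (c + d * p.2)`; if `c = 0` then `d ≠ 0`, `AD (blow l D) σ1` and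
  `p.2 * coefficient = k * g (β p) / d`.
-/

set_option autoImplicit false

open Topology Filter

namespace Pool.Agent.H17L

open Pool.Agent.H17BP (Surface IsChart Tan Pr HolP ResN)
open Pool.Agent.H62.BU (blow dense phi Ker)
open Pool.Agent.H17N (TMap LU RU TF NonConst ThinF FibB HSec uB aB blow_chart)

variable {V : Type} [NormedAddCommGroup V] [NormedSpace ℂ V] [FiniteDimensional ℂ V] {ι : Type} [Fintype ι] {l : ι → V →L[ℂ] ℂ} {X D : Set V} {q : V}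
  {Λ Γ : AddSubgroup ℂ} {u : V → ℂ} {B : Set ℂ} {α : ℂ → V → V → V → ℂ}

private theorem BlowL_comp {φ : ℂ × ℂ → ι → V} {p : ℂ × ℂ} (hφ : AnalyticAt ℂ φ p) (b : ι) :
    AnalyticAt ℂ (fun y => φ y b) p ∧ ∀ w : ℂ × ℂ, fderiv ℂ (fun y => φ y b) p w = (fderiv ℂ φ p w) b := by
  refine ⟨AnalyticAt.comp ((ContinuousLinearMap.proj (R := ℂ) (φ := fun _ : ι => V) b).analyticAt _) hφ, fun w => ?_⟩
  have h6 : HasFDerivAt (fun y => φ y b)
      ((ContinuousLinearMap.proj (R := ℂ) (φ := fun _ : ι => V) b).comp (fderiv ℂ φ p)) p :=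
    ((ContinuousLinearMap.proj (R := ℂ) (φ := fun _ : ι => V) b).hasFDerivAt (x := φ p)).comp p hφ.differentiableAt.hasFDerivAt
  rw [h6.fderiv]
  rfl

/-- the complement of `Z` is open in the surface -/
private theorem BlowL_open {W : Type} [NormedAddCommGroup W] [NormedSpace ℂ W] {Y E : Set W} {w : W → ℂ} (hw : TMap Y Λ w)
    (hE : CurveD Y E Λ w) (hBc : ∀ z : ℂ, (∀ b ∈ B, z - b ∉ Λ) → ∀ᶠ w in 𝓝 z, ∀ b ∈ B, w - b ∉ Λ) {x : W} (hx : x ∈ Y)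
    (hz : x ∉ Zs Y E Λ w B) : ∀ᶠ y in 𝓝 x, y ∉ Zs Y E Λ w B := by
  have h1 : x ∉ E := fun h => hz (Or.inl h)
  have h2 : ∀ b ∈ B, w x - b ∉ Λ := fun b hb h => hz (Or.inr ⟨hx, b, hb, h⟩)
  obtain ⟨v, hv, hv2⟩ := hw.loc x hx
  have h3 := hv2.self_of_nhds hx
  have h4 : ∀ b ∈ B, v x - b ∉ Λ := by
    intro b hb h
    refine h2 b hb ?_
    have h5 := Λ.add_mem h3 h
    have h6 : w x - v x + (v x - b) = w x - b := by ring
    rwa [h6] at h5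
  have h5 := hv.continuousAt.eventually (hBc (v x) h4)
  filter_upwards [hE.closed x hx h1, hv2, h5] with y e1 e2 e3
  rintro (h | ⟨hy, b, hb, h⟩)
  · exact e1 h
  · refine e3 b hb ?_
    have h6 := Λ.sub_mem h (e2 hy)
    have h7 : w y - b - (w y - v y) = v y - b := by ring
    rwa [h7] at h6

private theorem BlowL_smul (hX : Surface X) (hu : TMap X Λ u) (hD : CurveD X D Λ u) :
    ∀ x ∈ X \ Zs X D Λ u B, ∀ c : ℂ, c ≠ 0 → c • x ∈ X \ Zs X D Λ u B := by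
  rintro x ⟨hx, hz⟩ c hc
  refine ⟨hX.smul x hx c hc, ?_⟩
  rintro (h | ⟨hy, b, hb, h⟩)
  · refine hz (Or.inl ?_)
    have h1 := hD.smul _ h c⁻¹ (inv_ne_zero hc)
    rwa [smul_smul, inv_mul_cancel₀ hc, one_smul] at h1
  · refine hz (Or.inr ⟨hx, b, hb, ?_⟩)
    have h1 := Λ.sub_mem h (hu.smul x hx c hc)
    have h2 : u (c • x) - b - (u (c • x) - u x) = u x - b := by ring
    rwa [h2] at h1

private theorem BlowL_pr (hu : TMap X Λ u) {x y : V} (hy : y ∈ X) (h : Pr x y) : u x - u y ∈ Λ := by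
  obtain ⟨c, hc, rfl⟩ := h
  exact hu.smul y hy c hc

/-- the comparison of the coefficients -/
private theorem BlowL_step (hX : Surface X) (hu : TMap X Λ u) (hD : CurveD X D Λ u)
    (hα : TF (X \ Zs X D Λ u B) Λ u α) (hl : Ker l q) (hq : q ∈ X) (hB : ∃ b ∈ B, u q - b ∈ Λ)
    (hBc : ∀ z : ℂ, (∀ b ∈ B, z - b ∉ Λ) → ∀ᶠ w in 𝓝 z, ∀ b ∈ B, w - b ∉ Λ)
    {σ1 : ℂ × ℂ → ι → V} {τ1 : (ι → V) → ℂ × ℂ} (h1 : IsChart (blow l X) σ1 τ1) {ψ : ℂ × ℂ → V} {τ : V → ℂ × ℂ} (hψ : IsChart X ψ τ)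
    {β : ℂ × ℂ → ℂ × ℂ} (hβ : AnalyticAt ℂ β 0) (hβ0 : β 0 = 0)
    (hpr : ∀ᶠ p in 𝓝 (0 : ℂ × ℂ), ∀ b, σ1 p b ≠ 0 → Pr (σ1 p b) (ψ (β p)))
    (hoff : ∀ᶠ p in 𝓝 (0 : ℂ × ℂ), σ1 p ∉ Zs (blow l X) (blow l D) Λ (uB u) B → ψ (β p) ∉ D)
    {υ1 : ℂ × ℂ → ℂ} (hυ : Lf Λ (uB u) σ1 υ1) :
    ∀ᶠ p in 𝓝 (0 : ℂ × ℂ), u (ψ (β p)) - υ1 p ∈ Λ ∧ (σ1 p ∉ Zs (blow l X) (blow l D) Λ (uB u) B → ψ (β p) ∉ Zs X D Λ u B ∧
      cf (aB α) υ1 σ1 p = ((fderiv ℂ β p (1, 0)).1 * (fderiv ℂ β p (0, 1)).2 - (fderiv ℂ β p (1, 0)).2 * (fderiv ℂ β p (0, 1)).1) *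
        α (υ1 p) (ψ (β p)) (fderiv ℂ ψ (β p) (1, 0)) (fderiv ℂ ψ (β p) (0, 1))) := by
  have hX' := H17BP.surface_iff.2 hX
  have hD' := curve_blow hX hu hD hl hq
  have hu' := H17N.tmap_blow (l := l) hX hu
  obtain ⟨b, hb0⟩ := H62.BU.exists_ne (σ1 0) h1.σ_mem.self_of_nhds
  have hβt : Tendsto β (𝓝 0) (𝓝 0) := by
    have := hβ.continuousAt.tendsto
    rwa [hβ0] at this
  have hne2 : ∀ᶠ p in 𝓝 (0 : ℂ × ℂ), σ1 p b ≠ 0 := (BlowL_comp h1.σ_an b).1.continuousAt.eventually_ne hb0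
  have hneσ : ∀ᶠ p in 𝓝 (0 : ℂ × ℂ), ψ (β p) ≠ 0 := hβt.eventually (hψ.σ_an.continuousAt.eventually_ne hψ.ne)
  filter_upwards [hne2.eventually_nhds, hneσ, hpr.eventually_nhds, hoff, hυ.2, h1.σ_an.eventually_analyticAt, h1.σ_mem.eventually_nhds,
    hβ.eventually_analyticAt, hβt.eventually hψ.σ_an.eventually_analyticAt, hβt.eventually hψ.σ_mem.eventually_nhds]
    with p e1 e2 e3 e4 e5 e6 e7 e8 e9 e10
  have f0 : σ1 p b ≠ 0 := e1.self_of_nhds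
  have f1 : Pr (σ1 p b) (ψ (β p)) := e3.self_of_nhds b f0
  have f2 : ψ (β p) ∈ X := e10.self_of_nhds
  have f3 := H17N.uB_eq hX hu e7.self_of_nhds f0
  have f4 := BlowL_pr hu f2 f1
  have f5 : u (σ1 p b) - υ1 p ∈ Λ := by
    have h2 := Λ.sub_mem e5 f3
    have h3 : uB u (σ1 p) - υ1 p - (uB u (σ1 p) - u (σ1 p b)) = u (σ1 p b) - υ1 p := by ring
    rwa [h3] at h2
  have f6 : u (ψ (β p)) - υ1 p ∈ Λ := by
    have h2 := Λ.sub_mem f5 f4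
    have h3 : u (σ1 p b) - υ1 p - (u (σ1 p b) - u (ψ (β p))) = u (ψ (β p)) - υ1 p := by ring
    rwa [h3] at h2
  refine ⟨f6, fun hz => ?_⟩
  have f7 : ψ (β p) ∉ Zs X D Λ u B := by
    rintro (h | ⟨hy, b', hb', h⟩)
    · exact e4 hz h
    · refine hz (Or.inr ⟨e7.self_of_nhds, b', hb', ?_⟩)
      have h2 := Λ.add_mem (Λ.add_mem f3 f4) h
      have h3 : uB u (σ1 p) - u (σ1 p b) + (u (σ1 p b) - u (ψ (β p))) + (u (ψ (β p)) - b') = uB u (σ1 p) - b' := by ring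
      rwa [h3] at h2
  refine ⟨f7, ?_⟩
  have g1 : ∀ᶠ y in 𝓝 p, σ1 y ∈ blow l X \ Zs (blow l X) (blow l D) Λ (uB u) B := by
    filter_upwards [e7, e6.continuousAt.eventually (BlowL_open hu' hD' hBc e7.self_of_nhds hz)] with y h2 h3
    exact ⟨h2, h3⟩
  have g2 : ∀ᶠ y in 𝓝 (β p), ψ y ∈ X \ Zs X D Λ u B := by
    filter_upwards [e10, e9.continuousAt.eventually (BlowL_open hu hD hBc f2 f7)] with y h2 h3
    exact ⟨h2, h3⟩
  show aB α (υ1 p) (σ1 p) (fderiv ℂ σ1 p (1, 0)) (fderiv ℂ σ1 p (0, 1)) = _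
  rw [aB_openEq hX hu hD hα hl hq hB g1.self_of_nhds e5 (H62.BU.tan_fderiv e6 g1 (1, 0)) (H62.BU.tan_fderiv e6 g1 (0, 1)) f0,
    ← (BlowL_comp e6 b).2, ← (BlowL_comp e6 b).2]
  exact cf_trans (φ := fun y => σ1 y b) (ψ := ψ) (β := β) (p := p) (BlowL_smul hX hu hD) hα (BlowL_comp e6 b).1 e8 e9 g2 e2 (by
    filter_upwards [e3, e1] with y h4 h5
    exact h4 b h5) f5 f6

/-- the lift of `u` -/
private theorem BlowL_lift (hΛ : ∃ δ : ℝ, 0 < δ ∧ ∀ l ∈ Λ, ‖l‖ < δ → l = 0) (hu : TMap X Λ u) {ψ : ℂ × ℂ → V} {τ : V → ℂ × ℂ}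
    (hψ : IsChart X ψ τ) {β : ℂ × ℂ → ℂ × ℂ} (hβ : AnalyticAt ℂ β 0) (hβ0 : β 0 = 0) {υ1 : ℂ × ℂ → ℂ} (hυa : AnalyticAt ℂ υ1 0)
    (h : ∀ᶠ p in 𝓝 (0 : ℂ × ℂ), u (ψ (β p)) - υ1 p ∈ Λ) :
    ∃ υ, Lf Λ u ψ υ ∧ ∀ᶠ p in 𝓝 (0 : ℂ × ℂ), υ (β p) = υ1 p := by
  obtain ⟨g, hga, hg0, hg⟩ := H17N.exists_lu hu hψ
  have h0 : u (ψ 0) - υ1 0 ∈ Λ := by
    have h3 := h.self_of_nhds
    rwa [hβ0] at h3
  have hlift : ∀ᶠ p in 𝓝 (0 : ℂ × ℂ), u (ψ p) - (υ1 0 + g p) ∈ Λ := by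
    filter_upwards [hg] with p h3
    have h4 := Λ.add_mem h3 h0
    have h5 : u (ψ p) - u (ψ 0) - g p + (u (ψ 0) - υ1 0) = u (ψ p) - (υ1 0 + g p) := by ring
    rwa [h5] at h4
  refine ⟨fun p => υ1 0 + g p, ⟨analyticAt_const.add hga, hlift⟩, ?_⟩
  have hβt : Tendsto β (𝓝 0) (𝓝 0) := by
    have := hβ.continuousAt.tendsto
    rwa [hβ0] at this
  have huniq : ∀ᶠ p in 𝓝 (0 : ℂ × ℂ), g (β p) = υ1 p - υ1 0 := by
    refine H17N.LU.unique (a := fun p => u (ψ (β p)) - υ1 0) (g := fun p => g (β p)) (g' := fun p => υ1 p - υ1 0) hΛ ?_ ?_ ?_ ?_ ?_ ?_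
    · refine AnalyticAt.comp (g := g) (f := β) ?_ hβ
      rw [hβ0]
      exact hga
    · exact hυa.sub analyticAt_const
    · simp only [hβ0, hg0]
    · simp only [sub_self]
    · filter_upwards [hβt.eventually hlift] with p h3
      have h5 : u (ψ (β p)) - υ1 0 - g (β p) = u (ψ (β p)) - (υ1 0 + g (β p)) := by ring
      rw [h5]
      exact h3
    · filter_upwards [h] with p h3
      have h5 : u (ψ (β p)) - υ1 0 - (υ1 p - υ1 0) = u (ψ (β p)) - υ1 p := by ring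
      rw [h5]
      exact h3
  filter_upwards [huniq] with p h3
  rw [h3]
  ring

private theorem BlowL_det (e : (ℂ × ℂ) ≃L[ℂ] (ℂ × ℂ)) : (e (1, 0)).1 * (e (0, 1)).2 - (e (1, 0)).2 * (e (0, 1)).1 ≠ 0 := by
  intro hdet
  have h4 : (e (0, 1)).2 • (1, 0) - (e (1, 0)).2 • (0, 1) = (0 : ℂ × ℂ) ∧ (e (0, 1)).1 • (1, 0) - (e (1, 0)).1 • (0, 1) = (0 : ℂ × ℂ) := by
    constructor
    · apply e.injective
      rw [map_sub, map_smul, map_smul, map_zero]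
      ext
      · simp only [Prod.fst_sub, Prod.smul_fst, smul_eq_mul, Prod.fst_zero]
        linear_combination hdet
      · simp only [Prod.snd_sub, Prod.smul_snd, smul_eq_mul, Prod.snd_zero]
        ring
    · apply e.injective
      rw [map_sub, map_smul, map_smul, map_zero]
      ext
      · simp only [Prod.fst_sub, Prod.smul_fst, smul_eq_mul, Prod.fst_zero]
        ring
      · simp only [Prod.snd_sub, Prod.smul_snd, smul_eq_mul, Prod.snd_zero]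
        linear_combination -hdet
  obtain ⟨h5, h6⟩ := h4
  rw [Prod.ext_iff] at h5 h6
  simp only [Prod.fst_sub, Prod.snd_sub, Prod.smul_fst, Prod.smul_snd, smul_eq_mul, mul_one, mul_zero, Prod.fst_zero,
    Prod.snd_zero, sub_zero, zero_sub, neg_eq_zero] at h5 h6
  have h7 : e (1, 0) = 0 := Prod.ext h6.2 h5.2
  have h8 := e.injective (h7.trans (map_zero e).symm)
  simp at h8

/-- the map `β` -/
private theorem BlowL_beta (e : (ℂ × ℂ) ≃L[ℂ] (ℂ × ℂ)) : AnalyticAt ℂ (fun p : ℂ × ℂ => e (p.1, p.1 * p.2)) 0 ∧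
    (∀ p w : ℂ × ℂ, fderiv ℂ (fun p : ℂ × ℂ => e (p.1, p.1 * p.2)) p w = e (w.1, p.1 * w.2 + p.2 * w.1)) ∧
    ∀ p : ℂ × ℂ, (fderiv ℂ (fun p : ℂ × ℂ => e (p.1, p.1 * p.2)) p (1, 0)).1 * (fderiv ℂ (fun p : ℂ × ℂ => e (p.1, p.1 * p.2)) p (0, 1)).2 -
      (fderiv ℂ (fun p : ℂ × ℂ => e (p.1, p.1 * p.2)) p (1, 0)).2 * (fderiv ℂ (fun p : ℂ × ℂ => e (p.1, p.1 * p.2)) p (0, 1)).1 =
      ((e (1, 0)).1 * (e (0, 1)).2 - (e (1, 0)).2 * (e (0, 1)).1) * p.1 := by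
  have h0 : AnalyticAt ℂ (fun p : ℂ × ℂ => e (p.1, p.1 * p.2)) 0 := by
    refine AnalyticAt.comp (g := fun p => e p) (f := fun p : ℂ × ℂ => ((p.1, p.1 * p.2) : ℂ × ℂ))
      (e.toContinuousLinearMap.analyticAt _) ?_
    exact analyticAt_fst.prod (analyticAt_fst.mul analyticAt_snd)
  have h1 : ∀ p w : ℂ × ℂ, fderiv ℂ (fun p : ℂ × ℂ => e (p.1, p.1 * p.2)) p w = e (w.1, p.1 * w.2 + p.2 * w.1) := by
    intro p w
    have hin : HasFDerivAt (fun p : ℂ × ℂ => ((p.1, p.1 * p.2) : ℂ × ℂ))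
        ((ContinuousLinearMap.fst ℂ ℂ ℂ).prod (p.1 • ContinuousLinearMap.snd ℂ ℂ ℂ + p.2 • ContinuousLinearMap.fst ℂ ℂ ℂ)) p :=
      hasFDerivAt_fst.prodMk (hasFDerivAt_fst.mul hasFDerivAt_snd)
    have h3 : HasFDerivAt (fun p : ℂ × ℂ => e (p.1, p.1 * p.2)) ((e.toContinuousLinearMap).comp
        ((ContinuousLinearMap.fst ℂ ℂ ℂ).prod (p.1 • ContinuousLinearMap.snd ℂ ℂ ℂ + p.2 • ContinuousLinearMap.fst ℂ ℂ ℂ))) p :=
      (e.toContinuousLinearMap.hasFDerivAt).comp p hin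
    rw [h3.fderiv]
    simp
  refine ⟨h0, h1, fun p => ?_⟩
  rw [h1, h1]
  have h8 : ∀ a b : ℂ, e (a, b) = a • e (1, 0) + b • e (0, 1) := by
    intro a b
    rw [← map_smul, ← map_smul, ← map_add]
    simp
  simp only
  rw [h8 1 (p.1 * 0 + p.2 * 1), h8 0 (p.1 * 1 + p.2 * 0)]
  simp only [Prod.fst_add, Prod.snd_add, Prod.smul_fst, Prod.smul_snd, smul_eq_mul]
  ring

theorem logV_blow (hΛ : ∃ δ : ℝ, 0 < δ ∧ ∀ l ∈ Λ, ‖l‖ < δ → l = 0) (hX : Surface X) (hu : TMap X Λ u) (hD : CurveD X D Λ u)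
    (hα : TF (X \ Zs X D Λ u B) Λ u α) (hl : Ker l q) (hq : q ∈ X) (hB : ∃ b ∈ B, u q - b ∈ Λ)
    (hBc : ∀ z : ℂ, (∀ b ∈ B, z - b ∉ Λ) → ∀ᶠ w in 𝓝 z, ∀ b ∈ B, w - b ∉ Λ) (h : LogV X D (Zs X D Λ u B) Λ u α) :
    LogV (blow l X) (blow l D) (Zs (blow l X) (blow l D) Λ (uB u) B) Λ (uB u) (aB α) := by
  intro y hy
  obtain ⟨σ, τ, hσ, hσ0, hprop⟩ := h q hq
  rcases blow_chart hX hl hσ hσ0 hy with ⟨σ', τ', σ1, τ1, h', ⟨b, hb⟩, h1, h10, ⟨c, hc, hc2⟩, -⟩ | ⟨e, σ1, τ1, h1, h10, hpr⟩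
  · -- off the exceptional curve
    have hxX : σ' 0 ∈ X := h'.σ_mem.self_of_nhds
    obtain ⟨ψ, τψ, hψ, hψ0, hp2⟩ := h (σ' 0) hxX
    have hb' : l b (ψ 0) ≠ 0 := by rw [hψ0]; exact hb
    obtain ⟨τ3, h3⟩ := off_chart (l := l) hX hψ ⟨b, hb'⟩ hc
    have hbe : ∀ᶠ p in 𝓝 (0 : ℂ × ℂ), l b (ψ p) ≠ 0 :=
      ((l b).continuous.continuousAt.comp hψ.σ_an.continuousAt).eventually_ne hb'
    have hD3 : ∀ᶠ p in 𝓝 (0 : ℂ × ℂ), c • phi l (ψ p) ∈ blow l D ↔ ψ p ∈ D := by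
      filter_upwards [hbe, hψ.σ_mem] with p e1 e2
      exact phi_mem_strict hX hD e2 ⟨b, e1⟩ hc
    have hy3 : c • phi l (ψ 0) = y := by rw [← h10, hc2, hψ0]
    have hpr3 : ∀ᶠ p in 𝓝 (0 : ℂ × ℂ), ∀ b, (c • phi l (ψ p)) b ≠ 0 → Pr ((c • phi l (ψ p)) b) (ψ p) := by
      refine Eventually.of_forall fun p b' hb2 => ⟨c * l b' (ψ p), ?_, ?_⟩
      · intro h3
        apply hb2
        simp only [phi, Pi.smul_apply, smul_smul, h3, zero_smul]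
      · simp only [phi, Pi.smul_apply, smul_smul]
    have hoff : ∀ᶠ p in 𝓝 (0 : ℂ × ℂ), c • phi l (ψ p) ∉ Zs (blow l X) (blow l D) Λ (uB u) B → ψ p ∉ D := by
      filter_upwards [hD3] with p e1 e2 e3
      exact e2 (Or.inl (e1.2 e3))
    have key : ∀ υ1, Lf Λ (uB u) (fun p => c • phi l (ψ p)) υ1 → ∃ υ, Lf Λ u ψ υ ∧ ∀ᶠ p in 𝓝 (0 : ℂ × ℂ),
        c • phi l (ψ p) ∉ Zs (blow l X) (blow l D) Λ (uB u) B → ψ p ∉ Zs X D Λ u B ∧
          cf (aB α) υ1 (fun p => c • phi l (ψ p)) p = cf α υ ψ p := by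
      intro υ1 hυ1
      have hst := BlowL_step hX hu hD hα hl hq hB hBc h3 hψ (β := fun p => p) analyticAt_id rfl hpr3 hoff hυ1
      obtain ⟨υ, hυ, hυe⟩ := BlowL_lift hΛ hu hψ (β := fun p => p) analyticAt_id rfl hυ1.1 (hst.mono fun p hp => hp.1)
      refine ⟨υ, hυ, ?_⟩
      filter_upwards [hst, hυe] with p e1 e2 e3
      obtain ⟨e4, e5⟩ := e1.2 e3
      refine ⟨e4, ?_⟩
      rw [e5]
      have h4 : fderiv ℂ (fun p : ℂ × ℂ => p) p = ContinuousLinearMap.id ℂ (ℂ × ℂ) := fderiv_id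
      rw [h4, ← e2]
      simp [cf]
    refine ⟨_, τ3, h3, hy3, ?_⟩
    rcases hp2 with ⟨hn, hg⟩ | ⟨hA, hg⟩
    · refine Or.inl ⟨?_, fun υ1 hυ1 => ?_⟩
      · rw [← hy3]
        intro h4
        have h5 := hD3.self_of_nhds.1 h4
        rw [hψ0] at h5
        exact hn h5
      · obtain ⟨υ, hυ, hk⟩ := key υ1 hυ1
        obtain ⟨g, hga, hge⟩ := hg υ hυ
        refine ⟨g, hga, ?_⟩
        filter_upwards [hk, hge] with p e1 e2 e3
        rw [(e1 e3).2]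
        exact e2 (e1 e3).1
    · refine Or.inr ⟨?_, fun υ1 hυ1 => ?_⟩
      · unfold AD at hA ⊢
        filter_upwards [hD3, hA] with p e1 e2
        exact e1.trans e2
      · obtain ⟨υ, hυ, hk⟩ := key υ1 hυ1
        obtain ⟨g, hga, hge⟩ := hg υ hυ
        refine ⟨g, hga, ?_⟩
        filter_upwards [hk, hge] with p e1 e2 e3
        rw [(e1 e3).2]
        exact e2 (e1 e3).1
  · -- at a point of the exceptional curve
    obtain ⟨hβa, hβd, hβJ⟩ := BlowL_beta e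
    have hdet := BlowL_det e
    obtain ⟨k, hk⟩ : ∃ k, k = (e (1, 0)).1 * (e (0, 1)).2 - (e (1, 0)).2 * (e (0, 1)).1 := ⟨_, rfl⟩
    rw [← hk] at hdet
    obtain ⟨β, hβ⟩ : ∃ β : ℂ × ℂ → ℂ × ℂ, β = fun p => e (p.1, p.1 * p.2) := ⟨_, rfl⟩
    rw [← hβ] at hβa hβJ
    have hβ0 : β 0 = 0 := by
      rw [hβ]
      simp
    have hβt : Tendsto β (𝓝 0) (𝓝 0) := by
      have := hβa.continuousAt.tendsto
      rwa [hβ0] at this
    have hβ2 : ∀ p : ℂ × ℂ, (β p).2 = p.1 * ((e (1, 0)).2 + (e (0, 1)).2 * p.2) := by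
      intro p
      have h8 : e (p.1, p.1 * p.2) = p.1 • e (1, 0) + (p.1 * p.2) • e (0, 1) := by
        rw [← map_smul, ← map_smul, ← map_add]
        simp
      rw [hβ]
      simp only
      rw [h8]
      simp only [Prod.snd_add, Prod.smul_snd, smul_eq_mul]
      ring
    have hpr' : ∀ᶠ p in 𝓝 (0 : ℂ × ℂ), ∀ b, σ1 p b ≠ 0 → Pr (σ1 p b) (σ (β p)) := by
      rw [hβ]
      exact hpr
    -- the points over `q`
    have hexc : ∀ᶠ p in 𝓝 (0 : ℂ × ℂ), σ1 p ∉ Zs (blow l X) (blow l D) Λ (uB u) B → p.1 ≠ 0 := by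
      filter_upwards [hpr', h1.σ_mem] with p e1 e2 e3 e4
      obtain ⟨b, hb⟩ := H62.BU.exists_ne (σ1 p) e2
      have h2 : β p = 0 := by
        rw [hβ]
        simp only [e4, zero_mul]
        exact map_zero e
      have h4 := e1 b hb
      rw [h2, hσ0] at h4
      obtain ⟨b', hb', h5⟩ := hB
      refine e3 (Or.inr ⟨e2, b', hb', ?_⟩)
      have h6 := Λ.add_mem (Λ.add_mem (H17N.uB_eq hX hu e2 hb) (BlowL_pr hu hq h4)) h5
      have h7 : uB u (σ1 p) - u (σ1 p b) + (u (σ1 p b) - u q) + (u q - b') = uB u (σ1 p) - b' := by ring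
      rwa [h7] at h6
    have hoff : ∀ᶠ p in 𝓝 (0 : ℂ × ℂ), σ1 p ∉ Zs (blow l X) (blow l D) Λ (uB u) B → σ (β p) ∉ D := by
      filter_upwards [hexc, strict_off hX hD hl hσ hσ0 h1 hpr] with p e1 e2 e3 e4
      refine e3 (Or.inl ((e2 (e1 e3)).2 ?_))
      rw [hβ] at e4
      exact e4
    have key : ∀ υ1, Lf Λ (uB u) σ1 υ1 → ∃ υ, Lf Λ u σ υ ∧ ∀ᶠ p in 𝓝 (0 : ℂ × ℂ),
        σ1 p ∉ Zs (blow l X) (blow l D) Λ (uB u) B → p.1 ≠ 0 ∧ σ (β p) ∉ Zs X D Λ u B ∧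
          cf (aB α) υ1 σ1 p = k * p.1 * cf α υ σ (β p) := by
      intro υ1 hυ1
      have hst := BlowL_step hX hu hD hα hl hq hB hBc h1 hσ hβa hβ0 hpr' hoff hυ1
      obtain ⟨υ, hυ, hυe⟩ := BlowL_lift hΛ hu hσ hβa hβ0 hυ1.1 (hst.mono fun p hp => hp.1)
      refine ⟨υ, hυ, ?_⟩
      filter_upwards [hst, hυe, hexc] with p e1 e2 e6 e3
      obtain ⟨e4, e5⟩ := e1.2 e3
      refine ⟨e6 e3, e4, ?_⟩
      rw [e5, hβJ, ← hk, ← e2]
      rfl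
    have hgβ : ∀ g : ℂ × ℂ → ℂ, AnalyticAt ℂ g 0 → AnalyticAt ℂ (fun p => g (β p)) 0 := by
      intro g hg
      refine AnalyticAt.comp (g := g) (f := β) ?_ hβa
      rw [hβ0]
      exact hg
    refine ⟨σ1, τ1, h1, h10, ?_⟩
    rcases hprop with ⟨hn, hg⟩ | ⟨hA, hg⟩
    · have h2 := strict_none hX hD hn hσ hσ0 h1 hpr
      refine Or.inl ⟨?_, fun υ1 hυ1 => ?_⟩
      · rw [← h10]
        exact h2.self_of_nhds
      · obtain ⟨υ, hυ, hk2⟩ := key υ1 hυ1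
        obtain ⟨g, hga, hge⟩ := hg υ hυ
        refine ⟨fun p => k * p.1 * g (β p), (analyticAt_const.mul analyticAt_fst).mul (hgβ g hga), ?_⟩
        filter_upwards [hk2, hβt.eventually hge] with p e1 e2 e3
        obtain ⟨e4, e5, e6⟩ := e1 e3
        rw [e6, e2 e5]
    · have h2 := strict_exc hX hD hl hσ hσ0 hA h1 hpr
      by_cases hc0 : (e (1, 0)).2 = 0
      · refine Or.inr ⟨h2.1 hc0, fun υ1 hυ1 => ?_⟩
        have hd0 : (e (0, 1)).2 ≠ 0 := by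
          intro h3
          rw [hk, hc0, h3] at hdet
          simp at hdet
        obtain ⟨υ, hυ, hk2⟩ := key υ1 hυ1
        obtain ⟨g, hga, hge⟩ := hg υ hυ
        refine ⟨fun p => k / (e (0, 1)).2 * g (β p), analyticAt_const.mul (hgβ g hga), ?_⟩
        filter_upwards [hk2, hβt.eventually hge] with p e1 e2 e3
        obtain ⟨e4, e5, e6⟩ := e1 e3
        have h3 := e2 e5
        rw [hβ2, hc0, zero_add] at h3
        rw [e6, ← h3]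
        field_simp
      · refine Or.inl ⟨?_, fun υ1 hυ1 => ?_⟩
        · rw [← h10]
          exact (h2.2 hc0).self_of_nhds
        obtain ⟨υ, hυ, hk2⟩ := key υ1 hυ1
        obtain ⟨g, hga, hge⟩ := hg υ hυ
        have hden : AnalyticAt ℂ (fun p : ℂ × ℂ => (e (1, 0)).2 + (e (0, 1)).2 * p.2) 0 :=
          analyticAt_const.add (analyticAt_const.mul analyticAt_snd)
        have hden0 : (e (1, 0)).2 + (e (0, 1)).2 * (0 : ℂ × ℂ).2 ≠ 0 := by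
          simpa using hc0
        refine ⟨fun p => k * g (β p) / ((e (1, 0)).2 + (e (0, 1)).2 * p.2), (analyticAt_const.mul (hgβ g hga)).div hden hden0, ?_⟩
        filter_upwards [hk2, hβt.eventually hge, hden.continuousAt.eventually_ne hden0] with p e1 e2 e7 e3
        obtain ⟨e4, e5, e6⟩ := e1 e3
        have h3 := e2 e5
        rw [hβ2] at h3
        rw [e6, ← h3, eq_div_iff e7]
        ring

end Pool.Agent.H17L
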