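import Pool.Agent.H17L.DTr
import Pool.Agent.H17N.BlowF

/-!
# H17L BlowO: the open part of the blow-up

The blown up point `q` lies over `B`, so the part of the surface outside `D` and the fibres over `B` does not change.  Models: H17N/BlowF.lean, H17N/BlowG.lean, `fib_blow` in H17N/BlowT.lean.

* `mem_open`: `→`: `y ∈ blow l X`, let `x = y b ≠ 0`, `x ∈ X` (`comp_mem`), `uB u y - u x ∈ Λ` (`uB_eq`), so `x` does not lie over `B`, so it is not a multiple of `q` (`tor.smul`), so some `l b' x ≠ 0` (`Ker`), `y = c • phi l x` (`eq_phi`), and `x ∉ D` by `phi_mem_strict`.  `←`: `x` does not lie over `B`, so it is not a multiple of `q` and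
  `l b x ≠ 0` for some `b`; `dense_sub`, `phi_mem_strict`, `uB_eq`.
* `tf_open`: all components `≠ 0` of a point `y = c • phi l x` are multiples of `x`, so they are in `X \ Z`; tangent vectors `v` of `blow l X \ Z'` at `y` have components `v b ∈ Tan (X \ Z) (y b)` (the components of the curves); `aB α z y v w = α z (y b) (v b) (w b)` for every `b` with `y b ≠ 0` (pattern `BlowF_indep`, `aB_eq`: here directly:
  a curve in `blow l X \ Z'` through `y` has proportional components, `y b' = a • y b`, and the derivatives satisfy `v b' = a • v b + a' • y b`, `a'` depending on `v`, by `H62.BU.prop`; `scale`, `add_smul`).  Then as in BlowF.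
* `per_open`, `van_open`: immediate from `aB_openEq`.
* `thin_open`: let `σ1, τ1` be a chart of `blow l X \ Z'` at `y`, `b` with `l b (x) ≠ 0`, where `y = c • phi l x`; `σ p = σ1 p b` is a chart of `X \ Z` at `y b` with the inverse `x' ↦ τ1 (a • phi l x')`, `a` the constant with `a • phi l (y b) = y`; and `cf (aB α) υ σ1 p = cf α υ σ p` (`aB_openEq`; `fderiv` commutes with the projection to the component `b`).
* `fib_blowD`: as `fib_blow`: let `f` be an entire curve in `blow l X \ blow l D`, in a fibre.  If the value is over `B` we are done.  Otherwise all components `≠ 0` of `f z` are not multiples of `q`, `f z = c • phi l (x z)`; `x z = cmp (f z)` is holomorphic (`HolP`), in `X \ D`, in a fibre, not constant; `FibB`.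
-/

set_option autoImplicit false

open Topology Filter

namespace Pool.Agent.H17L

open Pool.Agent.H17BP (Surface IsChart Tan Pr HolP ResN)
open Pool.Agent.H62.BU (blow dense phi Ker)
open Pool.Agent.H17N (TMap LU RU TF NonConst ThinF FibB HSec uB aB blow_chart)

variable {V : Type} [NormedAddCommGroup V] [NormedSpace ℂ V] [FiniteDimensional ℂ V] {ι : Type} [Fintype ι] {l : ι → V →L[ℂ] ℂ} {X D : Set V} {q : V}
  {Λ Γ : AddSubgroup ℂ} {u : V → ℂ} {B : Set ℂ} {α : ℂ → V → V → V → ℂ}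

private theorem BlowO_tan_mono {W : Type} [NormedAddCommGroup W] [NormedSpace ℂ W] {Y Y' : Set W} (h : Y ⊆ Y') {x v : W}
    (hv : v ∈ Tan Y x) : v ∈ Tan Y' x := by
  obtain ⟨γ, hγ, hmem, h0, hd⟩ := hv
  exact ⟨γ, hγ, hmem.mono fun z hz => h hz, h0, hd⟩

private theorem BlowO_tan_smul {W : Type} [NormedAddCommGroup W] [NormedSpace ℂ W] {Y : Set W}
    (hY : ∀ x ∈ Y, ∀ c : ℂ, c ≠ 0 → c • x ∈ Y) {x v : W} (hv : v ∈ Tan Y x) {c : ℂ} (hc : c ≠ 0) :
    c • v ∈ Tan Y (c • x) := by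
  obtain ⟨γ, hγ, hmem, h0, hd⟩ := hv
  refine ⟨fun z => c • γ z, analyticAt_const.smul hγ, ?_, by show c • γ 0 = c • x; rw [h0], ?_⟩
  · filter_upwards [hmem] with z hz
    exact hY _ hz c hc
  · have h1 : HasDerivAt γ v 0 := by
      rw [← hd]; exact hγ.differentiableAt.hasDerivAt
    exact (h1.const_smul c).deriv

/-- the value of `u` at a component -/
private theorem BlowO_u (hX : Surface X) (hu : TMap X Λ u) {z : ℂ} {y : ι → V} (hy : y ∈ blow l X) (hz : uB u y - z ∈ Λ)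
    {b : ι} (hb : y b ≠ 0) : u (y b) - z ∈ Λ := by
  have h1 := H17N.uB_eq hX hu hy hb
  have h2 := Λ.sub_mem hz h1
  have h3 : uB u y - z - (uB u y - u (y b)) = u (y b) - z := by ring
  rwa [h3] at h2

/-- a point of `X` not over `B` is not a multiple of `q` -/
private theorem BlowO_ker (hu : TMap X Λ u) (hl : Ker l q) (hq : q ∈ X) (hB : ∃ b ∈ B, u q - b ∈ Λ) {x : V}
    (hx0 : x ≠ 0) (hx : ¬ ∃ b ∈ B, u x - b ∈ Λ) : ∃ b, l b x ≠ 0 := by
  by_contra hall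
  push Not at hall
  obtain ⟨c, e⟩ := (hl x).1 hall
  have hc : c ≠ 0 := by
    intro h0
    rw [h0, zero_smul] at e
    exact hx0 e
  obtain ⟨b₁, hb₁, h1⟩ := hB
  refine hx ⟨b₁, hb₁, ?_⟩
  have h2 := hu.smul q hq c hc
  rw [← e] at h2
  have h3 := Λ.add_mem h2 h1
  have h4 : u x - u q + (u q - b₁) = u x - b₁ := by ring
  rwa [h4] at h3

/-- the open part is a cone -/
private theorem BlowO_smul (hX : Surface X) (hu : TMap X Λ u) (hD : CurveD X D Λ u) :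
    ∀ x ∈ X \ Zs X D Λ u B, ∀ c : ℂ, c ≠ 0 → c • x ∈ X \ Zs X D Λ u B := by
  intro x hx c hc
  refine ⟨hX.smul x hx.1 c hc, ?_⟩
  rintro (h1 | ⟨-, b, hb, h1⟩)
  · refine hx.2 (Or.inl ?_)
    have h2 := hD.smul _ h1 c⁻¹ (inv_ne_zero hc)
    rwa [smul_smul, inv_mul_cancel₀ hc, one_smul] at h2
  · refine hx.2 (Or.inr ⟨hx.1, b, hb, ?_⟩)
    have h2 := Λ.sub_mem h1 (hu.smul x hx.1 c hc)
    have h3 : u (c • x) - b - (u (c • x) - u x) = u x - b := by ring
    rwa [h3] at h2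

/-- the components of the points of the open part of the blow-up -/
private theorem BlowO_comp (hX : Surface X) (hu : TMap X Λ u) (hD : CurveD X D Λ u) (hl : Ker l q) (hq : q ∈ X)
    (hB : ∃ b ∈ B, u q - b ∈ Λ) {y : ι → V} (hy : y ∈ blow l X \ Zs (blow l X) (blow l D) Λ (uB u) B) {b : ι} (hb : y b ≠ 0) :
    y b ∈ X \ Zs X D Λ u B ∧ l b (y b) ≠ 0 ∧ y = (l b (y b))⁻¹ • phi l (y b) := by
  have hX' := H17BP.surface_iff.2 hX
  have hyX : y b ∈ X := H62.BU.comp_mem hX' y hy.1 hb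
  have hnB : ¬ ∃ b₁ ∈ B, u (y b) - b₁ ∈ Λ := by
    rintro ⟨b₁, hb₁, h1⟩
    refine hy.2 (Or.inr ⟨hy.1, b₁, hb₁, ?_⟩)
    have h2 := Λ.add_mem (H17N.uB_eq hX hu hy.1 hb) h1
    have h3 : uB u y - u (y b) + (u (y b) - b₁) = uB u y - b₁ := by ring
    rwa [h3] at h2
  obtain ⟨b', hb'⟩ := BlowO_ker hu hl hq hB hb hnB
  have h4 := H62.BU.ne_of_ne y hy.1 hb hb'
  have h5 := H62.BU.eq_phi y hy.1 hb hb'
  refine ⟨⟨hyX, ?_⟩, h4, h5⟩
  rintro (h6 | ⟨-, h6⟩)
  · refine hy.2 (Or.inl ?_)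
    have h7 := (phi_mem_strict (l := l) hX hD hyX ⟨b, h4⟩ (inv_ne_zero h4)).2 h6
    rwa [← h5] at h7
  · exact hnB h6

theorem mem_open (hX : Surface X) (hu : TMap X Λ u) (hD : CurveD X D Λ u) (hl : Ker l q) (hq : q ∈ X) (hB : ∃ b ∈ B, u q - b ∈ Λ) {y : ι → V} :
    y ∈ blow l X \ Zs (blow l X) (blow l D) Λ (uB u) B ↔ ∃ x ∈ X \ Zs X D Λ u B, ∃ c : ℂ, c ≠ 0 ∧ y = c • phi l x := by
  constructor
  · intro hy
    obtain ⟨b, hb⟩ := H62.BU.exists_ne y hy.1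
    obtain ⟨h1, h2, h3⟩ := BlowO_comp hX hu hD hl hq hB hy hb
    exact ⟨y b, h1, (l b (y b))⁻¹, inv_ne_zero h2, h3⟩
  · rintro ⟨x, hx, c, hc, rfl⟩
    have hx0 : x ≠ 0 := fun h => hX.zero (h ▸ hx.1)
    obtain ⟨b, hb⟩ := BlowO_ker hu hl hq hB hx0 (fun h => hx.2 (Or.inr ⟨hx.1, h⟩))
    have hblow : c • phi l x ∈ blow l X := H62.BU.dense_sub (H62.BU.dense_smul (H62.BU.phi_mem_dense hx.1 ⟨b, hb⟩) hc)
    refine ⟨hblow, ?_⟩
    rintro (h1 | ⟨-, b₁, hb₁, h1⟩)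
    · exact hx.2 (Or.inl ((phi_mem_strict hX hD hx.1 ⟨b, hb⟩ hc).1 h1))
    · have hyb : (c • phi l x) b = (c * l b x) • x := by
        simp only [phi, Pi.smul_apply, smul_smul]
      have hk : c * l b x ≠ 0 := mul_ne_zero hc hb
      have hne : (c • phi l x) b ≠ 0 := by
        rw [hyb]
        exact smul_ne_zero hk hx0
      have h2 := BlowO_u hX hu hblow h1 hne
      rw [hyb] at h2
      refine hx.2 (Or.inr ⟨hx.1, b₁, hb₁, ?_⟩)
      have h3 := Λ.sub_mem h2 (hu.smul x hx.1 _ hk)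
      have h4 : u ((c * l b x) • x) - b₁ - (u ((c * l b x) • x) - u x) = u x - b₁ := by ring
      rwa [h4] at h3

private theorem BlowO_tan (hX : Surface X) (hu : TMap X Λ u) (hD : CurveD X D Λ u) (hl : Ker l q) (hq : q ∈ X)
    (hB : ∃ b ∈ B, u q - b ∈ Λ) {y v : ι → V} (hv : v ∈ Tan (blow l X \ Zs (blow l X) (blow l D) Λ (uB u) B) y) {b : ι}
    (hb : y b ≠ 0) : v b ∈ Tan (X \ Zs X D Λ u B) (y b) := by
  obtain ⟨γ, hγ, hmem, h0, hd⟩ := hv
  have han : AnalyticAt ℂ (fun z => γ z b) 0 :=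
    AnalyticAt.comp ((ContinuousLinearMap.proj (R := ℂ) (φ := fun _ : ι => V) b).analyticAt _) hγ
  refine ⟨fun z => γ z b, han, ?_, by show γ 0 b = y b; rw [h0], ?_⟩
  · have h1 : ∀ᶠ z in 𝓝 (0 : ℂ), γ z b ≠ 0 := by
      have h2 : Tendsto (fun z => γ z b) (𝓝 0) (𝓝 (γ 0 b)) := han.continuousAt
      rw [h0] at h2
      exact h2.eventually_ne hb
    filter_upwards [hmem, h1] with z hz1 hz2
    exact (BlowO_comp hX hu hD hl hq hB hz1 hz2).1
  · have h1 : HasDerivAt γ v 0 := by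
      rw [← hd]; exact hγ.differentiableAt.hasDerivAt
    exact (hasDerivAt_pi.mp h1 b).deriv

private theorem BlowO_indep (hX : Surface X) (hu : TMap X Λ u) (hD : CurveD X D Λ u) (hα : TF (X \ Zs X D Λ u B) Λ u α)
    (hl : Ker l q) (hq : q ∈ X) (hB : ∃ b ∈ B, u q - b ∈ Λ) {z : ℂ} {y v w : ι → V}
    (hy : y ∈ blow l X \ Zs (blow l X) (blow l D) Λ (uB u) B) (hz : uB u y - z ∈ Λ)
    (hv : v ∈ Tan (blow l X \ Zs (blow l X) (blow l D) Λ (uB u) B) y)
    (hw : w ∈ Tan (blow l X \ Zs (blow l X) (blow l D) Λ (uB u) B) y) {b b' : ι} (hb : y b ≠ 0) (hb' : y b' ≠ 0) :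
    α z (y b') (v b') (w b') = α z (y b) (v b) (w b) := by
  obtain ⟨c, hc⟩ := H62.BU.comp_smul y hy.1 hb b'
  have hc0 : c ≠ 0 := by
    rintro rfl
    rw [zero_smul] at hc
    exact hb' hc
  have hsub : blow l X \ Zs (blow l X) (blow l D) Λ (uB u) B ⊆ blow l X := fun x hx => hx.1
  obtain ⟨μ, hμ⟩ := H62.BU.tan_rel hy.1 (BlowO_tan_mono hsub hv) hb b'
  obtain ⟨ν, hν⟩ := H62.BU.tan_rel hy.1 (BlowO_tan_mono hsub hw) hb b'
  have e1 := hμ c hc
  have e2 := hν c hc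
  have hyb := (BlowO_comp hX hu hD hl hq hB hy hb).1
  have hcone := BlowO_smul (B := B) hX hu hD
  have hcy := hcone _ hyb c hc0
  have tv := BlowO_tan hX hu hD hl hq hB hv hb
  have tw := BlowO_tan hX hu hD hl hq hB hw hb
  have tv' := BlowO_tan_smul hcone tv hc0
  have tw' := BlowO_tan_smul hcone tw hc0
  have hu1 := BlowO_u hX hu hy.1 hz hb
  have hu2 : u (c • y b) - z ∈ Λ := by
    have h1 := Λ.add_mem (hu.smul (y b) hyb.1 c hc0) hu1
    have h2 : u (c • y b) - u (y b) + (u (y b) - z) = u (c • y b) - z := by ring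
    rwa [h2] at h1
  have e4 : α z (y b') (v b') (w b') = α z (c • y b) (c • v b) (c • w b) := by
    have h1 := hα.add_smul z (c • y b) hcy hu2 (c • v b) tv' (c • w b) tw' (μ / c) (ν / c)
    rw [smul_smul, smul_smul, div_mul_cancel₀ _ hc0, div_mul_cancel₀ _ hc0] at h1
    rw [e1, e2, hc]
    exact h1
  rw [e4, hα.scale z (y b) hyb hu1 (v b) tv (w b) tw c hc0]

private theorem BlowO_def {y : ι → V} (hy : y ∈ blow l X) :
    ∃ b, y b ≠ 0 ∧ ∀ (z : ℂ) (v w : ι → V), aB α z y v w = α z (y b) (v b) (w b) := by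
  have h : ∃ b, y b ≠ 0 := H62.BU.exists_ne y hy
  refine ⟨h.choose, h.choose_spec, fun z v w => ?_⟩
  rw [aB, dif_pos h]

theorem aB_openEq (hX : Surface X) (hu : TMap X Λ u) (hD : CurveD X D Λ u) (hα : TF (X \ Zs X D Λ u B) Λ u α) (hl : Ker l q) (hq : q ∈ X)
    (hB : ∃ b ∈ B, u q - b ∈ Λ) {z : ℂ} {y v w : ι → V} (hy : y ∈ blow l X \ Zs (blow l X) (blow l D) Λ (uB u) B) (hz : uB u y - z ∈ Λ)
    (hv : v ∈ Tan (blow l X \ Zs (blow l X) (blow l D) Λ (uB u) B) y) (hw : w ∈ Tan (blow l X \ Zs (blow l X) (blow l D) Λ (uB u) B) y) {b : ι}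
    (hb : y b ≠ 0) : aB α z y v w = α z (y b) (v b) (w b) := by
  have h : ∃ b, y b ≠ 0 := ⟨b, hb⟩
  rw [aB, dif_pos h]
  exact BlowO_indep hX hu hD hα hl hq hB hy hz hv hw hb h.choose_spec

/-- the open part of the blow-up is a cone -/
private theorem BlowO_smulB (hX : Surface X) (hu : TMap X Λ u) (hD : CurveD X D Λ u) (hl : Ker l q) (hq : q ∈ X)
    (hB : ∃ b ∈ B, u q - b ∈ Λ) : ∀ y ∈ blow l X \ Zs (blow l X) (blow l D) Λ (uB u) B, ∀ c : ℂ, c ≠ 0 →
      c • y ∈ blow l X \ Zs (blow l X) (blow l D) Λ (uB u) B := by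
  intro y hy c hc
  obtain ⟨x, hx, a, ha, rfl⟩ := (mem_open hX hu hD hl hq hB).1 hy
  exact (mem_open hX hu hD hl hq hB).2 ⟨x, hx, c * a, mul_ne_zero hc ha, by rw [smul_smul]⟩

private theorem BlowO_analytic (hX : Surface X) (hu : TMap X Λ u) (hD : CurveD X D Λ u) (hα : TF (X \ Zs X D Λ u B) Λ u α)
    (hl : Ker l q) (hq : q ∈ X) (hB : ∃ b ∈ B, u q - b ∈ Λ) (φ : ℂ × ℂ → ι → V)
    (υ : ℂ × ℂ → ℂ) (p : ℂ × ℂ) (hφ : AnalyticAt ℂ φ p) (hυ : AnalyticAt ℂ υ p)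
    (hmem : ∀ᶠ y in 𝓝 p, φ y ∈ blow l X \ Zs (blow l X) (blow l D) Λ (uB u) B ∧ uB u (φ y) - υ y ∈ Λ) :
    AnalyticAt ℂ (fun y => aB α (υ y) (φ y) (fderiv ℂ φ y (1, 0)) (fderiv ℂ φ y (0, 1))) p := by
  have : CompleteSpace V := FiniteDimensional.complete ℂ V
  have hp := hmem.self_of_nhds.1
  obtain ⟨b, hb⟩ := H62.BU.exists_ne (φ p) hp.1
  have hψ : AnalyticAt ℂ (fun y => φ y b) p :=
    AnalyticAt.comp ((ContinuousLinearMap.proj (R := ℂ) (φ := fun _ : ι => V) b).analyticAt _) hφ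
  have hne : ∀ᶠ y in 𝓝 p, φ y b ≠ 0 := by
    have h1 : Tendsto (fun y => φ y b) (𝓝 p) (𝓝 (φ p b)) := hψ.continuousAt
    exact h1.eventually_ne hb
  have hψX : ∀ᶠ y in 𝓝 p, φ y b ∈ X \ Zs X D Λ u B ∧ u (φ y b) - υ y ∈ Λ := by
    filter_upwards [hmem, hne] with y h1 h2
    exact ⟨(BlowO_comp hX hu hD hl hq hB h1.1 h2).1, BlowO_u hX hu h1.1.1 h1.2 h2⟩
  have hαa := hα.analytic (fun y => φ y b) υ p hψ hυ hψX
  refine hαa.congr ?_
  filter_upwards [eventually_eventually_nhds.mpr hmem, hne, hφ.eventually_analyticAt] with y h1 h2 h3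
  have h4 : ∀ w : ℂ × ℂ, fderiv ℂ (fun y => φ y b) y w = (fderiv ℂ φ y w) b := by
    intro w
    have h5 := h3.differentiableAt.hasFDerivAt
    have h6 : HasFDerivAt (fun y => φ y b)
        ((ContinuousLinearMap.proj (R := ℂ) (φ := fun _ : ι => V) b).comp (fderiv ℂ φ y)) y :=
      ((ContinuousLinearMap.proj (R := ℂ) (φ := fun _ : ι => V) b).hasFDerivAt (x := φ y)).comp y h5
    rw [h6.fderiv]
    rfl
  have h7 : ∀ᶠ y in 𝓝 y, φ y ∈ blow l X \ Zs (blow l X) (blow l D) Λ (uB u) B := h1.mono fun y hy => hy.1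
  rw [aB_openEq hX hu hD hα hl hq hB h7.self_of_nhds h1.self_of_nhds.2 (H62.BU.tan_fderiv h3 h7 (1, 0))
    (H62.BU.tan_fderiv h3 h7 (0, 1)) h2]
  simp only [h4]

theorem tf_open (hX : Surface X) (hu : TMap X Λ u) (hD : CurveD X D Λ u) (hα : TF (X \ Zs X D Λ u B) Λ u α) (hl : Ker l q) (hq : q ∈ X)
    (hB : ∃ b ∈ B, u q - b ∈ Λ) : TF (blow l X \ Zs (blow l X) (blow l D) Λ (uB u) B) Λ (uB u) (aB α) := by
  refine ⟨?_, ?_, ?_, ?_⟩
  · intro z y hy hz v hv w hw a b'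
    obtain ⟨b, hb, hom⟩ := BlowO_def (l := l) (α := α) hy.1
    rw [hom, hom]
    have h1 := hα.add_smul z (y b) (BlowO_comp hX hu hD hl hq hB hy hb).1 (BlowO_u hX hu hy.1 hz hb) (v b)
      (BlowO_tan hX hu hD hl hq hB hv hb) (w b) (BlowO_tan hX hu hD hl hq hB hw hb) a b'
    simp only [Pi.add_apply, Pi.smul_apply]
    exact h1
  · intro z y hy hz v hv w hw a b' c d
    obtain ⟨b, hb, hom⟩ := BlowO_def (l := l) (α := α) hy.1
    rw [hom, hom]
    have h1 := hα.det z (y b) (BlowO_comp hX hu hD hl hq hB hy hb).1 (BlowO_u hX hu hy.1 hz hb) (v b)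
      (BlowO_tan hX hu hD hl hq hB hv hb) (w b) (BlowO_tan hX hu hD hl hq hB hw hb) a b' c d
    simp only [Pi.add_apply, Pi.smul_apply]
    exact h1
  · intro z y hy hz v hv w hw c hc
    obtain ⟨b, hb, hom⟩ := BlowO_def (l := l) (α := α) hy.1
    have hconeB := BlowO_smulB hX hu hD hl hq hB
    have hcy := hconeB y hy c hc
    have hcb : (c • y) b ≠ 0 := by
      rw [Pi.smul_apply]
      exact smul_ne_zero hc hb
    have hyb := (BlowO_comp hX hu hD hl hq hB hy hb).1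
    have hu1 := BlowO_u hX hu hy.1 hz hb
    have hz2 : uB u (c • y) - z ∈ Λ := by
      have h1 := H17N.uB_eq hX hu hcy.1 hcb
      have h2 := hu.smul (y b) hyb.1 c hc
      have h3 := Λ.add_mem (Λ.add_mem h1 h2) hu1
      have h4 : uB u (c • y) - u ((c • y) b) + (u (c • y b) - u (y b)) + (u (y b) - z) = uB u (c • y) - z := by
        rw [Pi.smul_apply]
        ring
      rwa [h4] at h3
    rw [hom, aB_openEq hX hu hD hα hl hq hB hcy hz2 (BlowO_tan_smul hconeB hv hc) (BlowO_tan_smul hconeB hw hc) hcb]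
    simp only [Pi.smul_apply]
    exact hα.scale z (y b) hyb hu1 (v b) (BlowO_tan hX hu hD hl hq hB hv hb) (w b) (BlowO_tan hX hu hD hl hq hB hw hb) c hc
  · intro φ υ p hφ hυ hmem
    exact BlowO_analytic hX hu hD hα hl hq hB φ υ p hφ hυ hmem

theorem per_open (hX : Surface X) (hu : TMap X Λ u) (hD : CurveD X D Λ u) (hα : TF (X \ Zs X D Λ u B) Λ u α) (hl : Ker l q) (hq : q ∈ X)
    (hB : ∃ b ∈ B, u q - b ∈ Λ) (hle : Γ ≤ Λ) (h : PerV (X \ Zs X D Λ u B) Λ Γ u α) :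
    PerV (blow l X \ Zs (blow l X) (blow l D) Λ (uB u) B) Λ Γ (uB u) (aB α) := by
  intro z c hc y hy hz v hv w hw
  obtain ⟨b, hb, hom⟩ := BlowO_def (l := l) (α := α) hy.1
  rw [hom, hom]
  exact h z c hc (y b) (BlowO_comp hX hu hD hl hq hB hy hb).1 (BlowO_u hX hu hy.1 hz hb) (v b)
    (BlowO_tan hX hu hD hl hq hB hv hb) (w b) (BlowO_tan hX hu hD hl hq hB hw hb)

theorem van_open (hX : Surface X) (hu : TMap X Λ u) (hD : CurveD X D Λ u) (hα : TF (X \ Zs X D Λ u B) Λ u α) (hl : Ker l q) (hq : q ∈ X)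
    (hB : ∃ b ∈ B, u q - b ∈ Λ) (h : VanV (X \ Zs X D Λ u B) Λ u α) :
    VanV (blow l X \ Zs (blow l X) (blow l D) Λ (uB u) B) Λ (uB u) (aB α) := by
  intro y hy hz v hv w hw
  obtain ⟨b, hb, hom⟩ := BlowO_def (l := l) (α := α) hy.1
  rw [hom]
  have h1 : u (y b) - 0 ∈ Λ := BlowO_u hX hu hy.1 (by rwa [sub_zero]) hb
  rw [sub_zero] at h1
  exact h (y b) (BlowO_comp hX hu hD hl hq hB hy hb).1 h1 (v b) (BlowO_tan hX hu hD hl hq hB hv hb) (w b)
    (BlowO_tan hX hu hD hl hq hB hw hb)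

end Pool.Agent.H17L
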