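import Pool.Agent.H17L.BlowO

/-!
# H17L BlowQ: the open part of the blow-up (second part: `thin_open`, `fib_blowD`)

The blown up point `q` lies over `B`, so the part of the surface outside `D` and the fibres over `B` does not change.  Models: H17N/BlowF.lean, H17N/BlowG.lean, `fib_blow` in H17N/BlowT.lean.

* `mem_open`: `→`: `y ∈ blow l X`, let `x = y b ≠ 0`, `x ∈ X` (`comp_mem`), `uB u y - u x ∈ Λ` (`uB_eq`), so `x` does not lie over `B`, so it is not a multiple of `q` (`tor.smul`), so some `l b' x ≠ 0` (`Ker`), `y = c • phi l x` (`eq_phi`), and `x ∉ D` by `phi_mem_strict`.  `←`: `x` does not lie over `B`, so it is not a multiple of `q` and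
  `l b x ≠ 0` for some `b`; `dense_sub`, `phi_mem_strict`, `uB_eq`.
* `tf_open`: all components `≠ 0` of a point `y = c • phi l x` are multiples of `x`, so they are in `X \ Z`; tangent vectors `v` of `blow l X \ Z'` at `y` have components `v b ∈ Tan (X \ Z) (y b)` (the components of the curves); `aB α z y v w = α z (y b) (v b) (w b)` for every `b` with `y b ≠ 0` (pattern `BlowF_indep`, `aB_eq`: here directly:
  a curve in `blow l X \ Z'` through `y` has proportional components, `y b' = a • y b`, and the derivatives satisfy `v b' = a • v b + a' • y b`, `a'` depending on `v`, by `H62.BU.prop`; `scale`, `add_smul`).  Then as in BlowF.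
* `per_open`, `van_open`: immediate from `aB_openEq`.
* `thin_open`: let `σ1, τ1` be a chart of `blow l X \ Z'` at `y`, `b` with `l b (x) ≠ 0`, where `y = c • phi l x`; `σ p = σ1 p b` is a chart of `X \ Z` at `y b` with the inverse `x' ↦ τ1 (a • phi l x')`, `a` the constant with `a • phi l (y b) = y`; and `cf (aB α) υ σ1 p = cf α υ σ p` (`aB_openEq`; `fderiv` commutes with the projection to the component `b`).
* `fib_blowD`: as `fib_blow`: let `f` be an entire curve in `blow l X \ blow l D`, in a fibre.  If the value is over `B` we are done.  Otherwise all components `≠ 0` of `f z` are not multiples of `q`, `f z = c • phi l (x z)`; `x z = cmp (f z)` is holomorphic (`HolP`), in `X \ D`, in a fibre, not constant; `FibB`.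
-/

set_option autoImplicit false

open Topology Filter

namespace Pool.Agent.H17L

open Pool.Agent.H17BP (Surface IsChart Tan Pr HolP ResN)
open Pool.Agent.H62.BU (blow dense phi Ker)
open Pool.Agent.H17N (TMap LU RU TF NonConst ThinF FibB HSec uB aB blow_chart)

variable {V : Type} [NormedAddCommGroup V] [NormedSpace ℂ V] [FiniteDimensional ℂ V] {ι : Type} [Fintype ι] {l : ι → V →L[ℂ] ℂ} {X D : Set V} {q : V}
  {Λ Γ : AddSubgroup ℂ} {u : V → ℂ} {B : Set ℂ} {α : ℂ → V → V → V → ℂ}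

private theorem blowQ_comp {φ : ℂ × ℂ → ι → V} {p : ℂ × ℂ} (hφ : AnalyticAt ℂ φ p) (b : ι) :
    AnalyticAt ℂ (fun y => φ y b) p ∧ ∀ w : ℂ × ℂ, fderiv ℂ (fun y => φ y b) p w = (fderiv ℂ φ p w) b := by
  refine ⟨AnalyticAt.comp ((ContinuousLinearMap.proj (R := ℂ) (φ := fun _ : ι => V) b).analyticAt _) hφ, fun w => ?_⟩
  have h6 : HasFDerivAt (fun y => φ y b)
      ((ContinuousLinearMap.proj (R := ℂ) (φ := fun _ : ι => V) b).comp (fderiv ℂ φ p)) p :=
    ((ContinuousLinearMap.proj (R := ℂ) (φ := fun _ : ι => V) b).hasFDerivAt (x := φ p)).comp p hφ.differentiableAt.hasFDerivAt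
  rw [h6.fderiv]
  rfl

private theorem blowQ_phi (l : ι → V →L[ℂ] ℂ) (a : ℂ) (x : V) : AnalyticAt ℂ (fun x : V => a • phi l x) x := by
  have h1 : AnalyticAt ℂ (fun x : V => phi l x) x := by
    refine analyticAt_pi_iff.2 fun b => ?_
    show AnalyticAt ℂ (fun x : V => l b x • x) x
    exact ((l b).analyticAt x).smul analyticAt_id
  have h2 : AnalyticAt ℂ (fun _ : V => a) x := analyticAt_const
  exact h2.smul h1

/-- the open part is a cone -/
private theorem blowQ_smul (hX : Surface X) (hu : TMap X Λ u) (hD : CurveD X D Λ u) {x : V} (hx : x ∈ X \ Zs X D Λ u B) {c : ℂ} (hc : c ≠ 0) :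
    c • x ∈ X \ Zs X D Λ u B := by
  refine ⟨hX.smul x hx.1 c hc, ?_⟩
  rintro (h1 | ⟨-, b, hb, h1⟩)
  · refine hx.2 (Or.inl ?_)
    have h2 := hD.smul _ h1 c⁻¹ (inv_ne_zero hc)
    rwa [smul_smul, inv_mul_cancel₀ hc, one_smul] at h2
  · refine hx.2 (Or.inr ⟨hx.1, b, hb, ?_⟩)
    have h2 := hu.smul x hx.1 c hc
    have h3 := Λ.sub_mem h1 h2
    have h4 : u (c • x) - b - (u (c • x) - u x) = u x - b := by ring
    rwa [h4] at h3

/-- the component of a chart of the open part of the blow-up is a chart -/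
private theorem blowQ_chart (hX : Surface X) (hu : TMap X Λ u) (hD : CurveD X D Λ u) (hl : Ker l q) (hq : q ∈ X)
    (hB : ∃ b ∈ B, u q - b ∈ Λ) {σ1 : ℂ × ℂ → ι → V} {τ1 : (ι → V) → ℂ × ℂ}
    (h1 : IsChart (blow l X \ Zs (blow l X) (blow l D) Λ (uB u) B) σ1 τ1) :
    ∃ b τ, σ1 0 b ≠ 0 ∧ IsChart (X \ Zs X D Λ u B) (fun p => σ1 p b) τ := by
  obtain ⟨x, hx, c, hc, hyx⟩ := (mem_open hX hu hD hl hq hB).1 h1.σ_mem.self_of_nhds
  obtain ⟨b, hb0⟩ := H62.BU.exists_ne (σ1 0) h1.σ_mem.self_of_nhds.1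
  have hlb : l b x ≠ 0 := by
    intro h0
    refine hb0 ?_
    rw [hyx]
    show c • (l b x • x) = 0
    rw [h0, zero_smul, smul_zero]
  have hx0b : σ1 0 b = (c * l b x) • x := by
    rw [hyx]
    show c • (l b x • x) = _
    rw [smul_smul]
  have hl0 : l b (σ1 0 b) ≠ 0 := by
    rw [hx0b, map_smul, smul_eq_mul]
    exact mul_ne_zero (mul_ne_zero hc hlb) hlb
  obtain ⟨a, ha⟩ : ∃ a : ℂ, a = (l b (σ1 0 b))⁻¹ := ⟨_, rfl⟩
  have ha0 : a ≠ 0 := by rw [ha]; exact inv_ne_zero hl0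
  have hal : a * l b (σ1 0 b) = 1 := by rw [ha]; exact inv_mul_cancel₀ hl0
  have hphi : σ1 0 = a • phi l (σ1 0 b) := by
    rw [ha]
    exact H62.BU.eq_phi (σ1 0) h1.σ_mem.self_of_nhds.1 hb0 hl0
  have hσ := (blowQ_comp h1.σ_an b).1
  have hσc : Tendsto (fun p => σ1 p b) (𝓝 0) (𝓝 (σ1 0 b)) := hσ.continuousAt
  have hne : ∀ᶠ p in 𝓝 (0 : ℂ × ℂ), σ1 p b ≠ 0 := hσc.eventually_ne hb0
  have hlc : Tendsto (fun x' : V => l b x') (𝓝 (σ1 0 b)) (𝓝 (l b (σ1 0 b))) := (l b).continuous.tendsto _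
  have hPhi : Tendsto (fun x' : V => a • phi l x') (𝓝 (σ1 0 b)) (𝓝 (σ1 0)) := by
    have h2 := (blowQ_phi l a (σ1 0 b)).continuousAt.tendsto
    rwa [← hphi] at h2
  refine ⟨b, fun x' => τ1 (a • phi l x'), hb0, hσ, ?_, hb0, ?_, ?_, ?_, ?_⟩
  · filter_upwards [h1.σ_mem, hne] with p h2 h3
    obtain ⟨x', hx', c', hc', h4⟩ := (mem_open hX hu hD hl hq hB).1 h2
    have h5 : σ1 p b = (c' * l b x') • x' := by
      rw [h4]
      show c' • (l b x' • x') = _
      rw [smul_smul]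
    rw [h5]
    refine blowQ_smul hX hu hD hx' ?_
    intro h0
    rw [h0, zero_smul] at h5
    exact h3 h5
  · refine AnalyticAt.comp (g := τ1) (f := fun x' : V => a • phi l x') ?_ (blowQ_phi l a _)
    show AnalyticAt ℂ τ1 (a • phi l (σ1 0 b))
    rw [← hphi]
    exact h1.τ_an
  · have h2 : Tendsto (fun p : ℂ × ℂ => (σ1 p, a * l b (σ1 p b))) (𝓝 0) (𝓝 (σ1 0, (1 : ℂ))) := by
      refine h1.σ_an.continuousAt.tendsto.prodMk_nhds ?_
      have h3 := (hlc.comp hσc).const_mul a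
      rwa [hal] at h3
    filter_upwards [h2.eventually h1.inv, h1.σ_mem, hne, (hlc.comp hσc).eventually_ne hl0, h1.left] with p h3 h4 h5 h6 h7
    have h6' : l b (σ1 p b) ≠ 0 := h6
    have h8 := H62.BU.eq_phi (σ1 p) h4.1 h5 h6'
    have h9 : a • phi l (σ1 p b) = (a * l b (σ1 p b)) • σ1 p := by
      have h10 : a • phi l (σ1 p b) = (a * l b (σ1 p b)) • ((l b (σ1 p b))⁻¹ • phi l (σ1 p b)) := by
        rw [smul_smul, mul_assoc, mul_inv_cancel₀ h6', mul_one]
      rw [← h8] at h10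
      exact h10
    show τ1 (a • phi l (σ1 p b)) = p
    rw [h9]
    rw [h7] at h3
    exact h3
  · filter_upwards [hPhi.eventually h1.right, hlc.eventually_ne hl0] with x' h2 h3 h4
    obtain ⟨c', hc', h5⟩ := h2 ((mem_open hX hu hD hl hq hB).2 ⟨x', h4, a, ha0, rfl⟩)
    have h6 : (a * l b x') • x' = c' • σ1 (τ1 (a • phi l x')) b := by
      have h7 := congrFun h5 b
      have h8 : (a • phi l x') b = (a * l b x') • x' := by
        show a • (l b x' • x') = _
        rw [smul_smul]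
      rw [h8] at h7
      exact h7
    refine ⟨(a * l b x')⁻¹ * c', mul_ne_zero (inv_ne_zero (mul_ne_zero ha0 h3)) hc', ?_⟩
    show x' = ((a * l b x')⁻¹ * c') • σ1 (τ1 (a • phi l x')) b
    rw [← smul_smul, ← h6, smul_smul, inv_mul_cancel₀ (mul_ne_zero ha0 h3), one_smul]
  · have h2 : Tendsto (fun p : V × ℂ => (a • phi l p.1, p.2 ^ 2)) (𝓝 (σ1 0 b, (1 : ℂ))) (𝓝 (σ1 0, (1 : ℂ))) := by
      refine Tendsto.prodMk_nhds ?_ ?_
      · exact hPhi.comp (continuous_fst.tendsto (σ1 0 b, (1 : ℂ)))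
      · have h3 : Continuous (fun p : V × ℂ => p.2 ^ 2) := by fun_prop
        have h4 := h3.tendsto (σ1 0 b, (1 : ℂ))
        simpa using h4
    filter_upwards [h2.eventually h1.inv] with p h3
    show τ1 (a • phi l (p.2 • p.1)) = τ1 (a • phi l p.1)
    rw [H62.BU.phi_smul, smul_comm a]
    exact h3

theorem thin_open (hX : Surface X) (hu : TMap X Λ u) (hD : CurveD X D Λ u) (hα : TF (X \ Zs X D Λ u B) Λ u α) (hl : Ker l q) (hq : q ∈ X)
    (hB : ∃ b ∈ B, u q - b ∈ Λ) (h : ThinF (X \ Zs X D Λ u B) Λ u α) :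
    ThinF (blow l X \ Zs (blow l X) (blow l D) Λ (uB u) B) Λ (uB u) (aB α) := by
  intro σ1 τ1 υ1 h1 hυa hυ hv
  obtain ⟨b, τ, hb0, h2⟩ := blowQ_chart hX hu hD hl hq hB h1
  have hne : ∀ᶠ p in 𝓝 (0 : ℂ × ℂ), σ1 p b ≠ 0 := (blowQ_comp h1.σ_an b).1.continuousAt.eventually_ne hb0
  refine h (fun p => σ1 p b) τ υ1 h2 hυa ?_ ?_
  · filter_upwards [hυ, h1.σ_mem, hne] with p h3 h4 h5
    have h6 := H17N.uB_eq hX hu h4.1 h5
    have h7 := Λ.sub_mem h3 h6
    have h8 : uB u (σ1 p) - υ1 p - (uB u (σ1 p) - u (σ1 p b)) = u (σ1 p b) - υ1 p := by ring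
    rwa [h8] at h7
  · filter_upwards [hυ, h1.σ_mem.eventually_nhds, hne, hv, h1.σ_an.eventually_analyticAt] with p h3 h4 h5 h6 h7
    rw [(blowQ_comp h7 b).2, (blowQ_comp h7 b).2,
      ← aB_openEq hX hu hD hα hl hq hB h4.self_of_nhds h3 (H62.BU.tan_fderiv h7 h4 (1, 0)) (H62.BU.tan_fderiv h7 h4 (0, 1)) h5]
    exact h6

theorem fib_blowD (hX : Surface X) (hu : TMap X Λ u) (hD : CurveD X D Λ u) (hl : Ker l q) (hq : q ∈ X) (hB : ∃ b ∈ B, u q - b ∈ Λ)
    (h : FibB (X \ D) Λ u B) : FibB (blow l X \ blow l D) Λ (uB u) B := by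
  have hX' := Pool.Agent.H17BP.surface_iff.2 hX
  intro g hh hmem' hconst hnc
  have hmem : ∀ z, g z ∈ blow l X := fun z => (hmem' z).1
  by_contra hcon
  choose b hbne using fun z => Pool.Agent.H62.BU.exists_ne (g z) (hmem z)
  have hfX : ∀ z, g z (b z) ∈ X := fun z => Pool.Agent.H62.BU.comp_mem hX' (g z) (hmem z) (hbne z)
  have huf : ∀ z, uB u (g z) - u (g z (b z)) ∈ Λ := fun z => H17N.uB_eq hX hu (hmem z) (hbne z)
  have huc : ∀ z w, u (g z (b z)) - u (g w (b w)) ∈ Λ := by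
    intro z w
    have h1 := Λ.add_mem (Λ.sub_mem (hconst z w) (huf z)) (huf w)
    have h2 : uB u (g z) - uB u (g w) - (uB u (g z) - u (g z (b z))) + (uB u (g w) - u (g w (b w))) =
        u (g z (b z)) - u (g w (b w)) := by ring
    rwa [h2] at h1
  have hfin : ¬ ∃ b₁ ∈ B, u (g 0 (b 0)) - b₁ ∈ Λ := by
    rintro ⟨b₁, hb₁, h1⟩
    refine hcon ⟨b₁, hb₁, ?_⟩
    have h2 := Λ.add_mem (huf 0) h1
    have h3 : uB u (g 0) - u (g 0 (b 0)) + (u (g 0 (b 0)) - b₁) = uB u (g 0) - b₁ := by ring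
    rwa [h3] at h2
  -- the components are not multiples of `q`
  have hl' : ∀ z, ∃ b', l b' (g z (b z)) ≠ 0 := by
    intro z
    by_contra hl0
    push Not at hl0
    obtain ⟨c, e⟩ := (hl (g z (b z))).1 hl0
    have hc : c ≠ 0 := by
      intro h0
      rw [h0, zero_smul] at e
      exact hbne z e
    obtain ⟨b₁, hb₁, h1⟩ := hB
    refine hfin ⟨b₁, hb₁, ?_⟩
    have h2 := hu.smul q hq c hc
    rw [← e] at h2
    have h3 := Λ.add_mem (Λ.add_mem (huc 0 z) h2) h1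
    have h4 : u (g 0 (b 0)) - u (g z (b z)) + (u (g z (b z)) - u q) + (u q - b₁) = u (g 0 (b 0)) - b₁ := by ring
    rwa [h4] at h3
  have hphi : ∀ z, l (b z) (g z (b z)) ≠ 0 ∧ g z = (l (b z) (g z (b z)))⁻¹ • phi l (g z (b z)) := by
    intro z
    obtain ⟨b', hb'⟩ := hl' z
    exact ⟨Pool.Agent.H62.BU.ne_of_ne (g z) (hmem z) (hbne z) hb', Pool.Agent.H62.BU.eq_phi (g z) (hmem z) (hbne z) hb'⟩
  have hfD : ∀ z, g z (b z) ∈ X \ D := by
    intro z
    refine ⟨hfX z, fun h0 => (hmem' z).2 ?_⟩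
    rw [(hphi z).2]
    exact (phi_mem_strict hX hD (hfX z) (hl' z) (inv_ne_zero (hphi z).1)).2 h0
  have hHol : ∀ z₀, HolP (fun z => g z (b z)) z₀ := by
    intro z₀
    obtain ⟨H, hHan, hH0, hHe⟩ := hh z₀
    obtain ⟨b₀, hb₀⟩ := Function.ne_iff.1 hH0
    have hb₀' : H z₀ b₀ ≠ 0 := hb₀
    have han : AnalyticAt ℂ (fun z => H z b₀) z₀ := (analyticAt_pi_iff.1 hHan) b₀
    refine ⟨fun z => H z b₀, han, hb₀', ?_⟩
    filter_upwards [hHe, han.continuousAt.eventually_ne hb₀'] with z hz hz0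
    obtain ⟨c, hc, e⟩ := hz
    have e1 : g z b₀ = c • H z b₀ := congrFun e b₀
    have h1 : g z b₀ ≠ 0 := by
      rw [e1]
      exact smul_ne_zero hc hz0
    obtain ⟨c', e2⟩ := Pool.Agent.H62.BU.comp_smul (g z) (hmem z) h1 (b z)
    have hc' : c' ≠ 0 := by
      intro h0
      rw [h0, zero_smul] at e2
      exact hbne z e2
    refine ⟨c' * c, mul_ne_zero hc' hc, ?_⟩
    show g z (b z) = (c' * c) • H z b₀
    rw [e2, e1, smul_smul]
  by_cases hcase : ∃ z w, ¬ Pr (g z (b z)) (g w (b w))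
  · exact hfin (h (fun z => g z (b z)) hHol hfD huc hcase)
  · push Not at hcase
    obtain ⟨z, w, hzw⟩ := hnc
    apply hzw
    have hpz : ∀ z, Pr (g z) (phi l (g z (b z))) := fun z => ⟨_, inv_ne_zero (hphi z).1, (hphi z).2⟩
    have hpp : Pr (phi l (g z (b z))) (phi l (g w (b w))) := by
      obtain ⟨c, hc, e⟩ := hcase z w
      refine ⟨c ^ 2, pow_ne_zero 2 hc, ?_⟩
      rw [e, Pool.Agent.H62.BU.phi_smul]
    exact ((hpz z).trans hpp).trans (hpz w).symm

end Pool.Agent.H17L
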