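import Pool.Agent.H17BP.Art
import Pool.Agent.H17BP.FinG
import Pool.Agent.H17N.ResV

/-!
# H17L GermM: germs in two variables with few zeros

* `mono_div`: `S, T` coordinates, `g` a germ (not `0`) whose zeros lie in `{S T = 0}`; then `g = S^i T^j v`, `v` a unit.  Proof.  By a change of coordinates (`Coord S T`: compose with the inverse `θ'` of `x ↦ (S x, T x)`) one may take `S = p.1`, `T = p.2`.
  Divide `g` by `p.1` and by `p.2` as long as possible (`exists_div_x`, `exists_div_y` in H17BP/Div; this stops: e.g. by `H17BP.exists_taylor`-type arguments, or: the analytic order of `g` restricted to a line `t ↦ g (t a)` on which `g` is not identically `0` (such a line exists because `g` is not `0` near `0`) drops by one at every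
  division, for a line with `a.1, a.2 ≠ 0`; strong induction over this order).  So let `g (0, t)` and `g (s, 0)` be not identically `0` near `0`; claim `g 0 ≠ 0`.  Suppose `g 0 = 0`.  Choose `r > 0` small such that `g` is analytic near the closed bidisc of radius `r`, its zeros in it lie in `{s t = 0}`, `g (0, t) ≠ 0` for
  `0 < ‖t‖ ≤ r` and `g (s, 0) ≠ 0` for `0 < ‖s‖ ≤ r` (isolated zeros).  For `s ≠ 0` small the function `t ↦ g (s, t)` has no zeros in `‖t‖ ≤ r` (a zero `(s, t)` has `s t = 0`, so `t = 0`, excluded).  The continuous function `‖g (0, t)‖` on the circle `‖t‖ = r` has a minimum `m > 0`, so `‖g (s, t)‖ ≥ m/2` for `‖t‖ = r`, `s` near `0` (compactness), and by the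
  maximum principle for `1 / g (s, ·)` (`Complex.norm_le_of_forall_mem_frontier_norm_le`) `‖g (s, 0)‖ ≥ m/2` for `s ≠ 0` near `0`, hence `‖g 0‖ ≥ m/2`: contradiction.

* `mono_of_zero`: `G = S^a T^b w`, `w` a unit: `G p = 0` implies `S p = 0 ∨ T p = 0` near `0`; `mono_div`.

* `mono_hor`: `G = S^a T^b w`.  `{p.2 = 0} ⊆ {G = 0} ⊆ {S T = 0}` near `0`: the product `S (s, 0) T (s, 0)` is `0` for `s` near `0`, so one factor vanishes identically near `0` (isolated zeros, `AnalyticAt.eventually_eq_zero_or_eventually_ne_zero`); exchange `S` and `T` if necessary: `T (s, 0) = 0` near `0`.  `T = p.2 κ` (`exists_div_y`), `κ 0 ≠ 0` because the derivative of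
  `T` at `0` is not `0` (`Coord`, `coord_iff`).  By `mono_div` (zeros of `g` are zeros of `G`) `g = S^i T^j v`; `j = 0` because `g (s, 0)` is not identically `0`; `1 ≤ i` because `g 0 = 0`, `v 0 ≠ 0`.  An `i`-th root `k` of `v` (copy the private lemmas `ResV_root`, `ResV_coord` of H17N/ResV, or GermC): `g = (S k)^i`, and `η x = (S x * k x, T x)` is biholomorphic (`Coord`);
  take for `θ` the inverse of `η`, `θ' = η`: `g (θ p) = p.1 ^ i`, `T (θ p) = p.2`, and `T = p.2 κ` with `κ` a unit gives `(θ p).2 = 0 ↔ p.2 = 0` near `0`.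
-/

set_option autoImplicit false

open Topology Filter Metric

namespace Pool.Agent.H17L

open Pool.Agent.H17BP (Bihol Coord Mono)

private theorem GermM_line {g : ℂ × ℂ → ℂ} (hg : AnalyticAt ℂ g 0) (a : ℂ × ℂ) : AnalyticAt ℂ (fun t : ℂ => g (t • a)) 0 := by
  have h1 : AnalyticAt ℂ (fun t : ℂ => t • a) 0 := by fun_prop
  have h2 : AnalyticAt ℂ g ((fun t : ℂ => t • a) 0) := by
    simp only [zero_smul]
    exact hg
  exact AnalyticAt.fun_comp (g := g) (f := fun t : ℂ => t • a) h2 h1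

private theorem GermM_lineT (a : ℂ × ℂ) : Tendsto (fun t : ℂ => t • a) (𝓝 0) (𝓝 (0 : ℂ × ℂ)) := by
  have h : Continuous fun t : ℂ => t • a := by fun_prop
  exact h.tendsto' 0 0 (zero_smul ℂ a)

/-- the order on a line drops by one after the division by a linear form -/
private theorem GermM_ord {g g₁ : ℂ × ℂ → ℂ} (c : ℂ × ℂ →L[ℂ] ℂ) {a : ℂ × ℂ} (ha : c a ≠ 0) (h₁ : AnalyticAt ℂ g₁ 0)
    (h : ∀ᶠ p in 𝓝 (0 : ℂ × ℂ), g p = c p * g₁ p) {n : ℕ} (hn : analyticOrderAt (fun t : ℂ => g (t • a)) 0 = ((n + 1 : ℕ) : ℕ∞)) :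
    analyticOrderAt (fun t : ℂ => g₁ (t • a)) 0 = (n : ℕ∞) := by
  have e1 : (fun t : ℂ => g (t • a)) =ᶠ[𝓝 0] (id : ℂ → ℂ) * ((fun _ : ℂ => c a) * (fun t : ℂ => g₁ (t • a))) := by
    filter_upwards [(GermM_lineT a).eventually h] with t ht
    rw [ht]
    simp only [Pi.mul_apply, map_smul, smul_eq_mul, id]
    ring
  have a1 : AnalyticAt ℂ (fun t : ℂ => g₁ (t • a)) 0 := GermM_line h₁ a
  have a2 : AnalyticAt ℂ (fun _ : ℂ => c a) 0 := analyticAt_const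
  have o1 : analyticOrderAt (fun _ : ℂ => c a) 0 = 0 := analyticOrderAt_eq_zero.2 (Or.inr ha)
  rw [analyticOrderAt_congr e1, analyticOrderAt_mul analyticAt_id (a2.mul a1), analyticOrderAt_mul a2 a1, analyticOrderAt_id, o1, zero_add] at hn
  have h3 : (((n + 1 : ℕ) : ℕ∞)) = 1 + (n : ℕ∞) := by
    rw [Nat.cast_add, Nat.cast_one, add_comm]
  rw [h3] at hn
  exact ENat.add_right_injective_of_ne_top (n := 1) (by simp) hn

/-- a line on which the germ does not vanish identically -/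
private theorem GermM_ex {g : ℂ × ℂ → ℂ} (hg : AnalyticAt ℂ g 0) (hne : ¬ ∀ᶠ p in 𝓝 (0 : ℂ × ℂ), g p = 0) :
    ∃ a : ℂ × ℂ, a.1 ≠ 0 ∧ a.2 ≠ 0 ∧ ∃ n : ℕ, analyticOrderAt (fun t : ℂ => g (t • a)) 0 = (n : ℕ∞) := by
  by_contra hcon
  push Not at hcon
  obtain ⟨r, hr, hgr⟩ := hg.exists_ball_analyticOnNhd
  have key : ∀ a : ℂ × ℂ, a ∈ ball (0 : ℂ × ℂ) r → a.1 ≠ 0 → a.2 ≠ 0 → g a = 0 := by
    intro a ha h1 h2
    have h3 : analyticOrderAt (fun t : ℂ => g (t • a)) 0 = ⊤ := by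
      by_contra h4
      obtain ⟨n, hn⟩ := ENat.ne_top_iff_exists.mp h4
      exact hcon a h1 h2 n hn.symm
    have h4 : ∀ᶠ t in 𝓝 (0 : ℂ), g (t • a) = 0 := analyticOrderAt_eq_top.mp h3
    have ha' : ‖a‖ < r := by simpa using ha
    have ha0 : 0 < ‖a‖ := by
      refine norm_pos_iff.mpr fun h5 => h1 ?_
      rw [h5]
      rfl
    have h5 : AnalyticOnNhd ℂ (fun t : ℂ => g (t • a)) (ball 0 (r / ‖a‖)) := by
      intro t ht
      have h6 : t • a ∈ ball (0 : ℂ × ℂ) r := by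
        rw [mem_ball_zero_iff, norm_smul]
        rw [mem_ball_zero_iff, lt_div_iff₀ ha0] at ht
        exact ht
      have h7 : AnalyticAt ℂ (fun t : ℂ => t • a) t := by fun_prop
      exact AnalyticAt.fun_comp (g := g) (f := fun t : ℂ => t • a) (hgr _ h6) h7
    have h6 := h5.eqOn_zero_of_preconnected_of_eventuallyEq_zero (convex_ball (0 : ℂ) _).isPreconnected
      (mem_ball_self (div_pos hr ha0)) h4
    have h7 : (1 : ℂ) ∈ ball (0 : ℂ) (r / ‖a‖) := by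
      rw [mem_ball_zero_iff, norm_one, one_lt_div ha0]
      exact ha'
    have h8 := h6 h7
    simpa using h8
  apply hne
  filter_upwards [ball_mem_nhds (0 : ℂ × ℂ) hr] with p hp
  -- approach `p` by points with nonzero components
  have h1 : Tendsto (fun t : ℂ => (p.1 + t, p.2 + t)) (𝓝[≠] 0) (𝓝 p) := by
    have h2 : Continuous fun t : ℂ => (p.1 + t, p.2 + t) := by fun_prop
    exact (h2.tendsto' 0 p (by simp)).mono_left nhdsWithin_le_nhds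
  have h3 : ∀ᶠ t in 𝓝[≠] (0 : ℂ), g (p.1 + t, p.2 + t) = 0 := by
    have e1 : ∀ c : ℂ, ∀ᶠ t in 𝓝[≠] (0 : ℂ), c + t ≠ 0 := by
      intro c
      by_cases hc : c = 0
      · filter_upwards [self_mem_nhdsWithin] with t ht
        rw [hc, zero_add]
        exact ht
      · have h4 : ∀ᶠ t in 𝓝 (0 : ℂ), c + t ≠ 0 := by
          have h5 : Continuous fun t : ℂ => c + t := by fun_prop
          exact h5.continuousAt.eventually_ne (by simpa using hc)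
        exact h4.filter_mono nhdsWithin_le_nhds
    filter_upwards [e1 p.1, e1 p.2, h1.eventually (isOpen_ball.mem_nhds hp)] with t h4 h5 h6
    exact key _ h6 h4 h5
  have h4 : Tendsto (fun t : ℂ => g (p.1 + t, p.2 + t)) (𝓝[≠] 0) (𝓝 (g p)) := (hgr p hp).continuousAt.tendsto.comp h1
  have h5 : Tendsto (fun t : ℂ => g (p.1 + t, p.2 + t)) (𝓝[≠] 0) (𝓝 0) :=
    tendsto_const_nhds.congr' (h3.mono fun t ht => ht.symm)
  exact tendsto_nhds_unique h4 h5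

/-- a germ whose zeros are in the union of the axes and which does not vanish identically on the axes is a unit -/
private theorem GermM_unit {g : ℂ × ℂ → ℂ} (hg : AnalyticAt ℂ g 0) (hz : ∀ᶠ p in 𝓝 (0 : ℂ × ℂ), g p = 0 → p.1 = 0 ∨ p.2 = 0)
    (h1 : ¬ ∀ᶠ t in 𝓝 (0 : ℂ), g (0, t) = 0) (h2 : ¬ ∀ᶠ s in 𝓝 (0 : ℂ), g (s, 0) = 0) : g 0 ≠ 0 := by
  intro h0
  have c1 : AnalyticAt ℂ (fun t : ℂ => g (0, t)) 0 := by
    have h3 : AnalyticAt ℂ (fun t : ℂ => ((0 : ℂ), t)) 0 := by fun_prop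
    exact AnalyticAt.fun_comp (g := g) (f := fun t : ℂ => ((0 : ℂ), t)) hg h3
  have c2 : AnalyticAt ℂ (fun s : ℂ => g (s, 0)) 0 := by
    have h3 : AnalyticAt ℂ (fun s : ℂ => (s, (0 : ℂ))) 0 := by fun_prop
    exact AnalyticAt.fun_comp (g := g) (f := fun s : ℂ => (s, (0 : ℂ))) hg h3
  have d1 := c1.eventually_eq_zero_or_eventually_ne_zero.resolve_left h1
  have d2 := c2.eventually_eq_zero_or_eventually_ne_zero.resolve_left h2
  rw [eventually_nhdsWithin_iff] at d1 d2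
  obtain ⟨r, hr, hr1⟩ := Metric.nhds_basis_closedBall.eventually_iff.mp
    ((hg.eventually_analyticAt.and hz).and ((continuous_fst.tendsto' (0 : ℂ × ℂ) 0 rfl).eventually d2 |>.and
      ((continuous_snd.tendsto' (0 : ℂ × ℂ) 0 rfl).eventually d1)))
  have hpt : ∀ s t : ℂ, ‖s‖ ≤ r → ‖t‖ ≤ r → (s, t) ∈ closedBall (0 : ℂ × ℂ) r := by
    intro s t hs ht
    rw [mem_closedBall_zero_iff, Prod.norm_def]
    exact max_le hs ht
  have hne : ∀ s : ℂ, s ≠ 0 → ‖s‖ ≤ r → ∀ t : ℂ, ‖t‖ ≤ r → g (s, t) ≠ 0 := by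
    intro s hs0 hs t ht h3
    have h4 := hr1 (hpt s t hs ht)
    rcases h4.1.2 h3 with h5 | h5
    · exact hs0 h5
    · have h6 : t = 0 := h5
      rw [h6] at h3
      exact h4.2.1 hs0 h3
  -- the minimum on the circle
  have hcirc : ∀ t ∈ sphere (0 : ℂ) r, g (0, t) ≠ 0 := by
    intro t ht
    have h3 : ‖t‖ = r := by simpa using ht
    have h4 : t ≠ 0 := by
      intro h5
      rw [h5, norm_zero] at h3
      exact hr.ne h3
    exact (hr1 (hpt 0 t (by simpa using hr.le) h3.le)).2.2 h4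
  have hcg : ∀ s t : ℂ, ‖s‖ ≤ r → ‖t‖ ≤ r → ContinuousAt g (s, t) := fun s t hs ht => (hr1 (hpt s t hs ht)).1.1.continuousAt
  have hcc : ContinuousOn (fun t : ℂ => ‖g (0, t)‖) (sphere (0 : ℂ) r) := by
    intro t ht
    have h3 : ‖t‖ = r := by simpa using ht
    have h4 : ContinuousAt (fun t : ℂ => ((0 : ℂ), t)) t := by fun_prop
    exact ((hcg 0 t (by simpa using hr.le) h3.le).comp h4).norm.continuousWithinAt
  obtain ⟨t₀, ht₀, hmin⟩ := (isCompact_sphere (0 : ℂ) r).exists_isMinOn ⟨(r : ℂ), by simp [abs_of_pos hr]⟩ hcc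
  set m : ℝ := ‖g (0, t₀)‖ with hm
  have hm0 : 0 < m := norm_pos_iff.mpr (hcirc t₀ ht₀)
  have hK : ∀ᶠ s in 𝓝 (0 : ℂ), ∀ t ∈ sphere (0 : ℂ) r, m / 2 < ‖g (s, t)‖ := by
    refine (isCompact_sphere (0 : ℂ) r).eventually_forall_of_forall_eventually (P := fun s t => m / 2 < ‖g (s, t)‖) ?_
    intro t ht
    have h3 : ‖t‖ = r := by simpa using ht
    have h4 : ContinuousAt (fun z : ℂ × ℂ => ‖g z‖) (0, t) := (hcg 0 t (by simpa using hr.le) h3.le).norm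
    have h5 : m ≤ ‖g (0, t)‖ := hmin ht
    exact h4.eventually_const_lt (show m / 2 < ‖g (0, t)‖ by linarith)
  have hlow : ∀ᶠ s in 𝓝[≠] (0 : ℂ), m / 2 ≤ ‖g (s, 0)‖ := by
    filter_upwards [hK.filter_mono nhdsWithin_le_nhds, self_mem_nhdsWithin,
      (closedBall_mem_nhds (0 : ℂ) hr : closedBall (0 : ℂ) r ∈ 𝓝 0) |> fun h => nhdsWithin_le_nhds h] with s h3 h4 h5
    have hs : ‖s‖ ≤ r := by simpa using h5
    have hs0 : s ≠ 0 := h4
    have hd : DiffContOnCl ℂ (fun t : ℂ => (g (s, t))⁻¹) (ball 0 r) := by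
      refine DifferentiableOn.diffContOnCl ?_
      rw [closure_ball _ hr.ne']
      intro t ht
      have ht' : ‖t‖ ≤ r := by simpa using ht
      have h6 : DifferentiableAt ℂ (fun t : ℂ => g (s, t)) t := by
        have h7 : DifferentiableAt ℂ (fun t : ℂ => (s, t)) t := by fun_prop
        exact DifferentiableAt.fun_comp' t (hr1 (hpt s t hs ht')).1.1.differentiableAt h7
      exact (h6.inv (hne s hs0 hs t ht')).differentiableWithinAt
    have h6 := Complex.norm_le_of_forall_mem_frontier_norm_le (C := (m / 2)⁻¹) isBounded_ball hd (fun t ht => by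
      rw [frontier_ball _ hr.ne'] at ht
      rw [norm_inv]
      exact inv_anti₀ (half_pos hm0) (h3 t ht).le) (z := 0) (subset_closure (mem_ball_self hr))
    rw [norm_inv] at h6
    exact (inv_le_inv₀ (norm_pos_iff.mpr (hne s hs0 hs 0 (by simpa using hr.le))) (half_pos hm0)).mp h6
  have h3 : Tendsto (fun s : ℂ => ‖g (s, 0)‖) (𝓝[≠] 0) (𝓝 0) := by
    have h4 := c2.continuousAt.norm.tendsto
    have h5 : ‖g ((0 : ℂ), (0 : ℂ))‖ = 0 := by
      rw [norm_eq_zero]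
      exact h0
    simp only [h5] at h4
    exact h4.mono_left nhdsWithin_le_nhds
  have h4 : m / 2 ≤ 0 := ge_of_tendsto h3 hlow
  linarith

private theorem GermM_axes (n : ℕ) : ∀ (g : ℂ × ℂ → ℂ), AnalyticAt ℂ g 0 → (∀ᶠ p in 𝓝 (0 : ℂ × ℂ), g p = 0 → p.1 = 0 ∨ p.2 = 0) →
    ∀ a : ℂ × ℂ, a.1 ≠ 0 → a.2 ≠ 0 → analyticOrderAt (fun t : ℂ => g (t • a)) 0 = (n : ℕ∞) →
    ∃ (i j : ℕ) (v : ℂ × ℂ → ℂ), AnalyticAt ℂ v 0 ∧ v 0 ≠ 0 ∧ ∀ᶠ p in 𝓝 (0 : ℂ × ℂ), g p = p.1 ^ i * p.2 ^ j * v p := by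
  induction n with
  | zero =>
    intro g hg _ a _ _ hn
    have h1 : g 0 ≠ 0 := by
      have h2 := (analyticOrderAt_eq_zero.mp (by simpa using hn)).resolve_left (not_not.mpr (GermM_line hg a))
      simpa using h2
    exact ⟨0, 0, g, hg, h1, Eventually.of_forall fun p => by simp⟩
  | succ n ih =>
    intro g hg hz a ha1 ha2 hn
    by_cases h1 : ∀ᶠ t in 𝓝 (0 : ℂ), g (0, t) = 0
    · obtain ⟨g₁, hg₁, he⟩ := Pool.Agent.H17BP.exists_div_x hg h1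
      have ho := GermM_ord (ContinuousLinearMap.fst ℂ ℂ ℂ) ha1 hg₁ (by simpa using he) hn
      obtain ⟨i, j, v, hv, hv0, hev⟩ := ih g₁ hg₁ (by
        filter_upwards [hz, he] with p h3 h4 h5
        refine h3 ?_
        rw [h4, h5, smul_zero]) a ha1 ha2 ho
      refine ⟨i + 1, j, v, hv, hv0, ?_⟩
      filter_upwards [he, hev] with p h3 h4
      rw [h3, h4, smul_eq_mul]
      ring
    · by_cases h2 : ∀ᶠ s in 𝓝 (0 : ℂ), g (s, 0) = 0
      · obtain ⟨g₁, hg₁, he⟩ := Pool.Agent.H17BP.exists_div_y hg h2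
        have ho := GermM_ord (ContinuousLinearMap.snd ℂ ℂ ℂ) ha2 hg₁ (by simpa using he) hn
        obtain ⟨i, j, v, hv, hv0, hev⟩ := ih g₁ hg₁ (by
          filter_upwards [hz, he] with p h3 h4 h5
          refine h3 ?_
          rw [h4, h5, smul_zero]) a ha1 ha2 ho
        refine ⟨i, j + 1, v, hv, hv0, ?_⟩
        filter_upwards [he, hev] with p h3 h4
        rw [h3, h4, smul_eq_mul]
        ring
      · exact ⟨0, 0, g, hg, GermM_unit hg hz h1 h2, Eventually.of_forall fun p => by simp⟩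

theorem mono_div {S T g : ℂ × ℂ → ℂ} (h : Coord S T) (hg : AnalyticAt ℂ g 0) (hne : ¬ ∀ᶠ p in 𝓝 (0 : ℂ × ℂ), g p = 0)
    (hz : ∀ᶠ p in 𝓝 (0 : ℂ × ℂ), g p = 0 → S p = 0 ∨ T p = 0) :
    ∃ (i j : ℕ) (v : ℂ × ℂ → ℂ), AnalyticAt ℂ v 0 ∧ v 0 ≠ 0 ∧ ∀ᶠ p in 𝓝 (0 : ℂ × ℂ), g p = S p ^ i * T p ^ j * v p := by
  have hθ : Bihol fun x => (S x, T x) := h
  obtain ⟨θ', h1, h2, h3⟩ := hθ.exists_inv
  have hg' : AnalyticAt ℂ (g ∘ θ') 0 := by
    have h4 : AnalyticAt ℂ g (θ' 0) := by rw [h1.zero]; exact hg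
    exact h4.comp h1.an
  have hne' : ¬ ∀ᶠ p in 𝓝 (0 : ℂ × ℂ), (g ∘ θ') p = 0 := by
    intro h4
    apply hne
    filter_upwards [h2, hθ.tendsto.eventually h4] with x h5 h6
    simp only [Function.comp_apply] at h6
    rw [h5] at h6
    exact h6
  have hz' : ∀ᶠ p in 𝓝 (0 : ℂ × ℂ), (g ∘ θ') p = 0 → p.1 = 0 ∨ p.2 = 0 := by
    filter_upwards [h3, h1.tendsto.eventually hz] with p h5 h6 h7
    have e1 : S (θ' p) = p.1 := congrArg Prod.fst h5
    have e2 : T (θ' p) = p.2 := congrArg Prod.snd h5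
    rw [← e1, ← e2]
    exact h6 h7
  obtain ⟨a, ha1, ha2, n, hn⟩ := GermM_ex hg' hne'
  obtain ⟨i, j, v, hv, hv0, hev⟩ := GermM_axes n _ hg' hz' a ha1 ha2 hn
  refine ⟨i, j, fun x => v (S x, T x), ?_, ?_, ?_⟩
  · have h4 : (S 0, T 0) = (0 : ℂ × ℂ) := hθ.zero
    have h5 : AnalyticAt ℂ v (S 0, T 0) := by rw [h4]; exact hv
    exact AnalyticAt.fun_comp (g := v) (f := fun x => (S x, T x)) h5 hθ.an
  · have h4 : (S 0, T 0) = (0 : ℂ × ℂ) := hθ.zero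
    show v (S 0, T 0) ≠ 0
    rw [h4]
    exact hv0
  · filter_upwards [h2, hθ.tendsto.eventually hev] with x h5 h6
    simp only [Function.comp_apply] at h6
    rw [h5] at h6
    exact h6

theorem mono_of_zero {G g : ℂ × ℂ → ℂ} (hG : Mono G) (hg : AnalyticAt ℂ g 0) (hne : ¬ ∀ᶠ p in 𝓝 (0 : ℂ × ℂ), g p = 0)
    (hz : ∀ᶠ p in 𝓝 (0 : ℂ × ℂ), g p = 0 → G p = 0) : Mono g := by
  obtain ⟨S, T, a, b, w, hST, hw, hw0, hev⟩ := hG
  have hz' : ∀ᶠ p in 𝓝 (0 : ℂ × ℂ), g p = 0 → S p = 0 ∨ T p = 0 := by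
    filter_upwards [hz, hev, hw.continuousAt.eventually_ne hw0] with p h1 h2 h3 h4
    have h5 := h1 h4
    rw [h2] at h5
    rcases mul_eq_zero.mp h5 with h6 | h6
    · rcases mul_eq_zero.mp h6 with h7 | h7
      · exact Or.inl (eq_zero_of_pow_eq_zero h7)
      · exact Or.inr (eq_zero_of_pow_eq_zero h7)
    · exact absurd h6 h3
  obtain ⟨i, j, v, hv, hv0, h1⟩ := mono_div hST hg hne hz'
  exact ⟨S, T, i, j, v, hST, hv, hv0, h1⟩

private theorem GermM_root {v : ℂ × ℂ → ℂ} (hv : AnalyticAt ℂ v 0) (h0 : v 0 ≠ 0) {a : ℕ} (ha : 0 < a) :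
    ∃ k : ℂ × ℂ → ℂ, AnalyticAt ℂ k 0 ∧ k 0 ≠ 0 ∧ ∀ᶠ x in 𝓝 0, k x ^ a = v x := by
  obtain ⟨c, hc⟩ := IsAlgClosed.exists_pow_nat_eq (v 0) ha
  have haC : (a : ℂ) ≠ 0 := by exact_mod_cast ha.ne'
  have hc0 : c ≠ 0 := by
    intro h
    rw [h, zero_pow ha.ne'] at hc
    exact h0 hc.symm
  have h1 : AnalyticAt ℂ (fun x => v x / v 0) 0 := hv.div analyticAt_const h0
  have h2 : (fun x => v x / v 0) 0 ∈ Complex.slitPlane := by
    simp only [div_self h0]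
    exact Complex.one_mem_slitPlane
  refine ⟨fun x => c * Complex.exp (Complex.log (v x / v 0) / a), ?_, ?_, ?_⟩
  · exact analyticAt_const.mul (((h1.clog h2).div analyticAt_const haC).cexp)
  · exact mul_ne_zero hc0 (Complex.exp_ne_zero _)
  · have h3 : ∀ᶠ x in 𝓝 (0 : ℂ × ℂ), v x ≠ 0 := hv.continuousAt.eventually_ne h0
    filter_upwards [h3] with x hx
    rw [mul_pow, hc, ← Complex.exp_nat_mul, mul_div_cancel₀ _ haC, Complex.exp_log (div_ne_zero hx h0), mul_div_cancel₀ _ h0]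

private theorem GermM_coord {S T k : ℂ × ℂ → ℂ} (h : Coord S T) (hk : AnalyticAt ℂ k 0) (hk0 : k 0 ≠ 0) : Coord (fun x => S x * k x) T := by
  obtain ⟨h1, h2, h3, h4⟩ := h.parts
  rw [Pool.Agent.H17BP.coord_iff h1 h2 h3 h4] at h
  have hSk : AnalyticAt ℂ (fun x => S x * k x) 0 := h1.mul hk
  rw [Pool.Agent.H17BP.coord_iff hSk h2 (by rw [h3, zero_mul]) h4]
  have e : fderiv ℂ (fun x => S x * k x) 0 = k 0 • fderiv ℂ S 0 := by
    have := (h1.differentiableAt.hasFDerivAt.mul hk.differentiableAt.hasFDerivAt).fderiv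
    refine this.trans ?_
    rw [h3]
    ext <;> simp
  have e1 : Pool.Agent.H17BP.dx (fun x => S x * k x) 0 = k 0 * Pool.Agent.H17BP.dx S 0 := by
    simp [Pool.Agent.H17BP.dx, e]
  have e2 : Pool.Agent.H17BP.dy (fun x => S x * k x) 0 = k 0 * Pool.Agent.H17BP.dy S 0 := by
    simp [Pool.Agent.H17BP.dy, e]
  rw [e1, e2]
  intro h5
  apply h
  have h6 : k 0 * (Pool.Agent.H17BP.dx S 0 * Pool.Agent.H17BP.dy T 0 - Pool.Agent.H17BP.dy S 0 * Pool.Agent.H17BP.dx T 0) = 0 := by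
    linear_combination h5
  exact (mul_eq_zero.1 h6).resolve_left hk0

/-- a coordinate which vanishes on the axis `p.2 = 0` is `p.2` times a unit -/
private theorem GermM_axis {S T : ℂ × ℂ → ℂ} (h : Coord S T) (hT0 : ∀ᶠ s in 𝓝 (0 : ℂ), T (s, 0) = 0) :
    ∃ κ : ℂ × ℂ → ℂ, AnalyticAt ℂ κ 0 ∧ κ 0 ≠ 0 ∧ ∀ᶠ p in 𝓝 (0 : ℂ × ℂ), T p = p.2 * κ p := by
  obtain ⟨h1, h2, h3, h4⟩ := h.parts
  obtain ⟨κ, hκ, he⟩ := Pool.Agent.H17BP.exists_div_y h2 hT0
  refine ⟨κ, hκ, ?_, by simpa using he⟩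
  intro hκ0
  have e1 : fderiv ℂ T 0 = 0 := by
    have e2 : T =ᶠ[𝓝 0] fun p : ℂ × ℂ => p.2 * κ p := by
      filter_upwards [he] with p hp
      rw [hp, smul_eq_mul]
    rw [e2.fderiv_eq]
    have e3 : HasFDerivAt (fun p : ℂ × ℂ => p.2) (ContinuousLinearMap.snd ℂ ℂ ℂ) 0 := hasFDerivAt_snd
    have e4 := (e3.mul hκ.differentiableAt.hasFDerivAt).fderiv
    refine e4.trans ?_
    rw [hκ0]
    ext <;> simp
  rw [Pool.Agent.H17BP.coord_iff h1 h2 h3 h4] at h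
  apply h
  simp [Pool.Agent.H17BP.dx, Pool.Agent.H17BP.dy, e1]

private theorem GermM_hor {S T g : ℂ × ℂ → ℂ} (hST : Coord S T) (hg : AnalyticAt ℂ g 0) (hg0 : g 0 = 0)
    (hne : ¬ ∀ᶠ s in 𝓝 (0 : ℂ), g (s, 0) = 0) (hz : ∀ᶠ p in 𝓝 (0 : ℂ × ℂ), g p = 0 → S p = 0 ∨ T p = 0)
    (hT0 : ∀ᶠ s in 𝓝 (0 : ℂ), T (s, 0) = 0) :
    ∃ (θ θ' : ℂ × ℂ → ℂ × ℂ) (i : ℕ), Bihol θ ∧ Bihol θ' ∧ (∀ᶠ x in 𝓝 (0 : ℂ × ℂ), θ' (θ x) = x) ∧ (∀ᶠ x in 𝓝 (0 : ℂ × ℂ), θ (θ' x) = x) ∧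
      1 ≤ i ∧ (∀ᶠ p in 𝓝 (0 : ℂ × ℂ), (θ p).2 = 0 ↔ p.2 = 0) ∧ ∀ᶠ p in 𝓝 (0 : ℂ × ℂ), g (θ p) = p.1 ^ i := by
  have hax : Tendsto (fun s : ℂ => (s, (0 : ℂ))) (𝓝 0) (𝓝 (0 : ℂ × ℂ)) := by
    have h : Continuous fun s : ℂ => (s, (0 : ℂ)) := by fun_prop
    exact h.tendsto' 0 0 rfl
  have hne' : ¬ ∀ᶠ p in 𝓝 (0 : ℂ × ℂ), g p = 0 := fun h => hne (hax.eventually h)
  obtain ⟨i, j, v, hv, hv0, hev⟩ := mono_div hST hg hne' hz
  have hj : j = 0 := by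
    by_contra hj
    apply hne
    filter_upwards [hax.eventually hev, hT0] with s h1 h2
    rw [h1, h2, zero_pow hj, mul_zero, zero_mul]
  have hi : 1 ≤ i := by
    by_contra hi
    have hi0 : i = 0 := by omega
    have h1 := hev.self_of_nhds
    rw [hi0, hj, pow_zero, pow_zero, one_mul, one_mul, hg0] at h1
    exact hv0 h1.symm
  obtain ⟨κ, hκ, hκ0, heκ⟩ := GermM_axis hST hT0
  obtain ⟨k, hk, hk0, hkv⟩ := GermM_root hv hv0 hi
  have hη : Bihol fun x => (S x * k x, T x) := GermM_coord hST hk hk0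
  obtain ⟨θ, hθ, e1, e2⟩ := hη.exists_inv
  refine ⟨θ, fun x => (S x * k x, T x), i, hθ, hη, e2, e1, hi, ?_, ?_⟩
  · filter_upwards [e2, hθ.tendsto.eventually heκ, hθ.tendsto.eventually (hκ.continuousAt.eventually_ne hκ0)] with p h1 h2 h3
    have h4 : T (θ p) = p.2 := congrArg Prod.snd h1
    rw [← h4, h2, mul_eq_zero]
    exact ⟨fun h => Or.inl h, fun h => h.resolve_right h3⟩
  · filter_upwards [e2, hθ.tendsto.eventually hev, hθ.tendsto.eventually hkv] with p h1 h2 h3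
    have h4 : S (θ p) * k (θ p) = p.1 := congrArg Prod.fst h1
    rw [h2, hj, pow_zero, mul_one, ← h3, ← mul_pow, h4]

theorem mono_hor {G g : ℂ × ℂ → ℂ} (hG : Mono G) (hg : AnalyticAt ℂ g 0) (hg0 : g 0 = 0) (hne : ¬ ∀ᶠ s in 𝓝 (0 : ℂ), g (s, 0) = 0)
    (hz : ∀ᶠ p in 𝓝 (0 : ℂ × ℂ), G p = 0 ↔ (g p = 0 ∨ p.2 = 0)) :
    ∃ (θ θ' : ℂ × ℂ → ℂ × ℂ) (i : ℕ), Bihol θ ∧ Bihol θ' ∧ (∀ᶠ x in 𝓝 (0 : ℂ × ℂ), θ' (θ x) = x) ∧ (∀ᶠ x in 𝓝 (0 : ℂ × ℂ), θ (θ' x) = x) ∧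
      1 ≤ i ∧ (∀ᶠ p in 𝓝 (0 : ℂ × ℂ), (θ p).2 = 0 ↔ p.2 = 0) ∧ ∀ᶠ p in 𝓝 (0 : ℂ × ℂ), g (θ p) = p.1 ^ i := by
  obtain ⟨S, T, a, b, w, hST, hw, hw0, hev⟩ := hG
  have hGz : ∀ᶠ p in 𝓝 (0 : ℂ × ℂ), G p = 0 → S p = 0 ∨ T p = 0 := by
    filter_upwards [hev, hw.continuousAt.eventually_ne hw0] with p h2 h3 h5
    rw [h2] at h5
    rcases mul_eq_zero.mp h5 with h6 | h6
    · rcases mul_eq_zero.mp h6 with h7 | h7
      · exact Or.inl (eq_zero_of_pow_eq_zero h7)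
      · exact Or.inr (eq_zero_of_pow_eq_zero h7)
    · exact absurd h6 h3
  have hz' : ∀ᶠ p in 𝓝 (0 : ℂ × ℂ), g p = 0 → S p = 0 ∨ T p = 0 := by
    filter_upwards [hGz, hz] with p h1 h2 h3
    exact h1 (h2.mpr (Or.inl h3))
  obtain ⟨hS, hT, -, -⟩ := hST.parts
  have hax : Tendsto (fun s : ℂ => (s, (0 : ℂ))) (𝓝 0) (𝓝 (0 : ℂ × ℂ)) := by
    have h : Continuous fun s : ℂ => (s, (0 : ℂ)) := by fun_prop
    exact h.tendsto' 0 0 rfl
  have h3 : AnalyticAt ℂ (fun s : ℂ => (s, (0 : ℂ))) 0 := by fun_prop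
  have hSa : AnalyticAt ℂ (fun s : ℂ => S (s, 0)) 0 := AnalyticAt.fun_comp (g := S) (f := fun s : ℂ => (s, (0 : ℂ))) hS h3
  have hTa : AnalyticAt ℂ (fun s : ℂ => T (s, 0)) 0 := AnalyticAt.fun_comp (g := T) (f := fun s : ℂ => (s, (0 : ℂ))) hT h3
  rcases hTa.eventually_eq_zero_or_eventually_ne_zero with hT0 | hT0
  · exact GermM_hor hST hg hg0 hne hz' hT0
  rcases hSa.eventually_eq_zero_or_eventually_ne_zero with hS0 | hS0
  · refine GermM_hor hST.symm hg hg0 hne ?_ hS0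
    filter_upwards [hz'] with p h1 h2
    exact (h1 h2).symm
  exfalso
  have h4 : ∀ᶠ s in 𝓝 (0 : ℂ), S (s, 0) = 0 ∨ T (s, 0) = 0 := by
    filter_upwards [hax.eventually hGz, hax.eventually hz] with s h5 h6
    exact h5 (h6.mpr (Or.inr rfl))
  obtain ⟨s, h5, h6, h7⟩ := ((h4.filter_mono nhdsWithin_le_nhds).and (hS0.and hT0)).exists
  exact h5.elim h6 h7

end Pool.Agent.H17L
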