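import Pool.Agent.H17L.Defs
import Pool.Agent.H17L.GermM

/-!
# H17L ResD: local equations of the union of a fibre and of `D`

Models: H17N/ResU.lean, H17N/ResV.lean (the same statements for `RU`), H17BP/ResS.lean, H17BP/ChLem.lean.

* `RUD.mono_le`: `ResN` is monotone in `n` (see `RU.mono_le`).
* `RUD.pr`: `y = c • x`: the chart `c • σ` (`IsChart.scale`), the same `g`, `G` (`hD.smul`, `hu.smul`).
* `exists_rud`: `x ∉ D`: chart at `x` (`hX.chart`), `g` by `exists_lu`, `G = g` (`σ p ∉ D` near `0` by `closed`), not `0` by `NonConst`, `exists_resN`.  `x ∈ D`: the adapted chart and `g` of `smooth`, `G = g * p.2`: not identically `0` near `0` (`g` is not `0` on `{t = 0}`, hence not on the open set `t ≠ 0` either: if `g p * p.2 = 0` near `0` then `g = 0` for `p.2 ≠ 0`, by continuity everywhere near `0`).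
* `rud_of_ru`: `x ∉ D`: the same chart, `G = g`.  `rud_of_trv`: `G = g * p.2`; `(g, p.2)` are coordinates (`coord_iff` in H17BP/Ift or H17BP/ChLem: the derivative of `g` in direction `(1, 0)` is not `0`), so `Mono G` with `a = b = 1`, unit `1`.
* `TrV.near`: adapted chart and `g` of `smooth` at `x`.  The function `s ↦ g (s, 0)` is analytic and not constant near `0` (`g 0 = 0`), so its derivative `fderiv ℂ g (s, 0) (1, 0)` does not vanish for `s ≠ 0` near `0`.  `y ∈ D` near `x`: `y = c • σ (τ y)`, `τ y = (s, 0)` (`AD`, `smul`), `s ≠ 0` because `y` is not a multiple of `x = σ 0`.  Chart at `y`: `c • σ ((s, 0) + ·)` (`IsChart.near`, `IsChart.scale`),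
  adapted, germ `g ((s, 0) + ·) - g (s, 0)`.
* `RUD.near`: chart `σ` with `g`, `G` at `x`; `y = c • σ p`, `p = τ y` near `0`, `p ≠ 0`.  If `y ∈ D`: `x ∈ D` (`closed`) and `TrV.near`, `rud_of_trv`.  If `y ∉ D` and `g p = 0`: the germ at `y` is `g (p + ·)`, and `G (p + ·)` is `Mono` by `ResN.near` (H17BP/FinG).  If `y ∉ D` and `g p ≠ 0`: `fderiv ℂ g p ≠ 0` (`H17N.crit_near`), `H17N.ru0_of_ne` (with `RU.pr` if necessary), `rud_of_ru`.
* `ru_of_rud`: `n = 0`, `x ∉ D`: `{G = 0} = {g = 0}` near `0`, `mono_of_zero` (`g` is not `0` near `0` by `NonConst`).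
* `rud_hor`: `x ∈ D`.  Let `σ₁, g₁` be the adapted chart and the germ of `smooth` at `x`, and `σ, g, G` those of `RUD`.  `IsChart.trans`: `Pr (σ₁ p) (σ (θ p))`, `θ` biholomorphic.  `g₁ = g ∘ θ` near `0` (`LU.unique` in H17N/BlowT, `hu.smul`, `hΛ`), `G₁ = G ∘ θ` is `Mono` (composition with a biholomorphic map: see `H17BP` `Mono.comp`/`ResN.comp` used in H17N/ResU), `G₁ p = 0 ↔ g₁ p = 0 ∨ σ₁ p ∈ D ↔ g₁ p = 0 ∨ p.2 = 0`.
  `mono_hor` gives `θ₁`; the chart `σ₁ ∘ θ₁` (`IsChart.comp`) is adapted and `u (σ₁ (θ₁ p)) = u x + p.1 ^ i` modulo `Λ`.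
* `trv_hor`: `η p = (g p, p.2)` is biholomorphic; the chart `σ ∘ η⁻¹`.
-/

set_option autoImplicit false

open Topology Filter

namespace Pool.Agent.H17L

open Pool.Agent.H17BP (Surface IsChart Tan Pr HolP ResN)
open Pool.Agent.H17N (TMap LU RU TF NonConst ThinF FibB HSec)

variable {V : Type} [NormedAddCommGroup V] [NormedSpace ℂ V] [FiniteDimensional ℂ V] {X D : Set V} {Λ : AddSubgroup ℂ} {u : V → ℂ} {x y : V} {n k : ℕ}

omit [FiniteDimensional ℂ V] in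
private theorem ResD_scale (hu : TMap X Λ u) {σ : ℂ × ℂ → V} {τ : V → ℂ × ℂ} {g : ℂ × ℂ → ℂ} (hc : IsChart X σ τ) (hg : LU Λ u σ g)
    {a : ℂ} (ha : a ≠ 0) : LU Λ u (fun p => a • σ p) g := by
  refine ⟨hg.1, hg.2.1, ?_⟩
  have h0 : u (a • σ 0) - u (σ 0) ∈ Λ := hu.smul _ hc.σ_mem.self_of_nhds a ha
  filter_upwards [hg.2.2, hc.σ_mem] with p hp1 hp2
  have h1 : u (a • σ p) - u (σ p) ∈ Λ := hu.smul _ hp2 a ha
  have h2 : u (a • σ p) - u (a • σ 0) - g p = (u (a • σ p) - u (σ p)) + (u (σ p) - u (σ 0) - g p) - (u (a • σ 0) - u (σ 0)) := by ring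
  rw [h2]
  exact Λ.sub_mem (Λ.add_mem h1 hp1) h0

omit [FiniteDimensional ℂ V] in
private theorem ResD_mem (hD : CurveD X D Λ u) {a : ℂ} (ha : a ≠ 0) (v : V) : a • v ∈ D ↔ v ∈ D := by
  constructor
  · intro h
    have h1 := hD.smul _ h a⁻¹ (inv_ne_zero ha)
    rwa [smul_smul, inv_mul_cancel₀ ha, one_smul] at h1
  · intro h
    exact hD.smul _ h a ha

private theorem ResD_add (p : ℂ × ℂ) : Tendsto (fun x : ℂ × ℂ => p + x) (𝓝 0) (𝓝 p) := by
  have h1 : Continuous fun x : ℂ × ℂ => p + x := by fun_prop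
  have h2 := h1.tendsto 0
  simpa using h2

omit [NormedSpace ℂ V] [FiniteDimensional ℂ V] in
private theorem ResD_near {σ : ℂ × ℂ → V} {g : ℂ × ℂ → ℂ} (hg : LU Λ u σ g) :
    ∀ᶠ p in 𝓝 (0 : ℂ × ℂ), LU Λ u (fun x => σ (p + x)) (fun x => g (p + x) - g p) := by
  filter_upwards [hg.1.eventually_analyticAt, eventually_eventually_nhds.2 hg.2.2] with p hp1 hp2
  refine ⟨?_, by simp, ?_⟩
  · have h1 : AnalyticAt ℂ (fun x : ℂ × ℂ => p + x) 0 := analyticAt_const.add analyticAt_id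
    have h2 : AnalyticAt ℂ g ((fun x : ℂ × ℂ => p + x) 0) := by
      simp only [add_zero]
      exact hp1
    exact (h2.comp h1).sub analyticAt_const
  · have h0 := hp2.self_of_nhds
    filter_upwards [(ResD_add p).eventually hp2] with x hx2
    have h2 : u (σ (p + x)) - u (σ (p + 0)) - (g (p + x) - g p) = (u (σ (p + x)) - u (σ 0) - g (p + x)) - (u (σ p) - u (σ 0) - g p) := by
      rw [add_zero]
      ring
    rw [h2]
    exact Λ.sub_mem hx2 h0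

omit [FiniteDimensional ℂ V] in
private theorem ResD_notMem (hD : CurveD X D Λ u) {σ : ℂ × ℂ → V} {τ : V → ℂ × ℂ} (hc : IsChart X σ τ) (h : σ 0 ∉ D) :
    ∀ᶠ p in 𝓝 (0 : ℂ × ℂ), σ p ∉ D :=
  hc.σ_an.continuousAt.tendsto.eventually (hD.closed _ hc.σ_mem.self_of_nhds h)

private theorem ResD_slice : Tendsto (fun s : ℂ => ((s, 0) : ℂ × ℂ)) (𝓝 0) (𝓝 0) := by
  have h1 : Continuous fun s : ℂ => ((s, 0) : ℂ × ℂ) := by fun_prop
  exact h1.tendsto 0

private theorem ResD_ne {g : ℂ × ℂ → ℂ} (hg : AnalyticAt ℂ g 0) (h : ¬ ∀ᶠ s in 𝓝 (0 : ℂ), g (s, 0) = 0) :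
    ¬ ∀ᶠ p in 𝓝 (0 : ℂ × ℂ), g p * p.2 = 0 := by
  intro h1
  apply h
  filter_upwards [ResD_slice.eventually hg.eventually_analyticAt, ResD_slice.eventually (eventually_eventually_nhds.2 h1)] with s hs1 hs2
  by_contra h2
  have h3 : ∀ᶠ p in 𝓝 ((s, 0) : ℂ × ℂ), p.2 = 0 := by
    filter_upwards [hs1.continuousAt.eventually_ne h2, hs2] with p hp1 hp2
    exact (mul_eq_zero.1 hp2).resolve_left hp1
  have h4 : Tendsto (fun t : ℂ => ((s, t) : ℂ × ℂ)) (𝓝 0) (𝓝 (s, 0)) := by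
    have h5 : Continuous fun t : ℂ => ((s, t) : ℂ × ℂ) := by fun_prop
    exact h5.tendsto 0
  have h6 : ∀ᶠ t in 𝓝[≠] (0 : ℂ), t = 0 := (h4.eventually h3).filter_mono nhdsWithin_le_nhds
  obtain ⟨t, ht1, ht2⟩ := (h6.and self_mem_nhdsWithin).exists
  exact ht2 ht1

private theorem ResD_der {g : ℂ × ℂ → ℂ} (hg : AnalyticAt ℂ g 0) (hg0 : g 0 = 0) (h : ¬ ∀ᶠ s in 𝓝 (0 : ℂ), g (s, 0) = 0) :
    ∀ᶠ s in 𝓝[≠] (0 : ℂ), fderiv ℂ g (s, 0) (1, 0) ≠ 0 := by
  have hs : AnalyticAt ℂ (fun s : ℂ => ((s, 0) : ℂ × ℂ)) 0 := analyticAt_id.prod analyticAt_const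
  have hd : AnalyticAt ℂ (fun s : ℂ => fderiv ℂ g (s, 0) (1, 0)) 0 := by
    have h1 : AnalyticAt ℂ (fun p : ℂ × ℂ => fderiv ℂ g p (1, 0)) ((fun s : ℂ => ((s, 0) : ℂ × ℂ)) 0) :=
      Pool.Agent.H17BP.analyticAt_dx hg
    exact AnalyticAt.comp (g := fun p : ℂ × ℂ => fderiv ℂ g p (1, 0)) (f := fun s : ℂ => ((s, 0) : ℂ × ℂ)) h1 hs
  rcases hd.eventually_eq_zero_or_eventually_ne_zero with h0 | h0
  · exfalso
    apply h
    obtain ⟨r, hr, hr1⟩ := Metric.eventually_nhds_iff_ball.1 (h0.and (ResD_slice.eventually hg.eventually_analyticAt))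
    have h5 : ∀ s ∈ Metric.ball (0 : ℂ) r, HasDerivAt (fun s : ℂ => g (s, 0)) 0 s := by
      intro s hs1
      have h6 := hr1 s hs1
      have h7 : HasDerivAt (fun s : ℂ => ((s, 0) : ℂ × ℂ)) (1, 0) s := (hasDerivAt_id s).prodMk (hasDerivAt_const s 0)
      have h8 := h6.2.differentiableAt.hasFDerivAt.comp_hasDerivAt s h7
      rw [h6.1] at h8
      exact h8
    have h6 : ∀ s ∈ Metric.ball (0 : ℂ) r, g (s, 0) = 0 := by
      intro s hs1
      have h7 : (fun s : ℂ => g (s, 0)) s = (fun s : ℂ => g (s, 0)) 0 :=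
        Metric.isOpen_ball.is_const_of_deriv_eq_zero (convex_ball (0 : ℂ) r).isPreconnected
          (fun z hz => (h5 z hz).differentiableAt.differentiableWithinAt) (fun z hz => (h5 z hz).deriv) hs1 (Metric.mem_ball_self hr)
      simp only at h7
      rw [h7]
      exact hg0
    filter_upwards [Metric.ball_mem_nhds (0 : ℂ) hr] with s hs1
    exact h6 s hs1
  · exact h0

theorem RUD.mono_le (h : RUD X D Λ u x n) (hnk : n ≤ k) : RUD X D Λ u x k := by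
  obtain ⟨σ, τ, g, G, h1, h2, h3, h4, h5, h6⟩ := h
  exact ⟨σ, τ, g, G, h1, h2, h3, h4, h5, h6.mono_le hnk⟩

theorem RUD.pr (hX : Surface X) (hu : TMap X Λ u) (hD : CurveD X D Λ u) (h : RUD X D Λ u x n) (hy : Pr y x) : RUD X D Λ u y n := by
  obtain ⟨σ, τ, g, G, hc, hx, hg, hG, hz, hr⟩ := h
  obtain ⟨a, ha, rfl⟩ := hy
  refine ⟨fun p => a • σ p, fun y => τ (a⁻¹ • y), g, G, hc.scale hX.smul ha, ?_, ResD_scale hu hc hg ha, hG, ?_, hr⟩
  · show a • σ 0 = a • x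
    rw [hx]
  · filter_upwards [hz] with p hp
    rw [hp, ResD_mem hD ha]

theorem exists_rud (hX : Surface X) (hu : TMap X Λ u) (hn : NonConst X Λ u) (hD : CurveD X D Λ u) (hx : x ∈ X) : ∃ n, RUD X D Λ u x n := by
  by_cases hxD : x ∈ D
  · obtain ⟨σ, τ, g, hc, hσ, hA, hg, hne⟩ := hD.smooth x hxD
    have hG : AnalyticAt ℂ (fun p : ℂ × ℂ => g p * p.2) 0 := hg.1.mul analyticAt_snd
    obtain ⟨n, hr⟩ := Pool.Agent.H17BP.exists_resN hG (ResD_ne hg.1 hne)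
    refine ⟨n, σ, τ, g, _, hc, hσ, hg, hG, ?_, hr⟩
    filter_upwards [hA] with p hp
    rw [mul_eq_zero, hp]
  · obtain ⟨σ, τ, hc, hσ⟩ := hX.chart x hx
    obtain ⟨g, hg⟩ := Pool.Agent.H17N.exists_lu hu hc
    obtain ⟨n, hr⟩ := Pool.Agent.H17BP.exists_resN hg.1 (hn σ τ g hc hg)
    refine ⟨n, σ, τ, g, g, hc, hσ, hg, hg.1, ?_, hr⟩
    rw [← hσ] at hxD
    filter_upwards [ResD_notMem hD hc hxD] with p hp
    exact ⟨Or.inl, fun h => h.resolve_right hp⟩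

theorem rud_of_ru (hD : CurveD X D Λ u) (hx : x ∈ X) (hxD : x ∉ D) (h : RU X Λ u x n) : RUD X D Λ u x n := by
  obtain ⟨σ, τ, g, hc, hσ, hg, hr⟩ := h
  refine ⟨σ, τ, g, g, hc, hσ, hg, hg.1, ?_, hr⟩
  rw [← hσ] at hxD
  filter_upwards [ResD_notMem hD hc hxD] with p hp
  exact ⟨Or.inl, fun h => h.resolve_right hp⟩

theorem rud_of_trv (h : TrV X D Λ u x) : RUD X D Λ u x 0 := by
  obtain ⟨σ, τ, g, hc, hσ, hA, hg, hd⟩ := h
  refine ⟨σ, τ, g, fun p => g p * p.2, hc, hσ, hg, hg.1.mul analyticAt_snd, ?_, ?_⟩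
  · filter_upwards [hA] with p hp
    rw [mul_eq_zero, hp]
  · have f2 : fderiv ℂ (fun x : ℂ × ℂ => x.2) 0 = ContinuousLinearMap.snd ℂ ℂ ℂ := (hasFDerivAt_snd).fderiv
    have e1 : Pool.Agent.H17BP.dy (fun x : ℂ × ℂ => x.2) 0 = 1 := by simp [Pool.Agent.H17BP.dy, f2]
    have e2 : Pool.Agent.H17BP.dx (fun x : ℂ × ℂ => x.2) 0 = 0 := by simp [Pool.Agent.H17BP.dx, f2]
    refine ⟨g, fun x => x.2, 1, 1, fun _ => 1, (Pool.Agent.H17BP.coord_iff hg.1 analyticAt_snd hg.2.1 rfl).2 ?_, analyticAt_const, one_ne_zero,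
      Eventually.of_forall fun x => by simp⟩
    rw [e1, e2, mul_zero, mul_one, sub_zero]
    exact hd

omit [FiniteDimensional ℂ V] in
private theorem ResD_trv_pr (hX : Surface X) (hu : TMap X Λ u) (hD : CurveD X D Λ u) (h : TrV X D Λ u x) (hy : Pr y x) : TrV X D Λ u y := by
  obtain ⟨σ, τ, g, hc, hx, hA, hg, hd⟩ := h
  obtain ⟨a, ha, rfl⟩ := hy
  refine ⟨fun p => a • σ p, fun y => τ (a⁻¹ • y), g, hc.scale hX.smul ha, ?_, ?_, ResD_scale hu hc hg ha, hd⟩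
  · show a • σ 0 = a • x
    rw [hx]
  · filter_upwards [hA] with p hp
    rw [ResD_mem hD ha, hp]

theorem TrV.near (hX : Surface X) (hu : TMap X Λ u) (hD : CurveD X D Λ u) (hx : x ∈ D) :
    ∀ᶠ y in 𝓝 x, y ∈ D → ¬ Pr y x → TrV X D Λ u y := by
  obtain ⟨σ, τ, g, hc, hσ, hA, hg, hne⟩ := hD.smooth x hx
  have hτ0 : τ (σ 0) = 0 := hc.left.self_of_nhds
  have hτ : Tendsto τ (𝓝 (σ 0)) (𝓝 0) := by
    have h1 := hc.τ_an.continuousAt.tendsto
    rwa [hτ0] at h1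
  have hder : ∀ᶠ p in 𝓝 (0 : ℂ × ℂ), p.1 ≠ 0 → fderiv ℂ g (p.1, 0) (1, 0) ≠ 0 := by
    have h1 : Tendsto (fun p : ℂ × ℂ => p.1) (𝓝 0) (𝓝 0) := continuous_fst.tendsto (0 : ℂ × ℂ)
    exact h1.eventually (eventually_nhdsWithin_iff.1 (ResD_der hg.1 hg.2.1 hne))
  have e3 : ∀ᶠ p in 𝓝 (0 : ℂ × ℂ), p ≠ 0 → σ p ∈ D → TrV X D Λ u (σ p) := by
    filter_upwards [hc.near, ResD_near hg, hder, eventually_eventually_nhds.2 hA] with p hp1 hp2 hp3 hp4 hp0 hpD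
    have h2 : p.2 = 0 := hp4.self_of_nhds.1 hpD
    have h1 : p.1 ≠ 0 := fun h => hp0 (Prod.ext h h2)
    have hp : (p.1, 0) = p := Prod.ext rfl h2.symm
    refine ⟨_, _, _, hp1, by simp, ?_, hp2, ?_⟩
    · filter_upwards [(ResD_add p).eventually hp4] with q hq
      rw [hq]
      show p.2 + q.2 = 0 ↔ q.2 = 0
      rw [h2, zero_add]
    · have h3 : fderiv ℂ (fun x => g (p + x) - g p) 0 = fderiv ℂ g p := by
        rw [fderiv_sub_const, fderiv_comp_add_left, add_zero]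
      rw [h3]
      have h4 := hp3 h1
      rwa [hp] at h4
  rw [← hσ]
  filter_upwards [hc.right, hτ.eventually e3] with y hy1 hy2 hyD hyn
  obtain ⟨c, hc0, hyc⟩ := hy1 (hD.sub hyD)
  have hne : τ y ≠ 0 := by
    intro h0
    rw [h0] at hyc
    exact hyn ⟨c, hc0, hyc⟩
  have hm : σ (τ y) ∈ D := by
    rw [hyc] at hyD
    exact (ResD_mem hD hc0 _).1 hyD
  exact ResD_trv_pr hX hu hD (hy2 hne hm) ⟨c, hc0, hyc⟩

theorem RUD.near (hX : Surface X) (hu : TMap X Λ u) (hD : CurveD X D Λ u) (hx : x ∈ X) (h : RUD X D Λ u x n) :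
    ∀ᶠ y in 𝓝 x, y ∈ X → ¬ Pr y x → RUD X D Λ u y 0 := by
  have hT : ∀ᶠ y in 𝓝 x, y ∈ D → ¬ Pr y x → RUD X D Λ u y 0 := by
    by_cases hxD : x ∈ D
    · filter_upwards [TrV.near hX hu hD hxD] with y hy h1 h2
      exact rud_of_trv (hy h1 h2)
    · filter_upwards [hD.closed x hx hxD] with y hy h1 _
      exact absurd h1 hy
  obtain ⟨σ, τ, g, G, hc, hσ, hg, hG, hz, hr⟩ := h
  have hτ0 : τ (σ 0) = 0 := hc.left.self_of_nhds
  have hτ : Tendsto τ (𝓝 (σ 0)) (𝓝 0) := by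
    have h1 := hc.τ_an.continuousAt.tendsto
    rwa [hτ0] at h1
  have e2 : ∀ᶠ p in 𝓝 (0 : ℂ × ℂ), p ≠ 0 → Pool.Agent.H17BP.Mono fun x => G (p + x) :=
    eventually_nhdsWithin_iff.1 (Pool.Agent.H17BP.ResN.near hr)
  have e3 : ∀ᶠ p in 𝓝 (0 : ℂ × ℂ), p ≠ 0 → σ p ∉ D → RUD X D Λ u (σ p) 0 := by
    filter_upwards [hc.near, ResD_near hg, e2, Pool.Agent.H17N.crit_near hg.1 hg.2.1, hG.eventually_analyticAt,
      eventually_eventually_nhds.2 hz, hc.σ_mem] with p hp1 hp2 hp3 hp4 hp5 hp6 hp7 hp0 hpD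
    by_cases hgp : g p = 0
    · refine ⟨_, _, _, fun x => G (p + x), hp1, by simp, hp2, ?_, ?_, hp3 hp0⟩
      · have h1 : AnalyticAt ℂ (fun x : ℂ × ℂ => p + x) 0 := analyticAt_const.add analyticAt_id
        have h2 : AnalyticAt ℂ G ((fun x : ℂ × ℂ => p + x) 0) := by
          simp only [add_zero]
          exact hp5
        exact h2.comp h1
      · filter_upwards [(ResD_add p).eventually hp6] with q hq
        rw [hq, hgp, sub_zero]
    · have hd : fderiv ℂ (fun x => g (p + x) - g p) 0 ≠ 0 := by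
        have h1 : fderiv ℂ (fun x => g (p + x) - g p) 0 = fderiv ℂ g p := by
          rw [fderiv_sub_const, fderiv_comp_add_left, add_zero]
        rw [h1]
        exact hp4 hgp
      have h2 := Pool.Agent.H17N.ru0_of_ne hp1 hp2 hd
      rw [add_zero] at h2
      exact rud_of_ru hD hp7 hpD h2
  rw [← hσ] at hT ⊢
  filter_upwards [hT, hc.right, hτ.eventually e3] with y hy0 hy1 hy2 hyX hyn
  by_cases hyD : y ∈ D
  · exact hy0 hyD hyn
  · obtain ⟨c, hc0, hyc⟩ := hy1 hyX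
    have hne : τ y ≠ 0 := by
      intro h0
      rw [h0] at hyc
      exact hyn ⟨c, hc0, hyc⟩
    have hm : σ (τ y) ∉ D := by
      intro h0
      apply hyD
      rw [hyc]
      exact hD.smul _ h0 c hc0
    exact (hy2 hne hm).pr hX hu hD ⟨c, hc0, hyc⟩

theorem ru_of_rud (hX : Surface X) (hn : NonConst X Λ u) (hD : CurveD X D Λ u) (hxD : x ∉ D) (h : RUD X D Λ u x 0) : RU X Λ u x 0 := by
  obtain ⟨σ, τ, g, G, hc, hσ, hg, hG, hz, hr⟩ := h
  refine ⟨σ, τ, g, hc, hσ, hg, ?_⟩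
  rw [← hσ] at hxD
  refine mono_of_zero hr hg.1 (hn σ τ g hc hg) ?_
  filter_upwards [hz] with p hp h1
  exact hp.2 (Or.inl h1)

end Pool.Agent.H17L
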