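import Pool.Agent.H17L.DTr
import Pool.Agent.H17L.ResD
import Pool.Agent.H17N.BlowR

/-!
# H17L BlowRD: the resolution number on the blow-up

Model: H17N/BlowR.lean (`ru_blow`, `crit_blow`).

* `rud_blow`: take `σ, τ, g, G` of `hn` at `q` (`σ 0 = q`); `G` is not `Mono` (`h0`), so `ResN n (G ∘ β)` for every `BChart β`.  `blow_chart` (H17N/BlowP) at `y`.  Second alternative: `uB u y - u q ∈ Λ` (a component of `y = σ1 0` is a multiple of `σ (e 0) = q`), the germ of `uB u` is `g1 p = g (e (p.1, p.1 * p.2))` (`lu_exc`), and `G1 p = G (e (p.1, p.1 * p.2))`: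
  `G1 p = 0 ↔ (g1 p = 0 ∨ σ1 p ∈ blow l D)`: for `p.1 ≠ 0` near `0` by `strict_off` and the property of `G` at `e (p.1, p.1 * p.2)`; for `p.1 = 0` both sides are true (`G 0 = 0`, `g 0 = 0`).  `ResN n G1` because `p ↦ e (p.1, p.1 * p.2)` is a `BChart` (`bl 0` composed with the linear map; see BlowR).
  First alternative: `y = c • phi l (σ' 0)`; `x = σ' 0 ∈ X` with `l b x ≠ 0`, so `¬ Pr x q`.  If `RUD X D Λ u x k` with `σ₂, g₂, G₂`, `σ₂ 0 = x`: the chart `c • phi l (σ₂ p)` (`off_chart`), `lu_off`, and `c • phi l (σ₂ p) ∈ blow l D ↔ σ₂ p ∈ D` (`phi_mem_strict`), the same `G₂`.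
* `crit_blowD`, `good_blowD`: `y` has a component `x = y b ≠ 0`, `x ∈ X` (`comp_mem`) (`∈ D`, `comp_mem_strict`), `uB u y - u x ∈ Λ` (`uB_eq`), so `x` does not lie over `B`, and it is not a multiple of `q`.  So `l b' x ≠ 0` for some `b'`, `y = c • phi l x` (`eq_phi`); transport the chart at `x` as above (`off_chart`, `lu_off`, `phi_mem_strict`).
-/

set_option autoImplicit false

open Topology Filter

namespace Pool.Agent.H17L

open Pool.Agent.H17BP (Surface IsChart Tan Pr HolP ResN)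
open Pool.Agent.H62.BU (blow dense phi Ker)
open Pool.Agent.H17N (TMap LU RU TF NonConst ThinF FibB HSec uB aB blow_chart)

variable {V : Type} [NormedAddCommGroup V] [NormedSpace ℂ V] [FiniteDimensional ℂ V] {ι : Type} [Fintype ι] {l : ι → V →L[ℂ] ℂ} {X D : Set V} {q : V}
  {Λ : AddSubgroup ℂ} {u : V → ℂ} {B : Set ℂ}

private theorem BlowRD_val (hX : Surface X) (hu : TMap X Λ u) {y : ι → V} (hy : y ∈ blow l X) {x : V}
    (h : ∀ b, y b ≠ 0 → Pr (y b) x) : uB u y - u x ∈ Λ := by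
  obtain ⟨b, hb⟩ := H62.BU.exists_ne y hy
  have h1 := H17N.uB_eq hX hu hy hb
  have h2 : y b ∈ X := H62.BU.comp_mem (H17BP.surface_iff.2 hX) y hy hb
  obtain ⟨c, hc, h3⟩ := h b hb
  have h4 : x ∈ X := by
    have h5 := hX.smul _ h2 c⁻¹ (inv_ne_zero hc)
    rwa [h3, smul_smul, inv_mul_cancel₀ hc, one_smul] at h5
  have h5 := hu.smul x h4 c hc
  rw [← h3] at h5
  have h6 := Λ.add_mem h1 h5
  rwa [sub_add_sub_cancel] at h6

private theorem BlowRD_bihol (e : (ℂ × ℂ) ≃L[ℂ] (ℂ × ℂ)) : H17BP.Bihol (fun x => e x) :=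
  ⟨e.toContinuousLinearMap.analyticAt 0, map_zero e, fun x => e.symm x,
    e.symm.toContinuousLinearMap.analyticAt 0, map_zero e.symm,
    Eventually.of_forall fun x => e.symm_apply_apply x,
    Eventually.of_forall fun x => e.apply_symm_apply x⟩

/-- near the centre of a chart the points are not in the kernel -/
private theorem BlowRD_ne {σ : ℂ × ℂ → V} {τ : V → ℂ × ℂ} (h : IsChart X σ τ) (hb : ∃ b, l b (σ 0) ≠ 0) :
    ∀ᶠ p in 𝓝 (0 : ℂ × ℂ), ∃ b, l b (σ p) ≠ 0 := by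
  obtain ⟨b, hb⟩ := hb
  have h1 : ContinuousAt (fun p => l b (σ p)) 0 := (l b).continuous.continuousAt.comp h.σ_an.continuousAt
  filter_upwards [h1.eventually_ne hb] with p hp
  exact ⟨b, hp⟩

/-- membership in the strict transform off the exceptional curve -/
private theorem BlowRD_mem (hX : Surface X) (hD : CurveD X D Λ u) {σ : ℂ × ℂ → V} {τ : V → ℂ × ℂ} (h : IsChart X σ τ)
    (hb : ∃ b, l b (σ 0) ≠ 0) {c : ℂ} (hc : c ≠ 0) :
    ∀ᶠ p in 𝓝 (0 : ℂ × ℂ), c • phi l (σ p) ∈ blow l D ↔ σ p ∈ D := by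
  filter_upwards [BlowRD_ne h hb, h.σ_mem] with p h1 h2
  exact phi_mem_strict hX hD h2 h1 hc

/-- a point over a value which is not in `B` -/
private theorem BlowRD_pt (hX : Surface X) (hu : TMap X Λ u) (hl : Ker l q) (hq : q ∈ X) {B : Set ℂ}
    (hB : ∃ b ∈ B, u q - b ∈ Λ) {y : ι → V} (hy : y ∈ blow l X) (hyB : ∀ b ∈ B, uB u y - b ∉ Λ) :
    ∃ b, y b ≠ 0 ∧ y b ∈ X ∧ (∀ b' ∈ B, u (y b) - b' ∉ Λ) ∧ (∃ b', l b' (y b) ≠ 0) ∧
      ∃ c : ℂ, c ≠ 0 ∧ y = c • phi l (y b) := by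
  obtain ⟨b, hb⟩ := H62.BU.exists_ne y hy
  have h1 := H17N.uB_eq hX hu hy hb
  have h2 : y b ∈ X := H62.BU.comp_mem (H17BP.surface_iff.2 hX) y hy hb
  have h3 : ∀ b' ∈ B, u (y b) - b' ∉ Λ := by
    intro b' hb' h4
    refine hyB b' hb' ?_
    have h5 := Λ.add_mem h1 h4
    rwa [sub_add_sub_cancel] at h5
  have h4 : ∃ b', l b' (y b) ≠ 0 := by
    by_contra hcon
    push Not at hcon
    obtain ⟨c, hc⟩ := (hl (y b)).1 hcon
    have hc0 : c ≠ 0 := by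
      rintro rfl
      rw [zero_smul] at hc
      exact hb hc
    obtain ⟨b₀, hb₀, hqb⟩ := hB
    refine h3 b₀ hb₀ ?_
    have h5 := hu.smul q hq c hc0
    rw [← hc] at h5
    have h6 := Λ.add_mem h5 hqb
    rwa [sub_add_sub_cancel] at h6
  obtain ⟨b', hb'⟩ := h4
  exact ⟨b, hb, h2, h3, ⟨b', hb'⟩, _, inv_ne_zero (H62.BU.ne_of_ne y hy hb hb'), H62.BU.eq_phi y hy hb hb'⟩

theorem rud_blow (hX : Surface X) (hu : TMap X Λ u) (hD : CurveD X D Λ u) (hl : Ker l q) (hq : q ∈ X) {n : ℕ}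
    (hn : RUD X D Λ u q (n + 1)) (h0 : ¬ RUD X D Λ u q 0) {y : ι → V} (hy : y ∈ blow l X) :
    (uB u y - u q ∈ Λ ∧ RUD (blow l X) (blow l D) Λ (uB u) y n) ∨ ∃ x ∈ X, ¬ Pr x q ∧ Pr y (phi l x) ∧ uB u y - u x ∈ Λ ∧
      ∀ k, RUD X D Λ u x k → RUD (blow l X) (blow l D) Λ (uB u) y k := by
  obtain ⟨σ, τ, g, G, hσ, hσ0, hg, hG, hGz, hN⟩ := hn
  have hN' : ∀ β, H17BP.BChart β → ResN n (G ∘ β) := by
    rcases hN with hN | hN
    · exact absurd ⟨σ, τ, g, G, hσ, hσ0, hg, hG, hGz, hN⟩ h0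
    · exact hN
  rcases blow_chart hX hl hσ hσ0 hy with
    ⟨σ', τ', σ1, τ1, h1, ⟨b, hb⟩, h2, h3, ⟨c, hc, hc2⟩, h4⟩ | ⟨e, σ1, τ1, h2, h3, h4⟩
  · right
    refine ⟨σ' 0, h1.σ_mem.self_of_nhds, ?_, ⟨c, hc, ?_⟩, ?_, fun k hk => ?_⟩
    · rintro ⟨a, -, ha⟩
      have h5 : l b q = 0 := (hl q).2 ⟨1, (one_smul _ _).symm⟩ b
      rw [ha, map_smul, h5, smul_zero] at hb
      exact hb rfl
    · rw [← h3]
      exact hc2 0
    · refine BlowRD_val hX hu hy fun b' hb' => ?_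
      rw [← h3] at hb' ⊢
      exact h4.self_of_nhds b' hb'
    · obtain ⟨σ₂, τ₂, g₂, G₂, k1, k2, k3, k4, k5, k6⟩ := hk
      have hb2 : ∃ b, l b (σ₂ 0) ≠ 0 := ⟨b, by rw [k2]; exact hb⟩
      obtain ⟨τ₃, k7⟩ := off_chart (l := l) hX k1 hb2 hc
      refine ⟨fun p => c • phi l (σ₂ p), τ₃, g₂, G₂, k7, ?_, lu_off hX hu k1 hb2 hc k3, k4, ?_, k6⟩
      · show c • phi l (σ₂ 0) = y
        rw [k2, ← hc2 0, h3]
      · filter_upwards [k5, BlowRD_mem hX hD k1 hb2 hc] with p m1 m2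
        rw [m1, m2]
  · left
    obtain ⟨β, hβ⟩ : ∃ β : ℂ × ℂ → ℂ × ℂ, β = fun p => e (p.1, p.1 * p.2) := ⟨_, rfl⟩
    have hBC : H17BP.BChart β := by
      refine ⟨fun x => e x, fun x => x, BlowRD_bihol e, H17BP.Bihol.id, Eventually.of_forall fun x => ?_⟩
      rw [hβ]
      simp only [H17BP.bl, zero_add]
    refine ⟨?_, σ1, τ1, fun p => g (e (p.1, p.1 * p.2)), G ∘ β, h2, h3, lu_exc hX hu hσ h2 h4 hg, ?_, ?_, hN' β hBC⟩
    · refine BlowRD_val hX hu hy fun b' hb' => ?_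
      have h5 := h4.self_of_nhds b'
      rw [h3] at h5
      have h6 := h5 hb'
      have h7 : e (((0 : ℂ × ℂ).1, (0 : ℂ × ℂ).1 * (0 : ℂ × ℂ).2)) = 0 := by
        simp only [Prod.fst_zero, Prod.snd_zero, mul_zero]
        exact map_zero e
      rwa [h7, hσ0] at h6
    · have h5 : AnalyticAt ℂ G (β 0) := by rw [hBC.zero]; exact hG
      exact h5.comp hBC.an
    · have h6 : G 0 = 0 := hGz.self_of_nhds.2 (Or.inl hg.2.1)
      filter_upwards [strict_off hX hD hl hσ hσ0 h2 h4, hBC.tendsto.eventually hGz] with p h7 h8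
      rw [hβ] at h8
      by_cases hp : p.1 = 0
      · have h9 : e (p.1, p.1 * p.2) = 0 := by
          rw [hp, zero_mul]
          exact map_zero e
        show (G ∘ β) p = 0 ↔ (g (e (p.1, p.1 * p.2)) = 0 ∨ σ1 p ∈ blow l D)
        have h10 : (G ∘ β) p = 0 := by
          rw [hβ]
          show G (e (p.1, p.1 * p.2)) = 0
          rw [h9, h6]
        rw [h9]
        exact ⟨fun _ => Or.inl hg.2.1, fun _ => h10⟩
      · have h9 := h7 hp
        rw [h9]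
        rw [hβ]
        exact h8

theorem crit_blowD (hX : Surface X) (hu : TMap X Λ u) (hl : Ker l q) (hq : q ∈ X) (hB : ∃ b ∈ B, u q - b ∈ Λ)
    (hc : ∀ x ∈ X, (∀ b ∈ B, u x - b ∉ Λ) → RU X Λ u x 0) :
    ∀ y ∈ blow l X, (∀ b ∈ B, uB u y - b ∉ Λ) → RU (blow l X) Λ (uB u) y 0 := by
  intro y hy hyB
  obtain ⟨b, hb, h1, h2, h3, c, hc0, h4⟩ := BlowRD_pt hX hu hl hq hB hy hyB
  obtain ⟨σ, τ, g, k1, k2, k3, k4⟩ := hc (y b) h1 h2
  have hb2 : ∃ b, l b (σ 0) ≠ 0 := by rw [k2]; exact h3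
  obtain ⟨τ₃, k7⟩ := off_chart (l := l) hX k1 hb2 hc0
  refine ⟨fun p => c • phi l (σ p), τ₃, g, k7, ?_, lu_off hX hu k1 hb2 hc0 k3, k4⟩
  show c • phi l (σ 0) = y
  rw [k2]
  exact h4.symm

theorem good_blowD (hX : Surface X) (hu : TMap X Λ u) (hD : CurveD X D Λ u) (hl : Ker l q) (hq : q ∈ X) (hB : ∃ b ∈ B, u q - b ∈ Λ)
    (hg : ∀ x ∈ D, (∀ b ∈ B, u x - b ∉ Λ) → TrV X D Λ u x) :
    ∀ y ∈ blow l D, (∀ b ∈ B, uB u y - b ∉ Λ) → TrV (blow l X) (blow l D) Λ (uB u) y := by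
  intro y hyD hyB
  have hy : y ∈ blow l X := strict_sub hD hyD
  obtain ⟨b, hb, h1, h2, h3, c, hc0, h4⟩ := BlowRD_pt hX hu hl hq hB hy hyB
  obtain ⟨σ, τ, g, k1, k2, k3, k4, k5⟩ := hg (y b) (comp_mem_strict hX hD hyD hb) h2
  have hb2 : ∃ b, l b (σ 0) ≠ 0 := by rw [k2]; exact h3
  obtain ⟨τ₃, k7⟩ := off_chart (l := l) hX k1 hb2 hc0
  refine ⟨fun p => c • phi l (σ p), τ₃, g, k7, ?_, ?_, lu_off hX hu k1 hb2 hc0 k4, k5⟩
  · show c • phi l (σ 0) = y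
    rw [k2]
    exact h4.symm
  · filter_upwards [k3, BlowRD_mem hX hD k1 hb2 hc0] with p m1 m2
    rw [m2, m1]

end Pool.Agent.H17L
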