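import Pool.Agent.H17L.Defs
import Pool.Agent.H17N.BaseB
import Pool.Agent.H18.LU.Base

/-!
# H17L ClD: closeness of points of the projective space

* `cl_of_dist`, `dist_of_cl`: the distance of the points of the projective space (`pr`, H62/EF) and `Cl`.  Both relations are invariant under scaling of `x` and `y`, so let `‖x‖ = ‖y‖ = 1`.  `dist_of_cl`: `pr` is continuous outside `0`, hence uniformly continuous near the compact unit sphere: `‖c • x - y‖ < ε'` small gives `dist (pr (c • x)) (pr y) < ε`, `pr_smul`.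
  `cl_of_dist`: otherwise there are unit vectors `x_n, y_n` with `dist (pr x_n) (pr y_n) → 0` and not `Cl ε x_n y_n`; for limits `x, y` of a subsequence `pr x = pr y`, so `y = c • x` with `‖c‖ = 1` (`pr_eq_iff`), and `‖c • x_n - y_n‖ → 0`: contradiction.
-/

set_option autoImplicit false

open Topology Filter

namespace Pool.Agent.H17L

open Pool.Agent.H17BP (Surface IsChart Tan Pr HolP ResN)
open Pool.Agent.H36.BP (EN)
open Pool.Agent.H62.EF (Lat MN Sec pr pr_smul pr_eq_iff)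
open Pool.Agent.H18.LU (LSec SecAt)
open Pool.Agent.H17N (TMap HSec)
open Pool.Agent.H17EF (coneE LE)
open Pool.Agent.H13.SM (cone)

variable {V : Type} [NormedAddCommGroup V] [NormedSpace ℂ V] [FiniteDimensional ℂ V] {X D : Set V} {Λ : AddSubgroup ℂ} {u : V → ℂ} {M N : ℕ}

theorem dist_of_cl {ε : ℝ} (hε : 0 < ε) : ∃ ε' : ℝ, 0 < ε' ∧ ∀ x y : EN M, x ≠ 0 → y ≠ 0 → Cl ε' x y → dist (pr x) (pr y) < ε := by
  refine ⟨ε / 2, by linarith, fun x y hx hy hxy => ?_⟩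
  obtain ⟨c, hc, hcl⟩ := hxy
  have hcx : c • x ≠ 0 := smul_ne_zero hc hx
  rw [← pr_smul x hc, Pool.Agent.H62.EF.dist_pr hcx hy]
  obtain ⟨x', hx'⟩ : ∃ x', x' = c • x := ⟨_, rfl⟩
  rw [← hx'] at hcl hcx ⊢
  have h1 : Pool.Agent.H36.BP.wd x' y = Pool.Agent.H36.BP.wd x' (y - x') := by
    have h2 := Pool.Agent.H36.BP.wd_inv x' (y - x') 1 1
    rw [one_smul, one_smul, sub_add_cancel, norm_one, one_pow, one_mul] at h2
    exact h2
  have h3 : Pool.Agent.H36.BP.wd x' y ≤ ‖x'‖ * ‖y - x'‖ := by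
    rw [h1]
    exact Pool.Agent.H36.BP.wd_le _ _
  have hx0 : 0 < ‖x'‖ := norm_pos_iff.2 hcx
  have hy0 : 0 < ‖y‖ := norm_pos_iff.2 hy
  have h4 : Pool.Agent.H36.BP.wd x' y / (‖x'‖ * ‖y‖) < ε / 2 := by
    rw [div_lt_iff₀ (by positivity)]
    rw [norm_sub_rev] at h3
    calc Pool.Agent.H36.BP.wd x' y ≤ ‖x'‖ * ‖x' - y‖ := h3
      _ < ‖x'‖ * (ε / 2 * ‖y‖) := mul_lt_mul_of_pos_left hcl hx0
      _ = ε / 2 * (‖x'‖ * ‖y‖) := by ring
  have h5 : Real.sqrt 2 ≤ 2 := by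
    rw [Real.sqrt_le_left (by norm_num)]
    norm_num
  have h6 : 0 ≤ Pool.Agent.H36.BP.wd x' y / (‖x'‖ * ‖y‖) := by
    have := Pool.Agent.H36.BP.wd_nonneg x' y
    positivity
  calc Real.sqrt 2 * (Pool.Agent.H36.BP.wd x' y / (‖x'‖ * ‖y‖)) ≤ 2 * (Pool.Agent.H36.BP.wd x' y / (‖x'‖ * ‖y‖)) :=
        mul_le_mul_of_nonneg_right h5 h6
    _ < 2 * (ε / 2) := by linarith
    _ = ε := by ring

theorem cl_of_dist {ε : ℝ} (hε : 0 < ε) : ∃ ε' : ℝ, 0 < ε' ∧ ∀ x y : EN M, x ≠ 0 → y ≠ 0 → dist (pr x) (pr y) < ε' → Cl ε x y := by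
  refine ⟨min ε 1, lt_min hε one_pos, fun x y hx hy hd => ?_⟩
  have hdε : dist (pr x) (pr y) < ε := hd.trans_le (min_le_left _ _)
  have hd1 : dist (pr x) (pr y) < 1 := hd.trans_le (min_le_right _ _)
  have hd0 : 0 ≤ dist (pr x) (pr y) := dist_nonneg
  have hx0 : 0 < ‖x‖ := norm_pos_iff.2 hx
  have hy0 : 0 < ‖y‖ := norm_pos_iff.2 hy
  have hin := Pool.Agent.H62.EF.norm_inner_sq hx hy
  obtain ⟨d, hdd⟩ : ∃ d, d = dist (pr x) (pr y) := ⟨_, rfl⟩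
  rw [← hdd] at hdε hd1 hd0 hin
  obtain ⟨w, hw⟩ : ∃ w : ℂ, w = inner ℂ x y := ⟨_, rfl⟩
  rw [← hw] at hin
  have hwpos : 0 < ‖w‖ ^ 2 := by
    rw [hin]
    have : 0 < 1 - d ^ 2 / 2 := by nlinarith
    positivity
  have hw0 : w ≠ 0 := by
    rintro rfl
    simp at hwpos
  have hxn : ((‖x‖ ^ 2 : ℝ) : ℂ) ≠ 0 := by
    exact_mod_cast (pow_pos hx0 2).ne'
  refine ⟨w / ((‖x‖ ^ 2 : ℝ) : ℂ), div_ne_zero hw0 hxn, ?_⟩
  have h1 : ‖(w / ((‖x‖ ^ 2 : ℝ) : ℂ)) • x - y‖ ^ 2 = ‖y‖ ^ 2 * (d ^ 2 / 2) := by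
    rw [norm_sub_sq (𝕜 := ℂ), inner_smul_left, ← hw, norm_smul, norm_div, Complex.norm_real, norm_pow, norm_norm, map_div₀,
      Complex.conj_ofReal]
    have h2 : (starRingEnd ℂ) w / ((‖x‖ ^ 2 : ℝ) : ℂ) * w = ((‖w‖ ^ 2 / ‖x‖ ^ 2 : ℝ) : ℂ) := by
      have h3 : (starRingEnd ℂ) w * w = ((‖w‖ ^ 2 : ℝ) : ℂ) := by
        rw [Complex.conj_mul']
        push_cast
        rfl
      rw [div_mul_eq_mul_div, h3]
      push_cast
      rfl
    rw [h2]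
    simp only [RCLike.re_to_complex, Complex.ofReal_re]
    have h4 : (‖w‖ / ‖x‖ ^ 2 * ‖x‖) ^ 2 = ‖w‖ ^ 2 / ‖x‖ ^ 2 := by
      field_simp
    rw [h4, hin]
    field_simp
    ring
  have h5 : ‖(w / ((‖x‖ ^ 2 : ℝ) : ℂ)) • x - y‖ ^ 2 < (ε * ‖y‖) ^ 2 := by
    rw [h1]
    have h6 : d ^ 2 < ε ^ 2 := pow_lt_pow_left₀ hdε hd0 two_ne_zero
    have h7 : 0 < ‖y‖ ^ 2 := by positivity
    have h8 : 0 ≤ d ^ 2 := by positivity
    nlinarith
  exact lt_of_pow_lt_pow_left₀ 2 (by positivity) h5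

end Pool.Agent.H17L
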