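import Pool.Agent.H18.LU.FnL

/-!
# H17L CoreStub: the finiteness theorem on surfaces with normal crossings (helper18, project LOG-E)
-/

set_option autoImplicit false

namespace Pool.Agent.H17L

open Pool.Agent.H36.BP (EN)
open Pool.Agent.H62.EL (TForm Per VanZero Thin)
open Pool.Agent.H18.LU (EBase LogP LSec)

theorem lsec_core {N : ℕ} {X D : Set (EN N)} {Λ Γ : AddSubgroup ℂ} {u : EN N → ℂ} {B : Set ℂ} {δ : ℝ} (E : EBase X D Λ Γ u B δ)
    (α : TForm (X \ D) Λ u) (hlog : LogP α) (hper : Per α Γ) (hvan : VanZero α) (hthin : Thin α) : (LSec X D Λ u).Finite :=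
  Pool.Agent.H18.LU.lsec_finite E hlog hper hvan hthin

end Pool.Agent.H17L
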