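import Pool.Agent.H17L.Defs
import Pool.Agent.H17BP.BlowM

/-!
# H17L DTr: the strict transform of the curve `D`

`blow l X` is the blow-up of `X` at `q` (`Ker l q`), `blow l D` the strict transform of `D` (the closure of the part off the exceptional curve).  Facts on `blow l X` (H62/BU/Alg): `dense_sub`, `comp_mem`, `eq_phi`, `ne_of_ne`, `exists_ne`, `comp_smul`, `symm`, `prop` (the last five hold for any set in place of `X`).

* `comp_mem_strict`: pattern `H62.BU.comp_mem`: `y ∈ closure (dense l D)`, the components of the points `y'` of `dense l D` near `y` are `c l_b x • x` with `x ∈ D`, not `0` (near `y b ≠ 0`), so they are in `D`; so `y b ∈ closure D`; `y b ∈ X` (`comp_mem`, `strict_sub`), and if `y b ∉ D` then no point near `y b` is in `D` (`closed`).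
* `strict_sub`: `dense l D ⊆ dense l X`.
* `phi_mem_strict`: `←`: `dense_sub`, `dense_smul`, `phi_mem_dense`.  `→`: a component `c l_b x • x ≠ 0` of the point is in `D` (`comp_mem_strict`).
* `strict_closed`: the complement: if frequently near `y` there are points of `blow l D` then `y ∈ closure (blow l D)`, `y ≠ 0`, `blow_closed`.
* `lu_off`: `y = c • phi l (σ p)`: its components `≠ 0` are multiples of `σ p`; `uB_eq`, `tor.smul`.  `off_chart`: `chart_off` (H62/BU/Off, H17BP/Conv `chart_iff`) and `IsChart.scale`.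
* `exc_pt`: `p.1 ≠ 0` near `0`: `x = σ (e (p.1, p.1 * p.2)) ∈ X` is not a multiple of `q` (`τ x = e (..) ≠ 0 = τ q`; if `x = a • q` then `a` is near `1` and `τ (a • q) = τ q` by `inv`), so some `l b x ≠ 0` (`Ker`); `σ1 p ∈ blow l X` has a component `σ1 p b' ≠ 0`, proportional to `x`, so `l b (σ1 p b') ≠ 0`, and by `eq_phi` `σ1 p` is a multiple of `phi l (σ1 p b')`,
  which is a multiple of `phi l x` (`phi_smul`).
* `lu_exc`: `uB u (σ1 p)` is `u (σ (e ..))` modulo `Λ` for all `p` near `0` (a component of `σ1 p` which is not `0` is proportional to `σ (e ..)`; see the private `BlowR_germ` in H17N/BlowR.lean), and `g (e (p.1, p.1 * p.2))` is analytic, `0` at `0`.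
* `strict_off`: `exc_pt` and `phi_mem_strict` (and `smul`).
* `strict_none`: `q ∉ D`: a component `≠ 0` of `σ1 0` is proportional to `σ (e 0) = q`, not in `D`: `σ1 0 ∉ blow l D` (`comp_mem_strict`); `strict_closed`, continuity of `σ1`.
* `strict_exc`: `AD D σ`, `σ 0 = q`.  Write `e (1, 0) = (a, c)`, `e (0, 1) = (b, d)`: `(e (s, s t)).2 = s (c + d t)`.  If `c = 0` then `a ≠ 0`, `d ≠ 0` (`e` is injective).  For `p.1 ≠ 0`: `σ1 p ∈ blow l D ↔ σ (e ..) ∈ D ↔ c + d p.2 = 0` (`strict_off`).  First case `c = 0`: `↔ p.2 = 0`.  For the points with `p.1 = 0`, `p.2 = 0` (that is `p = 0`): limits of `σ1 (s, 0)`,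
  `blow_closed`.  For `p.1 = 0`, `p.2 ≠ 0` near `0`: suppose `σ1 p ∈ blow l D`; then there are points `y ∈ dense l D` arbitrarily near `σ1 p`; `y = a' • σ1 (τ1 y)` (`right`, valid near `σ1 0`, hence near `σ1 p` for `p` near `0`), `τ1 y` is near `τ1 (σ1 p) = p`, so `(τ1 y).2 ≠ 0`, and `(τ1 y).1 ≠ 0` because `σ1 (0, t)` has components proportional to `q` and so is not in
  `dense l X` (`l_b' q = 0`, but a point `c • phi l x` of `dense` has a component `c l_b x • x` with `l_b (..) ≠ 0`): contradiction to `strict_off`.  Second case `c ≠ 0`: `c + d p.2 ≠ 0` near `0`; the same argument shows that no `y ∈ dense l D` is near `σ1 0`, so `σ1 0 ∉ blow l D`, and `strict_closed`.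
* `curve_blow`: `smooth` at `y ∈ blow l D`: if a component `x = y b ≠ 0` is not a multiple of `q`: `x ∈ D`, `y` is a multiple of `phi l x` (`eq_phi`): the adapted chart `σ` at `x` gives `c • phi l (σ p)`; `phi_mem_strict`, `lu_off`.  Otherwise `q ∈ D`; take the adapted chart `σ` at `q`, `blow_chart` (H17N/BlowP; in its first alternative `σ1 0 = y` would be a multiple of `phi l (σ' 0)`,
  whose components are multiples of `σ' 0`, which is not a multiple of `q` because `l b (σ' 0) ≠ 0`), `strict_exc`: since `y = σ1 0 ∈ blow l D`, `(e (1, 0)).2 = 0` and `AD (blow l D) σ1`; `lu_exc`: the germ on `t = 0` is `s ↦ g (s * a, 0)`, `a ≠ 0`, not identically `0`.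
-/

set_option autoImplicit false
set_option linter.unusedSectionVars false
set_option linter.unusedVariables false

open Topology Filter

namespace Pool.Agent.H17L

open Pool.Agent.H17BP (Surface IsChart Tan Pr HolP ResN)
open Pool.Agent.H62.BU (blow dense phi Ker)
open Pool.Agent.H17N (TMap LU RU TF NonConst ThinF FibB HSec uB aB blow_chart)

variable {V : Type} [NormedAddCommGroup V] [NormedSpace ℂ V] [FiniteDimensional ℂ V] {ι : Type} [Fintype ι] {l : ι → V →L[ℂ] ℂ} {X D : Set V} {q : V}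
  {Λ : AddSubgroup ℂ} {u : V → ℂ} {σ : ℂ × ℂ → V} {τ : V → ℂ × ℂ} {e : (ℂ × ℂ) ≃L[ℂ] (ℂ × ℂ)} {σ1 : ℂ × ℂ → ι → V} {τ1 : (ι → V) → ℂ × ℂ}

theorem strict_sub (hD : CurveD X D Λ u) : blow l D ⊆ blow l X := by
  have h1 : dense l D ⊆ dense l X := by
    rintro y ⟨x, hx, hb, c, hc, rfl⟩
    exact ⟨x, hD.sub hx, hb, c, hc, rfl⟩
  exact fun y hy => ⟨closure_mono h1 hy.1, hy.2⟩

theorem comp_mem_strict (hX : Surface X) (hD : CurveD X D Λ u) {y : ι → V} (hy : y ∈ blow l D) {b : ι} (hb : y b ≠ 0) : y b ∈ D := by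
  have hX' := Pool.Agent.H17BP.surface_iff.2 hX
  by_contra hn
  have h1 := hD.closed _ (H62.BU.comp_mem hX' y (strict_sub hD hy) hb) hn
  have hct : Tendsto (fun y : ι → V => y b) (𝓝 y) (𝓝 (y b)) := (continuous_apply b).tendsto y
  obtain ⟨y', hy', h2, h3⟩ := ((mem_closure_iff_frequently.mp hy.1).and_eventually
    ((hct.eventually h1).and (hct.eventually_ne hb))).exists
  obtain ⟨x, hx, -, c, hc, rfl⟩ := hy'
  have h4 : (c • phi l x) b = (c * l b x) • x := by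
    simp only [phi, Pi.smul_apply, smul_smul]
  rw [h4] at h2 h3
  exact h2 (hD.smul x hx _ fun h5 => h3 (by rw [h5, zero_smul]))

theorem phi_mem_strict (hX : Surface X) (hD : CurveD X D Λ u) {x : V} (hx : x ∈ X) (hb : ∃ b, l b x ≠ 0) {c : ℂ} (hc : c ≠ 0) :
    c • phi l x ∈ blow l D ↔ x ∈ D := by
  constructor
  · intro h
    obtain ⟨b, hb⟩ := hb
    have h4 : (c • phi l x) b = (c * l b x) • x := by
      simp only [phi, Pi.smul_apply, smul_smul]
    have h5 : c * l b x ≠ 0 := mul_ne_zero hc hb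
    have hx0 : x ≠ 0 := fun h0 => hX.zero (h0 ▸ hx)
    have h6 := comp_mem_strict hX hD h (b := b) (by rw [h4]; exact smul_ne_zero h5 hx0)
    rw [h4] at h6
    have h7 := hD.smul _ h6 _ (inv_ne_zero h5)
    rwa [smul_smul, inv_mul_cancel₀ h5, one_smul] at h7
  · intro h
    exact H62.BU.dense_sub ⟨x, h, hb, c, hc, rfl⟩

theorem strict_closed {y : ι → V} (hy : y ∈ blow l X) (hn : y ∉ blow l D) : ∀ᶠ y' in 𝓝 y, y' ∉ blow l D := by
  by_contra h
  apply hn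
  refine H62.BU.blow_closed y (mem_closure_iff_frequently.mpr ?_) hy.2
  rw [Filter.not_eventually] at h
  exact h.mono fun y' hy' => not_not.mp hy'

/-- the chart of the blow-up at a point off the exceptional curve -/
theorem off_chart (hX : Surface X) (h : IsChart X σ τ) (hb : ∃ b, l b (σ 0) ≠ 0) {c : ℂ} (hc : c ≠ 0) :
    ∃ τ', IsChart (blow l X) (fun p => c • phi l (σ p)) τ' := by
  have hX' := Pool.Agent.H17BP.surface_iff.2 hX
  obtain ⟨b, hb⟩ := hb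
  exact ⟨_, H17BP.chart_iff.1 ((H62.BU.chart_off hX' (H17BP.chart_iff.2 h) hb).scale H62.BU.blow_smul hc)⟩

/-- the map at the points off the exceptional curve -/
private theorem DTr_uB (hX : Surface X) (hu : TMap X Λ u) {x : V} (hx : x ∈ X) {b : ι} (hb : l b x ≠ 0) {c : ℂ} (hc : c ≠ 0) :
    uB u (c • phi l x) - u x ∈ Λ := by
  have h4 : (c • phi l x) b = (c * l b x) • x := by
    simp only [phi, Pi.smul_apply, smul_smul]
  have h5 : c * l b x ≠ 0 := mul_ne_zero hc hb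
  have hx0 : x ≠ 0 := fun h0 => hX.zero (h0 ▸ hx)
  have h6 : c • phi l x ∈ blow l X := H62.BU.dense_sub ⟨x, hx, ⟨b, hb⟩, c, hc, rfl⟩
  have h7 := H17N.uB_eq hX hu h6 (b := b) (by rw [h4]; exact smul_ne_zero h5 hx0)
  have h8 := hu.smul x hx _ h5
  rw [h4] at h7
  have h9 := Λ.add_mem h7 h8
  have h10 : uB u (c • phi l x) - u ((c * l b x) • x) + (u ((c * l b x) • x) - u x) = uB u (c • phi l x) - u x := by ring
  rwa [h10] at h9

theorem lu_off (hX : Surface X) (hu : TMap X Λ u) (h : IsChart X σ τ) (hb : ∃ b, l b (σ 0) ≠ 0) {c : ℂ} (hc : c ≠ 0) {g : ℂ × ℂ → ℂ} (hg : LU Λ u σ g) :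
    LU Λ (uB u) (fun p => c • phi l (σ p)) g := by
  obtain ⟨b, hb⟩ := hb
  have h1 : ∀ᶠ p in 𝓝 (0 : ℂ × ℂ), l b (σ p) ≠ 0 := by
    have h2 : ContinuousAt (fun p => l b (σ p)) 0 := (l b).continuous.continuousAt.comp h.σ_an.continuousAt
    exact h2.eventually_ne hb
  have h0 := DTr_uB hX hu h.σ_mem.self_of_nhds hb hc
  refine ⟨hg.1, hg.2.1, ?_⟩
  filter_upwards [h1, h.σ_mem, hg.2.2] with p h2 h3 h4
  have h5 := DTr_uB hX hu h3 h2 hc
  have h6 := Λ.add_mem (Λ.sub_mem h5 h0) h4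
  have h7 : uB u (c • phi l (σ p)) - u (σ p) - (uB u (c • phi l (σ 0)) - u (σ 0)) + (u (σ p) - u (σ 0) - g p) =
      uB u (c • phi l (σ p)) - uB u (c • phi l (σ 0)) - g p := by ring
  rwa [h7] at h6

private theorem DTr_beta (e : (ℂ × ℂ) ≃L[ℂ] (ℂ × ℂ)) : AnalyticAt ℂ (fun p : ℂ × ℂ => e (p.1, p.1 * p.2)) 0 := by
  have h4 : AnalyticAt ℂ (fun p : ℂ × ℂ => (p.1, p.1 * p.2)) 0 :=
    analyticAt_fst.prod (analyticAt_fst.mul analyticAt_snd)
  exact ((e : (ℂ × ℂ) →L[ℂ] (ℂ × ℂ)).analyticAt _).comp h4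

private theorem DTr_beta0 (e : (ℂ × ℂ) ≃L[ℂ] (ℂ × ℂ)) : e ((0 : ℂ × ℂ).1, (0 : ℂ × ℂ).1 * (0 : ℂ × ℂ).2) = 0 := by simp

private theorem DTr_betaT (e : (ℂ × ℂ) ≃L[ℂ] (ℂ × ℂ)) : Tendsto (fun p : ℂ × ℂ => e (p.1, p.1 * p.2)) (𝓝 0) (𝓝 0) := by
  have h := (DTr_beta e).continuousAt.tendsto
  rwa [DTr_beta0] at h

/-- the points of the chart at a point of the exceptional curve -/
theorem exc_pt (hX : Surface X) (hl : Ker l q) (h : IsChart X σ τ) (h0 : σ 0 = q) (h1 : IsChart (blow l X) σ1 τ1)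
    (hpr : ∀ᶠ p in 𝓝 (0 : ℂ × ℂ), ∀ b, σ1 p b ≠ 0 → Pr (σ1 p b) (σ (e (p.1, p.1 * p.2)))) :
    ∀ᶠ p in 𝓝 (0 : ℂ × ℂ), p.1 ≠ 0 → σ (e (p.1, p.1 * p.2)) ∈ X ∧ (∃ b, l b (σ (e (p.1, p.1 * p.2))) ≠ 0) ∧
      ∃ c : ℂ, c ≠ 0 ∧ σ1 p = c • phi l (σ (e (p.1, p.1 * p.2))) := by
  have ht := DTr_betaT e
  have hq0 : q ≠ 0 := h0 ▸ h.ne
  -- the chart `τ` is constant on the multiples of `q` near `q`
  have hinv : ∀ᶠ a in 𝓝 (1 : ℂ), τ (a • q) = τ q := by
    have h2 : Tendsto (fun a : ℂ => (q, a)) (𝓝 1) (𝓝 (σ 0, (1 : ℂ))) := by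
      rw [h0]
      exact tendsto_const_nhds.prodMk_nhds tendsto_id
    exact h2.eventually h.inv
  obtain ⟨δ, hδ, hinv⟩ := Metric.eventually_nhds_iff.mp hinv
  have hτq : τ q = 0 := by
    have h2 := h.left.self_of_nhds
    rwa [h0] at h2
  have hnear : ∀ᶠ p in 𝓝 (0 : ℂ × ℂ), ‖σ (e (p.1, p.1 * p.2)) - q‖ < δ * ‖q‖ := by
    have h2 : Tendsto σ (𝓝 0) (𝓝 (σ 0)) := h.σ_an.continuousAt
    rw [h0] at h2
    have h3 : Tendsto (fun p : ℂ × ℂ => ‖σ (e (p.1, p.1 * p.2)) - q‖) (𝓝 0) (𝓝 ‖q - q‖) :=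
      ((h2.comp ht).sub tendsto_const_nhds).norm
    rw [sub_self, norm_zero] at h3
    exact h3.eventually_lt_const (mul_pos hδ (norm_pos_iff.mpr hq0))
  filter_upwards [ht.eventually h.σ_mem, ht.eventually h.left, hnear, hpr, h1.σ_mem] with p h2 h3 h4 h5 h6 hp
  have hne : ∃ b, l b (σ (e (p.1, p.1 * p.2))) ≠ 0 := by
    by_contra hcon
    push Not at hcon
    obtain ⟨a, ha⟩ := (hl _).mp hcon
    have h7 : ‖a - 1‖ < δ := by
      have h8 : σ (e (p.1, p.1 * p.2)) - q = (a - 1) • q := by rw [ha, sub_smul, one_smul]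
      rw [h8, norm_smul] at h4
      exact lt_of_mul_lt_mul_right h4 (norm_nonneg q)
    have h8 : τ (a • q) = τ q := hinv (by rwa [dist_eq_norm])
    rw [← ha, h3, hτq] at h8
    have h9 : ((p.1, p.1 * p.2) : ℂ × ℂ) = 0 := by
      have h10 : e (p.1, p.1 * p.2) = e 0 := by rw [h8, map_zero]
      exact e.injective h10
    exact hp (congrArg Prod.fst h9)
  refine ⟨h2, hne, ?_⟩
  obtain ⟨b, hb⟩ := hne
  obtain ⟨b', hb'⟩ := H62.BU.exists_ne (σ1 p) h6
  obtain ⟨k, hk, h7⟩ := h5 b' hb'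
  have h8 : l b (σ1 p b') ≠ 0 := by
    rw [h7, map_smul, smul_eq_mul]
    exact mul_ne_zero hk hb
  have h9 := H62.BU.ne_of_ne (σ1 p) h6 hb' h8
  refine ⟨(l b' (σ1 p b'))⁻¹ * k ^ 2, mul_ne_zero (inv_ne_zero h9) (pow_ne_zero 2 hk), ?_⟩
  rw [mul_smul, ← H62.BU.phi_smul, ← h7]
  exact H62.BU.eq_phi (σ1 p) h6 hb' h8

theorem lu_exc (hX : Surface X) (hu : TMap X Λ u) (h : IsChart X σ τ) (h1 : IsChart (blow l X) σ1 τ1)
    (hpr : ∀ᶠ p in 𝓝 (0 : ℂ × ℂ), ∀ b, σ1 p b ≠ 0 → Pr (σ1 p b) (σ (e (p.1, p.1 * p.2)))) {g : ℂ × ℂ → ℂ} (hg : LU Λ u σ g) :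
    LU Λ (uB u) σ1 (fun p => g (e (p.1, p.1 * p.2))) := by
  have ht := DTr_betaT e
  have key : ∀ᶠ p in 𝓝 (0 : ℂ × ℂ), uB u (σ1 p) - u (σ (e (p.1, p.1 * p.2))) ∈ Λ := by
    filter_upwards [ht.eventually h.σ_mem, hpr, h1.σ_mem] with p h2 h3 h4
    obtain ⟨b, hb⟩ := H62.BU.exists_ne (σ1 p) h4
    have h5 := H17N.uB_eq hX hu h4 hb
    obtain ⟨k, hk, h6⟩ := h3 b hb
    have h7 := hu.smul _ h2 k hk
    rw [← h6] at h7
    have h8 := Λ.add_mem h5 h7
    have h9 : uB u (σ1 p) - u (σ1 p b) + (u (σ1 p b) - u (σ (e (p.1, p.1 * p.2)))) = uB u (σ1 p) - u (σ (e (p.1, p.1 * p.2))) := by ring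
    rwa [h9] at h8
  have key0 := key.self_of_nhds
  rw [DTr_beta0] at key0
  refine ⟨?_, ?_, ?_⟩
  · have h2 : AnalyticAt ℂ g ((fun p : ℂ × ℂ => e (p.1, p.1 * p.2)) 0) := by
      simp only [DTr_beta0]
      exact hg.1
    exact AnalyticAt.fun_comp (g := g) (f := fun p : ℂ × ℂ => e (p.1, p.1 * p.2)) h2 (DTr_beta e)
  · show g (e ((0 : ℂ × ℂ).1, (0 : ℂ × ℂ).1 * (0 : ℂ × ℂ).2)) = 0
    rw [DTr_beta0]
    exact hg.2.1
  · filter_upwards [key, ht.eventually hg.2.2] with p h2 h3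
    have h4 := Λ.add_mem (Λ.sub_mem h2 key0) h3
    have h5 : uB u (σ1 p) - u (σ (e (p.1, p.1 * p.2))) - (uB u (σ1 0) - u (σ 0)) +
        (u (σ (e (p.1, p.1 * p.2))) - u (σ 0) - g (e (p.1, p.1 * p.2))) =
        uB u (σ1 p) - uB u (σ1 0) - g (e (p.1, p.1 * p.2)) := by ring
    rwa [h5] at h4

theorem strict_off (hX : Surface X) (hD : CurveD X D Λ u) (hl : Ker l q) (h : IsChart X σ τ) (h0 : σ 0 = q) (h1 : IsChart (blow l X) σ1 τ1)
    (hpr : ∀ᶠ p in 𝓝 (0 : ℂ × ℂ), ∀ b, σ1 p b ≠ 0 → Pr (σ1 p b) (σ (e (p.1, p.1 * p.2)))) :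
    ∀ᶠ p in 𝓝 (0 : ℂ × ℂ), p.1 ≠ 0 → (σ1 p ∈ blow l D ↔ σ (e (p.1, p.1 * p.2)) ∈ D) := by
  filter_upwards [exc_pt hX hl h h0 h1 hpr] with p h2 hp
  obtain ⟨h3, h4, c, hc, h5⟩ := h2 hp
  rw [h5]
  exact phi_mem_strict hX hD h3 h4 hc

theorem strict_none (hX : Surface X) (hD : CurveD X D Λ u) (hq : q ∉ D) (h : IsChart X σ τ) (h0 : σ 0 = q) (h1 : IsChart (blow l X) σ1 τ1)
    (hpr : ∀ᶠ p in 𝓝 (0 : ℂ × ℂ), ∀ b, σ1 p b ≠ 0 → Pr (σ1 p b) (σ (e (p.1, p.1 * p.2)))) : ∀ᶠ p in 𝓝 (0 : ℂ × ℂ), σ1 p ∉ blow l D := by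
  have h2 : σ1 0 ∉ blow l D := by
    intro h3
    obtain ⟨b, hb⟩ := H62.BU.exists_ne (σ1 0) h3
    have h4 := comp_mem_strict hX hD h3 hb
    obtain ⟨k, hk, h5⟩ := hpr.self_of_nhds b hb
    rw [DTr_beta0, h0] at h5
    rw [h5] at h4
    have h6 := hD.smul _ h4 _ (inv_ne_zero hk)
    rw [smul_smul, inv_mul_cancel₀ hk, one_smul] at h6
    exact hq h6
  have h3 : Tendsto σ1 (𝓝 0) (𝓝 (σ1 0)) := h1.σ_an.continuousAt
  exact h3.eventually (strict_closed h1.σ_mem.self_of_nhds h2)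

end Pool.Agent.H17L
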