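import Pool.Agent.H17N.Defs
import Pool.Agent.H17N.ResU
import Pool.Agent.H17N.BlowP
import Pool.Agent.H17N.BlowT

/-!
# H17L Defs: a surface with a smooth curve `D` and a map to an elliptic curve, in a general vector space

As in H17N Defs the surface is given by its cone `X ⊆ V ∖ {0}` and the map to `ℂ / Λ` by a function `u : V → ℂ`.  `D ⊆ X` is (the cone over) a smooth closed curve, `u` is constant on no
open part of `D` (so `D` has no component in a fibre of `u`).  `B ⊆ ℂ` is the set of the bad values.  The `2`-form `α` lives on the part of the covering over `X ∖ Zs`, where `Zs` consists of `D` and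
the fibres over `B`; it has at most logarithmic poles along `D` and extends over the fibres over `B` (`LogV`).  The strict transform of `D` in the blow-up `blow l X` (H62/BU/Alg) is `blow l D`.
-/

set_option autoImplicit false

open Topology Filter

namespace Pool.Agent.H17L

open Pool.Agent.H17BP (Surface IsChart Tan Pr HolP ResN)
open Pool.Agent.H17N (TMap LU RU TF NonConst ThinF FibB HSec uB aB)

variable {V : Type} [NormedAddCommGroup V] [NormedSpace ℂ V]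

/-- the chart `σ` is adapted to the curve `D`: `D = {t = 0}` -/
def AD (D : Set V) (σ : ℂ × ℂ → V) : Prop := ∀ᶠ p in 𝓝 (0 : ℂ × ℂ), σ p ∈ D ↔ p.2 = 0

/-- `D` is a smooth closed curve in the surface `X`, the map `u` is constant on no open part of `D` -/
structure CurveD (X D : Set V) (Λ : AddSubgroup ℂ) (u : V → ℂ) : Prop where
  sub : D ⊆ X
  smul : ∀ x ∈ D, ∀ c : ℂ, c ≠ 0 → c • x ∈ D
  closed : ∀ x ∈ X, x ∉ D → ∀ᶠ y in 𝓝 x, y ∉ D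
  smooth : ∀ x ∈ D, ∃ σ τ g, IsChart X σ τ ∧ σ 0 = x ∧ AD D σ ∧ LU Λ u σ g ∧ ¬ ∀ᶠ s in 𝓝 (0 : ℂ), g (s, 0) = 0

/-- the union of `D` and the fibres over `B` -/
def Zs (X D : Set V) (Λ : AddSubgroup ℂ) (u : V → ℂ) (B : Set ℂ) : Set V := {x | x ∈ D ∨ (x ∈ X ∧ ∃ b ∈ B, u x - b ∈ Λ)}

/-- the union of `D` and of the fibre of `u` through `x` has normal crossings after at most `n` point blow-ups over every point -/
def RUD (X D : Set V) (Λ : AddSubgroup ℂ) (u : V → ℂ) (x : V) (n : ℕ) : Prop :=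
  ∃ σ τ g G, IsChart X σ τ ∧ σ 0 = x ∧ LU Λ u σ g ∧ AnalyticAt ℂ G 0 ∧ (∀ᶠ p in 𝓝 (0 : ℂ × ℂ), G p = 0 ↔ (g p = 0 ∨ σ p ∈ D)) ∧ ResN n G

/-- at the point `x` of `D` the curve `D` is transversal to the fibre of `u` -/
def TrV (X D : Set V) (Λ : AddSubgroup ℂ) (u : V → ℂ) (x : V) : Prop :=
  ∃ σ τ g, IsChart X σ τ ∧ σ 0 = x ∧ AD D σ ∧ LU Λ u σ g ∧ fderiv ℂ g 0 (1, 0) ≠ 0

/-- the coefficient of the form in the chart `σ`, for the lift `υ` of `u` -/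
noncomputable def cf (α : ℂ → V → V → V → ℂ) (υ : ℂ × ℂ → ℂ) (σ : ℂ × ℂ → V) (p : ℂ × ℂ) : ℂ :=
  α (υ p) (σ p) (fderiv ℂ σ p (1, 0)) (fderiv ℂ σ p (0, 1))

/-- `υ` is a lift of `u` in the chart `σ` -/
def Lf (Λ : AddSubgroup ℂ) (u : V → ℂ) (σ : ℂ × ℂ → V) (υ : ℂ × ℂ → ℂ) : Prop :=
  AnalyticAt ℂ υ 0 ∧ ∀ᶠ p in 𝓝 (0 : ℂ × ℂ), u (σ p) - υ p ∈ Λ

/-- the form has at most logarithmic poles along `D`, and it extends over the other points of `Z` -/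
def LogV (X D Z : Set V) (Λ : AddSubgroup ℂ) (u : V → ℂ) (α : ℂ → V → V → V → ℂ) : Prop :=
  ∀ x ∈ X, ∃ σ τ, IsChart X σ τ ∧ σ 0 = x ∧
    ((x ∉ D ∧ ∀ υ, Lf Λ u σ υ → ∃ g, AnalyticAt ℂ g 0 ∧ ∀ᶠ p in 𝓝 (0 : ℂ × ℂ), σ p ∉ Z → cf α υ σ p = g p) ∨
      (AD D σ ∧ ∀ υ, Lf Λ u σ υ → ∃ g, AnalyticAt ℂ g 0 ∧ ∀ᶠ p in 𝓝 (0 : ℂ × ℂ), σ p ∉ Z → p.2 * cf α υ σ p = g p))

/-- the form is `Γ`-periodic -/
def PerV (X : Set V) (Λ Γ : AddSubgroup ℂ) (u : V → ℂ) (α : ℂ → V → V → V → ℂ) : Prop :=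
  ∀ z, ∀ l ∈ Γ, ∀ x ∈ X, u x - z ∈ Λ → ∀ v ∈ Tan X x, ∀ w ∈ Tan X x, α (z + l) x v w = α z x v w

/-- the form is `0` over `0` -/
def VanV (X : Set V) (Λ : AddSubgroup ℂ) (u : V → ℂ) (α : ℂ → V → V → V → ℂ) : Prop :=
  ∀ x ∈ X, u x ∈ Λ → ∀ v ∈ Tan X x, ∀ w ∈ Tan X x, α 0 x v w = 0

/-- all the data -/
structure DData (X D : Set V) (Λ Γ : AddSubgroup ℂ) (u : V → ℂ) (B : Set ℂ) (α : ℂ → V → V → V → ℂ) : Prop where
  surf : Surface X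
  tor : TMap X Λ u
  nonconst : NonConst X Λ u
  curve : CurveD X D Λ u
  form : TF (X \ Zs X D Λ u B) Λ u α
  log : LogV X D (Zs X D Λ u B) Λ u α
  per : PerV (X \ Zs X D Λ u B) Λ Γ u α
  van : VanV (X \ Zs X D Λ u B) Λ u α
  thin : ThinF (X \ Zs X D Λ u B) Λ u α
  fib : FibB (X \ D) Λ u B
  crit : ∀ x ∈ X, (∀ b ∈ B, u x - b ∉ Λ) → RU X Λ u x 0
  good : ∀ x ∈ D, (∀ b ∈ B, u x - b ∉ Λ) → TrV X D Λ u x

/-- near `z` the curve `f` is a section of `X ∖ D` -/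
def SecV (X D : Set V) (Λ : AddSubgroup ℂ) (u : V → ℂ) (f : ℂ → V) (z : ℂ) : Prop :=
  HolP f z ∧ ∀ᶠ w in 𝓝 z, f w ∈ X ∧ f w ∉ D ∧ u (f w) - w ∈ Λ

/-- the points of the projective space given by `x` and `y` are close to each other -/
def Cl (ε : ℝ) (x y : V) : Prop := ∃ c : ℂ, c ≠ 0 ∧ ‖c • x - y‖ < ε * ‖y‖

/-- the entire section `f` of `X` is, outside a closed discrete set `Z`, a limit of sections of `X ∖ D` over larger and larger discs -/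
def LimSec (X D : Set V) (Λ : AddSubgroup ℂ) (u : V → ℂ) (f : ℂ → V) : Prop :=
  f ∈ HSec X Λ u ∧ ∃ Z : Set ℂ, IsClosed Z ∧ (∀ z, ∀ᶠ w in 𝓝[≠] z, w ∉ Z) ∧
    ∀ R ε : ℝ, 0 < ε → ∀ K : Set ℂ, IsCompact K → (∀ z ∈ K, z ∉ Z) →
      ∃ G : ℂ → V, (∀ z ∈ Metric.closedBall (0 : ℂ) R, SecV X D Λ u G z) ∧ ∀ z ∈ K, ‖z‖ ≤ R → Cl ε (G z) (f z)

/-- there are only finitely many such limits (as maps to the projective space) -/
def FinL (X D : Set V) (Λ : AddSubgroup ℂ) (u : V → ℂ) : Prop :=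
  ∃ S : Set (ℂ → V), S.Finite ∧ ∀ f, LimSec X D Λ u f → ∃ g ∈ S, ∀ z, Pr (f z) (g z)

end Pool.Agent.H17L
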