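import Pool.Agent.H17L.ResD
import Pool.Agent.H62.EL.Core

/-!
# H17L ZsL: the set `Zs` is closed and nowhere dense

* `zs_closed`: `x ∈ X`, `x ∉ Zs`: near `x` the points are not in `D` (`CurveD.closed`); let `v` be a local lift of `u` at `x` (`tor.loc`); `B` is invariant under `Λ` and `8 δ`-separated, so the distance of `v x` from `B` is positive, hence the values `u y`, `y ∈ X` near `x`, are not in `B`.
* `zs_thin`: every chart `σ`: near `0`, arbitrarily near every `p` there are `p'` with `σ p' ∉ Zs`.  `Zs` is near `σ 0` contained in `D ∪ {u = b}` for one value `b` (or in `D`).  Suppose `σ p' ∈ Zs` for all `p'` near `p` (`p` near `0`).  `D` is given by `t = 0` in adapted charts (`smooth`, `IsChart.trans` or `IsChart.near`), so it has empty interior; so `u (σ p') - b ∈ Λ` on a nonempty open set, and `u` is constant on an open set, contradiction to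
  `NonConst` for the chart `IsChart.near` at such a point.
-/

set_option autoImplicit false

open Topology Filter

namespace Pool.Agent.H17L

open Pool.Agent.H17BP (Surface IsChart Tan Pr HolP ResN)
open Pool.Agent.H62.EF (Lat)
open Pool.Agent.H62.EL (TForm Per VanZero Thin BadSet)
open Pool.Agent.H17N (TMap LU RU TF NonConst ThinF FibB HSec)

variable {V : Type} [NormedAddCommGroup V] [NormedSpace ℂ V] [FiniteDimensional ℂ V] {X D : Set V} {Λ Γ : AddSubgroup ℂ} {u : V → ℂ}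
  {B : Set ℂ} {δ : ℝ}

/-- the bad set is closed -/
private theorem zsL_bad (hbad : BadSet B Λ δ) {a : ℂ} (ha : a ∉ B) : ∀ᶠ z in 𝓝 a, z ∉ B := by
  have hδ := hbad.pos
  by_cases hex : ∃ b ∈ B, ‖b - a‖ < 4 * δ
  · obtain ⟨b, hb, hba⟩ := hex
    have hne : b ≠ a := fun h => ha (h ▸ hb)
    have hpos : 0 < ‖b - a‖ := norm_pos_iff.2 (sub_ne_zero.2 hne)
    filter_upwards [Metric.ball_mem_nhds a hpos] with z hz hzB
    rw [Metric.mem_ball, dist_eq_norm] at hz
    by_cases hzb : z = b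
    · rw [hzb] at hz
      exact lt_irrefl _ hz
    · have h1 := hbad.sep z hzB b hb hzb
      have h2 : ‖z - b‖ ≤ ‖z - a‖ + ‖b - a‖ := by
        have h3 : z - b = (z - a) - (b - a) := by ring
        rw [h3]
        exact norm_sub_le _ _
      linarith
  · push Not at hex
    filter_upwards [Metric.ball_mem_nhds a (show 0 < 4 * δ by positivity)] with z hz hzB
    rw [Metric.mem_ball, dist_eq_norm] at hz
    exact absurd hz (not_lt.2 (hex z hzB))

/-- the curve `D` has empty interior -/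
private theorem zsL_int (hX : Surface X) (hD : CurveD X D Λ u) {σ : ℂ × ℂ → V} {τ : V → ℂ × ℂ} (h : IsChart X σ τ) :
    ∃ᶠ p in 𝓝 (0 : ℂ × ℂ), σ p ∉ D := by
  intro hcon
  simp only [not_not] at hcon
  obtain ⟨σ₁, τ₁, g₁, h1, h2, h3, -, -⟩ := hD.smooth _ hcon.self_of_nhds
  obtain ⟨θ, hθ, hev⟩ := IsChart.trans hX.smul h h1 (by rw [h2]; exact Pool.Agent.H17BP.Pr.refl _)
  have h4 : ∀ᶠ p in 𝓝 (0 : ℂ × ℂ), p.2 = 0 := by
    filter_upwards [hev, hθ.tendsto.eventually hcon, h3] with p hp1 hp2 hp3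
    refine hp3.1 ?_
    obtain ⟨c, hc, hp4⟩ := hp1
    rw [hp4]
    exact hD.smul _ hp2 c hc
  have h5 : Tendsto (fun t : ℂ => ((0 : ℂ), t)) (𝓝 0) (𝓝 (0 : ℂ × ℂ)) :=
    (Continuous.prodMk_right (0 : ℂ)).tendsto 0
  have h6 : ∀ᶠ t in 𝓝 (0 : ℂ), t = 0 := h5.eventually h4
  have h7 : ∀ᶠ t in 𝓝[≠] (0 : ℂ), t = 0 := h6.filter_mono nhdsWithin_le_nhds
  obtain ⟨t, ht1, ht2⟩ := (h7.and self_mem_nhdsWithin).exists
  exact ht2 ht1

/-- the values of a local lift of `u` at the points over `B` -/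
private theorem zsL_mem (hbad : BadSet B Λ δ) {a b c : ℂ} (h1 : a - b ∈ Λ) (hb : b ∈ B) (h2 : a - c ∈ Λ) : c ∈ B := by
  have h3 : c = b + ((a - b) - (a - c)) := by ring
  rw [h3]
  exact hbad.inv b hb _ (Λ.sub_mem h1 h2)

theorem zs_closed (hbad : BadSet B Λ δ) (hu : TMap X Λ u) (hD : CurveD X D Λ u) {x : V} (hx : x ∈ X) (hxZ : x ∉ Zs X D Λ u B) :
    ∀ᶠ y in 𝓝 x, y ∉ Zs X D Λ u B := by
  have hxD : x ∉ D := fun h => hxZ (Or.inl h)
  obtain ⟨v, hv, hev⟩ := hu.loc x hx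
  have h0 : u x - v x ∈ Λ := hev.self_of_nhds hx
  have hvx : v x ∉ B := fun h => hxZ (Or.inr ⟨hx, v x, h, h0⟩)
  filter_upwards [hD.closed x hx hxD, hev, hv.continuousAt.tendsto.eventually (zsL_bad hbad hvx)] with y hy1 hy2 hy3 hyZ
  rcases hyZ with hyD | ⟨hyX, b, hb, hyb⟩
  · exact hy1 hyD
  · exact hy3 (zsL_mem hbad hyb hb (hy2 hyX))

private theorem zsL_freq (hbad : BadSet B Λ δ) (hX : Surface X) (hu : TMap X Λ u) (hn : NonConst X Λ u) (hD : CurveD X D Λ u) {σ : ℂ × ℂ → V}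
    {τ : V → ℂ × ℂ} (h : IsChart X σ τ) : ∃ᶠ p in 𝓝 (0 : ℂ × ℂ), σ p ∉ Zs X D Λ u B := by
  intro hcon
  simp only [not_not] at hcon
  have hδ := hbad.pos
  obtain ⟨g, hg⟩ := Pool.Agent.H17N.exists_lu hu h
  have hsm : ∀ᶠ p in 𝓝 (0 : ℂ × ℂ), ‖g p‖ < 4 * δ := by
    have h1 : Tendsto (fun p => ‖g p‖) (𝓝 (0 : ℂ × ℂ)) (𝓝 ‖g 0‖) := hg.1.continuousAt.norm
    rw [hg.2.1, norm_zero] at h1
    exact h1.eventually_lt_const (by positivity)
  obtain ⟨p, hpD, hp1, hp2, hp3, hp4, hp5, hp6, hp7⟩ := ((zsL_int hX hD h).and_eventually (h.near.and (hcon.eventually_nhds.and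
    (hg.2.2.eventually_nhds.and (hsm.eventually_nhds.and (hg.1.eventually_analyticAt.and (h.σ_an.eventually_analyticAt.and
      h.σ_mem))))))).exists
  have hnD : ∀ᶠ x in 𝓝 p, σ x ∉ D := hp6.continuousAt.tendsto.eventually (hD.closed _ hp7 hpD)
  have hB : ∀ᶠ x in 𝓝 p, u (σ 0) + g x ∈ B := by
    filter_upwards [hnD, hp2, hp3] with x hx1 hx2 hx3
    rcases hx2 with hx2 | ⟨-, b, hb, hx2⟩
    · exact absurd hx2 hx1
    · refine zsL_mem hbad hx2 hb ?_
      have h1 : u (σ x) - (u (σ 0) + g x) = u (σ x) - u (σ 0) - g x := by ring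
      rw [h1]
      exact hx3
  have hc : ∀ᶠ x in 𝓝 p, g x = g p := by
    filter_upwards [hB, hp4] with x hx1 hx2
    by_contra hne
    have h1 := hbad.sep _ hx1 _ hB.self_of_nhds (fun h => hne (add_left_cancel h))
    have h2 : ‖u (σ 0) + g x - (u (σ 0) + g p)‖ ≤ ‖g x‖ + ‖g p‖ := by
      have h3 : u (σ 0) + g x - (u (σ 0) + g p) = g x - g p := by ring
      rw [h3]
      exact norm_sub_le _ _
    have h4 := hp4.self_of_nhds
    linarith
  have ht : Tendsto (fun x : ℂ × ℂ => p + x) (𝓝 0) (𝓝 p) := by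
    have := (continuous_const_add p).tendsto (0 : ℂ × ℂ)
    rwa [add_zero] at this
  refine hn _ _ (fun x => g (p + x) - g p) hp1 ⟨?_, ?_, ?_⟩ ?_
  · refine AnalyticAt.sub ?_ analyticAt_const
    refine AnalyticAt.comp (g := g) (f := fun x : ℂ × ℂ => p + x) ?_ (analyticAt_const.add analyticAt_id)
    rw [add_zero]
    exact hp5
  · show g (p + 0) - g p = 0
    rw [add_zero, sub_self]
  · filter_upwards [ht.eventually hp3] with x hx
    show u (σ (p + x)) - u (σ (p + 0)) - (g (p + x) - g p) ∈ Λ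
    rw [add_zero]
    have h1 : u (σ (p + x)) - u (σ p) - (g (p + x) - g p) = (u (σ (p + x)) - u (σ 0) - g (p + x)) - (u (σ p) - u (σ 0) - g p) := by ring
    rw [h1]
    exact Λ.sub_mem hx hp3.self_of_nhds
  · filter_upwards [ht.eventually hc] with x hx
    show g (p + x) - g p = 0
    rw [hx, sub_self]

theorem zs_thin (hΛ : Lat Λ) (hbad : BadSet B Λ δ) (hX : Surface X) (hu : TMap X Λ u) (hn : NonConst X Λ u) (hD : CurveD X D Λ u) {σ : ℂ × ℂ → V}
    {τ : V → ℂ × ℂ} (h : IsChart X σ τ) : ∀ᶠ p in 𝓝 (0 : ℂ × ℂ), ∃ᶠ p' in 𝓝 p, σ p' ∉ Zs X D Λ u B := by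
  filter_upwards [h.near] with p hp
  have ht : Tendsto (fun x : ℂ × ℂ => p + x) (𝓝 0) (𝓝 p) := by
    have := (continuous_const_add p).tendsto (0 : ℂ × ℂ)
    rwa [add_zero] at this
  exact ht.frequently (zsL_freq hbad hX hu hn hD hp)

end Pool.Agent.H17L
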