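import Pool.Agent.H17L.BaseLA
import Pool.Agent.H17L.ZsL

/-!
# H17L FormA: transport to a Euclidean space, extension of the form

`L : V ≃L[ℂ] EN M`, `X' = L.symm ⁻¹' X`, `D' = L.symm ⁻¹' D`, `u' x = u (L.symm x)`, `D₀ = L.symm ⁻¹' Zs X D Λ u B` (closed in `X'` by `zs_closed`, invariant under scaling, nowhere dense by `zs_thin`).

The form on `X' \ D₀`: `toFun z x v w = α z (L.symm x) (L.symm v) (L.symm w)`; model `tformN` in H17N/BaseA.lean (with `X \ Zs` in place of `X`; `tan_transport`).  `exists_ext`: `H18.LU.tform_extend` with `D₀`, `D'`: for `x ∈ D₀`, `x ∉ D'`: `h.log` at `L.symm x ∈ X \ D`: first alternative (in the second one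
`L.symm x = σ 0 ∈ D`), chart `L ∘ σ` (`germ_transport`), any lift `υ` (`tor.loc`), for `l ∈ Λ` the lift `υ + l`; nowhere dense by `zs_thin`.
-/

set_option autoImplicit false

open Topology Filter

namespace Pool.Agent.H17L

open Pool.Agent.H17BP (Surface IsChart Tan Pr HolP ResN)
open Pool.Agent.H36.BP (EN isCone_transport germ_transport tan_transport)
open Pool.Agent.H62.EF (Lat exists_chart_of_germ)
open Pool.Agent.H62.EL (TForm Per VanZero Thin BadSet)
open Pool.Agent.H18.LU (EBase LogP LSec)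
open Pool.Agent.H17N (TMap LU RU TF NonConst ThinF FibB HSec)

variable {V : Type} [NormedAddCommGroup V] [NormedSpace ℂ V] [FiniteDimensional ℂ V] {X D : Set V} {Λ Γ : AddSubgroup ℂ} {u : V → ℂ}
  {B : Set ℂ} {α : ℂ → V → V → V → ℂ} {δ : ℝ} {M : ℕ}

/-- the form `α'` is, off `Z`, the transported form -/
def Agr (L : V ≃L[ℂ] EN M) (X D Z : Set V) (α : ℂ → V → V → V → ℂ)
    (α' : TForm ((L.symm ⁻¹' X : Set (EN M)) \ (L.symm ⁻¹' D : Set (EN M))) Λ (fun x => u (L.symm x))) : Prop :=
  ∀ z, ∀ x : EN M, L.symm x ∈ X → L.symm x ∉ Z → ∀ v w, α'.toFun z x v w = α z (L.symm x) (L.symm v) (L.symm w)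

/-- the transported form on `X' \ D₀` -/
noncomputable def tformL (L : V ≃L[ℂ] EN M) (h : DData X D Λ Γ u B α) :
    TForm ((L.symm ⁻¹' X : Set (EN M)) \ (L.symm ⁻¹' Zs X D Λ u B : Set (EN M))) Λ (fun x => u (L.symm x)) where
  toFun z x v w := α z (L.symm x) (L.symm v) (L.symm w)
  add_smul z x hx hz v w hv hw a b := by
    rw [map_add, map_add, map_smul, map_smul]
    exact h.form.add_smul z _ hx hz _ (tan_transport (X := X \ Zs X D Λ u B) L hv) _ (tan_transport (X := X \ Zs X D Λ u B) L hw) a b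
  det z x hx hz v w hv hw a b c d := by
    rw [map_add, map_add, map_smul, map_smul, map_smul, map_smul]
    exact h.form.det z _ hx hz _ (tan_transport (X := X \ Zs X D Λ u B) L hv) _ (tan_transport (X := X \ Zs X D Λ u B) L hw) a b c d
  scale z x hx hz v w hv hw c hc := by
    rw [map_smul, map_smul, map_smul]
    exact h.form.scale z _ hx hz _ (tan_transport (X := X \ Zs X D Λ u B) L hv) _ (tan_transport (X := X \ Zs X D Λ u B) L hw) c hc
  analytic φ υ p hφ hυ hφX := by
    have h1 : AnalyticAt ℂ (fun y => L.symm (φ y)) p := ((L.symm : EN M →L[ℂ] V).analyticAt _).comp hφ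
    have h2 := h.form.analytic _ υ p h1 hυ hφX
    refine h2.congr ?_
    filter_upwards [hφ.eventually_analyticAt] with y hy
    have h3 : HasFDerivAt (fun y => L.symm (φ y)) ((L.symm : EN M →L[ℂ] V).comp (fderiv ℂ φ y)) y :=
      (L.symm : EN M →L[ℂ] V).hasFDerivAt.comp y hy.differentiableAt.hasFDerivAt
    rw [h3.fderiv]
    rfl

theorem exists_ext (L : V ≃L[ℂ] EN M) (hΛ : Lat Λ) (hbad : BadSet B Λ δ) (h : DData X D Λ Γ u B α) :
    ∃ α' : TForm ((L.symm ⁻¹' X : Set (EN M)) \ (L.symm ⁻¹' D : Set (EN M))) Λ (fun x => u (L.symm x)), Agr L X D (Zs X D Λ u B) α α' := by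
  have hcone : Pool.Agent.H14.PP.IsCone (L.symm ⁻¹' X : Set (EN M)) := isCone_transport L h.surf
  have hcharts : Pool.Agent.H62.EF.Charts (L.symm ⁻¹' X : Set (EN M)) := by
    intro x hx
    obtain ⟨σ, τ, hc, hx0⟩ := h.surf.chart (L.symm x) hx
    have hg := germ_transport L hc
    obtain ⟨χ, h1, h2⟩ := exists_chart_of_germ hcone hg
    have h3 : L (σ 0) = x := by rw [hx0, ContinuousLinearEquiv.apply_symm_apply]
    rw [h3] at h1 h2
    exact ⟨χ, h1, h2⟩
  have htor : Pool.Agent.H62.EF.TorusMap (L.symm ⁻¹' X : Set (EN M)) Λ (fun x => u (L.symm x)) := by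
    constructor
    · intro x hx c hc
      have h1 := h.tor.smul (L.symm x) hx c hc
      show u (L.symm (c • x)) - u (L.symm x) ∈ Λ
      rw [map_smul]
      exact h1
    · intro x hx
      obtain ⟨v, hv, hv'⟩ := h.tor.loc (L.symm x) hx
      refine ⟨fun y => v (L.symm y), ?_, ?_⟩
      · exact AnalyticAt.comp (g := v) (f := fun y : EN M => L.symm y) hv
          ((L.symm : EN M →L[ℂ] V).analyticAt x)
      · have h3 : Tendsto (fun y : EN M => L.symm y) (𝓝 x) (𝓝 (L.symm x)) := L.symm.continuous.tendsto x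
        filter_upwards [h3.eventually hv'] with y hy hyX
        exact hy hyX
  have hsub : Zs X D Λ u B ⊆ X := by
    rintro x (hx | hx)
    · exact h.curve.sub hx
    · exact hx.1
  have hZs : ∀ x ∈ Zs X D Λ u B, ∀ c : ℂ, c ≠ 0 → c • x ∈ Zs X D Λ u B := by
    rintro x (hx | ⟨hx, b, hb, hub⟩) c hc
    · exact Or.inl (h.curve.smul x hx c hc)
    · refine Or.inr ⟨h.surf.smul x hx c hc, b, hb, ?_⟩
      have h1 := Λ.add_mem (h.tor.smul x hx c hc) hub
      have h2 : u (c • x) - u x + (u x - b) = u (c • x) - b := by ring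
      rwa [h2] at h1
  have htend : ∀ x : EN M, Tendsto (fun y : EN M => L.symm y) (𝓝 x) (𝓝 (L.symm x)) := fun x => L.symm.continuous.tendsto x
  obtain ⟨α', hα'⟩ := Pool.Agent.H18.LU.tform_extend (X := (L.symm ⁻¹' X : Set (EN M))) (D := (L.symm ⁻¹' D : Set (EN M))) (Λ := Λ)
    (u := fun x => u (L.symm x)) hcone.ocone hcharts hΛ.dsc htor (D₀ := (L.symm ⁻¹' Zs X D Λ u B : Set (EN M)))
    (fun x hx => Or.inl hx) (fun x hx => hsub hx)
    (fun x hx c hc => by
      show L.symm (c • x) ∈ Zs X D Λ u B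
      rw [map_smul]
      exact hZs _ hx c hc)
    (fun x hx c hc => by
      show L.symm (c • x) ∈ D
      rw [map_smul]
      exact h.curve.smul _ hx c hc)
    (fun x hx hxZ => (htend x).eventually (zs_closed hbad h.tor h.curve hx hxZ))
    (fun x hx hxD => (htend x).eventually (h.curve.closed _ hx hxD))
    (tformL L h) (fun x hx hxD => by
      have hxX : L.symm x ∈ X := hsub hx
      obtain ⟨σ, τ, hc, hσ0, hlog⟩ := h.log (L.symm x) hxX
      have hlog' : ∀ υ, Lf Λ u σ υ → ∃ g, AnalyticAt ℂ g 0 ∧ ∀ᶠ p in 𝓝 (0 : ℂ × ℂ), σ p ∉ Zs X D Λ u B → cf α υ σ p = g p := by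
        rcases hlog with hlog | hlog
        · exact hlog.2
        · exfalso
          have h1 := hlog.1.self_of_nhds
          have h2 : σ 0 ∈ D := h1.2 rfl
          rw [hσ0] at h2
          exact hxD h2
      obtain ⟨v, hv, hv'⟩ := h.tor.loc (L.symm x) hxX
      rw [← hσ0] at hv hv'
      have hυ : AnalyticAt ℂ (fun p => v (σ p)) 0 := AnalyticAt.comp (g := v) (f := σ) hv hc.σ_an
      have hυl : ∀ᶠ p in 𝓝 (0 : ℂ × ℂ), u (σ p) - v (σ p) ∈ Λ := by
        filter_upwards [hc.σ_an.continuousAt.eventually hv', hc.σ_mem] with p hp hpX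
        exact hp hpX
      refine ⟨fun p => L (σ p), fun y => τ (L.symm y), fun p => v (σ p), germ_transport L hc, ?_, hυ, ?_, ?_, ?_⟩
      · show L (σ 0) = x
        rw [hσ0, ContinuousLinearEquiv.apply_symm_apply]
      · filter_upwards [hυl] with p hp
        show u (L.symm (L (σ p))) - v (σ p) ∈ Λ
        rwa [ContinuousLinearEquiv.symm_apply_apply]
      · filter_upwards [zs_thin hΛ hbad h.surf h.tor h.nonconst h.curve hc] with p hp
        refine hp.mono fun q hq => ?_
        show L.symm (L (σ q)) ∉ Zs X D Λ u B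
        rwa [ContinuousLinearEquiv.symm_apply_apply]
      · intro l hl
        obtain ⟨g, hg, hg'⟩ := hlog' (fun p => v (σ p) + l) ⟨hυ.add analyticAt_const, by
          filter_upwards [hυl] with p hp
          have h1 := Λ.sub_mem hp hl
          have h2 : u (σ p) - v (σ p) - l = u (σ p) - (v (σ p) + l) := by ring
          rwa [h2] at h1⟩
        refine ⟨g, hg, ?_⟩
        filter_upwards [hg', hc.σ_an.eventually_analyticAt] with p hp hpa hpZ
        have hpZ' : σ p ∉ Zs X D Λ u B := by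
          intro h1
          apply hpZ
          show L.symm (L (σ p)) ∈ Zs X D Λ u B
          rwa [ContinuousLinearEquiv.symm_apply_apply]
        have h3 : HasFDerivAt (fun p => L (σ p)) ((L : V →L[ℂ] EN M).comp (fderiv ℂ σ p)) p :=
          (L : V →L[ℂ] EN M).hasFDerivAt.comp p hpa.differentiableAt.hasFDerivAt
        rw [h3.fderiv, ← hp hpZ']
        show α (v (σ p) + l) (L.symm (L (σ p))) (L.symm (L (fderiv ℂ σ p (1, 0)))) (L.symm (L (fderiv ℂ σ p (0, 1)))) =
          α (v (σ p) + l) (σ p) (fderiv ℂ σ p (1, 0)) (fderiv ℂ σ p (0, 1))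
        rw [ContinuousLinearEquiv.symm_apply_apply, ContinuousLinearEquiv.symm_apply_apply, ContinuousLinearEquiv.symm_apply_apply])
  exact ⟨α', fun z x hx hxZ v w => hα' z x hx hxZ v w⟩

end Pool.Agent.H17L
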