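import Pool.Agent.H17L.FormA
import Pool.Agent.H17L.CfT

/-!
# H17L FormB: the extended form has logarithmic poles

Notation as in FormA; `α'` agrees with the transported form off `D₀ = L.symm ⁻¹' Zs`.

`LogP α'`: let `σ, τ` be a germ chart of `X'` with `D' = {t = 0}`, `υ` a lift.  `x = σ 0 ∈ D'`.  `h.log` at `L.symm x`: second alternative: an adapted chart `σ₁` and for every lift a `g₁` with `p.2 * cf α υ₁ σ₁ p = g₁ p` off `Zs`.  `IsChart.trans` (H17BP/ChLem; transport `σ` to `V`: `L.symm ∘ σ`, `τ ∘ L`): `Pr (L.symm (σ p)) (σ₁ (θ p))`, `θ` biholomorphic,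
`(θ p).2 = 0 ↔ p.2 = 0` near `0`, so `(θ p).2 = p.2 * κ p`, `κ 0 ≠ 0` (`exists_div_y`, the derivative of `θ` at `0` is invertible).  Let `υ₁` be the lift of `u` along `σ₁` with `υ₁ (θ p) = υ p` (`υ ∘ θ⁻¹`).  For `L.symm (σ p) ∉ Zs`: coefficient in `σ` = `det (Dθ p) *` coefficient in `σ₁` at `θ p` (`cf_trans`), so `p.2 *` coefficient
`= det (Dθ p) / κ p * g₁ (θ p) =: g p`, analytic.  For all `p` with `p.2 ≠ 0` near `0`: both sides are continuous at `p` (`α'.analytic`, as `σ p ∉ D'`) and agree where `L.symm (σ p') ∉ Zs`, which accumulates at `p` (`zs_thin`).  So they agree.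
-/

set_option autoImplicit false

open Topology Filter

namespace Pool.Agent.H17L

open Pool.Agent.H17BP (Surface IsChart Tan Pr HolP ResN)
open Pool.Agent.H36.BP (EN isCone_transport germ_transport tan_transport)
open Pool.Agent.H62.EF (Lat exists_chart_of_germ)
open Pool.Agent.H62.EL (TForm Per VanZero Thin BadSet)
open Pool.Agent.H18.LU (EBase LogP LSec)
open Pool.Agent.H17N (TMap LU RU TF NonConst ThinF FibB HSec)

variable {V : Type} [NormedAddCommGroup V] [NormedSpace ℂ V] [FiniteDimensional ℂ V] {X D : Set V} {Λ Γ : AddSubgroup ℂ} {u : V → ℂ}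
  {B : Set ℂ} {α : ℂ → V → V → V → ℂ} {δ : ℝ} {M : ℕ}

/-- a germ chart of the transported surface gives a chart -/
private theorem formB_chart (L : V ≃L[ℂ] EN M) (hX : Surface X) {σ : ℂ × ℂ → EN M} {τ : EN M → ℂ × ℂ}
    (h : Pool.Agent.H36.BP.IsGermChart (L.symm ⁻¹' X : Set (EN M)) σ τ) :
    IsChart X (fun p => L.symm (σ p)) (fun y => τ (L y)) := by
  have hL : Tendsto (fun y => L y) (𝓝 (L.symm (σ 0))) (𝓝 (σ 0)) := by
    have := L.continuous.tendsto (L.symm (σ 0))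
    rwa [L.apply_symm_apply] at this
  refine ⟨((L.symm : EN M →L[ℂ] V).analyticAt _).comp h.σ_an, ?_, ?_, ?_, ?_, ?_, ?_⟩
  · filter_upwards [h.σ_mem] with p hp
    exact hp
  · intro h0
    have h1 : L.symm (σ 0) ∈ X := h.σ_mem.self_of_nhds
    have h2 : L.symm (σ 0) = 0 := h0
    rw [h2] at h1
    exact hX.zero h1
  · have h1 : AnalyticAt ℂ τ ((fun y => L y) (L.symm (σ 0))) := by
      show AnalyticAt ℂ τ (L (L.symm (σ 0)))
      rw [L.apply_symm_apply]; exact h.τ_an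
    exact AnalyticAt.comp h1 ((L : V →L[ℂ] EN M).analyticAt _)
  · filter_upwards [h.left] with p hp
    show τ (L (L.symm (σ p))) = p
    rw [L.apply_symm_apply, hp]
  · filter_upwards [hL.eventually h.right] with y hy hyX
    obtain ⟨c, hc, hy2⟩ := hy (by
      show L.symm (L y) ∈ X
      rwa [L.symm_apply_apply])
    refine ⟨c, hc, ?_⟩
    have := congrArg L.symm hy2
    rwa [L.symm_apply_apply, map_smul] at this
  · have h2 : Tendsto (fun p : V × ℂ => (L p.1, p.2)) (𝓝 (L.symm (σ 0), (1 : ℂ))) (𝓝 (σ 0, (1 : ℂ))) := by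
      have h3 : Continuous fun p : V × ℂ => (L p.1, p.2) := (L.continuous.comp continuous_fst).prodMk continuous_snd
      have := h3.tendsto (L.symm (σ 0), (1 : ℂ))
      simpa only [L.apply_symm_apply] using this
    filter_upwards [h2.eventually h.inv] with p hp
    show τ (L (p.2 • p.1)) = τ (L p.1)
    rw [map_smul]
    exact hp

private theorem formB_smul (hu : TMap X Λ u) (hX : Surface X) (hD : CurveD X D Λ u) {x : V} (hx : x ∈ Zs X D Λ u B) {c : ℂ} (hc : c ≠ 0) :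
    c • x ∈ Zs X D Λ u B := by
  rcases hx with hx | ⟨hx, b, hb, hxb⟩
  · exact Or.inl (hD.smul x hx c hc)
  · refine Or.inr ⟨hX.smul x hx c hc, b, hb, ?_⟩
    have h1 := Λ.add_mem (hu.smul x hx c hc) hxb
    have e : u (c • x) - u x + (u x - b) = u (c • x) - b := by ring
    rwa [e] at h1

theorem logP_ext (L : V ≃L[ℂ] EN M) (hΛ : Lat Λ) (hbad : BadSet B Λ δ) (h : DData X D Λ Γ u B α)
    {α' : TForm ((L.symm ⁻¹' X : Set (EN M)) \ (L.symm ⁻¹' D : Set (EN M))) Λ (fun x => u (L.symm x))} (hα : Agr L X D (Zs X D Λ u B) α α') :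
    LogP α' := by
  intro σ τ υ hσ hσD hυ hυu
  have hX := h.surf
  have hD := h.curve
  have hcV := formB_chart L hX hσ
  set φ : ℂ × ℂ → V := fun p => L.symm (σ p) with hφ
  have hx0 : φ 0 ∈ D := (hσD.self_of_nhds).2 rfl
  have hx : φ 0 ∈ X := hD.sub hx0
  have hφD : ∀ᶠ p in 𝓝 (0 : ℂ × ℂ), φ p ∈ D ↔ p.2 = 0 := hσD
  obtain ⟨σ₁, τ₁, hc₁, h0, halt⟩ := h.log (φ 0) hx
  obtain ⟨hAD, hlift⟩ : AD D σ₁ ∧ ∀ υ, Lf Λ u σ₁ υ → ∃ g, AnalyticAt ℂ g 0 ∧ ∀ᶠ p in 𝓝 (0 : ℂ × ℂ), σ₁ p ∉ Zs X D Λ u B →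
      p.2 * cf α υ σ₁ p = g p := by
    rcases halt with ⟨h1, -⟩ | h2
    · exact absurd hx0 h1
    · exact h2
  obtain ⟨θ, hθ, hpr⟩ := hc₁.trans hX.smul hcV ⟨1, one_ne_zero, by rw [one_smul, h0]⟩
  obtain ⟨θ', hθ', hi1, hi2⟩ := hθ.exists_inv
  -- the second component of `θ`
  have hθ2 : ∀ᶠ p in 𝓝 (0 : ℂ × ℂ), (θ p).2 = 0 ↔ p.2 = 0 := by
    filter_upwards [hpr, hφD, hθ.tendsto.eventually hAD] with p h1 h2 h3
    rw [← h2, ← h3]
    obtain ⟨c, hc, h4⟩ := h1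
    have h4' : σ₁ (θ p) = c⁻¹ • φ p := by
      rw [show φ p = c • σ₁ (θ p) from h4, smul_smul, inv_mul_cancel₀ hc, one_smul]
    constructor
    · intro h5
      rw [show φ p = c • σ₁ (θ p) from h4]
      exact hD.smul _ h5 _ hc
    · intro h5
      rw [h4']
      exact hD.smul _ h5 _ (inv_ne_zero hc)
  have hθ2an : AnalyticAt ℂ (fun p => (θ p).2) 0 := analyticAt_snd.comp hθ.an
  have hz : ∀ᶠ x in 𝓝 (0 : ℂ), (fun p => (θ p).2) (x, 0) = 0 := by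
    have ht : Tendsto (fun x : ℂ => (x, (0 : ℂ))) (𝓝 0) (𝓝 (0 : ℂ × ℂ)) := by
      have h1 : Continuous (fun x : ℂ => (x, (0 : ℂ))) := by fun_prop
      exact h1.tendsto 0
    filter_upwards [ht.eventually hθ2] with x hx
    exact hx.2 rfl
  obtain ⟨κ, hκ, hκe⟩ := Pool.Agent.H17BP.exists_div_y hθ2an hz
  -- `κ 0 ≠ 0`
  have hdθ : HasFDerivAt (fun p => (θ p).2) ((ContinuousLinearMap.snd ℂ ℂ ℂ).comp (fderiv ℂ θ 0)) (0 : ℂ × ℂ) := by
    have h1 : HasFDerivAt (fun q : ℂ × ℂ => q.2) (ContinuousLinearMap.snd ℂ ℂ ℂ) (θ 0) := hasFDerivAt_snd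
    exact h1.comp (0 : ℂ × ℂ) hθ.an.differentiableAt.hasFDerivAt
  have hdκ : HasFDerivAt (fun p : ℂ × ℂ => p.2 * κ p) ((0 : ℂ × ℂ).2 • fderiv ℂ κ 0 + κ 0 • ContinuousLinearMap.snd ℂ ℂ ℂ) (0 : ℂ × ℂ) :=
    HasFDerivAt.mul hasFDerivAt_snd hκ.differentiableAt.hasFDerivAt
  have hdeq : (ContinuousLinearMap.snd ℂ ℂ ℂ).comp (fderiv ℂ θ 0) = (0 : ℂ × ℂ).2 • fderiv ℂ κ 0 + κ 0 • ContinuousLinearMap.snd ℂ ℂ ℂ := by
    refine hdθ.unique (hdκ.congr_of_eventuallyEq ?_)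
    filter_upwards [hκe] with p hp
    exact hp
  have hd1 : (fderiv ℂ θ 0 (1, 0)).2 = 0 := by
    have := congrArg (fun A => A ((1 : ℂ), (0 : ℂ))) hdeq
    simpa using this
  have hd2 : (fderiv ℂ θ 0 (0, 1)).2 = κ 0 := by
    have := congrArg (fun A => A ((0 : ℂ), (1 : ℂ))) hdeq
    simpa using this
  have hκ0 : κ 0 ≠ 0 := by
    intro h1
    have h2 := (Pool.Agent.H17BP.bihol_iff hθ.an hθ.zero).1 hθ
    rw [hd1, hd2, h1] at h2
    simp at h2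
  -- the lift along `σ₁`
  have hθ't : Tendsto θ' (𝓝 0) (𝓝 0) := hθ'.tendsto
  have hυ₁ : AnalyticAt ℂ (fun q => υ (θ' q)) 0 := by
    refine AnalyticAt.comp (g := υ) (f := θ') ?_ hθ'.an
    rw [hθ'.zero]
    exact hυ
  have hL1 : Lf Λ u σ₁ (fun q => υ (θ' q)) := by
    refine ⟨hυ₁, ?_⟩
    have hσ₁ : ∀ᶠ q in 𝓝 (0 : ℂ × ℂ), σ₁ q ∈ X := hc₁.σ_mem
    filter_upwards [hi2, hσ₁, hθ't.eventually hpr, hθ't.eventually hυu] with q h1 h2 h3 h4
    rw [h1] at h3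
    obtain ⟨c, hc, h5⟩ := h3
    have h6 := h.tor.smul (σ₁ q) h2 c hc
    rw [← h5] at h6
    have h7 : u (L.symm (σ (θ' q))) - υ (θ' q) ∈ Λ := h4
    have h8 := Λ.sub_mem h7 h6
    have e : u (L.symm (σ (θ' q))) - υ (θ' q) - (u (L.symm (σ (θ' q))) - u (σ₁ q)) = u (σ₁ q) - υ (θ' q) := by ring
    rwa [e] at h8
  obtain ⟨g₁, hg₁, hg₁e⟩ := hlift _ hL1
  -- the determinant
  have hdet : AnalyticAt ℂ (fun p => (fderiv ℂ θ p (1, 0)).1 * (fderiv ℂ θ p (0, 1)).2 - (fderiv ℂ θ p (1, 0)).2 * (fderiv ℂ θ p (0, 1)).1) 0 := by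
    have h1 : AnalyticAt ℂ (fun p => fderiv ℂ θ p (1, 0)) 0 :=
      ((ContinuousLinearMap.apply ℂ (ℂ × ℂ) ((1 : ℂ), (0 : ℂ))).analyticAt _).comp hθ.an.fderiv
    have h2 : AnalyticAt ℂ (fun p => fderiv ℂ θ p (0, 1)) 0 :=
      ((ContinuousLinearMap.apply ℂ (ℂ × ℂ) ((0 : ℂ), (1 : ℂ))).analyticAt _).comp hθ.an.fderiv
    exact ((analyticAt_fst.comp h1).mul (analyticAt_snd.comp h2)).sub ((analyticAt_snd.comp h1).mul (analyticAt_fst.comp h2))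
  have hg₁θ : AnalyticAt ℂ (fun p => g₁ (θ p)) 0 := by
    refine AnalyticAt.comp (g := g₁) (f := θ) ?_ hθ.an
    rw [hθ.zero]
    exact hg₁
  set dt : ℂ × ℂ → ℂ := fun p => (fderiv ℂ θ p (1, 0)).1 * (fderiv ℂ θ p (0, 1)).2 - (fderiv ℂ θ p (1, 0)).2 * (fderiv ℂ θ p (0, 1)).1 with hdt
  have hG : AnalyticAt ℂ (fun p => dt p / κ p * g₁ (θ p)) 0 := (hdet.div hκ hκ0).mul hg₁θ
  refine ⟨fun p => dt p / κ p * g₁ (θ p), hG, ?_⟩
  -- the coefficient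
  have hXZ : ∀ x ∈ X \ Zs X D Λ u B, ∀ c : ℂ, c ≠ 0 → c • x ∈ X \ Zs X D Λ u B := by
    intro x hx c hc
    refine ⟨hX.smul x hx.1 c hc, fun h1 => hx.2 ?_⟩
    have h2 := formB_smul (B := B) h.tor hX hD h1 (inv_ne_zero hc)
    rwa [smul_smul, inv_mul_cancel₀ hc, one_smul] at h2
  have key : ∀ᶠ p in 𝓝 (0 : ℂ × ℂ), φ p ∉ Zs X D Λ u B →
      p.2 * α'.toFun (υ p) (σ p) (fderiv ℂ σ p (1, 0)) (fderiv ℂ σ p (0, 1)) = dt p / κ p * g₁ (θ p) := by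
    filter_upwards [hσ.σ_an.eventually_analyticAt, hcV.σ_an.eventually_analyticAt, hcV.σ_mem, hθ.an.eventually_analyticAt,
      hθ.tendsto.eventually hc₁.σ_an.eventually_analyticAt, hpr.eventually_nhds, hυu, hθ.tendsto.eventually hg₁e, hκe,
      hκ.continuousAt.eventually_ne hκ0, hi1, hθ.tendsto.eventually hc₁.σ_mem.eventually_nhds] with p a1 a2 a3 a4 a5 a6 a7 a8 a9 a10 a11 a12 hpZ
    have a3' : φ p ∈ X := a3
    obtain ⟨c, hc, hpc⟩ := a6.self_of_nhds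
    have b1 : σ₁ (θ p) ∈ X := a12.self_of_nhds
    have b2 : σ₁ (θ p) ∉ Zs X D Λ u B := by
      intro h1
      apply hpZ
      rw [show φ p = c • σ₁ (θ p) from hpc]
      exact formB_smul h.tor hX hD h1 hc
    have b3 : ∀ᶠ y in 𝓝 (θ p), σ₁ y ∈ X \ Zs X D Λ u B := by
      have h1 : Tendsto σ₁ (𝓝 (θ p)) (𝓝 (σ₁ (θ p))) := a5.continuousAt.tendsto
      filter_upwards [a12, h1.eventually (zs_closed hbad h.tor hD b1 b2)] with y h2 h3
      exact ⟨h2, h3⟩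
    have b4 : σ₁ (θ p) ≠ 0 := fun h1 => hX.zero (h1 ▸ b1)
    have b5 : u (φ p) - υ p ∈ Λ := a7
    have b6 : u (σ₁ (θ p)) - υ p ∈ Λ := by
      have h1 := h.tor.smul _ b1 c hc
      rw [← hpc] at h1
      have h2 := Λ.sub_mem b5 h1
      have e : u (φ p) - υ p - (u (φ p) - u (σ₁ (θ p))) = u (σ₁ (θ p)) - υ p := by ring
      rwa [e] at h2
    have b7 := cf_trans hXZ h.form (φ := φ) (ψ := σ₁) (β := θ) (p := p) a2 a4 a5 b3 b4 a6 b5 b6
    have b8 : fderiv ℂ φ p = (L.symm : EN M →L[ℂ] V).comp (fderiv ℂ σ p) :=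
      ((L.symm : EN M →L[ℂ] V).hasFDerivAt.comp p a1.differentiableAt.hasFDerivAt).fderiv
    have b9 : α'.toFun (υ p) (σ p) (fderiv ℂ σ p (1, 0)) (fderiv ℂ σ p (0, 1)) =
        α (υ p) (φ p) (fderiv ℂ φ p (1, 0)) (fderiv ℂ φ p (0, 1)) := by
      rw [hα (υ p) (σ p) a3' hpZ, b8]
      rfl
    have b10 := a8 b2
    have b11 : cf α (fun q => υ (θ' q)) σ₁ (θ p) = α (υ p) (σ₁ (θ p)) (fderiv ℂ σ₁ (θ p) (1, 0)) (fderiv ℂ σ₁ (θ p) (0, 1)) := by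
      show α (υ (θ' (θ p))) _ _ _ = _
      rw [a11]
    rw [b11] at b10
    have b12 : (θ p).2 = p.2 * κ p := a9
    rw [b12] at b10
    rw [b9, b7, ← b10]
    show _ = dt p / κ p * _
    rw [hdt]
    field_simp
  -- the points of `Zs`
  filter_upwards [key.eventually_nhds, hG.eventually_analyticAt, zs_thin hΛ hbad hX h.tor h.nonconst hD hcV, hσ.σ_an.eventually_analyticAt,
    hυ.eventually_analyticAt, hυu.eventually_nhds, hσD.eventually_nhds, hσ.σ_mem.eventually_nhds] with p k1 k2 k3 k4 k5 k6 k7 k8 hp2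
  have k9 : ∀ᶠ y : ℂ × ℂ in 𝓝 p, y.2 ≠ 0 := continuous_snd.continuousAt.eventually_ne hp2
  have k10 : AnalyticAt ℂ (fun y => α'.toFun (υ y) (σ y) (fderiv ℂ σ y (1, 0)) (fderiv ℂ σ y (0, 1))) p := by
    refine α'.analytic σ υ p k4 k5 ?_
    filter_upwards [k6, k7, k8, k9] with y m1 m2 m3 m4
    exact ⟨⟨m3, fun h1 => m4 (m2.1 h1)⟩, m1⟩
  have k11 : Tendsto (fun y : ℂ × ℂ => y.2 * α'.toFun (υ y) (σ y) (fderiv ℂ σ y (1, 0)) (fderiv ℂ σ y (0, 1))) (𝓝 p)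
      (𝓝 (p.2 * α'.toFun (υ p) (σ p) (fderiv ℂ σ p (1, 0)) (fderiv ℂ σ p (0, 1)))) :=
    (continuous_snd.continuousAt (x := p)).tendsto.mul k10.continuousAt.tendsto
  refine tendsto_nhds_unique_of_frequently_eq k11 k2.continuousAt.tendsto ?_
  exact (k3.and_eventually k1).mono fun y hy => hy.2 hy.1

end Pool.Agent.H17L
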