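import Pool.Agent.H17L.DTr
import Pool.Agent.H17N.LiftS

/-!
# H17L LiftL: the limit sections lift to the blow-up

Model: H17N/LiftS.lean.

* `exists_lift_on`: copy of the private `LiftS_exists` (and `LiftS_forms`, `LiftS_phi`, `LiftS_local`, `LiftS_prop`) with `z ∈ U`, `U` open, in place of all `z` (near a point of `U` all points are in `U`).
* `limSec_blow`: let `f`, `Z` be as in `LimSec`.  `h` the lift of `f` (`exists_lift_sec`).  `Z' = Z ∪ {z | z - u q ∈ Λ}`: closed, and every point is isolated from it (`Λ` is discrete and closed).  Let `R, ε, K` be given, `K` compact, disjoint from `Z'`.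
  We use the approximation `G` of `f` for `(R, ε', K)`, `ε' > 0` small.  `U = {z | SecV X D Λ u G z}` is open and contains the closed ball.  For `z ∈ U`: `Pr (G z) q` implies `z - u q ∈ Λ`, so these points are isolated, and `exists_lift_on` gives `G' : ℂ → ι → V` over `U`.  For `z ∈ U` near `z₀ ∈ U`: `G' z ∈ blow l X`, `uB u (G' z) - z ∈ Λ` (`uB_eq`), and `G' z ∉ blow l D`,
  because its components `≠ 0` are multiples of `G z ∉ D` (`comp_mem_strict`).  So `SecV (blow l X) (blow l D) Λ (uB u) G' z` for `z ∈ U`.  Closeness: for `z ∈ K`, `‖z‖ ≤ R`: `f z`, `G z` are not multiples of `q` (`z - u q ∉ Λ`), so `h z = a • phi l (f z)`, `G' z = a' • phi l (G z)` (`eq_phi`).  `Cl ε' (G z) (f z)`: `x = c • G z`, `y = f z`, `‖x - y‖ < ε' ‖y‖`, `ε' ≤ 1`: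
  `‖phi l x - phi l y‖ ≤ C ε' ‖y‖ ^ 2` (`C` depends only on `l`; `phi l x - phi l y = l_b (x - y) • x + l_b y • (x - y)`), and `‖phi l (f z)‖ ≥ m ‖f z‖ ^ 2` for `z ∈ K`, `m > 0`: compactness of `K` (locally `f z` is proportional to a continuous function `F`, and `‖phi l (F z)‖ / ‖F z‖ ^ 2` is continuous, positive, invariant under scaling).  So `ε'` with `C ε' < ε m` works
  (`Cl ε (G' z) (h z)` does not depend on the factors).
* `finL_of_blow`: as `finSec_of_blow`.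
-/

set_option autoImplicit false

open Topology Filter

namespace Pool.Agent.H17L

open Pool.Agent.H17BP (Surface IsChart Tan Pr HolP ResN)
open Pool.Agent.H62.BU (blow dense phi Ker)
open Pool.Agent.H17N (TMap LU RU TF NonConst ThinF FibB HSec uB aB cmp)

variable {V : Type} [NormedAddCommGroup V] [NormedSpace ℂ V] [FiniteDimensional ℂ V] {ι : Type} [Fintype ι] {l : ι → V →L[ℂ] ℂ} {X D : Set V} {q : V}
  {Λ : AddSubgroup ℂ} {u : V → ℂ}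

omit [FiniteDimensional ℂ V] [Fintype ι] in
private theorem LiftL_forms (hl : Ker l q) {x y : V} (h : Pr x y) (hy : y ≠ 0) : Pr x q ↔ ∀ b, l b y = 0 := by
  constructor
  · intro hx b
    obtain ⟨c, hc, e⟩ := h.symm.trans hx
    rw [e, map_smul, (hl q).2 ⟨1, (one_smul _ _).symm⟩ b, smul_zero]
  · intro hb
    obtain ⟨c, hc⟩ := (hl y).1 hb
    refine h.trans ⟨c, ?_, hc⟩
    rintro rfl
    rw [zero_smul] at hc
    exact hy hc

omit [FiniteDimensional ℂ V] in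
private theorem LiftL_phi {x y : V} {c : ℂ} (h : x = c • y) : phi l x = c ^ 2 • phi l y := by
  rw [h, H62.BU.phi_smul]

omit [FiniteDimensional ℂ V] in
/-- The local lift. -/
private theorem LiftL_local (hX : Surface X) (hl : Ker l q) {U : Set ℂ} (hU : IsOpen U) {f : ℂ → V}
    (hf : ∀ z ∈ U, HolP f z ∧ f z ∈ X)
    (hi : ∀ z₀ ∈ U, ∀ᶠ z in 𝓝[≠] z₀, ¬ Pr (f z) q) (z₀ : ℂ) (hz : z₀ ∈ U) :
    ∃ (F : ℂ → V) (G : ℂ → ι → V) (k : ℕ), AnalyticAt ℂ F z₀ ∧ F z₀ ≠ 0 ∧ (∀ᶠ z in 𝓝 z₀, Pr (f z) (F z)) ∧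
      AnalyticAt ℂ G z₀ ∧ (∀ᶠ z in 𝓝 z₀, G z ∈ blow l X) ∧
      ∀ᶠ z in 𝓝 z₀, phi l (F z) = (z - z₀) ^ k • G z := by
  obtain ⟨F, hF, hF0, hfF⟩ := (hf z₀ hz).1
  have hFX : ∀ᶠ z in 𝓝 z₀, F z ∈ X := by
    filter_upwards [hfF, hU.mem_nhds hz] with z h1 h2
    exact (Pr.mem_iff hX.smul h1).1 (hf z h2).2
  have hne : ∃ᶠ z in 𝓝[≠] z₀, ∃ b, l b (F z) ≠ 0 := by
    refine Eventually.frequently ?_
    filter_upwards [hi z₀ hz, hfF.filter_mono nhdsWithin_le_nhds,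
      (hF.continuousAt.eventually_ne hF0).filter_mono nhdsWithin_le_nhds] with z h1 h2 h3
    by_contra h4
    push Not at h4
    exact h1 ((LiftL_forms hl h2 h3).2 h4)
  obtain ⟨k, G, hG, hGb, hGe⟩ := H62.BU.lift_curve hF hFX hne
  exact ⟨F, G, k, hF, hF0, hfF, hG, hGb, hGe⟩

omit [FiniteDimensional ℂ V] in
private theorem LiftL_prop {F : ℂ → V} {G : ℂ → ι → V} {k : ℕ} {z : ℂ} (hF : AnalyticAt ℂ F z)
    (hF0 : F z ≠ 0) (hG : AnalyticAt ℂ G z) (h : ∀ᶠ w in 𝓝 z, phi l (F w) = (w - z) ^ k • G w) {b : ι}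
    (hb : G z b ≠ 0) : Pr (F z) (G z b) := by
  obtain ⟨Λ, hΛ1, hΛ2⟩ := exists_dual_vector ℂ (F z) (norm_ne_zero_iff.mpr hF0)
  have hΛ : Λ (F z) ≠ 0 := by
    rw [hΛ2]
    simpa using hF0
  have hGb : ContinuousAt (fun w => G w b) z := (continuous_apply b).continuousAt.comp hG.continuousAt
  have h1 : Tendsto (fun w => Λ (F w) • G w b) (𝓝[≠] z) (𝓝 (Λ (F z) • G z b)) := by
    refine Tendsto.mono_left ?_ nhdsWithin_le_nhds
    exact ((Λ.continuous.continuousAt.comp hF.continuousAt).smul hGb).tendsto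
  have h2 : Tendsto (fun w => Λ (G w b) • F w) (𝓝[≠] z) (𝓝 (Λ (G z b) • F z)) := by
    refine Tendsto.mono_left ?_ nhdsWithin_le_nhds
    exact ((Λ.continuous.continuousAt.comp hGb).smul hF.continuousAt).tendsto
  have h3 : ∀ᶠ w in 𝓝[≠] z, Λ (F w) • G w b = Λ (G w b) • F w := by
    filter_upwards [h.filter_mono nhdsWithin_le_nhds, self_mem_nhdsWithin] with w h4 h5
    have h6 : (w - z) ^ k ≠ 0 := pow_ne_zero _ (sub_ne_zero.2 h5)
    have h7 : l b (F w) • F w = (w - z) ^ k • G w b := congrFun h4 b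
    have h8 : (w - z) ^ k • (Λ (F w) • G w b) = (w - z) ^ k • (Λ (G w b) • F w) := by
      have h9 : (w - z) ^ k * Λ (G w b) = l b (F w) * Λ (F w) := by
        have h10 := congrArg Λ h7
        rw [map_smul, map_smul, smul_eq_mul, smul_eq_mul] at h10
        exact h10.symm
      rw [smul_comm, ← h7, smul_smul ((w - z) ^ k), h9, smul_smul, mul_comm]
    exact (smul_right_injective V h6) h8
  have h4 : Λ (F z) • G z b = Λ (G z b) • F z :=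
    tendsto_nhds_unique_of_eventuallyEq h1 h2 h3
  have h5 : G z b = ((Λ (F z))⁻¹ * Λ (G z b)) • F z := by
    rw [mul_smul, ← h4, smul_smul, inv_mul_cancel₀ hΛ, one_smul]
  refine Pr.symm ⟨(Λ (F z))⁻¹ * Λ (G z b), ?_, h5⟩
  intro h0
  rw [h0, zero_smul] at h5
  exact hb h5

theorem exists_lift_on (hX : Surface X) (hl : Ker l q) {U : Set ℂ} (hU : IsOpen U) {f : ℂ → V} (hf : ∀ z ∈ U, HolP f z ∧ f z ∈ X)
    (hi : ∀ z₀ ∈ U, ∀ᶠ z in 𝓝[≠] z₀, ¬ Pr (f z) q) :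
    ∃ h : ℂ → ι → V, (∀ z ∈ U, HolP h z ∧ h z ∈ blow l X) ∧ ∀ z ∈ U, ∀ b, h z b ≠ 0 → Pr (f z) (h z b) := by
  classical
  have hloc : ∀ z₀ : ℂ, ∃ (F : ℂ → V) (G : ℂ → ι → V) (k : ℕ), z₀ ∈ U → (AnalyticAt ℂ F z₀ ∧ F z₀ ≠ 0 ∧ (∀ᶠ z in 𝓝 z₀, Pr (f z) (F z)) ∧
      AnalyticAt ℂ G z₀ ∧ (∀ᶠ z in 𝓝 z₀, G z ∈ blow l X) ∧
      ∀ᶠ z in 𝓝 z₀, phi l (F z) = (z - z₀) ^ k • G z) := by
    intro z₀
    by_cases hz : z₀ ∈ U
    · obtain ⟨F, G, k, h⟩ := LiftL_local (ι := ι) hX hl hU hf hi z₀ hz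
      exact ⟨F, G, k, fun _ => h⟩
    · exact ⟨fun _ => 0, fun _ => 0, 0, fun h => absurd h hz⟩
  choose F G k hFG using hloc
  have hf0 : ∀ z ∈ U, f z ≠ 0 := fun z hz h3 => hX.zero (h3 ▸ (hf z hz).2)
  refine ⟨fun z => if ∃ b, l b (f z) ≠ 0 then phi l (f z) else G z z, ?_, ?_⟩
  · intro z₀ hz₀
    obtain ⟨hF, hF0, hfF, hG, hGb, hGe⟩ := hFG z₀ hz₀
    refine ⟨⟨G z₀, hG, hGb.self_of_nhds.2, ?_⟩, ?_⟩
    · have hi' : ∀ᶠ z in 𝓝 z₀, z ≠ z₀ → ¬ Pr (f z) q := by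
        have := hi z₀ hz₀
        rwa [eventually_nhdsWithin_iff] at this
      filter_upwards [hfF, hGe, hi', hU.mem_nhds hz₀] with z h1 h2 h3 hzU
      split_ifs with h5
      · obtain ⟨c, hc, e⟩ := h1
        have h6 : phi l (f z) = (c ^ 2 * (z - z₀) ^ k z₀) • G z₀ z := by
          rw [LiftL_phi e, h2, smul_smul]
        refine ⟨_, ?_, h6⟩
        intro h7
        rw [h7, zero_smul] at h6
        exact H62.BU.phi_ne h5 h6
      · push Not at h5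
        have h6 : z = z₀ := by
          by_contra h7
          exact h3 h7 ((LiftL_forms hl (Pr.refl (f z)) (hf0 z hzU)).2 h5)
        rw [h6]
        exact Pr.refl _
    · show (if ∃ b, l b (f z₀) ≠ 0 then phi l (f z₀) else G z₀ z₀) ∈ blow l X
      split_ifs with h5
      · exact H62.BU.dense_sub (H62.BU.phi_mem_dense (hf z₀ hz₀).2 h5)
      · exact hGb.self_of_nhds
  · intro z hz b
    obtain ⟨hF, hF0, hfF, hG, hGb, hGe⟩ := hFG z hz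
    simp only
    split_ifs with h5
    · intro h6
      have h7 : phi l (f z) b = l b (f z) • f z := rfl
      rw [h7] at h6 ⊢
      have h8 : l b (f z) ≠ 0 := by
        intro h9
        rw [h9, zero_smul] at h6
        exact h6 rfl
      exact Pr.symm ⟨_, h8, rfl⟩
    · intro h6
      exact (hfF.self_of_nhds).trans (LiftL_prop hF hF0 hG hGe h6)

/-- the points over `q` are isolated -/
private theorem LiftL_iso (hΛ : ∃ δ : ℝ, 0 < δ ∧ ∀ l ∈ Λ, ‖l‖ < δ → l = 0) (a z₀ : ℂ) : ∀ᶠ z in 𝓝[≠] z₀, z - a ∉ Λ := by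
  obtain ⟨δ, hδ, hΛ⟩ := hΛ
  by_cases hz : ∃ z1 : ℂ, z1 ≠ z₀ ∧ dist z1 z₀ < δ / 2 ∧ z1 - a ∈ Λ
  · obtain ⟨z1, h1, h2, h3⟩ := hz
    have h4 : ∀ᶠ z in 𝓝 z₀, z ≠ z1 := eventually_ne_nhds (Ne.symm h1)
    filter_upwards [h4.filter_mono nhdsWithin_le_nhds,
      (Metric.ball_mem_nhds z₀ (half_pos hδ) : Metric.ball z₀ (δ / 2) ∈ 𝓝 z₀) |> (mem_nhdsWithin_of_mem_nhds ·)] with z h5 h6 h7
    have h8 := Λ.sub_mem h7 h3
    have e3 : z - a - (z1 - a) = z - z1 := by ring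
    rw [e3] at h8
    have h9 : ‖z - z1‖ < δ := by
      have h10 : dist z z₀ < δ / 2 := h6
      have h11 := dist_triangle_right z z1 z₀
      rw [dist_eq_norm] at h11
      linarith
    exact h5 (sub_eq_zero.1 (hΛ _ h8 h9))
  · push Not at hz
    filter_upwards [self_mem_nhdsWithin,
      (Metric.ball_mem_nhds z₀ (half_pos hδ) : Metric.ball z₀ (δ / 2) ∈ 𝓝 z₀) |> (mem_nhdsWithin_of_mem_nhds ·)] with z h5 h6 h7
    exact hz z h5 h6 h7

private theorem LiftL_closed {Z : Set ℂ} (h : ∀ z, ∀ᶠ w in 𝓝[≠] z, w ∉ Z) : IsClosed Z := by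
  rw [← isOpen_compl_iff, isOpen_iff_eventually]
  intro z hz
  have h1 := h z
  rw [eventually_nhdsWithin_iff] at h1
  filter_upwards [h1] with w hw
  by_cases hwz : w = z
  · rw [hwz]
    exact hz
  · exact hw hwz

private theorem LiftL_holP_open {f : ℂ → V} {z : ℂ} (h : HolP f z) : ∀ᶠ w in 𝓝 z, HolP f w := by
  obtain ⟨F, hF, hF0, hfF⟩ := h
  filter_upwards [hF.eventually_analyticAt, hF.continuousAt.eventually_ne hF0, eventually_eventually_nhds.2 hfF] with w h1 h2 h3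
  exact ⟨F, h1, h2, h3⟩

private theorem LiftL_open {f : ℂ → V} : IsOpen {z | SecV X D Λ u f z} := by
  rw [isOpen_iff_eventually]
  rintro z ⟨h1, h2⟩
  filter_upwards [LiftL_holP_open h1, eventually_eventually_nhds.2 h2] with w h3 h4
  exact ⟨h3, h4⟩

omit [FiniteDimensional ℂ V] in
/-- a lift is proportional to `phi` -/
private theorem LiftL_pr {x : V} {y : ι → V} (hy : y ∈ blow l X) (hc : ∀ b, y b ≠ 0 → Pr x (y b)) (hx : ∃ b, l b x ≠ 0) :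
    ∃ a : ℂ, a ≠ 0 ∧ y = a • phi l x := by
  obtain ⟨b, hb⟩ := H62.BU.exists_ne y hy
  obtain ⟨b', hb'⟩ := hx
  obtain ⟨c, hc0, e⟩ := (hc b hb).symm
  have h1 : l b' (y b) ≠ 0 := by
    rw [e, map_smul, smul_eq_mul]
    exact mul_ne_zero hc0 hb'
  have h2 := H62.BU.ne_of_ne y hy hb h1
  refine ⟨(l b (y b))⁻¹ * c ^ 2, mul_ne_zero (inv_ne_zero h2) (pow_ne_zero 2 hc0), ?_⟩
  rw [mul_smul, ← LiftL_phi e]
  exact H62.BU.eq_phi y hy hb h1

omit [FiniteDimensional ℂ V] in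
private theorem LiftL_bound (l : ι → V →L[ℂ] ℂ) : ∃ C : ℝ, 0 ≤ C ∧ ∀ x y : V, ‖phi l x - phi l y‖ ≤ C * ‖x - y‖ * (‖x‖ + ‖y‖) := by
  refine ⟨∑ b, ‖l b‖, Finset.sum_nonneg fun b _ => norm_nonneg _, fun x y => ?_⟩
  have h0 : 0 ≤ (∑ b, ‖l b‖) * ‖x - y‖ * (‖x‖ + ‖y‖) := by
    have h1 : 0 ≤ ∑ b, ‖l b‖ := Finset.sum_nonneg fun b _ => norm_nonneg _
    positivity
  rw [pi_norm_le_iff_of_nonneg h0]
  intro b
  have h1 : ‖l b‖ ≤ ∑ b, ‖l b‖ := Finset.single_le_sum (f := fun b => ‖l b‖) (fun b _ => norm_nonneg _) (Finset.mem_univ b)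
  have h2 : (phi l x - phi l y) b = l b (x - y) • x + l b y • (x - y) := by
    show l b x • x - l b y • y = _
    rw [map_sub, sub_smul, smul_sub]
    abel
  rw [h2]
  calc ‖l b (x - y) • x + l b y • (x - y)‖ ≤ ‖l b (x - y) • x‖ + ‖l b y • (x - y)‖ := norm_add_le _ _
    _ = ‖l b (x - y)‖ * ‖x‖ + ‖l b y‖ * ‖x - y‖ := by rw [norm_smul, norm_smul]
    _ ≤ (‖l b‖ * ‖x - y‖) * ‖x‖ + (‖l b‖ * ‖y‖) * ‖x - y‖ :=
        add_le_add (mul_le_mul_of_nonneg_right ((l b).le_opNorm _) (norm_nonneg _))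
          (mul_le_mul_of_nonneg_right ((l b).le_opNorm _) (norm_nonneg _))
    _ = ‖l b‖ * (‖x - y‖ * (‖x‖ + ‖y‖)) := by ring
    _ ≤ (∑ b, ‖l b‖) * (‖x - y‖ * (‖x‖ + ‖y‖)) := mul_le_mul_of_nonneg_right h1 (by positivity)
    _ = (∑ b, ‖l b‖) * ‖x - y‖ * (‖x‖ + ‖y‖) := by ring

omit [FiniteDimensional ℂ V] [Fintype ι] in
private theorem LiftL_phi_cont (l : ι → V →L[ℂ] ℂ) : Continuous (phi l) := by
  refine continuous_pi fun b => ?_
  exact ((l b).continuous).smul continuous_id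

omit [FiniteDimensional ℂ V] in
/-- the lower bound on a compact set -/
private theorem LiftL_low {f : ℂ → V} {K : Set ℂ} (hK : IsCompact K) (hf : ∀ z ∈ K, HolP f z ∧ ∃ b, l b (f z) ≠ 0) :
    ∃ m : ℝ, 0 < m ∧ ∀ z ∈ K, m * ‖f z‖ ^ 2 ≤ ‖phi l (f z)‖ := by
  refine hK.induction_on (p := fun S => ∃ m : ℝ, 0 < m ∧ ∀ z ∈ S, m * ‖f z‖ ^ 2 ≤ ‖phi l (f z)‖) ?_ ?_ ?_ ?_
  · exact ⟨1, one_pos, fun z hz => hz.elim⟩
  · rintro S T hST ⟨m, hm, h⟩
    exact ⟨m, hm, fun z hz => h z (hST hz)⟩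
  · rintro S T ⟨m, hm, h⟩ ⟨m', hm', h'⟩
    refine ⟨min m m', lt_min hm hm', ?_⟩
    rintro z (hz | hz)
    · exact (mul_le_mul_of_nonneg_right (min_le_left _ _) (by positivity)).trans (h z hz)
    · exact (mul_le_mul_of_nonneg_right (min_le_right _ _) (by positivity)).trans (h' z hz)
  · intro z₀ hz₀
    obtain ⟨⟨F, hF, hF0, hfF⟩, b, hb⟩ := hf z₀ hz₀
    have hphi : phi l (F z₀) ≠ 0 := by
      apply H62.BU.phi_ne
      obtain ⟨c, hc, e⟩ := hfF.self_of_nhds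
      refine ⟨b, fun h0 => hb ?_⟩
      rw [e, map_smul, h0, smul_zero]
    have hn0 : 0 < ‖F z₀‖ := norm_pos_iff.2 hF0
    have hp0 : 0 < ‖phi l (F z₀)‖ := norm_pos_iff.2 hphi
    set m : ℝ := ‖phi l (F z₀)‖ / (2 * ‖F z₀‖ ^ 2) with hm
    have hm0 : 0 < m := by positivity
    have h1 : m * ‖F z₀‖ ^ 2 < ‖phi l (F z₀)‖ := by
      rw [hm]
      field_simp
      linarith
    have hc1 : ContinuousAt (fun z => m * ‖F z‖ ^ 2) z₀ := (hF.continuousAt.norm.pow 2).const_mul m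
    have hc2 : ContinuousAt (fun z => ‖phi l (F z)‖) z₀ :=
      (ContinuousAt.comp (g := phi l) (f := F) (LiftL_phi_cont l).continuousAt hF.continuousAt).norm
    have h2 : ∀ᶠ z in 𝓝 z₀, m * ‖F z‖ ^ 2 < ‖phi l (F z)‖ := hc1.eventually_lt hc2 h1
    have h3 : ∀ᶠ z in 𝓝 z₀, m * ‖f z‖ ^ 2 ≤ ‖phi l (f z)‖ := by
      filter_upwards [h2, hfF] with z h4 h5
      obtain ⟨c, hc, e⟩ := h5
      rw [LiftL_phi e, norm_smul, e, norm_smul, norm_pow, mul_pow]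
      have h6 : 0 ≤ ‖c‖ ^ 2 := by positivity
      nlinarith
    exact ⟨{z | m * ‖f z‖ ^ 2 ≤ ‖phi l (f z)‖}, mem_nhdsWithin_of_mem_nhds h3, m, hm0, fun z hz => hz⟩

theorem limSec_blow (hΛ : ∃ δ : ℝ, 0 < δ ∧ ∀ l ∈ Λ, ‖l‖ < δ → l = 0) (hX : Surface X) (hu : TMap X Λ u) (hD : CurveD X D Λ u) (hl : Ker l q)
    (hq : q ∈ X) {f : ℂ → V} (hf : LimSec X D Λ u f) :
    ∃ h, LimSec (blow l X) (blow l D) Λ (uB u) h ∧ ∀ z b, h z b ≠ 0 → Pr (f z) (h z b) := by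
  obtain ⟨hfS, Z, hZc, hZi, hZ⟩ := hf
  obtain ⟨h, hh, hhf⟩ := Pool.Agent.H17N.exists_lift_sec hΛ hX hu hl hq hfS
  have hpr : ∀ (g : ℂ → V) (z : ℂ), u (g z) - z ∈ Λ → Pr (g z) q → z - u q ∈ Λ := by
    rintro g z h2 ⟨c, hc, e⟩
    have h1 := hu.smul q hq c hc
    rw [e] at h2
    have h3 := Λ.sub_mem h1 h2
    have e2 : z - u q = u (c • q) - u q - (u (c • q) - z) := by ring
    rw [e2]
    exact h3
  have hlne : ∀ (g : ℂ → V) (z : ℂ), g z ∈ X → u (g z) - z ∈ Λ → z - u q ∉ Λ → ∃ b, l b (g z) ≠ 0 := by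
    intro g z h1 h2 h3
    by_contra h4
    push Not at h4
    exact h3 (hpr g z h2 ((LiftL_forms hl (Pr.refl (g z)) (fun h0 => hX.zero (h0 ▸ h1))).2 h4))
  have hi2 : ∀ z, ∀ᶠ w in 𝓝[≠] z, w ∉ Z ∪ {w | w - u q ∈ Λ} := by
    intro z
    filter_upwards [hZi z, LiftL_iso hΛ (u q) z] with w h1 h2 h3
    rcases h3 with h3 | h3
    · exact h1 h3
    · exact h2 h3
  refine ⟨h, ⟨hh, Z ∪ {w | w - u q ∈ Λ}, LiftL_closed hi2, hi2, fun R ε hε K hK hKZ => ?_⟩, hhf⟩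
  have hKZ1 : ∀ z ∈ K, z ∉ Z := fun z hz h1 => hKZ z hz (Or.inl h1)
  have hKZ2 : ∀ z ∈ K, z - u q ∉ Λ := fun z hz h1 => hKZ z hz (Or.inr h1)
  have hfl : ∀ z ∈ K, ∃ b, l b (f z) ≠ 0 := fun z hz => hlne f z (hfS.2.1 z) (hfS.2.2 z) (hKZ2 z hz)
  obtain ⟨m, hm, hlow⟩ := LiftL_low (l := l) hK fun z hz => ⟨hfS.1 z, hfl z hz⟩
  obtain ⟨C, hC, hCb⟩ := LiftL_bound l
  set ε' : ℝ := min 1 (ε * m / (3 * C + 1)) with hε'
  have hε'0 : 0 < ε' := lt_min one_pos (by positivity)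
  have hε'1 : ε' ≤ 1 := min_le_left _ _
  have hε'2 : ε' * (3 * C + 1) ≤ ε * m := by
    have h1 : ε' ≤ ε * m / (3 * C + 1) := min_le_right _ _
    rwa [le_div_iff₀ (by positivity)] at h1
  obtain ⟨G, hG, hGf⟩ := hZ R ε' hε'0 K hK hKZ1
  set U : Set ℂ := {z | SecV X D Λ u G z} with hU
  have hUo : IsOpen U := LiftL_open
  have hUX : ∀ z ∈ U, G z ∈ X ∧ G z ∉ D ∧ u (G z) - z ∈ Λ := fun z hz => hz.2.self_of_nhds
  obtain ⟨G', hG'1, hG'2⟩ := exists_lift_on (ι := ι) (l := l) hX hl hUo (f := G) (fun z hz => ⟨hz.1, (hUX z hz).1⟩) (by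
    intro z₀ hz₀
    filter_upwards [LiftL_iso hΛ (u q) z₀, (hUo.mem_nhds hz₀ : U ∈ 𝓝 z₀) |> (mem_nhdsWithin_of_mem_nhds ·)] with z h1 h2 h3
    exact h1 (hpr G z (hUX z h2).2.2 h3))
  refine ⟨G', fun z hz => ?_, fun z hz hzR => ?_⟩
  · have hzU : z ∈ U := hG z hz
    refine ⟨(hG'1 z hzU).1, ?_⟩
    filter_upwards [hUo.mem_nhds hzU] with w hw
    have hb1 := (hG'1 w hw).2
    obtain ⟨b, hb⟩ := H62.BU.exists_ne (G' w) hb1
    have hp := hG'2 w hw b hb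
    refine ⟨hb1, fun hD' => ?_, ?_⟩
    · have h1 := comp_mem_strict hX hD hD' hb
      obtain ⟨c, hc, e⟩ := hp
      apply (hUX w hw).2.1
      rw [e]
      exact hD.smul _ h1 c hc
    · have h3 := Pool.Agent.H17N.uB_eq hX hu hb1 hb
      have hbX : G' w b ∈ X := (Pr.mem_iff hX.smul hp).1 (hUX w hw).1
      obtain ⟨c, hc, e⟩ := hp
      have h5 := hu.smul _ hbX c hc
      rw [← e] at h5
      have h7 := Λ.add_mem (Λ.sub_mem h3 h5) (hUX w hw).2.2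
      have e4 : uB u (G' w) - w = uB u (G' w) - u (G' w b) - (u (G w) - u (G' w b)) + (u (G w) - w) := by ring
      rw [e4]
      exact h7
  · have hzU : z ∈ U := hG z (by rw [mem_closedBall_zero_iff]; exact hzR)
    have hGl := hlne G z (hUX z hzU).1 (hUX z hzU).2.2 (hKZ2 z hz)
    obtain ⟨a, ha, hae⟩ := LiftL_pr (hh.2.1 z) (hhf z) (hfl z hz)
    obtain ⟨a', ha', hae'⟩ := LiftL_pr (hG'1 z hzU).2 (hG'2 z hzU) hGl
    obtain ⟨c, hc, hcl⟩ := hGf z hz hzR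
    have hfz : f z ≠ 0 := fun h0 => hX.zero (h0 ▸ hfS.2.1 z)
    have hfp : 0 < ‖f z‖ := norm_pos_iff.2 hfz
    have h1 := hCb (c • G z) (f z)
    have h2 : ‖c • G z‖ ≤ 2 * ‖f z‖ := by
      have h3 := norm_sub_norm_le (c • G z) (f z)
      nlinarith
    have h4 : ‖phi l (c • G z) - phi l (f z)‖ < ε * ‖phi l (f z)‖ := by
      have h5 : C * ‖c • G z - f z‖ * (‖c • G z‖ + ‖f z‖) ≤ C * (ε' * ‖f z‖) * (3 * ‖f z‖) := by
        apply mul_le_mul (mul_le_mul_of_nonneg_left hcl.le hC) (by linarith) (by positivity) (by positivity)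
      have h6 := hlow z hz
      have h7 : C * (ε' * ‖f z‖) * (3 * ‖f z‖) < ε * (m * ‖f z‖ ^ 2) := by
        have h8 : 0 < ‖f z‖ ^ 2 := by positivity
        have h9 : C * (ε' * ‖f z‖) * (3 * ‖f z‖) = (ε' * (3 * C)) * ‖f z‖ ^ 2 := by ring
        have h10 : ε * (m * ‖f z‖ ^ 2) = (ε * m) * ‖f z‖ ^ 2 := by ring
        rw [h9, h10]
        apply mul_lt_mul_of_pos_right _ h8
        nlinarith
      have h11 : ε * (m * ‖f z‖ ^ 2) ≤ ε * ‖phi l (f z)‖ := mul_le_mul_of_nonneg_left h6 hε.le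
      linarith
    refine ⟨a * c ^ 2 * a'⁻¹, mul_ne_zero (mul_ne_zero ha (pow_ne_zero 2 hc)) (inv_ne_zero ha'), ?_⟩
    have h12 : (a * c ^ 2 * a'⁻¹) • G' z - h z = a • (phi l (c • G z) - phi l (f z)) := by
      rw [hae', hae, smul_smul, mul_assoc, inv_mul_cancel₀ ha', mul_one, H62.BU.phi_smul, smul_sub, smul_smul]
    rw [h12, hae, norm_smul, norm_smul]
    have h13 : 0 < ‖a‖ := norm_pos_iff.2 ha
    nlinarith

theorem finL_of_blow (hΛ : ∃ δ : ℝ, 0 < δ ∧ ∀ l ∈ Λ, ‖l‖ < δ → l = 0) (hX : Surface X) (hu : TMap X Λ u) (hD : CurveD X D Λ u) (hl : Ker l q)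
    (hq : q ∈ X) (h : FinL (blow l X) (blow l D) Λ (uB u)) : FinL X D Λ u := by
  classical
  obtain ⟨S, hS, hS2⟩ := h
  refine ⟨(fun (g : ℂ → ι → V) z => Pool.Agent.H17N.cmp (g z)) '' S, hS.image _, fun f hf => ?_⟩
  obtain ⟨h1, hh, h2⟩ := limSec_blow hΛ hX hu hD hl hq hf
  obtain ⟨g, hg, h3⟩ := hS2 h1 hh
  refine ⟨_, Set.mem_image_of_mem _ hg, fun z => ?_⟩
  obtain ⟨b, hb⟩ := H62.BU.exists_ne (h1 z) (hh.1.2.1 z)
  obtain ⟨c, hc, e⟩ := h3 z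
  have hgb : ∃ b, g z b ≠ 0 := by
    refine ⟨b, fun h0 => hb ?_⟩
    rw [e, Pi.smul_apply, h0, smul_zero]
  have h4 : Pool.Agent.H17N.cmp (g z) = g z hgb.choose := by
    unfold Pool.Agent.H17N.cmp
    rw [dif_pos hgb]
  have h5 : g z hgb.choose ≠ 0 := hgb.choose_spec
  have h6 : h1 z hgb.choose = c • g z hgb.choose := by rw [e]; rfl
  show Pr (f z) (Pool.Agent.H17N.cmp (g z))
  rw [h4]
  exact (h2 z _ (by rw [h6]; exact smul_ne_zero hc h5)).trans ⟨c, hc, h6⟩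

end Pool.Agent.H17L
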