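import Pool.Agent.H17L.BlowRD
import Pool.Agent.H17L.BlowQ
import Pool.Agent.H17L.BlowL
import Pool.Agent.H17L.LiftL
import Pool.Agent.H17L.BaseLB
import Pool.Agent.H17L.BaseLC
import Pool.Agent.H17L.CoreStub

/-!
# H17L IndL: the induction over the blow-ups

Model: H17N/Ind.lean (copy), with `RUD` in place of `RU`, `blow l D` for `D`.

* `cls_of_bad`: `z ∉ B` (otherwise `z - z = 0 ∈ Λ`); `B` is invariant under `Λ` and `8 δ`-separated, so at most one `b ∈ B` has `‖z - b‖ < δ`, and it is `≠ z`; hence no `w` near `z` is in `B`, and `w - b ∈ Λ` with `b ∈ B` would give `w = b + (w - b) ∈ B`.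
* `ddata_blow`: `surf`: `H62.BU.surface_blow` (as in Ind); `tor`: `tmap_blow`; `nonconst`: `nonconst_blow`; `curve`: `curve_blow`; `form`, `per`, `van`, `thin`, `fib`: BlowO; `log`: `logV_blow`; `crit`, `good`: BlowRD.
* `fin_zeroL`: `ebase`, `exists_formL`, `lsec_core`, `finL_of_lsec` (choose a continuous linear isomorphism `V ≃L[ℂ] EN M`).
* `finLN_step`, `finL_of_data`: the points `x` with `¬ RUD X D Λ u x 0` are finitely many up to factors (`exists_finset_of_isolated`, `RUD.near`, `RUD.pr`), they lie over `B` (off `B`: `crit`, `good`, `rud_of_ru`, `rud_of_trv`), and `RUD x n` for a common `n`; blow them up one after the other (`rud_blow`), `finL_of_blow`.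
-/

set_option autoImplicit false

open Topology Filter

namespace Pool.Agent.H17L

open Pool.Agent.H17BP (Surface IsChart Tan Pr HolP ResN exists_forms exists_finset_of_isolated)
open Pool.Agent.H62.BU (blow phi Ker phi_smul)
open Pool.Agent.H36.BP (EN)
open Pool.Agent.H62.EF (Lat)
open Pool.Agent.H62.EL (TForm Per VanZero Thin BadSet)
open Pool.Agent.H17N (TMap LU RU TF NonConst ThinF FibB HSec uB aB)

variable {V : Type} [NormedAddCommGroup V] [NormedSpace ℂ V] {X D : Set V} {Λ Γ : AddSubgroup ℂ} {u : V → ℂ}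
  {B : Set ℂ} {α : ℂ → V → V → V → ℂ} {δ : ℝ}

/-- the union of the classes of the bad values is closed -/
theorem cls_of_bad (hbad : BadSet B Λ δ) : ∀ z : ℂ, (∀ b ∈ B, z - b ∉ Λ) → ∀ᶠ w in 𝓝 z, ∀ b ∈ B, w - b ∉ Λ := by
  intro z hz
  have hzB : z ∉ B := fun hzB => hz z hzB (by rw [sub_self]; exact Λ.zero_mem)
  obtain ⟨δ', hδ', hgd⟩ := hbad.exists_gd hzB
  filter_upwards [Metric.ball_mem_nhds z hδ'] with w hw b hb hmem
  have h1 : w ∈ B := by
    have h2 := hbad.inv b hb _ hmem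
    rwa [add_sub_cancel] at h2
  have h3 := hgd w h1
  rw [Metric.mem_ball, dist_eq_norm, norm_sub_rev] at hw
  exact absurd h3 (not_le.2 hw)

theorem ddata_blow [FiniteDimensional ℂ V] {ι : Type} [Fintype ι] {l : ι → V →L[ℂ] ℂ} {q : V} (hΛ : Lat Λ) (hle : Γ ≤ Λ) (h : DData X D Λ Γ u B α)
    (hl : Ker l q) (hq : q ∈ X) (hB : ∃ b ∈ B, u q - b ∈ Λ) (hBc : ∀ z : ℂ, (∀ b ∈ B, z - b ∉ Λ) → ∀ᶠ w in 𝓝 z, ∀ b ∈ B, w - b ∉ Λ) :
    DData (blow l X) (blow l D) Λ Γ (uB u) B (aB α) :=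
  { surf := Pool.Agent.H17BP.surface_iff.1 (Pool.Agent.H62.BU.surface_blow (Pool.Agent.H17BP.surface_iff.2 h.surf) hl hq)
    tor := Pool.Agent.H17N.tmap_blow h.surf h.tor
    nonconst := Pool.Agent.H17N.nonconst_blow hΛ.discrete h.surf h.tor hl hq h.nonconst
    curve := curve_blow h.surf h.tor h.curve hl hq
    form := tf_open h.surf h.tor h.curve h.form hl hq hB
    log := logV_blow hΛ.discrete h.surf h.tor h.curve h.form hl hq hB hBc h.log
    per := per_open h.surf h.tor h.curve h.form hl hq hB hle h.per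
    van := van_open h.surf h.tor h.curve h.form hl hq hB h.van
    thin := thin_open h.surf h.tor h.curve h.form hl hq hB h.thin
    fib := fib_blowD h.surf h.tor h.curve hl hq hB h.fib
    crit := crit_blowD h.surf h.tor hl hq hB h.crit
    good := good_blowD h.surf h.tor h.curve hl hq hB h.good }

theorem fin_zeroL [FiniteDimensional ℂ V] (hΛ : Lat Λ) (hΓ : Lat Γ) (hle : Γ ≤ Λ) (hbad : BadSet B Λ δ) (h0 : ∀ b ∈ B, 4 * δ ≤ ‖b‖)
    (h : DData X D Λ Γ u B α) (hr : ∀ x ∈ X, RUD X D Λ u x 0) : FinL X D Λ u := by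
  rcases X.eq_empty_or_nonempty with hX | ⟨x₀, hx₀⟩
  · refine ⟨∅, Set.finite_empty, fun f hf => ?_⟩
    have h1 := hf.1.2.1 0
    rw [hX] at h1
    exact absurd h1 (Set.notMem_empty _)
  · have hx₀' : x₀ ≠ 0 := fun e => h.surf.zero (e ▸ hx₀)
    have hnt : Nontrivial V := ⟨⟨x₀, 0, hx₀'⟩⟩
    have hpos : 0 < Module.finrank ℂ V := Module.finrank_pos
    obtain ⟨M, hM⟩ : ∃ M, Module.finrank ℂ V = M + 1 := ⟨Module.finrank ℂ V - 1, by omega⟩
    have hE : Module.finrank ℂ V = Module.finrank ℂ (EN M) := by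
      rw [hM, finrank_euclideanSpace_fin]
    let L : V ≃L[ℂ] EN M := ContinuousLinearEquiv.ofFinrankEq hE
    obtain ⟨α', hlog, hper, hvan, hthin⟩ := exists_formL L hΛ hle hbad h0 h
    exact finL_of_lsec L h.surf h.tor h.curve.smul
      (lsec_core (ebase L hΛ hΓ hle hbad h0 h hr) α' hlog hper hvan hthin)

private theorem indL_phi_pr {V : Type} [NormedAddCommGroup V] [NormedSpace ℂ V] {ι : Type} [Fintype ι]
    {l : ι → V →L[ℂ] ℂ} {x y : V} (h : Pr x y) : Pr (phi l x) (phi l y) := by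
  obtain ⟨c, hc, rfl⟩ := h
  exact ⟨c ^ 2, pow_ne_zero _ hc, phi_smul c y⟩

private theorem indL_exists_finset [FiniteDimensional ℂ V] (h : DData X D Λ Γ u B α) :
    ∃ F : Finset V, (∀ q ∈ F, q ∈ X) ∧ ∀ x ∈ X, RUD X D Λ u x 0 ∨ ∃ q ∈ F, Pr x q := by
  refine exists_finset_of_isolated h.surf (fun x y hxy hy => hy.pr h.surf h.tor h.curve hxy) fun x hx => ?_
  obtain ⟨n, hn⟩ := exists_rud h.surf h.tor h.nonconst h.curve hx
  exact hn.near h.surf h.tor h.curve hx

/-- the points which are not resolved lie over the bad values -/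
private theorem indL_over [FiniteDimensional ℂ V] (h : DData X D Λ Γ u B α) {q : V} (hq : q ∈ X) (h0 : ¬ RUD X D Λ u q 0) :
    ∃ b ∈ B, u q - b ∈ Λ := by
  by_contra hB
  have hB' : ∀ b ∈ B, u q - b ∉ Λ := fun b hb hmem => hB ⟨b, hb, hmem⟩
  by_cases hqD : q ∈ D
  · exact h0 (rud_of_trv (h.good q hqD hB'))
  · exact h0 (rud_of_ru h.curve hq hqD (h.crit q hq hB'))

/-- the statement for surfaces which are resolved by `n` blow-ups over every point -/
def FinLN (Λ Γ : AddSubgroup ℂ) (B : Set ℂ) (n : ℕ) : Prop :=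
  ∀ (V : Type) [NormedAddCommGroup V] [NormedSpace ℂ V] [FiniteDimensional ℂ V] (X D : Set V) (u : V → ℂ) (α : ℂ → V → V → V → ℂ),
    DData X D Λ Γ u B α → (∀ x ∈ X, RUD X D Λ u x n) → FinL X D Λ u

theorem finLN_step (hΛ : Lat Λ) (hle : Γ ≤ Λ) (hBc : ∀ z : ℂ, (∀ b ∈ B, z - b ∉ Λ) → ∀ᶠ w in 𝓝 z, ∀ b ∈ B, w - b ∉ Λ) {n : ℕ} (ih : FinLN Λ Γ B n) : ∀ (k : ℕ) (V : Type) [NormedAddCommGroup V] [NormedSpace ℂ V]
    [FiniteDimensional ℂ V] (X D : Set V) (u : V → ℂ) (α : ℂ → V → V → V → ℂ), DData X D Λ Γ u B α → (∀ x ∈ X, RUD X D Λ u x (n + 1)) →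
    (∃ F : Finset V, F.card ≤ k ∧ ∀ x ∈ X, RUD X D Λ u x n ∨ ∃ q ∈ F, Pr x q) → FinL X D Λ u := by
  intro k
  induction k with
  | zero =>
    intro V _ _ _ X D u α h h0 hF
    obtain ⟨F, hF1, hF2⟩ := hF
    have hF0 : F = ∅ := Finset.card_eq_zero.1 (by omega)
    refine ih V X D u α h fun x hx => ?_
    rcases hF2 x hx with h1 | ⟨q, hq, -⟩
    · exact h1
    · rw [hF0] at hq
      simp at hq
  | succ k ihk =>
    intro V _ _ _ X D u α h h0 hF
    obtain ⟨F, hF1, hF2⟩ := hF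
    have hX := h.surf.smul
    by_cases hall : ∀ x ∈ X, RUD X D Λ u x n
    · exact ih V X D u α h hall
    push Not at hall
    obtain ⟨x₀, hx₀, hx₀n⟩ := hall
    rcases hF2 x₀ hx₀ with h1 | ⟨q, hqF, hxq⟩
    · exact absurd h1 hx₀n
    have hqX : q ∈ X := (hxq.mem_iff hX).1 hx₀
    have hqn : ¬ RUD X D Λ u q n := fun h1 => hx₀n (h1.pr h.surf h.tor h.curve hxq)
    have hq0 : ¬ RUD X D Λ u q 0 := fun h1 => hqn (h1.mono_le (Nat.zero_le n))
    have hqne : q ≠ 0 := fun e => h.surf.zero (e ▸ hqX)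
    have hB : ∃ b ∈ B, u q - b ∈ Λ := indL_over h hqX hq0
    obtain ⟨r, l, hl⟩ := exists_forms hqne
    classical
    refine finL_of_blow hΛ.discrete h.surf h.tor h.curve hl hqX ?_
    refine ihk (Fin r → V) (blow l X) (blow l D) (uB u) (aB α) (ddata_blow hΛ hle h hl hqX hB hBc) ?_
      ⟨(F.erase q).image (phi l), ?_, ?_⟩
    · intro y hy
      rcases rud_blow h.surf h.tor h.curve hl hqX (h0 q hqX) hq0 hy with ⟨-, h1⟩ | ⟨x, hx, -, -, -, h2⟩
      · exact h1.mono_le (Nat.le_succ n)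
      · exact h2 _ (h0 x hx)
    · have h1 := Finset.card_image_le (s := F.erase q) (f := phi l)
      have h2 := Finset.card_erase_of_mem hqF
      omega
    · intro y hy
      rcases rud_blow h.surf h.tor h.curve hl hqX (h0 q hqX) hq0 hy with ⟨-, h1⟩ | ⟨x, hx, hxq', hyx, -, h2⟩
      · exact Or.inl h1
      · rcases hF2 x hx with h3 | ⟨q', hq'F, hxq''⟩
        · exact Or.inl (h2 _ h3)
        · refine Or.inr ⟨phi l q', Finset.mem_image_of_mem _ (Finset.mem_erase.2 ⟨?_, hq'F⟩),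
            hyx.trans (indL_phi_pr hxq'')⟩
          rintro rfl
          exact hxq' hxq''

theorem finL_of_data [FiniteDimensional ℂ V] (hΛ : Lat Λ) (hΓ : Lat Γ) (hle : Γ ≤ Λ) (hbad : BadSet B Λ δ) (h0 : ∀ b ∈ B, 4 * δ ≤ ‖b‖)
    (h : DData X D Λ Γ u B α) : FinL X D Λ u := by
  classical
  have hN : ∀ n : ℕ, FinLN Λ Γ B n := by
    intro n
    induction n with
    | zero =>
      intro V _ _ _ X D u α h hr
      exact fin_zeroL hΛ hΓ hle hbad h0 h hr
    | succ n ih =>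
      intro V _ _ _ X D u α h hr
      obtain ⟨F, -, hF⟩ := indL_exists_finset h
      refine finLN_step hΛ hle (cls_of_bad hbad) ih F.card V X D u α h hr ⟨F, le_rfl, fun x hx => ?_⟩
      rcases hF x hx with h1 | h1
      · exact Or.inl (h1.mono_le (Nat.zero_le n))
      · exact Or.inr h1
  obtain ⟨F, hFX, hF⟩ := indL_exists_finset h
  have h1 : ∀ q : V, ∃ n, q ∈ F → RUD X D Λ u q n := by
    intro q
    by_cases hq : q ∈ F
    · obtain ⟨n, hn⟩ := exists_rud h.surf h.tor h.nonconst h.curve (hFX q hq)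
      exact ⟨n, fun _ => hn⟩
    · exact ⟨0, fun h2 => absurd h2 hq⟩
  choose n hn using h1
  refine hN (F.sup n) V X D u α h fun x hx => ?_
  rcases hF x hx with h2 | ⟨q, hq, hxq⟩
  · exact h2.mono_le (Nat.zero_le _)
  · exact ((hn q hq).mono_le (Finset.le_sup (f := n) hq)).pr h.surf h.tor h.curve hxq

end Pool.Agent.H17L
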