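import Pool.Agent.H17L.IndL
import Pool.Agent.H17L.StartLB
import Pool.Agent.H17L.BadL
import Pool.Agent.H17G.MainG

/-!
# H17L MainL: the limit sections are finite in number

`X = projVar P` a smooth projective surface, `u : X → ℂ / Λ` holomorphic, `D ⊆ X` a smooth curve, `u` constant on no open part of `X` or `D`; the non-constant entire curves in `X ∖ D` in fibres of `u` lie over finitely many points; logarithmic `2`-forms as in PNDefs.
Then there are only finitely many entire sections of `u` which are limits of sections of `X ∖ D`.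

Proof (model: `coreN_finite` in H17N/MainN.lean).  `B₁ = {b | (b : ℂ ⧸ Λ) ∈ B₀}`: invariant under `Λ`, and separated (`B₀` is finite and `Λ` discrete: `Pool.Agent.EG.separated`, or: `Pool.Agent.H17G` has lemmas on such sets).  One form `Ω` exists (`hform` is infinite), so `curve_start`; `exists_badL` gives `B`.  `FibB (cone P \ cnD D) Λ u₀ B`: let `f` be an entire curve (`HolP`) in a fibre, not
constant; `z ↦ mk (f z)` is `HolomorphicInto`, in `projVar P \ D`, `u` is constant on it, so its value is in `B₀` (`hfib`), `u₀ (f 0) ∈ B₁ ⊆ B`, and `u₀ (f 0) - u₀ (f 0) = 0 ∈ Λ`.  As in `coreN_finite` choose `c₀ ∉ B` whose class has a form (`image_finite`), `exists_delta`, `ddata_start`, `finL_of_data`, `lsec_of_finL`, `lsec_shift`.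
-/

set_option autoImplicit false

open Topology Filter MvPolynomial

namespace Pool.Agent.H17L

open Pool.Agent.H17 (PN VanishesAt HolomorphicInto ZariskiClosedIn)
open Pool.Agent.H62.FC (Homog)
open Pool.Agent.H17BP (Surface IsChart Tan Pr HolP ResN)
open Pool.Agent.H36.BP (EN)
open Pool.Agent.H62.EF (Lat)
open Pool.Agent.H62.EL (BadSet)
open Pool.Agent.H17LG.Variety (FunField)
open Pool.Agent.H17EF (projVar IsHolomorphicMap coneE uE LE mk_mem_projVar sub_mem_iff uE_eq)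
open Pool.Agent.H13.SM (cone conTan)
open Pool.Agent.H17G (IsTwoForm IsNowhereZero VanishesOver image_finite exists_delta)
open Pool.Agent.H17N (TMap LU RU TF NonConst ThinF FibB NowhereConstant)
open Pool.Agent.H18.LU (LSec)

variable {N : ℕ} {P : Ideal (MvPolynomial (Fin (N + 1)) ℂ)} [P.IsPrime] {z : Fin 2 → FunField P}

/-- a set which is the inverse image of a finite subset of `ℂ / Λ` is separated -/
private theorem MainL_sep {Λ : AddSubgroup ℂ} (hΛ : Lat Λ) {B₀ : Set (ℂ ⧸ Λ)} (hB₀ : B₀.Finite) :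
    ∃ δ : ℝ, 0 < δ ∧ ∀ b ∈ {b : ℂ | ((b : ℂ) : ℂ ⧸ Λ) ∈ B₀}, ∀ b' ∈ {b : ℂ | ((b : ℂ) : ℂ ⧸ Λ) ∈ B₀}, b ≠ b' → δ ≤ ‖b - b'‖ := by
  obtain ⟨δ, hδ, hdisc⟩ := hΛ.discrete
  refine Pool.Agent.EG.separated hΛ (fun c hc l hl => ?_) fun c => ?_
  · have h1 : ((c + l : ℂ) : ℂ ⧸ Λ) = (c : ℂ ⧸ Λ) := by
      rw [← sub_mem_iff, add_sub_cancel_left]
      exact hl
    change ((c + l : ℂ) : ℂ ⧸ Λ) ∈ B₀
    rw [h1]
    exact hc
  · set T : Set ℂ := {b : ℂ | ((b : ℂ) : ℂ ⧸ Λ) ∈ B₀} ∩ Metric.ball c (δ / 2) with hT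
    have hfin : T.Finite := by
      refine Set.Finite.of_finite_image (f := fun b : ℂ => ((b : ℂ) : ℂ ⧸ Λ)) (hB₀.subset ?_) ?_
      · rintro _ ⟨b, hb, rfl⟩
        exact hb.1
      · intro b hb b' hb' h
        have h1 : b - b' ∈ Λ := sub_mem_iff.2 h
        have h2 : ‖b - b'‖ < δ := by
          have h3 := hb.2
          have h4 := hb'.2
          rw [Metric.mem_ball] at h3 h4
          rw [← dist_eq_norm]
          have h5 := dist_triangle_right b b' c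
          linarith
        exact sub_eq_zero.1 (hdisc _ h1 h2)
    have hcl : IsClosed (T \ {c}) := (hfin.subset Set.sdiff_subset).isClosed
    obtain ⟨ε, hε, h1⟩ := Metric.isOpen_iff.1 hcl.isOpen_compl c (fun h => h.2 rfl)
    refine ⟨min ε (δ / 2), lt_min hε (half_pos hδ), fun c' hc' hlt => ?_⟩
    by_contra hne
    refine h1 (show c' ∈ Metric.ball c ε from ?_) ⟨⟨hc', ?_⟩, hne⟩
    · rw [Metric.mem_ball, dist_eq_norm]
      exact hlt.trans_le (min_le_left _ _)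
    · rw [Metric.mem_ball, dist_eq_norm]
      exact hlt.trans_le (min_le_right _ _)

/-- the value of `u` at a point of the cone -/
private theorem MainL_val {Λ : AddSubgroup ℂ} {u : PN N → ℂ ⧸ Λ} {x : Fin (N + 1) → ℂ} (hx : x ≠ 0) :
    ((uE Λ u (LE N x) : ℂ) : ℂ ⧸ Λ) = u (Projectivization.mk ℂ x hx) := by
  have h1 : (LE N).symm (LE N x) ≠ 0 := by
    rw [ContinuousLinearEquiv.symm_apply_apply]
    exact hx
  rw [uE_eq Λ u h1]
  congr 2

omit [P.IsPrime] in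
/-- the entire curves in the fibres -/
private theorem MainL_fib {Λ : AddSubgroup ℂ} {u : PN N → ℂ ⧸ Λ} {D : Set (PN N)} {B₀ : Set (ℂ ⧸ Λ)} (hP : Homog P)
    (hfib : ∀ f : ℂ → PN N, HolomorphicInto f Set.univ → (∀ z, f z ∈ projVar P \ D) → (∀ z w, u (f z) = u (f w)) → u (f 0) ∉ B₀ → ∀ z w, f z = f w)
    {B : Set ℂ} (hB : {b : ℂ | ((b : ℂ) : ℂ ⧸ Λ) ∈ B₀} ⊆ B) : FibB (cone P \ cnD D) Λ (fun x => uE Λ u (LE N x)) B := by
  intro f hf hfX hfu hfn
  have hne : ∀ z, f z ≠ 0 := fun z => (hfX z).1.1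
  set g : ℂ → PN N := fun z => Projectivization.mk ℂ (f z) (hne z) with hg
  have hgh : HolomorphicInto g Set.univ := by
    intro z₀ _
    obtain ⟨F, hF, hF0, he⟩ := hf z₀
    refine ⟨F, hF, ?_⟩
    filter_upwards [he, hF.continuousAt.eventually_ne hF0] with z h1 h2
    obtain ⟨c, hc, h3⟩ := h1
    refine ⟨h2, ?_⟩
    change Projectivization.mk ℂ (f z) (hne z) = _
    rw [Projectivization.mk_eq_mk_iff']
    exact ⟨c, h3.symm⟩
  have hval : ∀ z, ((uE Λ u (LE N (f z)) : ℂ) : ℂ ⧸ Λ) = u (g z) := fun z => MainL_val (hne z)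
  have hgu : ∀ z w, u (g z) = u (g w) := fun z w => by
    rw [← hval, ← hval]
    exact sub_mem_iff.1 (hfu z w)
  have h0 : u (g 0) ∈ B₀ := by
    by_contra hcon
    obtain ⟨z, w, hzw⟩ := hfn
    apply hzw
    have h1 := hfib g hgh (fun z => ⟨(mk_mem_projVar hP (hne z)).2 (hfX z).1, fun h => (hfX z).2 ⟨hne z, h⟩⟩) hgu hcon z w
    have h2 : Projectivization.mk ℂ (f z) (hne z) = Projectivization.mk ℂ (f w) (hne w) := h1
    rw [Projectivization.mk_eq_mk_iff'] at h2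
    obtain ⟨c, hc⟩ := h2
    refine ⟨c, ?_, hc.symm⟩
    rintro rfl
    rw [zero_smul] at hc
    exact hne z hc.symm
  refine ⟨uE Λ u (LE N (f 0)), hB ?_, ?_⟩
  · change ((uE Λ u (LE N (f 0)) : ℂ) : ℂ ⧸ Λ) ∈ B₀
    rw [hval]
    exact h0
  · change uE Λ u (LE N (f 0)) - uE Λ u (LE N (f 0)) ∈ Λ
    rw [sub_self]
    exact Λ.zero_mem

/-- **The finiteness of the limit sections.** -/
theorem lsec_finite {Λ Γ : AddSubgroup ℂ} {u : PN N → ℂ ⧸ Λ} {D : Set (PN N)} {B₀ : Set (ℂ ⧸ Λ)} (hP : Homog P) (hz : IsTranscendenceBasis ℂ z)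
    (hsm : ∀ y : Fin (N + 1) → ℂ, y ≠ 0 → (∀ Q ∈ P, eval y Q = 0) → Module.finrank ℂ (conTan P y) ≤ 3)
    (hΛ : Lat Λ) (hΓ : Lat Γ) (hle : Γ ≤ Λ) (hu : IsHolomorphicMap (projVar P) Λ u) (hnon : NowhereConstant (projVar P) u)
    (hD : ZariskiClosedIn (projVar P) D) (hDn : NowhereConstant D u) (hB₀ : B₀.Finite)
    (hfib : ∀ f : ℂ → PN N, HolomorphicInto f Set.univ → (∀ z, f z ∈ projVar P \ D) → (∀ z w, u (f z) = u (f w)) → u (f 0) ∉ B₀ → ∀ z w, f z = f w)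
    (hform : HasLogForms (projVar P) D Λ Γ u) :
    (LSec (coneE P) {x : EN N | ∃ h : (LE N).symm x ≠ 0, Projectivization.mk ℂ ((LE N).symm x) h ∈ D} Λ (uE Λ u)).Finite := by
  have hS : Surface (cone P) := Pool.Agent.H13.SM.surface_cone hP hz fun y hy => hsm y hy.1 hy.2
  -- the bad values
  obtain ⟨c', Ω', -, hlog', -, -⟩ := hform.nonempty
  have hcurve := curve_start hP hS hΛ hu hD hDn hlog'
  obtain ⟨δ₁, hδ₁, hsep₁⟩ := MainL_sep hΛ hB₀
  obtain ⟨B, hBB, hinv, ⟨δ₀, hδ₀, hsep⟩, hcrit, hgood⟩ := exists_badL hΛ hS (tmap_start hP hu) (nonconst_start hP hS hΛ hu hnon) hcurve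
    (B₀ := {b : ℂ | ((b : ℂ) : ℂ ⧸ Λ) ∈ B₀}) (fun b hb l hl => by
      have h1 : ((b + l : ℂ) : ℂ ⧸ Λ) = (b : ℂ ⧸ Λ) := by
        rw [← sub_mem_iff, add_sub_cancel_left]
        exact hl
      change ((b + l : ℂ) : ℂ ⧸ Λ) ∈ B₀
      rw [h1]
      exact hb) hδ₁ hsep₁
  have hfibB := MainL_fib (u := u) (D := D) hP hfib hBB
  -- a fibre which is not bad
  obtain ⟨c, hcform, hcB⟩ : ∃ c : ℂ ⧸ Γ, (∃ Ω, IsTwoForm (projVar P \ D) Λ Γ u Ω ∧ IsLogAlong (projVar P) D Λ u Ω ∧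
      IsNowhereZero (projVar P \ D) Λ u Ω ∧ ∀ z : ℂ, (z : ℂ ⧸ Γ) = c → VanishesOver (projVar P \ D) Λ u Ω z) ∧
      c ∉ (fun b : ℂ => (b : ℂ ⧸ Γ)) '' B := by
    have h1 := image_finite hΓ (fun b hb l hl => hinv b hb l (hle hl)) hδ₀ hsep
    obtain ⟨c, hc, hcB⟩ := hform.exists_notMem_finite h1
    exact ⟨c, hc, hcB⟩
  obtain ⟨Ω, hΩ, hlog, hnz, hvan⟩ := hcform
  obtain ⟨c₀, rfl⟩ := QuotientAddGroup.mk_surjective c
  have hc₀ : c₀ ∉ B := fun h => hcB ⟨c₀, h, rfl⟩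
  -- translation
  obtain ⟨δ, hbad, hδ⟩ := exists_delta (Λ := Λ) (B := {b | b + c₀ ∈ B}) hδ₀
    (fun b hb l hl => by
      show b + l + c₀ ∈ B
      rw [add_right_comm]
      exact hinv _ hb l hl)
    (fun b hb b' hb' hne => by
      have := hsep _ hb _ hb' fun h => hne (add_right_cancel h)
      rwa [add_sub_add_right_eq_sub] at this)
    (by
      show ¬ (0 + c₀ ∈ B)
      rwa [zero_add])
  have hdd := ddata_start hP hS hΛ hu hnon hD hDn hΩ hlog hnz (hvan c₀ rfl) hinv hcrit hgood hfibB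
  have hF := finL_of_data hΛ hΓ hle hbad hδ hdd
  exact lsec_shift c₀ (lsec_of_finL hS (w := fun x => uE Λ u x - c₀) hF)

end Pool.Agent.H17L
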