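import Pool.Agent.H17N.PNDefs

/-!
# H17L PNDefs: logarithmic `2`-forms on a surface over an elliptic curve, definitions
-/

set_option autoImplicit false

open Topology Filter

namespace Pool.Agent.H17L

open Pool.Agent.H17 (PN)
open Pool.Agent.H17G (Over IsTwoForm IsNowhereZero VanishesOver)

variable {N : ℕ}

/-- `σ` is a parametrisation of a neighbourhood of the point `x` of the surface `X` by holomorphic coordinates `s, t`, with the inverse `τ` (in homogeneous coordinates),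
and `D` is given by the equation `t = 0`. -/
structure IsAdaptedChart (X D : Set (PN N)) (x : PN N) (σ : ℂ × ℂ → Fin (N + 1) → ℂ) (τ : (Fin (N + 1) → ℂ) → ℂ × ℂ) : Prop where
  analytic : AnalyticAt ℂ σ 0
  analytic_inv : AnalyticAt ℂ τ (σ 0)
  center : ∃ h : σ 0 ≠ 0, Projectivization.mk ℂ (σ 0) h = x
  left : ∀ᶠ p in 𝓝 (0 : ℂ × ℂ), τ (σ p) = p
  right : ∀ᶠ y in 𝓝 (σ 0), ∀ hy : y ≠ 0, Projectivization.mk ℂ y hy ∈ X → ∃ a : ℂ, a ≠ 0 ∧ y = a • σ (τ y)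
  homogeneous : ∀ᶠ p in 𝓝 (σ 0, (1 : ℂ)), τ (p.2 • p.1) = τ p.1
  mem : ∀ᶠ p in 𝓝 (0 : ℂ × ℂ), ∃ h : σ p ≠ 0, Projectivization.mk ℂ (σ p) h ∈ X ∧ (Projectivization.mk ℂ (σ p) h ∈ D ↔ p.2 = 0)

/-- The curve `D` in the surface `X` is smooth, and the `2`-form `Ω` has at most logarithmic poles along `D`: near every point of `D` there are holomorphic coordinates
`s, t` of `X` with `D = {t = 0}` in which `Ω` is `(g / t) ds ∧ dt`, `g` holomorphic. -/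
def IsLogAlong (X D : Set (PN N)) (Λ : AddSubgroup ℂ) (u : PN N → ℂ ⧸ Λ)
    (Ω : ℂ → (Fin (N + 1) → ℂ) → (Fin (N + 1) → ℂ) → (Fin (N + 1) → ℂ) → ℂ) : Prop :=
  ∀ x ∈ D, ∃ (σ : ℂ × ℂ → Fin (N + 1) → ℂ) (τ : (Fin (N + 1) → ℂ) → ℂ × ℂ), IsAdaptedChart X D x σ τ ∧
    ∀ υ : ℂ × ℂ → ℂ, AnalyticAt ℂ υ 0 → (∀ᶠ p in 𝓝 (0 : ℂ × ℂ), Over X Λ u (υ p) (σ p)) →
      ∃ g : ℂ × ℂ → ℂ, AnalyticAt ℂ g 0 ∧ ∀ᶠ p in 𝓝 (0 : ℂ × ℂ), p.2 ≠ 0 →
        p.2 * Ω (υ p) (σ p) (fderiv ℂ σ p (1, 0)) (fderiv ℂ σ p (0, 1)) = g p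

/-- For infinitely many points `c` of `ℂ / Γ` there is a holomorphic `2`-form on the surface `{(x, c') ∈ (X ∖ D) × ℂ / Γ : u x = c' mod Λ}` with at most
logarithmic poles along (the inverse image of) `D` which is `0` at all points over `c`, but on no nonempty open set. -/
def HasLogForms (X D : Set (PN N)) (Λ Γ : AddSubgroup ℂ) (u : PN N → ℂ ⧸ Λ) : Prop :=
  {c : ℂ ⧸ Γ | ∃ Ω, IsTwoForm (X \ D) Λ Γ u Ω ∧ IsLogAlong X D Λ u Ω ∧ IsNowhereZero (X \ D) Λ u Ω ∧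
    ∀ z : ℂ, (z : ℂ ⧸ Γ) = c → VanishesOver (X \ D) Λ u Ω z}.Infinite

end Pool.Agent.H17L
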