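import Pool.Agent.H17L.ResD
import Pool.Agent.H17L.PNDefs
import Pool.Agent.H17N.Start

/-!
# H17L StartLA: the geometric data of a projective surface with a curve

Model: H17N/Start.lean (`st_tmap`, `st_over`, `st_mem`, `st_tan`, the part `nonconst` of `udata_start`, private: copy).  `u₀ x = uE Λ u (LE N x)`.

* `tmap_start`: `st_tmap` with `c₀ = 0`.  `nonconst_start`: the part `nonconst` of `udata_start`.
* `curve_start`: `sub`: `ZariskiClosedIn` gives `D ⊆ projVar P`; `mk_mem_projVar`.  `smul`: `mk (c • x) = mk x`.  `closed`: `x ∈ cone P`, its point is not in `D`, so by `ZariskiClosedIn` some homogeneous polynomial which vanishes on `D` does not vanish at `x`, hence not near `x`.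
  `smooth`: `x ∈ cnD D`; `IsLogAlong` gives an adapted chart `σ, τ` at the point of `x`, `x = c • σ 0`; take `c • σ` and `y ↦ τ (c⁻¹ • y)` (`IsChart.scale`; the fields of `IsChart` from those of `IsAdaptedChart`, `mk_mem_projVar`), `AD` from `mem`; `g` from `exists_lu` (H17N/ResU).  If `g (s, 0) = 0` for `s` near `0` then `u` is constant on `D` near the point of `x` (the points of `D` near it are the points of
  `σ (s, 0)`, by `right`, `mem`; `u₀ (σ (s, 0)) - u₀ (σ 0) ∈ Λ`), contradiction to `NowhereConstant D u`.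
-/

set_option autoImplicit false

open Topology Filter MvPolynomial

namespace Pool.Agent.H17L

open Pool.Agent.H17 (PN VanishesAt HolomorphicInto ZariskiClosedIn)
open Pool.Agent.H62.FC (Homog)
open Pool.Agent.H17BP (Surface IsChart Tan Pr HolP ResN)
open Pool.Agent.H36.BP (EN)
open Pool.Agent.H62.EF (Lat)
open Pool.Agent.H17EF (projVar IsHolomorphicMap coneE uE LE mk_mem_projVar sub_mem_iff uE_eq)
open Pool.Agent.H13.SM (cone)
open Pool.Agent.H17G (IsTwoForm IsNowhereZero VanishesOver)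
open Pool.Agent.H17N (TMap LU RU TF NonConst ThinF FibB NowhereConstant)

/-- the cone over a subset of the projective space -/
def cnD {N : ℕ} (D : Set (PN N)) : Set (Fin (N + 1) → ℂ) := {x | ∃ h : x ≠ 0, Projectivization.mk ℂ x h ∈ D}

variable {N : ℕ} {P : Ideal (MvPolynomial (Fin (N + 1)) ℂ)} {Λ : AddSubgroup ℂ} {u : PN N → ℂ ⧸ Λ} {D : Set (PN N)}

private theorem sla_mem {x : Fin (N + 1) → ℂ} : LE N x ∈ coneE P ↔ x ∈ cone P := by
  show (LE N).symm (LE N x) ∈ cone P ↔ _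
  rw [ContinuousLinearEquiv.symm_apply_apply]

private theorem sla_tau {V : Type} [NormedAddCommGroup V] [NormedSpace ℂ V] {X : Set V} {σ : ℂ × ℂ → V} {τ : V → ℂ × ℂ} (h : IsChart X σ τ) :
    Tendsto τ (𝓝 (σ 0)) (𝓝 0) := by
  have h1 := h.τ_an.continuousAt.tendsto
  rwa [h.left.self_of_nhds] at h1

private theorem sla_eval {Q : MvPolynomial (Fin (N + 1)) ℂ} {n : ℕ} (hQ : Q.IsHomogeneous n) (a : ℂ) (x : Fin (N + 1) → ℂ) :
    eval (a • x) Q = a ^ n * eval x Q := by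
  rw [eval_eq, eval_eq, Finset.mul_sum]
  refine Finset.sum_congr rfl fun d hd => ?_
  have h1 : ∑ i ∈ d.support, d i = n := by
    have h2 := hQ (mem_support_iff.1 hd)
    rw [← h2, Finsupp.weight_apply, Finsupp.sum]
    simp
  have h2 : ∏ i ∈ d.support, (a • x) i ^ d i = a ^ n * ∏ i ∈ d.support, x i ^ d i := by
    rw [← h1, ← Finset.prod_pow_eq_pow_sum, ← Finset.prod_mul_distrib]
    refine Finset.prod_congr rfl fun i _ => ?_
    rw [Pi.smul_apply, smul_eq_mul, mul_pow]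
  rw [h2]
  ring

private theorem sla_val {X : Set (Fin (N + 1) → ℂ)} {u₀ : (Fin (N + 1) → ℂ) → ℂ} (hT : TMap X Λ u₀) {σ : ℂ × ℂ → Fin (N + 1) → ℂ}
    {g : ℂ × ℂ → ℂ} {p : ℂ × ℂ} {y : Fin (N + 1) → ℂ} {c : ℂ} (h4 : σ p ∈ X) (hc0 : c ≠ 0) (h5 : y = c • σ p)
    (h2 : u₀ (σ p) - u₀ (σ 0) - g p ∈ Λ) (h3 : g p = 0) : u₀ y - u₀ (σ 0) ∈ Λ := by
  have h7 := hT.smul _ h4 c hc0
  rw [← h5] at h7
  rw [h3] at h2
  have h8 := Λ.add_mem h7 h2
  have h9 : u₀ y - u₀ (σ 0) = u₀ y - u₀ (σ p) + (u₀ (σ p) - u₀ (σ 0) - 0) := by ring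
  rw [h9]
  exact h8

private theorem sla_eq {x y : Fin (N + 1) → ℂ} (hy : y ≠ 0) (hx : x ≠ 0) (h6 : uE Λ u (LE N y) - uE Λ u (LE N x) ∈ Λ) :
    u (Projectivization.mk ℂ y hy) = u (Projectivization.mk ℂ x hx) := by
  have hL1 : (LE N).symm (LE N y) ≠ 0 := by rw [ContinuousLinearEquiv.symm_apply_apply]; exact hy
  have hL2 : (LE N).symm (LE N x) ≠ 0 := by rw [ContinuousLinearEquiv.symm_apply_apply]; exact hx
  rw [sub_mem_iff, uE_eq Λ u hL1, uE_eq Λ u hL2] at h6
  simpa only [ContinuousLinearEquiv.symm_apply_apply] using h6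

theorem tmap_start (hP : Homog P) (hu : IsHolomorphicMap (projVar P) Λ u) : TMap (cone P) Λ (fun x => uE Λ u (LE N x)) := by
  have hT := Pool.Agent.H17EF.torusMap hP hu
  constructor
  · intro x hx c hc
    have h1 := hT.smul (LE N x) (sla_mem.2 hx) c hc
    rw [← map_smul] at h1
    exact h1
  · intro x hx
    obtain ⟨v, hv, hv'⟩ := hT.loc (LE N x) (sla_mem.2 hx)
    have hL : AnalyticAt ℂ (fun y : Fin (N + 1) → ℂ => LE N y) x := (LE N : (Fin (N + 1) → ℂ) →L[ℂ] EN N).analyticAt x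
    refine ⟨fun y => v (LE N y), AnalyticAt.fun_comp (g := v) hv hL, ?_⟩
    filter_upwards [hL.continuousAt.tendsto.eventually hv'] with y hy hyX
    exact hy (sla_mem.2 hyX)

theorem nonconst_start (hP : Homog P) (hS : Surface (cone P)) (hΛ : Lat Λ) (hu : IsHolomorphicMap (projVar P) Λ u)
    (hnon : NowhereConstant (projVar P) u) : NonConst (cone P) Λ (fun x => uE Λ u (LE N x)) := by
  have hT := tmap_start hP hu
  intro σ τ g hc hg hg0
  have hx : σ 0 ∈ cone P := hc.σ_mem.self_of_nhds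
  refine (hnon (σ 0) hx.1 ((mk_mem_projVar hP hx.1).2 hx)) ?_
  filter_upwards [hc.right, (sla_tau hc).eventually hg.2.2, (sla_tau hc).eventually hg0, (sla_tau hc).eventually hc.σ_mem] with y h1 h2 h3 h4
  rintro ⟨hy, hyX, hne⟩
  apply hne
  have hyc : y ∈ cone P := (mk_mem_projVar hP hy).1 hyX
  obtain ⟨c, hc0, h5⟩ := h1 hyc
  have h6 := sla_val hT h4 hc0 h5 h2 h3
  exact sla_eq hy hx.1 h6

theorem curve_start (hP : Homog P) (hS : Surface (cone P)) (hΛ : Lat Λ) (hu : IsHolomorphicMap (projVar P) Λ u) (hD : ZariskiClosedIn (projVar P) D)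
    (hDn : NowhereConstant D u) {Ω : ℂ → (Fin (N + 1) → ℂ) → (Fin (N + 1) → ℂ) → (Fin (N + 1) → ℂ) → ℂ} (hlog : IsLogAlong (projVar P) D Λ u Ω) :
    CurveD (cone P) (cnD D) Λ (fun x => uE Λ u (LE N x)) := by
  have hT := tmap_start hP hu
  have hsub : D ⊆ projVar P := by
    obtain ⟨S, -, rfl⟩ := hD
    exact fun x hx => hx.1
  have hsm : ∀ x ∈ cnD D, ∀ c : ℂ, c ≠ 0 → c • x ∈ cnD D := by
    rintro x ⟨hx, hxD⟩ c hc
    refine ⟨smul_ne_zero hc hx, ?_⟩
    have h1 : Projectivization.mk ℂ (c • x) (smul_ne_zero hc hx) = Projectivization.mk ℂ x hx := by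
      rw [Projectivization.mk_eq_mk_iff']
      exact ⟨c, rfl⟩
    rw [h1]
    exact hxD
  refine ⟨?_, hsm, ?_, ?_⟩
  · rintro x ⟨hx, hxD⟩
    exact (mk_mem_projVar hP hx).1 (hsub hxD)
  · -- closed
    intro x hx hxD
    obtain ⟨S, hS', rfl⟩ := hD
    have h1 : ∃ Q ∈ S, ¬ VanishesAt Q (Projectivization.mk ℂ x hx.1) := by
      by_contra hcon
      push Not at hcon
      exact hxD ⟨hx.1, (mk_mem_projVar hP hx.1).2 hx, hcon⟩
    obtain ⟨Q, hQ, hQv⟩ := h1
    obtain ⟨n, hn⟩ := hS' Q hQ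
    have h2 : ∀ (y : Fin (N + 1) → ℂ) (hy : y ≠ 0), VanishesAt Q (Projectivization.mk ℂ y hy) ↔ eval y Q = 0 := by
      intro y hy
      obtain ⟨a, ha, hrep⟩ := Pool.Agent.H36.BP.rep_mk hy
      unfold VanishesAt
      rw [hrep, sla_eval hn, mul_eq_zero, or_iff_right (pow_ne_zero n ha)]
    have h3 : eval x Q ≠ 0 := fun h => hQv ((h2 x hx.1).2 h)
    have h4 : Continuous fun y : Fin (N + 1) → ℂ => eval y Q := MvPolynomial.continuous_eval Q
    filter_upwards [h4.continuousAt.eventually_ne h3] with y hy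
    rintro ⟨hy0, -, hyv⟩
    exact hy ((h2 y hy0).1 (hyv Q hQ))
  · -- smooth
    rintro x ⟨hx, hxD⟩
    obtain ⟨σ, τ, hA, -⟩ := hlog _ hxD
    obtain ⟨hσ0, hcen⟩ := hA.center
    obtain ⟨c, hc⟩ : ∃ c : ℂ, c • σ 0 = x := by
      rw [eq_comm, Projectivization.mk_eq_mk_iff'] at hcen
      exact hcen
    have hc0 : c ≠ 0 := by
      rintro rfl
      rw [zero_smul] at hc
      exact hx hc.symm
    have hch0 : IsChart (cone P) σ τ := by
      refine ⟨hA.analytic, ?_, hσ0, hA.analytic_inv, hA.left, ?_, hA.homogeneous⟩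
      · filter_upwards [hA.mem] with p hp
        obtain ⟨h1, h2, -⟩ := hp
        exact (mk_mem_projVar hP h1).1 h2
      · filter_upwards [hA.right] with y hy hyX
        exact hy hyX.1 ((mk_mem_projVar hP hyX.1).2 hyX)
    have hch := hch0.scale hS.smul hc0
    have hAD : AD (cnD D) (fun p => c • σ p) := by
      unfold AD
      filter_upwards [hA.mem] with p hp
      obtain ⟨h1, h2, h3⟩ := hp
      rw [← h3]
      constructor
      · intro h4
        obtain ⟨h5, h6⟩ := hsm _ h4 c⁻¹ (inv_ne_zero hc0)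
        have h7 : Projectivization.mk ℂ (c⁻¹ • c • σ p) h5 = Projectivization.mk ℂ (σ p) h1 := by
          rw [Projectivization.mk_eq_mk_iff']
          exact ⟨c⁻¹ * c, by rw [smul_smul]⟩
        rw [h7] at h6
        exact h6
      · intro h4
        exact hsm _ ⟨h1, h4⟩ c hc0
    obtain ⟨g, hg⟩ := Pool.Agent.H17N.exists_lu hT hch
    refine ⟨fun p => c • σ p, fun y => τ (c⁻¹ • y), g, hch, hc, hAD, hg, ?_⟩
    intro hg0
    -- the map is constant on `D` near `x`
    obtain ⟨σ', hσ'⟩ : ∃ σ' : ℂ × ℂ → Fin (N + 1) → ℂ, σ' = fun p => c • σ p := ⟨_, rfl⟩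
    obtain ⟨τ', hτ'⟩ : ∃ τ' : (Fin (N + 1) → ℂ) → ℂ × ℂ, τ' = fun y => τ (c⁻¹ • y) := ⟨_, rfl⟩
    rw [← hσ', ← hτ'] at hch
    rw [← hσ'] at hAD hg
    have hx' : σ' 0 = x := by rw [hσ']; exact hc
    have hfst : Tendsto (fun p : ℂ × ℂ => p.1) (𝓝 0) (𝓝 0) := by
      have h1 : ContinuousAt (fun p : ℂ × ℂ => p.1) 0 := continuousAt_fst
      exact h1.tendsto
    have hxc : σ' 0 ∈ cone P := hch.σ_mem.self_of_nhds
    refine (hDn x hx hxD) ?_
    have hr := hch.right
    have ht := sla_tau hch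
    rw [hx'] at hr ht
    filter_upwards [hr, ht.eventually hg.2.2, ht.eventually (hfst.eventually hg0), ht.eventually hch.σ_mem, ht.eventually hAD] with y h1 h2 h3 h4 h5
    rintro ⟨hy, hyD, hne⟩
    apply hne
    have hyc : y ∈ cone P := (mk_mem_projVar hP hy).1 (hsub hyD)
    obtain ⟨a, ha0, h6⟩ := h1 hyc
    have h7 : σ' (τ' y) ∈ cnD D := by
      have h8 := hsm y ⟨hy, hyD⟩ a⁻¹ (inv_ne_zero ha0)
      have h9 : a⁻¹ • y = σ' (τ' y) := by
        conv_lhs => rw [h6]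
        rw [smul_smul, inv_mul_cancel₀ ha0, one_smul]
      rwa [h9] at h8
    have h8 : (τ' y).2 = 0 := h5.1 h7
    have h9 : g (τ' y) = 0 := by
      have h10 : τ' y = ((τ' y).1, 0) := Prod.ext rfl h8
      rw [h10]
      exact h3
    have h10 := sla_val hT h4 ha0 h6 h2 h9
    rw [hx'] at h10
    exact sla_eq hy hx h10

end Pool.Agent.H17L
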